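import Pool.Agent.HQT.Defs
import Pool.Agent.HQ.ArcEx

/-! HQT (growth exponent 3, MP_7da5c3_an), file ArcIn: existence of the arc (structure Arc) -/

set_option autoImplicit false

open Complex Metric Set Filter Topology MeasureTheory
open scoped ComplexConjugate Real

namespace Pool.Agent.HQT

open Pool.Agent.HQ

variable {A B : ℂ → ℂ}

/-- THE TWO-SIDED ARC.
Proof. The proof of `Pool.Agent.HQ.exists_arc` (file HQ/ArcEx.lean), copied: the two pieces given by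
`exists_lift_exit`, `exists_lift_exit'` with `T = 4π` are in `U` on the half-open intervals, so
`z θ ∈ U` for `θ ∈ Ioo α β` (at `θ₀` the point is `r₀ ∈ U`). -/
theorem exists_Arc (h : HPair A B) (h0 : A 0 = 0) {t r₀ : ℝ}
    (ht : ‖deriv A 0‖ < t) (hr₀ : r₀ ∈ Ioo (0 : ℝ) 1)
    (hfirst : ∀ r ∈ Ico (0 : ℝ) r₀, ‖A r‖ < t) (heq : ‖A r₀‖ = t) {U : Set ℂ} (hU : Dom U)
    (hX : ∀ x ∈ Icc (0 : ℝ) r₀, (x : ℂ) ∈ U) :
    ∃ α β θ₀ : ℝ, ∃ z : ℝ → ℂ, Arc A B U t α β θ₀ r₀ z := by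
  classical
  have hrU : (r₀ : ℂ) ∈ U := hX r₀ ⟨hr₀.1.le, le_rfl⟩
  have ht0 : 0 < t := (norm_nonneg _).trans_lt ht
  have hπ : 0 < 4 * π := by positivity
  have hA : DifferentiableOn ℂ A (ball 0 1) :=
    (h.anA.mono ball_subset_closedBall).differentiableOn
  have hA' : ∀ z ∈ ball (0 : ℂ) 1, deriv A z ≠ 0 := fun z hz =>
    h.deriv_ne (ball_subset_closedBall hz)
  set θ₀ : ℝ := arg (A r₀) with hθ₀
  have hAr : A r₀ = t * exp (θ₀ * I) := by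
    rw [← heq, hθ₀, norm_mul_exp_arg_mul_I]
  obtain ⟨β, hβ, z₂, hz₂, hz₂0, hz₂U, hz₂e⟩ :=
    exists_lift_exit hA hA' hU.opn hU.cpt hU.sub ht0 hπ hrU hAr
  obtain ⟨α, hα, z₁, hz₁, hz₁0, hz₁U, hz₁e⟩ :=
    exists_lift_exit' hA hA' hU.opn hU.cpt hU.sub ht0 hπ hrU hAr
  obtain ⟨z, hleft, hright⟩ : ∃ z : ℝ → ℂ, (∀ θ, θ ≤ θ₀ → z θ = z₁ θ) ∧
      ∀ θ, θ₀ ≤ θ → z θ = z₂ θ := by
    refine ⟨fun θ => if θ ≤ θ₀ then z₁ θ else z₂ θ, fun θ hθ => if_pos hθ, ?_⟩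
    intro θ hθ
    rcases hθ.eq_or_lt with h1 | h1
    · show (if θ ≤ θ₀ then z₁ θ else z₂ θ) = z₂ θ
      rw [← h1, if_pos le_rfl, hz₁0, hz₂0]
    · exact if_neg (not_le.2 h1)
  have hcont : ContinuousOn z (Icc α β) := by
    have h1 : ContinuousOn z (Icc α θ₀) := hz₁.cont.congr fun θ hθ => hleft θ hθ.2
    have h2 : ContinuousOn z (Icc θ₀ β) := hz₂.cont.congr fun θ hθ => hright θ hθ.1
    have h3 := h1.union_of_isClosed h2 isClosed_Icc isClosed_Icc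
    rwa [Icc_union_Icc_eq_Icc hα.2.le hβ.1.le] at h3
  have hlift : IsLift A t α β z := by
    refine ⟨hcont, fun θ hθ => ?_, fun θ hθ => ?_⟩
    · rcases le_total θ θ₀ with h1 | h1
      · rw [hleft θ h1]
        exact hz₁.mem θ ⟨hθ.1, h1⟩
      · rw [hright θ h1]
        exact hz₂.mem θ ⟨h1, hθ.2⟩
    · rcases le_total θ θ₀ with h1 | h1
      · rw [hleft θ h1]
        exact hz₁.eq θ ⟨hθ.1, h1⟩
      · rw [hright θ h1]
        exact hz₂.eq θ ⟨h1, hθ.2⟩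
  have hzr : z θ₀ = r₀ := (hleft θ₀ le_rfl).trans hz₁0
  have hmem : θ₀ ∈ Icc α β := ⟨hα.2.le, hβ.1.le⟩
  have hlen : β - α < 4 * π := arc_len h h0 ht hr₀ hfirst hlift hmem hzr
  refine ⟨α, β, θ₀, z, ⟨h, h0, hU, ht, hr₀, hX, hfirst, heq, hα.2, hβ.1, hlen, hlift, hzr,
    ?_, ?_, ?_, arc_injOn h h0 ht hr₀ hfirst hlift hmem hzr hlen⟩⟩
  · intro θ hθ
    rcases le_total θ θ₀ with h1 | h1
    · rw [hleft θ h1]
      exact hz₁U θ ⟨hθ.1, h1⟩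
    · rw [hright θ h1]
      exact hz₂U θ ⟨h1, hθ.2⟩
  · rw [hleft α hα.2.le]
    rcases hz₁e with h2 | h2
    · exfalso
      have := hβ.1
      linarith
    · exact h2
  · rw [hright β hβ.1.le]
    rcases hz₂e with h2 | h2
    · exfalso
      have := hα.2
      linarith
    · exact h2

end Pool.Agent.HQT
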