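import Pool.Agent.HQ.Thick
import Pool.Agent.HQ.AreaHolo

/-! HQT, file AreaS: length-area estimate for a thin strip along an arc, general form. -/

set_option autoImplicit false

open Complex Metric Set Filter Topology MeasureTheory
open scoped ComplexConjugate Real

namespace Pool.Agent.HQT

open Pool.Agent.HQ

private theorem isOpen_rect_AreaS (σ α β : ℝ) : IsOpen (rectNhd σ α β) := by
  have h1 : IsOpen {ω : ℂ | |ω.re| < σ} := isOpen_lt continuous_re.abs continuous_const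
  have h2 : IsOpen {ω : ℂ | α - σ < ω.im} := isOpen_lt continuous_const continuous_im
  have h3 : IsOpen {ω : ℂ | ω.im < β + σ} := isOpen_lt continuous_im continuous_const
  exact h1.inter (h2.inter h3)

private theorem mem_rect_AreaS {σ₀ α β s θ : ℝ} (hs : |s| < σ₀) (h1 : α ≤ θ) (h2 : θ ≤ β) :
    ((s : ℂ) + θ * I) ∈ rectNhd σ₀ α β := by
  have h0 : 0 < σ₀ := (abs_nonneg s).trans_lt hs
  have e1 : ((s : ℂ) + θ * I).re = s := by simp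
  have e2 : ((s : ℂ) + θ * I).im = θ := by simp
  refine ⟨?_, ?_, ?_⟩
  · rw [e1]; exact hs
  · rw [e2]; linarith
  · rw [e2]; linarith

private theorem vert_AreaS {g : ℂ → ℂ} {U : Set ℂ} (hU : IsOpen U) (hg : DifferentiableOn ℂ g U)
    {s θ : ℝ} (h : ((s : ℂ) + θ * I) ∈ U) :
    HasDerivAt (fun t : ℝ => g ((s : ℂ) + t * I)) (deriv g ((s : ℂ) + θ * I) * I) θ := by
  have h1 : HasDerivAt g (deriv g ((s : ℂ) + θ * I)) ((s : ℂ) + θ * I) :=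
    (hg.differentiableAt (hU.mem_nhds h)).hasDerivAt
  have h2 : HasDerivAt (fun t : ℂ => (s : ℂ) + t * I) I (θ : ℂ) := by
    simpa using ((hasDerivAt_id (θ : ℂ)).mul_const I).const_add (s : ℂ)
  exact (HasDerivAt.comp (θ : ℂ) h1 h2).comp_ofReal

private theorem contd_AreaS {g : ℂ → ℂ} {U : Set ℂ} (hU : IsOpen U) (hg : DifferentiableOn ℂ g U)
    {s a b : ℝ} (h : ∀ θ ∈ Icc a b, ((s : ℂ) + θ * I) ∈ U) :
    ContinuousOn (fun θ : ℝ => deriv g ((s : ℂ) + θ * I)) (Icc a b) := by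
  refine (hg.deriv hU).continuousOn.comp (t := U) ?_ h
  fun_prop

private theorem len_AreaS {g : ℂ → ℂ} {U : Set ℂ} (hU : IsOpen U) (hg : DifferentiableOn ℂ g U)
    {s a b : ℝ} (hab : a ≤ b) (h : ∀ θ ∈ Icc a b, ((s : ℂ) + θ * I) ∈ U) :
    ‖g ((s : ℂ) + b * I) - g ((s : ℂ) + a * I)‖ ≤
      ∫ θ in a..b, ‖deriv g ((s : ℂ) + θ * I)‖ := by
  have hc := contd_AreaS hU hg h
  have h1 := intervalIntegral.integral_eq_sub_of_hasDerivAt (a := a) (b := b)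
    (f := fun t : ℝ => g ((s : ℂ) + t * I)) (f' := fun θ => deriv g ((s : ℂ) + θ * I) * I)
    (fun θ hθ => vert_AreaS hU hg (h θ (by rwa [uIcc_of_le hab] at hθ)))
    ((hc.mul continuousOn_const).intervalIntegrable_of_Icc hab)
  rw [← h1]
  refine (intervalIntegral.norm_integral_le_integral_norm hab).trans (le_of_eq ?_)
  refine intervalIntegral.integral_congr fun θ _ => ?_
  show ‖deriv g ((s : ℂ) + θ * I) * I‖ = ‖deriv g ((s : ℂ) + θ * I)‖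
  rw [norm_mul, norm_I, mul_one]

private theorem cs_AreaS {f : ℝ → ℝ} {a b : ℝ} (hab : a < b) (hf : ContinuousOn f (Icc a b)) :
    (∫ θ in a..b, f θ) ^ 2 ≤ (b - a) * ∫ θ in a..b, f θ ^ 2 := by
  have hi1 : IntervalIntegrable f volume a b := hf.intervalIntegrable_of_Icc hab.le
  have hi2 : IntervalIntegrable (fun θ => f θ ^ 2) volume a b :=
    (hf.pow 2).intervalIntegrable_of_Icc hab.le
  have h0 : 0 < b - a := by linarith
  generalize hM : ∫ θ in a..b, f θ = M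
  generalize hQ : ∫ θ in a..b, f θ ^ 2 = Q
  have h1 : 0 ≤ ∫ θ in a..b, (f θ - M / (b - a)) ^ 2 :=
    intervalIntegral.integral_nonneg hab.le fun θ _ => sq_nonneg _
  have h2 : ∫ θ in a..b, (f θ - M / (b - a)) ^ 2 =
      Q - 2 * (M / (b - a)) * M + (M / (b - a)) ^ 2 * (b - a) := by
    have e : ∀ θ, (f θ - M / (b - a)) ^ 2 =
        f θ ^ 2 - 2 * (M / (b - a)) * f θ + (M / (b - a)) ^ 2 := fun θ => by ring
    simp only [e]
    rw [intervalIntegral.integral_add (hi2.sub (hi1.const_mul _)) intervalIntegrable_const,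
      intervalIntegral.integral_sub hi2 (hi1.const_mul _),
      intervalIntegral.integral_const_mul, intervalIntegral.integral_const, hM, hQ, smul_eq_mul,
      mul_comm (b - a)]
  rw [h2] at h1
  have h3 : M / (b - a) * (b - a) = M := div_mul_cancel₀ M h0.ne'
  have h4 : 0 ≤ (b - a) * (Q - 2 * (M / (b - a)) * M + (M / (b - a)) ^ 2 * (b - a)) :=
    mul_nonneg h0.le h1
  generalize M / (b - a) = c at h3 h4
  nlinarith

private theorem tonelli_AreaS {f : ℂ → ENNReal} (hf : Measurable f) (σ α β : ℝ) :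
    ∫⁻ x in {ω : ℂ | 0 < ω.re ∧ ω.re < σ ∧ α < ω.im ∧ ω.im < β}, f x =
      ∫⁻ s in Ioo 0 σ, ∫⁻ θ in Ioo α β, f ((s : ℂ) + θ * I) := by
  have h1 := (Complex.volume_preserving_equiv_real_prod.symm).setLIntegral_comp_preimage_emb
    Complex.measurableEquivRealProd.symm.measurableEmbedding f
    {ω : ℂ | 0 < ω.re ∧ ω.re < σ ∧ α < ω.im ∧ ω.im < β}
  rw [← h1]
  have h2 : (Complex.measurableEquivRealProd.symm : ℝ × ℝ → ℂ) ⁻¹'
      {ω : ℂ | 0 < ω.re ∧ ω.re < σ ∧ α < ω.im ∧ ω.im < β} = Ioo 0 σ ×ˢ Ioo α β := by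
    ext p
    constructor
    · rintro ⟨a, b, c, d⟩
      exact ⟨⟨a, b⟩, ⟨c, d⟩⟩
    · rintro ⟨⟨a, b⟩, ⟨c, d⟩⟩
      exact ⟨a, b, c, d⟩
  rw [h2, Measure.volume_eq_prod, ← Measure.prod_restrict, lintegral_prod]
  · refine lintegral_congr fun s => lintegral_congr fun θ => ?_
    congr 1
    apply Complex.ext
    · simp
    · simp
  · exact (hf.comp Complex.measurableEquivRealProd.symm.measurable).aemeasurable

/-- LENGTH-AREA FOR THIN STRIPS, side `Re > 0`. -/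
theorem area_pos {g : ℂ → ℂ} {σ₀ α β θ₀ l : ℝ} (hσ₀ : 0 < σ₀) (hαβ : α < β)
    (hθ₀ : θ₀ ∈ Icc α β) (hg : DifferentiableOn ℂ g (rectNhd σ₀ α β))
    (hinj : InjOn g {ω | |ω.re| < σ₀ ∧ α ≤ ω.im ∧ ω.im ≤ β}) (hl : 0 ≤ l)
    (h1 : l ≤ ‖g (α * I) - g (θ₀ * I)‖ + ‖g (β * I) - g (θ₀ * I)‖) {ε : ℝ}
    (hε : 0 < ε) :
    ∃ σ₁ > 0, σ₁ ≤ σ₀ ∧ ∀ σ ∈ Ioo 0 σ₁, ENNReal.ofReal (σ * (l ^ 2 / (β - α) - ε)) ≤
      volume (g '' {ω | 0 < ω.re ∧ ω.re < σ ∧ α < ω.im ∧ ω.im < β}) := by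
  have hU := isOpen_rect_AreaS σ₀ α β
  have hπ := Real.pi_pos
  have hD : 0 < β - α := by linarith
  have hα := hθ₀.1
  have hβ := hθ₀.2
  have hcg : ∀ θ ∈ Icc α β, ContinuousAt (fun s : ℝ => g ((s : ℂ) + θ * I)) 0 := by
    intro θ hθ
    have h3 : ((((0 : ℝ) : ℝ) : ℂ) + θ * I) ∈ rectNhd σ₀ α β :=
      mem_rect_AreaS (by rwa [abs_zero]) hθ.1 hθ.2
    have h4 : ContinuousAt g ((((0 : ℝ) : ℝ) : ℂ) + θ * I) :=
      (hg.differentiableAt (hU.mem_nhds h3)).continuousAt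
    exact ContinuousAt.comp (f := fun s : ℝ => (s : ℂ) + θ * I) h4 (by fun_prop)
  have hL : ContinuousAt (fun s : ℝ => (‖g ((s : ℂ) + β * I) - g ((s : ℂ) + θ₀ * I)‖ +
      ‖g ((s : ℂ) + θ₀ * I) - g ((s : ℂ) + α * I)‖) ^ 2 / (β - α)) 0 :=
    ((((hcg β ⟨hαβ.le, le_rfl⟩).sub (hcg θ₀ ⟨hα, hβ⟩)).norm.add
      ((hcg θ₀ ⟨hα, hβ⟩).sub (hcg α ⟨le_rfl, hαβ.le⟩)).norm).pow 2).div_const _
  have hL0 : l ^ 2 / (β - α) - ε < (‖g (((0 : ℝ) : ℂ) + β * I) - g (((0 : ℝ) : ℂ) + θ₀ * I)‖ +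
      ‖g (((0 : ℝ) : ℂ) + θ₀ * I) - g (((0 : ℝ) : ℂ) + α * I)‖) ^ 2 / (β - α) := by
    rw [ofReal_zero, zero_add, zero_add, zero_add, norm_sub_rev (g (θ₀ * I)) (g (α * I))]
    have h3 : l ≤ ‖g (β * I) - g (θ₀ * I)‖ + ‖g (α * I) - g (θ₀ * I)‖ := by linarith
    have h4 : l ^ 2 ≤ (‖g (β * I) - g (θ₀ * I)‖ + ‖g (α * I) - g (θ₀ * I)‖) ^ 2 :=
      pow_le_pow_left₀ hl h3 2
    have h6 : l ^ 2 / (β - α) ≤
        (‖g (β * I) - g (θ₀ * I)‖ + ‖g (α * I) - g (θ₀ * I)‖) ^ 2 / (β - α) :=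
      div_le_div_of_nonneg_right h4 hD.le
    linarith
  obtain ⟨η, hη, hηL⟩ := Metric.eventually_nhds_iff.1 (hL.eventually (lt_mem_nhds hL0))
  refine ⟨min η σ₀, lt_min hη hσ₀, min_le_right _ _, fun σ hσ => ?_⟩
  have hση : σ < η := lt_of_lt_of_le hσ.2 (min_le_left _ _)
  have hσσ : σ < σ₀ := lt_of_lt_of_le hσ.2 (min_le_right _ _)
  have hR : {ω : ℂ | 0 < ω.re ∧ ω.re < σ ∧ α < ω.im ∧ ω.im < β} ⊆
      {ω | |ω.re| < σ₀ ∧ α ≤ ω.im ∧ ω.im ≤ β} := by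
    rintro ω ⟨a, b, c, e⟩
    refine ⟨?_, c.le, e.le⟩
    rw [abs_of_pos a]
    linarith
  have hR' : {ω : ℂ | |ω.re| < σ₀ ∧ α ≤ ω.im ∧ ω.im ≤ β} ⊆ rectNhd σ₀ α β := by
    rintro ω ⟨a, b, c⟩
    exact ⟨a, by linarith, by linarith⟩
  have hRo : IsOpen {ω : ℂ | 0 < ω.re ∧ ω.re < σ ∧ α < ω.im ∧ ω.im < β} :=
    (isOpen_lt continuous_const continuous_re).inter
      ((isOpen_lt continuous_re continuous_const).inter
        ((isOpen_lt continuous_const continuous_im).inter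
          (isOpen_lt continuous_im continuous_const)))
  rw [volume_image_holo hRo.measurableSet hRo (hg.mono (hR.trans hR')) (hinj.mono hR),
    tonelli_AreaS (((measurable_deriv g).norm.pow_const 2).ennreal_ofReal) σ α β]
  have key : ∀ s ∈ Ioo (0 : ℝ) σ, ENNReal.ofReal (l ^ 2 / (β - α) - ε) ≤
      ∫⁻ θ in Ioo α β, ENNReal.ofReal (‖deriv g ((s : ℂ) + θ * I)‖ ^ 2) := by
    intro s hs
    have hs0 : |s| < σ₀ := by
      rw [abs_of_pos hs.1]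
      linarith [hs.2]
    have hmem : ∀ θ ∈ Icc α β, ((s : ℂ) + θ * I) ∈ rectNhd σ₀ α β :=
      fun θ hθ => mem_rect_AreaS hs0 hθ.1 hθ.2
    have hc := (contd_AreaS hU hg hmem).norm
    have h3 := len_AreaS hU hg hβ (fun θ hθ => hmem θ ⟨hα.trans hθ.1, hθ.2⟩)
    have h4 := len_AreaS hU hg hα (fun θ hθ => hmem θ ⟨hθ.1, hθ.2.trans hβ⟩)
    have hi1 : IntervalIntegrable (fun θ : ℝ => ‖deriv g ((s : ℂ) + θ * I)‖) volume α θ₀ :=
      (hc.mono (Icc_subset_Icc le_rfl hβ)).intervalIntegrable_of_Icc hα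
    have hi2 : IntervalIntegrable (fun θ : ℝ => ‖deriv g ((s : ℂ) + θ * I)‖) volume θ₀ β :=
      (hc.mono (Icc_subset_Icc hα le_rfl)).intervalIntegrable_of_Icc hβ
    have h5 := intervalIntegral.integral_add_adjacent_intervals hi1 hi2
    have h6 := cs_AreaS hαβ hc
    have h7 := hηL (y := s) (by
      rw [Real.dist_eq, sub_zero, abs_of_pos hs.1]
      linarith [hs.2])
    have h8 : (‖g ((s : ℂ) + β * I) - g ((s : ℂ) + θ₀ * I)‖ +
        ‖g ((s : ℂ) + θ₀ * I) - g ((s : ℂ) + α * I)‖) ^ 2 ≤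
        (∫ θ in α..β, ‖deriv g ((s : ℂ) + θ * I)‖) ^ 2 :=
      pow_le_pow_left₀ (by positivity) (by linarith) 2
    have h9 : 0 ≤ ∫ θ in α..β, ‖deriv g ((s : ℂ) + θ * I)‖ ^ 2 :=
      intervalIntegral.integral_nonneg hαβ.le fun θ _ => by positivity
    have h10 : l ^ 2 / (β - α) - ε ≤ ∫ θ in α..β, ‖deriv g ((s : ℂ) + θ * I)‖ ^ 2 := by
      refine h7.le.trans ?_
      rw [div_le_iff₀ hD]
      refine (h8.trans h6).trans ?_
      rw [mul_comm]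
    refine (ENNReal.ofReal_le_ofReal h10).trans (le_of_eq ?_)
    rw [intervalIntegral.integral_of_le hαβ.le, integral_Ioc_eq_integral_Ioo,
      ofReal_integral_eq_lintegral_ofReal]
    · exact ((hc.pow 2).integrableOn_Icc (μ := volume)).mono_set Ioo_subset_Icc_self
    · exact Filter.Eventually.of_forall fun θ => by positivity
  calc ENNReal.ofReal (σ * (l ^ 2 / (β - α) - ε)) =
        ENNReal.ofReal (l ^ 2 / (β - α) - ε) * volume (Ioo (0 : ℝ) σ) := by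
        rw [Real.volume_Ioo, sub_zero, ENNReal.ofReal_mul hσ.1.le, mul_comm]
    _ = ∫⁻ _ in Ioo (0 : ℝ) σ, ENNReal.ofReal (l ^ 2 / (β - α) - ε) := by
        rw [setLIntegral_const]
    _ ≤ _ := setLIntegral_mono' measurableSet_Ioo key

/-- LENGTH-AREA FOR THIN STRIPS, side `Re < 0`. -/
theorem area_neg {g : ℂ → ℂ} {σ₀ α β θ₀ l : ℝ} (hσ₀ : 0 < σ₀) (hαβ : α < β)
    (hθ₀ : θ₀ ∈ Icc α β) (hg : DifferentiableOn ℂ g (rectNhd σ₀ α β))
    (hinj : InjOn g {ω | |ω.re| < σ₀ ∧ α ≤ ω.im ∧ ω.im ≤ β}) (hl : 0 ≤ l)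
    (h1 : l ≤ ‖g (α * I) - g (θ₀ * I)‖ + ‖g (β * I) - g (θ₀ * I)‖) {ε : ℝ}
    (hε : 0 < ε) :
    ∃ σ₁ > 0, σ₁ ≤ σ₀ ∧ ∀ σ ∈ Ioo 0 σ₁, ENNReal.ofReal (σ * (l ^ 2 / (β - α) - ε)) ≤
      volume (g '' {ω | -σ < ω.re ∧ ω.re < 0 ∧ α < ω.im ∧ ω.im < β}) := by
  have hneg : MapsTo (fun ω : ℂ => -ω) (rectNhd σ₀ (-β) (-α)) (rectNhd σ₀ α β) := by
    rintro ω ⟨a, b, c⟩
    refine ⟨?_, ?_, ?_⟩
    · rw [neg_re, abs_neg]
      exact a
    · rw [neg_im]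
      linarith
    · rw [neg_im]
      linarith
  have hg2 : DifferentiableOn ℂ (fun ω => g (-ω)) (rectNhd σ₀ (-β) (-α)) :=
    hg.comp (differentiable_neg.differentiableOn) hneg
  have e : ∀ x : ℝ, -(((-x : ℝ) : ℂ) * I) = (x : ℂ) * I := by
    intro x
    push_cast
    ring
  have hinj2 : InjOn (fun ω => g (-ω)) {ω | |ω.re| < σ₀ ∧ -β ≤ ω.im ∧ ω.im ≤ -α} := by
    have hm : ∀ x ∈ {ω : ℂ | |ω.re| < σ₀ ∧ -β ≤ ω.im ∧ ω.im ≤ -α},
        -x ∈ {ω : ℂ | |ω.re| < σ₀ ∧ α ≤ ω.im ∧ ω.im ≤ β} := by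
      rintro x ⟨a, b, c⟩
      refine ⟨?_, ?_, ?_⟩
      · rw [neg_re, abs_neg]
        exact a
      · rw [neg_im]
        linarith
      · rw [neg_im]
        linarith
    intro x hx y hy hxy
    exact neg_injective (hinj (hm x hx) (hm y hy) hxy)
  have h1' : l ≤ ‖g (-(((-β : ℝ) : ℂ) * I)) - g (-(((-θ₀ : ℝ) : ℂ) * I))‖ +
      ‖g (-(((-α : ℝ) : ℂ) * I)) - g (-(((-θ₀ : ℝ) : ℂ) * I))‖ := by
    rw [e, e, e]
    linarith
  obtain ⟨σ₁, hσ₁, hle, hσ⟩ := area_pos (g := fun ω => g (-ω)) (α := -β) (β := -α) (θ₀ := -θ₀)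
    (l := l) hσ₀ (by linarith) ⟨by linarith [hθ₀.2], by linarith [hθ₀.1]⟩ hg2 hinj2 hl h1' hε
  refine ⟨σ₁, hσ₁, hle, fun σ h2 => ?_⟩
  have h3 := hσ σ h2
  have e2 : -α - -β = β - α := by ring
  rw [e2] at h3
  refine h3.trans (le_of_eq ?_)
  congr 1
  ext q
  constructor
  · rintro ⟨ω, ⟨a, b, c, d⟩, rfl⟩
    refine ⟨-ω, ⟨?_, ?_, ?_, ?_⟩, rfl⟩
    · rw [neg_re]
      linarith
    · rw [neg_re]
      linarith
    · rw [neg_im]
      linarith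
    · rw [neg_im]
      linarith
  · rintro ⟨ω, ⟨a, b, c, d⟩, rfl⟩
    refine ⟨-ω, ⟨?_, ?_, ?_, ?_⟩, ?_⟩
    · rw [neg_re]
      linarith
    · rw [neg_re]
      linarith
    · rw [neg_im]
      linarith
    · rw [neg_im]
      linarith
    · show g (- -ω) = g ω
      rw [neg_neg]

end Pool.Agent.HQT
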