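import Mathlib

/-! HQT (growth exponent 3, MP_7da5c3_an), file BackInd: backward induction -/

set_option autoImplicit false

open Complex Metric Set Filter Topology MeasureTheory
open scoped ComplexConjugate Real

namespace Pool.Agent.HQT

variable {A B : ℂ → ℂ}

/-- BACKWARD INDUCTION.
Proof. `S = {t ∈ Icc t₀ R | m t + κ log (R/t) ≤ m R}` contains `R`; `t* = sInf S`.  For `t ∈ S`,
`m t* + κ log (R/t) ≤ m t + κ log (R / t) ≤ m R`; let `t → t*` (`log` is continuous):
`t* ∈ S`.  If `t* = t₀` then `κ log (R/t₀) ≤ m R` as `m t₀ ≥ 0`.  If `t* > t₀` take `σ` for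
`t*`: `m σ + κ log (R/σ) ≤ m R`; if `σ ≥ t₀` then `σ ∈ S`, contradiction; if `σ < t₀`:
`κ log (R/t₀) ≤ κ log (R/σ) ≤ m R`. -/
theorem back_ind {m : ℝ → ℝ} {t₀ R κ : ℝ} (ht₀ : 0 < t₀) (hR : t₀ ≤ R) (hκ : 0 ≤ κ)
    (hm : Monotone m) (hm0 : ∀ s, 0 ≤ m s)
    (h : ∀ t ∈ Ioc t₀ R, ∃ σ ∈ Ioo (0 : ℝ) t, m σ + κ * Real.log (t / σ) ≤ m t) :
    κ * Real.log (R / t₀) ≤ m R := by
  have hRpos : 0 < R := ht₀.trans_le hR
  rw [Real.log_div hRpos.ne' ht₀.ne']
  let S : Set ℝ := {t | t ∈ Icc t₀ R ∧ κ * (Real.log R - Real.log t) ≤ m R - m t}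
  have hRS : R ∈ S := ⟨⟨hR, le_rfl⟩, by simp⟩
  have hbdd : BddBelow S := ⟨t₀, fun t ht => ht.1.1⟩
  obtain ⟨u, hu⟩ : ∃ u, u = sInf S := ⟨_, rfl⟩
  have hu0 : t₀ ≤ u := by
    rw [hu]
    exact le_csInf ⟨R, hRS⟩ fun t ht => ht.1.1
  have huR : u ≤ R := by
    rw [hu]
    exact csInf_le hbdd hRS
  have hupos : 0 < u := ht₀.trans_le hu0
  have huS : κ * (Real.log R - Real.log u) ≤ m R - m u := by
    by_contra hcon
    push Not at hcon
    have hc : ContinuousAt (fun t => κ * (Real.log R - Real.log t)) u :=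
      continuousAt_const.mul (continuousAt_const.sub (Real.continuousAt_log hupos.ne'))
    have hev : ∀ᶠ t in 𝓝 u, m R - m u < κ * (Real.log R - Real.log t) :=
      continuousAt_const.eventually_lt hc hcon
    obtain ⟨δ, hδ, hball⟩ := Metric.eventually_nhds_iff.1 hev
    have h1 : sInf S < u + δ := by
      rw [← hu]
      linarith
    obtain ⟨t, htS, htlt⟩ := exists_lt_of_csInf_lt ⟨R, hRS⟩ h1
    have hut : u ≤ t := by
      rw [hu]
      exact csInf_le hbdd htS
    have h2 : m R - m u < κ * (Real.log R - Real.log t) := by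
      apply hball
      rw [Real.dist_eq, abs_of_nonneg (by linarith)]
      linarith
    have h3 := htS.2
    have h4 := hm hut
    linarith
  rcases hu0.eq_or_lt with h1 | h1
  · rw [← h1] at huS
    have := hm0 t₀
    linarith
  · obtain ⟨σ, hσ, h2⟩ := h u ⟨h1, huR⟩
    rw [Real.log_div hupos.ne' hσ.1.ne'] at h2
    have h3 : κ * (Real.log R - Real.log σ) ≤ m R - m σ := by
      have : κ * (Real.log R - Real.log σ) = κ * (Real.log R - Real.log u) +
        κ * (Real.log u - Real.log σ) := by ring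
      linarith
    rcases lt_or_ge σ t₀ with h4 | h4
    · have h5 : Real.log σ ≤ Real.log t₀ := Real.log_le_log hσ.1 h4.le
      have h6 : κ * (Real.log R - Real.log t₀) ≤ κ * (Real.log R - Real.log σ) :=
        mul_le_mul_of_nonneg_left (by linarith) hκ
      have := hm0 σ
      linarith
    · exfalso
      have h5 : σ ∈ S := ⟨⟨h4, hσ.2.le.trans huR⟩, h3⟩
      have h6 : u ≤ σ := by
        rw [hu]
        exact csInf_le hbdd h5
      linarith [hσ.2]

end Pool.Agent.HQT
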