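import Pool.Agent.HQ.Base
import Pool.Agent.HQ.LocInv
import Pool.Agent.HQ.Lmap
import Pool.Agent.HQ.LmapBox

/-!
# HQT: growth exponent 3 for univalent harmonic maps (MP_7da5c3_an, S05165)

Definitions.  The text of the whole proof: team-store, `HQ_exponent3_helper3.md`.
-/

set_option autoImplicit false

open Complex Metric Set Filter Topology MeasureTheory
open scoped ComplexConjugate Real

namespace Pool.Agent.HQT

open Pool.Agent.HQ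

/-- A holomorphic branch `ψ` of `A⁻¹` on `W` with values in `U`. -/
structure Branch (A : ℂ → ℂ) (W U : Set ℂ) (ψ : ℂ → ℂ) : Prop where
  diff : DifferentiableOn ℂ ψ W
  mem : ∀ w ∈ W, ψ w ∈ U
  eq : ∀ w ∈ W, A (ψ w) = w

/-- The circular segment `|w| < t`, `Re w > t cos φ`. -/
def Vseg (t φ : ℝ) : Set ℂ := {w | ‖w‖ < t ∧ t * Real.cos φ < w.re}

/-- The component of `{z ∈ U : |A z| < s}` containing `0`. -/
def GU (A : ℂ → ℂ) (U : Set ℂ) (s : ℝ) : Set ℂ := connectedComponentIn {z | z ∈ U ∧ ‖A z‖ < s} 0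

/-- Admissible domains. -/
structure Dom (U : Set ℂ) : Prop where
  opn : IsOpen U
  cpt : IsCompact (closure U)
  sub : closure U ⊆ ball 0 1

/-- The arc of the level `t` through the first hitting point `r₀` of the radius, up to the exits
from `U`. -/
structure Arc (A B : ℂ → ℂ) (U : Set ℂ) (t α β θ₀ r₀ : ℝ) (z : ℝ → ℂ) : Prop where
  pair : HPair A B
  A0 : A 0 = 0
  dom : Dom U
  ht : ‖deriv A 0‖ < t
  hr₀ : r₀ ∈ Ioo (0 : ℝ) 1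
  hX : ∀ x ∈ Icc (0 : ℝ) r₀, (x : ℂ) ∈ U
  hfirst : ∀ r ∈ Ico (0 : ℝ) r₀, ‖A r‖ < t
  heq : ‖A r₀‖ = t
  lo : α < θ₀
  hi : θ₀ < β
  len : β - α < 4 * π
  lift : IsLift A t α β z
  zθ : z θ₀ = r₀
  mem : ∀ θ ∈ Ioo α β, z θ ∈ U
  exα : z α ∉ U
  exβ : z β ∉ U
  inj : InjOn z (Icc α β)

/-- `ψ` is a branch of `A⁻¹` near the closed circular segment of angle `φ`, with values in `U` on
the open segment, and `ψ t = z₀`. -/
structure Good (A : ℂ → ℂ) (U : Set ℂ) (t φ : ℝ) (z₀ : ℂ) (r : ℝ) (ψ : ℂ → ℂ) : Prop where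
  hr : 0 < r
  branch : Branch A (thickening r (Vseg t φ)) (ball 0 1) ψ
  mem : ∀ w ∈ Vseg t φ, ψ w ∈ U
  base : ψ t = z₀

/-- The maximal circular segment: `Good`, and a tip `e` on the open chord with `ψ e ∉ U`. -/
structure VS (A : ℂ → ℂ) (U : Set ℂ) (t φ r : ℝ) (z : ℝ → ℂ) (ψ : ℂ → ℂ) (e : ℂ) : Prop where
  hφ : 0 < φ
  hφ' : φ < π / 2
  good : Good A U t φ (z 0) r ψ
  tip_re : e.re = t * Real.cos φ
  tip_norm : ‖e‖ < t
  tip : ψ e ∉ U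

/-- The radial cut `Γ` (the lift in `U` of the ray from the tip `e` outwards), and the components
`W₁` (counterclockwise side) and `W₂` (clockwise side) of `U ∖ Γ`. -/
structure Sides (A : ℂ → ℂ) (U : Set ℂ) (t φ : ℝ) (ψ : ℂ → ℂ) (e : ℂ) (Γ W₁ W₂ : Set ℂ) :
    Prop where
  Γsub : Γ ⊆ U
  Γray : ∀ z ∈ Γ, ∃ s : ℝ, ‖e‖ < s ∧ A z = s * exp (arg e * I)
  Γψ : ∀ z ∈ Γ, ‖A z‖ < t → z = ψ (A z) ∧ A z ∈ Vseg t φ
  ψΓ : ∀ s ∈ Ioo ‖e‖ t, ψ (s * exp (arg e * I)) ∈ Γ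
  Γcl : ∀ z ∈ U, z ∈ closure Γ → z ∈ Γ
  opn₁ : IsOpen W₁
  opn₂ : IsOpen W₂
  sub₁ : W₁ ⊆ U \ Γ
  sub₂ : W₂ ⊆ U \ Γ
  disj : Disjoint W₁ W₂
  comp₁ : ∀ S : Set ℂ, IsPreconnected S → S ⊆ U \ Γ → (S ∩ W₁).Nonempty → S ⊆ W₁
  comp₂ : ∀ S : Set ℂ, IsPreconnected S → S ⊆ U \ Γ → (S ∩ W₂).Nonempty → S ⊆ W₂
  plus : ∀ w ∈ Vseg t φ, 0 < (w * exp (-(arg e * I))).im → ψ w ∈ W₁
  minus : ∀ w ∈ Vseg t φ, (w * exp (-(arg e * I))).im < 0 → ψ w ∈ W₂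

open Classical in
/-- `|e| + |A - e|` on `W`, `|A|` elsewhere. -/
noncomputable def Fun (A : ℂ → ℂ) (W : Set ℂ) (e z : ℂ) : ℝ :=
  if z ∈ W then ‖e‖ + ‖A z - e‖ else ‖A z‖

/-- The curve `C_s`: the lift `zL` of the circle `(0, s)` clockwise and the lift `zR` of the circle
`(e, s - |e|)` counterclockwise from the common point over `s e^{i arg e}`, up to the exits from
`U`. -/
structure CS (A : ℂ → ℂ) (U : Set ℂ) (ψ : ℂ → ℂ) (e : ℂ) (s a b : ℝ) (zL zR : ℝ → ℂ) :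
    Prop where
  ha : a < arg e
  hb : arg e < b
  ha' : arg e - 2 * π < a
  hb' : b < arg e + 2 * π
  liftL : IsLift A s a (arg e) zL
  liftR : IsLift (fun z => A z - e) (s - ‖e‖) (arg e) b zR
  baseL : zL (arg e) = ψ (s * exp (arg e * I))
  baseR : zR (arg e) = ψ (s * exp (arg e * I))
  memL : ∀ θ ∈ Ioc a (arg e), zL θ ∈ U
  memR : ∀ θ ∈ Ico (arg e) b, zR θ ∈ U
  exL : zL a ∉ U
  exR : zR b ∉ U
  len : s * (arg e - a) + (s - ‖e‖) * (b - arg e) ≤ 3 * π * s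

/-- The point set `C_s`. -/
def Cset (e : ℂ) (a b : ℝ) (zL zR : ℝ → ℂ) : Set ℂ := zL '' Ioc a (arg e) ∪ zR '' Ico (arg e) b

/-- The conjugate function `z ↦ conj (A (conj z))`. -/
noncomputable def cj (A : ℂ → ℂ) (z : ℂ) : ℂ := conj (A (conj z))

end Pool.Agent.HQT
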