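import Pool.Agent.HQ.Sep
import Pool.Agent.HQT.Defs

/-! HQT, file Sep: the separation lemma for level sets (section 7). -/

set_option autoImplicit false

open Complex Metric Set Filter Topology MeasureTheory
open scoped ComplexConjugate Real

namespace Pool.Agent.HQT

open Pool.Agent.HQ

/-- SEPARATION.  `Γ` is closed in `U` and open in the level set `{F = s}`.  If `x` (in `{F < s}`)
and `y` (in `{F > s}`) can be joined in `U` by a path that meets `{F = s}` only in `Γ`, then they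
cannot be joined in `U ∖ Γ`.  Special case of `sep_lemma` in `HQ/Sep`. -/
theorem separation_level {x₁ d : ℝ} {F : ℂ → ℝ} (hd0 : 0 < d) (hd : d < π / 2)
    (hF : ContinuousOn F (Ubox x₁ d)) {s : ℝ} {Γ : Set ℂ}
    (hΓ : ∀ z ∈ Γ, z ∈ Ubox x₁ d ∧ F z = s) (hcl : ∀ z ∈ Ubox x₁ d, z ∈ closure Γ → z ∈ Γ)
    (hop : ∀ z ∈ Γ, ∀ᶠ z' in 𝓝 z, F z' = s → z' ∈ Γ) {x y : ℂ} (hx : x ∈ Ubox x₁ d)
    (hy : y ∈ Ubox x₁ d) (hx' : F x < s) (hy' : s < F y) (hY : JoinedIn {z | z ∈ Ubox x₁ d ∧ (F z = s → z ∈ Γ)} x y)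
    (hX : JoinedIn (Ubox x₁ d \ Γ) x y) : False := by
  set U := Ubox x₁ d with hU
  have hlog : HasLogs U := hasLogs_Ubox hd ⟨x, hx⟩
  have hΓU : Γ ∩ U = Γ := inter_eq_left.2 fun z hz => (hΓ z hz).1
  obtain ⟨p, hp⟩ := hY
  obtain ⟨q, hq⟩ := hX
  have h := sep_lemma (Φ := fun z => F z - s) (Γ := Γ) (R := {z | z ∈ U ∧ F z = s ∧ z ∉ Γ})
    (S := range p) (T := range q) (x := x) (y := y) hlog (hF.sub continuousOn_const) ?_ ?_ ?_ ?_
    (isPreconnected_range p.continuous) ?_ ?_ (isPreconnected_range q.continuous) ?_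
    ⟨0, p.source⟩ ⟨1, p.target⟩ ⟨0, q.source⟩ ⟨1, q.target⟩ (by simpa using hx')
    (by simpa using hy')
  · obtain ⟨z, ⟨t, rfl⟩, hz⟩ := h
    exact (hq t).2 hz
  · intro z hz hz0
    by_cases hzΓ : z ∈ Γ
    · exact Or.inl hzΓ
    · exact Or.inr ⟨hz, by linarith, hzΓ⟩
  · intro z hz _ hzR
    exact hzR.2.2 hz
  · intro z hz hzc
    rw [hΓU] at hzc
    exact hcl z hz hzc
  · intro z hz hzc
    have hne : (𝓝[{z | z ∈ U ∧ F z = s ∧ z ∉ Γ} ∩ U] z).NeBot :=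
      mem_closure_iff_nhdsWithin_neBot.1 hzc
    refine ⟨hz, ?_, ?_⟩
    · have h1 : Tendsto F (𝓝[{z | z ∈ U ∧ F z = s ∧ z ∉ Γ} ∩ U] z) (𝓝 (F z)) :=
        (hF z hz).mono_left (nhdsWithin_mono _ inter_subset_right)
      have h2 : Tendsto F (𝓝[{z | z ∈ U ∧ F z = s ∧ z ∉ Γ} ∩ U] z) (𝓝 s) := by
        refine tendsto_const_nhds.congr' ?_
        filter_upwards [self_mem_nhdsWithin] with w hw
        exact hw.1.2.1.symm
      exact tendsto_nhds_unique h1 h2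
    · intro hzΓ
      have h1 := hop z hzΓ
      have h2 : ∀ᶠ z' in 𝓝[{z | z ∈ U ∧ F z = s ∧ z ∉ Γ} ∩ U] z, False := by
        filter_upwards [nhdsWithin_le_nhds h1, self_mem_nhdsWithin] with w hw hw2
        exact hw2.1.2.2 (hw hw2.1.2.1)
      exact h2.exists.choose_spec
  · rintro z ⟨t, rfl⟩
    exact (hp t).1
  · rintro z ⟨t, rfl⟩ hzR
    exact hzR.2.2 ((hp t).2 hzR.2.1)
  · rintro z ⟨t, rfl⟩
    exact (hq t).1

end Pool.Agent.HQT
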