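import Pool.Agent.HQT.CSClop

/-! HQT (growth exponent 3, MP_7da5c3_an), file YPathB: the path Y, second part (section 9) -/

set_option autoImplicit false

open Complex Metric Set Filter Topology MeasureTheory
open scoped ComplexConjugate Real

namespace Pool.Agent.HQT

open Pool.Agent.HQ

variable {A B : ℂ → ℂ}

private theorem polar_YPathB (w : ℂ) : w = ‖w‖ * exp (arg w * I) :=
  (Complex.norm_mul_exp_arg_mul_I w).symm

private theorem norm_YPathB {s θ : ℝ} (hs : 0 ≤ s) : ‖(s * exp (θ * I) : ℂ)‖ = s := by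
  rw [norm_mul, Complex.norm_real, Real.norm_of_nonneg hs, Complex.norm_exp_ofReal_mul_I, mul_one]

private theorem re_YPathB {s θ : ℝ} : (s * exp (θ * I) : ℂ).re = s * Real.cos θ := by
  rw [Complex.re_ofReal_mul, Complex.exp_ofReal_mul_I_re]

private theorem im_YPathB {s θ χ : ℝ} :
    ((s * exp (θ * I) : ℂ) * exp (-(χ * I))).im = s * Real.sin (θ - χ) := by
  have h1 : (s * exp (θ * I) : ℂ) * exp (-(χ * I)) = s * exp (((θ - χ : ℝ) : ℂ) * I) := by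
    rw [mul_assoc, ← Complex.exp_add]
    congr 2
    push_cast
    ring
  rw [h1, Complex.im_ofReal_mul, Complex.exp_ofReal_mul_I_im]

/-- the arc of radius `s` between two angles stays in the segment -/
private theorem arc_YPathB {s t φ x y θ : ℝ} (hs : 0 < s) (hst : s < t) (hφ' : φ < π / 2)
    (hx : |x| < φ) (hy : |y| < φ) (hx' : (s * exp (x * I) : ℂ) ∈ Vseg t φ)
    (hy' : (s * exp (y * I) : ℂ) ∈ Vseg t φ) (h : θ ∈ Icc x y) :
    (s * exp (θ * I) : ℂ) ∈ Vseg t φ := by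
  refine ⟨by rw [norm_YPathB hs.le]; exact hst, ?_⟩
  rw [re_YPathB]
  have h1 : t * Real.cos φ < s * Real.cos x := by
    have := hx'.2
    rwa [re_YPathB] at this
  have h2 : t * Real.cos φ < s * Real.cos y := by
    have := hy'.2
    rwa [re_YPathB] at this
  have h3 : |θ| ≤ max |x| |y| := abs_le_max_abs_abs h.1 h.2
  rcases le_max_iff.1 h3 with h4 | h4
  · refine h1.trans_le (mul_le_mul_of_nonneg_left ?_ hs.le)
    rw [← Real.cos_abs x, ← Real.cos_abs θ]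
    exact Real.cos_le_cos_of_nonneg_of_le_pi (abs_nonneg _) (by linarith [Real.pi_pos]) h4
  · refine h2.trans_le (mul_le_mul_of_nonneg_left ?_ hs.le)
    rw [← Real.cos_abs y, ← Real.cos_abs θ]
    exact Real.cos_le_cos_of_nonneg_of_le_pi (abs_nonneg _) (by linarith [Real.pi_pos]) h4

/-- SECOND PART OF Y.  `S = {q ∈ U | Fun q = s → q ∈ C_s}`.
Proof. Let `w ∈ Vseg t φ` with `Im (w e^{-iχ}) < 0`, `‖w‖ < s`, `θw = arg w`, `|θw| < φ`
(`abs_arg_lt`).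
(1) The radial path `λ ↦ ψ (λ w)`, `1 ≤ λ ≤ t/‖w‖`, joins `ψ w` to `ψ (t e^{iθw}) = z θw`
(`good_bdry`).  For `λ ‖w‖ < t` the point `λ w ∈ Vseg t φ` (`smul_mem_Vseg`) has
`Im (λ w e^{-iχ}) < 0`, so `ψ (λ w) ∈ W₂ ⊆ U`, not in `W₁`, `Fun = λ ‖w‖`.  If this is `s`, then
`λ w = s e^{iθw}`.  Claim: `ψ (s e^{iθw}) = zL θw` and `a < θw ≤ χ`.  Indeed `θw < χ`
(both in `(-π/2, π/2)`, `sin (θw - χ) < 0`), the arc `{s e^{iθ} : θw ≤ θ ≤ χ}` is in
`Vseg t φ` (both ends are, `cos θ ≥ min`), so `θ ↦ ψ (s e^{iθ})` is a lift in `U` on `[θw, χ]`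
which agrees with `zL` at `χ`, hence on `[max a θw, χ]` (`lift_eqOn`); if `θw ≤ a` then
`zL a = ψ (s e^{ia}) ∈ U`, contradiction with `exL`.  So the point is in `C_s`.
At `λ = t/‖w‖`: the point is `z θw ∈ U` (`ha.mem`), `Fun ≥ ‖A‖ = t > s`.
(2) The path `z` from `θw` to `θ₀` (both in `Ioo α β`) is in `U`, `Fun ≥ ‖A‖ = t > s`; it ends at
`z θ₀ = r₀`. -/
theorem exists_Y2 {U : Set ℂ} {t α β θ₀ r₀ : ℝ} {z : ℝ → ℂ}
    (ha : Arc A B U t α β θ₀ r₀ z) (hα : α < -π) (hβ : π < β) {φ r : ℝ} {ψ : ℂ → ℂ}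
    {e : ℂ} (hv : VS A U t φ r z ψ e) {Γ W₁ W₂ : Set ℂ} (hw : Sides A U t φ ψ e Γ W₁ W₂)
    {s a b : ℝ} (hs : s ∈ Ioo ‖e‖ t) {zL zR : ℝ → ℂ} (hc : CS A U ψ e s a b zL zR)
    {w : ℂ} (hw1 : w ∈ Vseg t φ) (hw2 : (w * exp (-(arg e * I))).im < 0) (hw3 : ‖w‖ < s) :
    JoinedIn {q | q ∈ U ∧ (Fun A W₁ e q = s → q ∈ Cset e a b zL zR)} (ψ w) r₀ := by
  have hA : DifferentiableOn ℂ A (ball 0 1) := ha.pair.diffA
  have hA' : ∀ z ∈ ball (0 : ℂ) 1, deriv A z ≠ 0 := fun z hz =>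
    ha.pair.deriv_ne (ball_subset_closedBall hz)
  have hπ := Real.pi_pos
  have ht : 0 < t := (norm_nonneg _).trans_lt ha.ht
  have hφ := hv.hφ
  have hφ' := hv.hφ'
  have hs0 : 0 < s := (norm_nonneg e).trans_lt hs.1
  have hcos : 0 < Real.cos φ := Real.cos_pos_of_mem_Ioo ⟨by linarith, hφ'⟩
  have hwre : 0 < w.re := (mul_pos ht hcos).trans hw1.2
  have hw0 : 0 < ‖w‖ := by
    rw [norm_pos_iff]
    rintro rfl
    simp at hwre
  obtain ⟨x, hx⟩ : ∃ x : ℝ, x = arg w := ⟨_, rfl⟩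
  obtain ⟨χ, hχ⟩ : ∃ χ : ℝ, χ = arg e := ⟨_, rfl⟩
  have hwx : w = ‖w‖ * exp (x * I) := by
    rw [hx]
    exact polar_YPathB w
  have hxφ : |x| < φ := by
    rw [hx]
    exact abs_arg_lt ht hφ hφ' hw1.2.le hw1.1
  have hχφ : |χ| < φ := by
    rw [hχ]
    exact abs_arg_lt ht hφ hφ' hv.tip_re.ge hv.tip_norm
  have hx1 := (abs_lt.1 hxφ).1
  have hx2 := (abs_lt.1 hxφ).2
  have hχ1 := (abs_lt.1 hχφ).1
  have hχ2 := (abs_lt.1 hχφ).2
  have hxχ : x < χ := by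
    by_contra hcon
    rw [not_lt] at hcon
    have h1 : 0 ≤ Real.sin (x - χ) :=
      Real.sin_nonneg_of_nonneg_of_le_pi (by linarith) (by linarith)
    rw [hwx, ← hχ, im_YPathB] at hw2
    exact absurd hw2 (not_lt.2 (mul_nonneg hw0.le h1))
  have hlam : ∀ v ∈ Icc 1 (t / ‖w‖), ‖(v * w : ℂ)‖ = v * ‖w‖ ∧ v * ‖w‖ ≤ t ∧
      t * Real.cos φ ≤ (v * w : ℂ).re := by
    intro v hv'
    have hv0 : 0 ≤ v := by linarith [hv'.1]
    refine ⟨?_, ?_, ?_⟩
    · rw [norm_mul, Complex.norm_real, Real.norm_of_nonneg hv0]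
    · exact (le_div_iff₀ hw0).1 hv'.2
    · rw [Complex.re_ofReal_mul]
      have h1 := hw1.2
      nlinarith [hv'.1]
  have hthick : ∀ v ∈ Icc 1 (t / ‖w‖), (v * w : ℂ) ∈ thickening r (Vseg t φ) := by
    intro v hv'
    obtain ⟨h1, h2, h3⟩ := hlam v hv'
    exact closedSeg_sub_thick ht hφ hφ'.le hv.good.hr ⟨by rw [h1]; exact h2, h3⟩
  have hbd := good_bdry hA hA' ht hφ hφ' ha.lift (by linarith) (by linarith) hv.good
  have hVt : ∀ p ∈ Vseg t φ, p ∈ thickening r (Vseg t φ) := fun p hp =>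
    self_subset_thickening hv.good.hr _ hp
  -- the point over `s`
  have hkey : (s * exp (x * I) : ℂ) ∈ Vseg t φ → ψ (s * exp (x * I)) ∈ Cset e a b zL zR := by
    intro hsx
    have hsχ : (s * exp (χ * I) : ℂ) ∈ Vseg t φ := by
      rw [hχ]
      exact ray_mem_Vseg hφ hφ' hv.tip_re hv.tip_norm hs.1 hs.2
    have harc : ∀ θ ∈ Icc x χ, (s * exp (θ * I) : ℂ) ∈ Vseg t φ := fun θ hθ =>
      arc_YPathB hs0 hs.2 hφ' hxφ hχφ hsx hsχ hθ
    have haχ : a < χ := by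
      rw [hχ]
      exact hc.ha
    have hc' : Continuous fun θ : ℝ => (s * exp (θ * I) : ℂ) := by fun_prop
    have hIcc : ∀ θ ∈ Icc (max a x) χ, θ ∈ Icc x χ ∧ θ ∈ Icc a (arg e) := by
      intro θ hθ
      rw [← hχ]
      exact ⟨⟨(le_max_right _ _).trans hθ.1, hθ.2⟩, (le_max_left _ _).trans hθ.1, hθ.2⟩
    have heq : EqOn (fun θ : ℝ => ψ (s * exp (θ * I))) zL (Icc (max a x) χ) := by
      refine lift_eqOn (x₀ := χ) isPreconnected_Icc hA hA' ?_ ?_ ?_ ?_ ?_ ?_ ?_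
      · exact hv.good.branch.diff.continuousOn.comp hc'.continuousOn fun θ hθ =>
          hVt _ (harc θ (hIcc θ hθ).1)
      · exact hc.liftL.cont.mono fun θ hθ => (hIcc θ hθ).2
      · exact fun θ hθ => hv.good.branch.mem _ (hVt _ (harc θ (hIcc θ hθ).1))
      · exact fun θ hθ => hc.liftL.mem θ (hIcc θ hθ).2
      · intro θ hθ
        rw [hc.liftL.eq θ (hIcc θ hθ).2]
        exact hv.good.branch.eq _ (hVt _ (harc θ (hIcc θ hθ).1))
      · exact ⟨max_le haχ.le hxχ.le, le_rfl⟩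
      · rw [hχ]
        exact hc.baseL.symm
    have hax : a < x := by
      by_contra hcon
      rw [not_lt] at hcon
      have h1 : ψ (s * exp (a * I)) = zL a := heq ⟨(max_eq_left hcon).le, haχ.le⟩
      apply hc.exL
      rw [← h1]
      exact hv.good.mem _ (harc a ⟨hcon, haχ.le⟩)
    have h1 : ψ (s * exp (x * I)) = zL x := heq ⟨(max_eq_right hax.le).le, hxχ.le⟩
    rw [h1]
    refine Or.inl ⟨x, ⟨hax, ?_⟩, rfl⟩
    rw [← hχ]
    exact hxχ.le
  -- the radial path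
  have hP1 : JoinedIn {q | q ∈ U ∧ (Fun A W₁ e q = s → q ∈ Cset e a b zL zR)} (ψ w) (z x) := by
    have h1t : 1 ≤ t / ‖w‖ := by
      rw [le_div_iff₀ hw0, one_mul]
      exact hw1.1.le
    have hcont : ContinuousOn (fun v : ℝ => ψ (v * w)) (Icc 1 (t / ‖w‖)) := by
      have hc' : Continuous fun v : ℝ => (v * w : ℂ) := by fun_prop
      exact hv.good.branch.diff.continuousOn.comp hc'.continuousOn hthick
    have hpc : IsPathConnected ((fun v : ℝ => ψ (v * w)) '' Icc 1 (t / ‖w‖)) :=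
      IsPathConnected.image' ((convex_Icc _ _).isPathConnected (nonempty_Icc.2 h1t)) hcont
    have hend : ψ ((t / ‖w‖ : ℝ) * w) = z x := by
      rw [← hbd x ⟨hx1.le, hx2.le⟩]
      congr 1
      nth_rewrite 2 [hwx]
      rw [← mul_assoc, ← Complex.ofReal_mul, div_mul_cancel₀ _ hw0.ne']
    have hj := hpc.joinedIn (ψ w) ⟨1, ⟨le_rfl, h1t⟩, by simp⟩ (z x)
      ⟨t / ‖w‖, ⟨h1t, le_rfl⟩, hend⟩
    refine hj.mono ?_
    rintro _ ⟨v, hv', rfl⟩
    show ψ (v * w) ∈ U ∧ (Fun A W₁ e (ψ (v * w)) = s → ψ (v * w) ∈ Cset e a b zL zR)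
    obtain ⟨h1, h2, h3⟩ := hlam v hv'
    have hv0 : 0 < v := lt_of_lt_of_le one_pos hv'.1
    rcases h2.lt_or_eq with h4 | h4
    · have h5 : (v * w : ℂ) ∈ Vseg t φ := smul_mem_Vseg ht hφ hφ' hw1 hv'.1 h4
      have h6 : ((v * w : ℂ) * exp (-(arg e * I))).im < 0 := by
        rw [mul_assoc, Complex.im_ofReal_mul]
        exact mul_neg_of_pos_of_neg hv0 hw2
      have h7 := hw.minus _ h5 h6
      refine ⟨(hw.sub₂ h7).1, fun h8 => ?_⟩
      have h9 : ψ (v * w) ∉ W₁ := fun h => (disjoint_left.1 hw.disj) h h7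
      rw [Fun_of_notMem h9, hv.good.branch.eq _ (hthick v hv'), h1] at h8
      have h10 : (v * w : ℂ) = s * exp (x * I) := by
        nth_rewrite 1 [hwx]
        rw [← mul_assoc, ← Complex.ofReal_mul, h8]
      rw [h10] at h5 ⊢
      exact hkey h5
    · have h5 : ψ (v * w) = z x := by
        rw [← hbd x ⟨hx1.le, hx2.le⟩]
        congr 1
        nth_rewrite 1 [hwx]
        rw [← mul_assoc, ← Complex.ofReal_mul, h4]
      rw [h5]
      refine ⟨ha.mem x ⟨by linarith, by linarith⟩, fun h6 => ?_⟩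
      exfalso
      have h7 := norm_le_Fun (A := A) W₁ e (z x)
      rw [h6, ha.lift.eq x ⟨by linarith, by linarith⟩, norm_YPathB ht.le] at h7
      exact absurd hs.2 (not_lt.2 h7)
  -- the path along the arc
  have hP2 : JoinedIn {q | q ∈ U ∧ (Fun A W₁ e q = s → q ∈ Cset e a b zL zR)} (z x) r₀ := by
    have hsub : uIcc x θ₀ ⊆ Ioo α β := by
      have h1 : x ∈ Ioo α β := ⟨by linarith, by linarith⟩
      have h2 : θ₀ ∈ Ioo α β := ⟨ha.lo, ha.hi⟩
      exact ordConnected_Ioo.uIcc_subset h1 h2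
    have hpc : IsPathConnected (z '' uIcc x θ₀) :=
      IsPathConnected.image' ((convex_uIcc _ _).isPathConnected nonempty_uIcc)
        (ha.lift.cont.mono (hsub.trans Ioo_subset_Icc_self))
    have hj := hpc.joinedIn (z x) ⟨x, left_mem_uIcc, rfl⟩ (r₀ : ℂ)
      ⟨θ₀, right_mem_uIcc, ha.zθ⟩
    refine hj.mono ?_
    rintro _ ⟨θ, hθ, rfl⟩
    refine ⟨ha.mem θ (hsub hθ), fun h6 => ?_⟩
    exfalso
    have h7 := norm_le_Fun (A := A) W₁ e (z θ)
    rw [h6, ha.lift.eq θ (Ioo_subset_Icc_self (hsub hθ)), norm_YPathB ht.le] at h7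
    exact absurd hs.2 (not_lt.2 h7)
  exact hP1.trans hP2

end Pool.Agent.HQT
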