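import Pool.Agent.HQT.YPathA
import Pool.Agent.HQT.YPathB
import Pool.Agent.HQT.Sep

/-! HQT (growth exponent 3, MP_7da5c3_an), file Cross: the crossing lemma (section 9) -/

set_option autoImplicit false

open Complex Metric Set Filter Topology MeasureTheory
open scoped ComplexConjugate Real

namespace Pool.Agent.HQT

open Pool.Agent.HQ

variable {A B : ℂ → ℂ}

/-- THE CROSSING LEMMA.
Proof. Suppose no point of `[0, r₀]` is in `C_s`.  `separation_level` with `F = Fun A W₁ e`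
(`continuousOn_Fun`), `Γ = C_s` (`Cset_Fun`, `Cset_closed`, `Cset_open`), `x = 0`
(`Fun 0 = ‖A 0‖ = 0 < s` as `0 ∉ W₁`), `y = r₀` (`Fun r₀ ≥ ‖A r₀‖ = t > s`); `hY`: `exists_Y1`
(on that path `Fun = ‖A‖ < s`, so the condition is void) followed by `exists_Y2`; `hX`: the
segment `[0, r₀]` (`ha.hX`). -/
theorem crossing {x₁ d : ℝ} (hd0 : 0 < d) (hd : d < π / 2) {t α β θ₀ r₀ : ℝ} {z : ℝ → ℂ}
    (ha : Arc A B (Ubox x₁ d) t α β θ₀ r₀ z) (hα : α < -π) (hβ : π < β) {φ r : ℝ}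
    {ψ : ℂ → ℂ} {e : ℂ} (hv : VS A (Ubox x₁ d) t φ r z ψ e) {Γ W₁ W₂ : Set ℂ}
    (hw : Sides A (Ubox x₁ d) t φ ψ e Γ W₁ W₂) (h0 : (0 : ℂ) ∉ W₁) {s a b : ℝ}
    (hs : s ∈ Ioo ‖e‖ t) {zL zR : ℝ → ℂ} (hc : CS A (Ubox x₁ d) ψ e s a b zL zR)
    (hG : (GU A (Ubox x₁ d) s ∩ ψ '' Vseg t φ).Nonempty) :
    ∃ x ∈ Icc (0 : ℝ) r₀, (x : ℂ) ∈ Cset e a b zL zR := by
  by_contra hcon
  have hcon' : ∀ x ∈ Icc (0 : ℝ) r₀, (x : ℂ) ∉ Cset e a b zL zR := fun x hx hxc =>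
    hcon ⟨x, hx, hxc⟩
  have hA := ha.pair.diffA
  have hA' : ∀ z ∈ ball (0 : ℂ) 1, deriv A z ≠ 0 := fun z hz =>
    ha.pair.deriv_ne (ball_subset_closedBall hz)
  have hUb : Ubox x₁ d ⊆ ball 0 1 := subset_closure.trans ha.dom.sub
  have hF : ContinuousOn (Fun A W₁ e) (Ubox x₁ d) :=
    continuousOn_Fun ha.dom.opn (hA.continuousOn.mono hUb) hw
  have hr0 := ha.hr₀
  have h0U : (0 : ℂ) ∈ Ubox x₁ d := by
    have h1 := ha.hX 0 ⟨le_rfl, hr0.1.le⟩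
    rwa [Complex.ofReal_zero] at h1
  have hrU : (r₀ : ℂ) ∈ Ubox x₁ d := ha.hX r₀ ⟨hr0.1.le, le_rfl⟩
  have hs0 : 0 < s := (norm_nonneg e).trans_lt hs.1
  obtain ⟨w, hw1, hw2, hw3, hY1⟩ := exists_Y1 ha hv hw h0 hs hG
  have hY2 := exists_Y2 ha hα hβ hv hw hs hc hw1 hw2 hw3
  have hY1' : JoinedIn {q | q ∈ Ubox x₁ d ∧ (Fun A W₁ e q = s → q ∈ Cset e a b zL zR)} 0
      (ψ w) := by
    refine hY1.mono ?_
    rintro q ⟨h1, h2, h3⟩
    refine ⟨h1, fun h4 => ?_⟩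
    rw [Fun_of_notMem h3] at h4
    exact absurd h4 h2.ne
  have hX : JoinedIn (Ubox x₁ d \ Cset e a b zL zR) 0 r₀ := by
    refine JoinedIn.ofLine (f := fun u : ℝ => ((u * r₀ : ℝ) : ℂ)) ?_ ?_ ?_ ?_
    · exact (Complex.continuous_ofReal.comp (continuous_id.mul continuous_const)).continuousOn
    · simp
    · simp
    · rintro _ ⟨u, hu, rfl⟩
      have h1 : u * r₀ ∈ Icc (0 : ℝ) r₀ :=
        ⟨mul_nonneg hu.1 hr0.1.le, mul_le_of_le_one_left hr0.1.le hu.2⟩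
      exact ⟨ha.hX _ h1, hcon' _ h1⟩
  have hx' : Fun A W₁ e 0 < s := by
    rw [Fun_of_notMem h0, ha.A0, norm_zero]
    exact hs0
  have hy' : s < Fun A W₁ e r₀ := by
    have h1 := norm_le_Fun (A := A) W₁ e r₀
    rw [ha.heq] at h1
    exact hs.2.trans_le h1
  exact separation_level hd0 hd hF (Cset_Fun hA hA' hv hw hs hc) (Cset_closed hc)
    (Cset_open hA hA' hv hw hs hc) h0U hrU hx' hy' (hY1'.trans hY2) hX

end Pool.Agent.HQT
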