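import Pool.Agent.HQT.Defs
import Pool.Agent.HQ.Dini

/-! HQT (growth exponent 3, MP_7da5c3_an), file DiniA: integration of the increments (section 10) -/

set_option autoImplicit false

open Complex Metric Set Filter Topology MeasureTheory
open scoped ComplexConjugate Real

namespace Pool.Agent.HQT

open Pool.Agent.HQ

variable {A B : ℂ → ℂ}

/-- INTEGRATION.
Proof. `N x = (volume (Lmap '' (G₁ ∪ {q ∈ G | F q < exp x}))).toReal`; the set is open (`F`
continuous on the open set `G`), its `Lmap`-image is open or measurable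
(`Lmap` is injective and holomorphic on `ball 0 1`: `AnalyticOnNhd.eqOn...`/open mapping, or
`MeasurableSet.image_of_continuousOn_injOn`), finite volume by `hfin`.  `N` is monotone.  For
`x ∈ (log s₁, log t)`, `s = exp x`, and small `δ`: `S` (from `hinc`) is disjoint from
`G₁ ∪ {F < s}` and contained in `{q ∈ G | F q < s e^δ}`, so
`N x + δ (κ - ε) ≤ N (x + δ)` (if `κ - ε < 0` use monotonicity).  `dini_ind` on `[a, b]`,
`log s₁ < a ≤ b < log t`, gives `N a + κ (b - a) ≤ N b`; `volume (Lmap '' G₁) ≤ N a`,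
`N b ≤ volume (Lmap '' G)`; let `a → log s₁`, `b → log t`. -/
theorem dini_area {G G₁ : Set ℂ} {F : ℂ → ℝ} {s₁ t κ : ℝ} (h0 : 0 < s₁) (h1 : s₁ < t)
    (hG : IsOpen G) (hG₁ : IsOpen G₁) (hGG : G₁ ⊆ G) (hGD : G ⊆ ball 0 1)
    (hF : ContinuousOn F G) (hfin : volume (Lmap '' G) ≠ ⊤)
    (hinc : ∀ s ∈ Ioo s₁ t, ∀ ε > 0, ∃ δ₀ > 0, ∀ δ ∈ Ioo (0 : ℝ) δ₀, ∃ S : Set ℂ,
      IsOpen S ∧ S ⊆ G ∧ Disjoint S G₁ ∧ (∀ q ∈ S, s < F q ∧ F q < s * Real.exp δ) ∧
      ENNReal.ofReal (δ * (κ - ε)) ≤ volume (Lmap '' S)) :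
    volume (Lmap '' G₁) + ENNReal.ofReal (κ * Real.log (t / s₁)) ≤ volume (Lmap '' G) := by
  have ht : 0 < t := h0.trans h1
  set E : ℝ → Set ℂ := fun x => G₁ ∪ {q | q ∈ G ∧ F q < Real.exp x} with hE
  have hEG : ∀ x, E x ⊆ G := by
    intro x q hq
    rcases hq with hq | hq
    · exact hGG hq
    · exact hq.1
  have hEm : ∀ x y, x ≤ y → E x ⊆ E y := by
    intro x y hxy q hq
    rcases hq with hq | hq
    · exact Or.inl hq
    · exact Or.inr ⟨hq.1, hq.2.trans_le (Real.exp_le_exp.2 hxy)⟩
  have hfin' : ∀ T : Set ℂ, T ⊆ G → volume (Lmap '' T) ≠ ⊤ := fun T hT =>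
    ne_top_of_le_ne_top hfin (measure_mono (image_mono hT))
  set N : ℝ → ℝ := fun x => (volume (Lmap '' E x)).toReal with hN
  have hNm : ∀ x y, x ≤ y → N x ≤ N y := fun x y hxy =>
    ENNReal.toReal_mono (hfin' _ (hEG y)) (measure_mono (image_mono (hEm x y hxy)))
  have hlog : Real.log s₁ < Real.log t := Real.log_lt_log h0 h1
  have hstep : ∀ a b, Real.log s₁ < a → a ≤ b → b < Real.log t →
      N a + κ * (b - a) ≤ N b := by
    intro a b ha hab hb
    refine dini_ind hab (fun x _ y _ hxy => hNm x y hxy) fun x hx ε hε => ?_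
    have hs : Real.exp x ∈ Ioo s₁ t := by
      constructor
      · rw [← Real.exp_log h0]
        exact Real.exp_lt_exp.2 (ha.trans_le hx.1)
      · rw [← Real.exp_log ht]
        exact Real.exp_lt_exp.2 (hx.2.trans hb)
    obtain ⟨δ₀, hδ₀, hS⟩ := hinc (Real.exp x) hs ε hε
    refine ⟨δ₀, hδ₀, fun y hy _ => ?_⟩
    obtain ⟨S, hSo, hSG, hSd, hSF, hSv⟩ := hS (y - x) ⟨by linarith [hy.1], by linarith [hy.2]⟩
    have hexp : Real.exp x * Real.exp (y - x) = Real.exp y := by
      rw [← Real.exp_add]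
      congr 1
      ring
    rw [hexp] at hSF
    have hSE : S ⊆ E y := fun q hq => Or.inr ⟨hSG hq, (hSF q hq).2⟩
    have hdis : Disjoint (E x) S := by
      rw [Set.disjoint_left]
      rintro q (hq | hq) hqS
      · exact Set.disjoint_left.1 hSd hqS hq
      · exact absurd hq.2 (not_lt.2 (hSF q hqS).1.le)
    have hxy : x ≤ y := hy.1.le
    have hsum : volume (Lmap '' E x) + volume (Lmap '' S) ≤ volume (Lmap '' E y) := by
      have hm : MeasurableSet (Lmap '' S) :=
        hSo.measurableSet.image_of_continuousOn_injOn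
          (differentiableOn_Lmap.continuousOn.mono (hSG.trans hGD))
          (injOn_Lmap.mono (hSG.trans hGD))
      have hd : Disjoint (Lmap '' E x) (Lmap '' S) := by
        rw [Set.disjoint_left]
        rintro _ ⟨q, hq, rfl⟩ ⟨q', hq', he⟩
        have h2 := injOn_Lmap (hGD (hSG hq')) (hGD (hEG x hq)) he
        rw [h2] at hq'
        exact Set.disjoint_left.1 hdis hq hq'
      rw [← measure_union hd hm, ← image_union]
      exact measure_mono (image_mono (union_subset (hEm x y hxy) hSE))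
    have h2 : N x + (volume (Lmap '' S)).toReal ≤ N y := by
      have h3 := ENNReal.toReal_mono (hfin' _ (hEG y)) hsum
      rwa [ENNReal.toReal_add (hfin' _ (hEG x)) (hfin' _ hSG)] at h3
    have h3 : (y - x) * (κ - ε) ≤ (volume (Lmap '' S)).toReal :=
      (ENNReal.ofReal_le_iff_le_toReal (hfin' _ hSG)).1 hSv
    linarith
  have hV1 : ∀ a, (volume (Lmap '' G₁)).toReal ≤ N a := fun a =>
    ENNReal.toReal_mono (hfin' _ (hEG a)) (measure_mono (image_mono subset_union_left))
  have hV2 : ∀ b, N b ≤ (volume (Lmap '' G)).toReal := fun b =>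
    ENNReal.toReal_mono hfin (measure_mono (image_mono (hEG b)))
  have hmain : (volume (Lmap '' G₁)).toReal + κ * (Real.log t - Real.log s₁) ≤
      (volume (Lmap '' G)).toReal ∨ κ ≤ 0 := by
    by_cases hκ : κ ≤ 0
    · exact Or.inr hκ
    · left
      push Not at hκ
      refine le_of_forall_pos_le_add fun ε hε => ?_
      set η : ℝ := min (ε / (2 * κ)) ((Real.log t - Real.log s₁) / 2) / 2 with hη
      have h2 : 0 < min (ε / (2 * κ)) ((Real.log t - Real.log s₁) / 2) :=
        lt_min (by positivity) (by linarith)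
      have h3 : η ≤ ε / (2 * κ) / 2 := by
        rw [hη]
        have := min_le_left (ε / (2 * κ)) ((Real.log t - Real.log s₁) / 2)
        linarith
      have h4 : η ≤ (Real.log t - Real.log s₁) / 2 / 2 := by
        rw [hη]
        have := min_le_right (ε / (2 * κ)) ((Real.log t - Real.log s₁) / 2)
        linarith
      have h5 : 0 < η := by rw [hη]; linarith
      have h6 := hstep (Real.log s₁ + η) (Real.log t - η) (by linarith) (by linarith)
        (by linarith)
      have h7 := hV1 (Real.log s₁ + η)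
      have h8 := hV2 (Real.log t - η)
      have h9 : κ * (2 * η) ≤ ε := by
        have h10 : κ * (2 * η) ≤ κ * (2 * (ε / (2 * κ) / 2)) :=
          mul_le_mul_of_nonneg_left (by linarith) hκ.le
        have h11 : κ * (2 * (ε / (2 * κ) / 2)) = ε / 2 := by
          field_simp
        linarith
      have h10 : κ * (Real.log t - η - (Real.log s₁ + η)) =
          κ * (Real.log t - Real.log s₁) - κ * (2 * η) := by ring
      linarith
  rcases hmain with h2 | h2
  · have h3 : Real.log (t / s₁) = Real.log t - Real.log s₁ := Real.log_div ht.ne' h0.ne'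
    rw [h3, ← ENNReal.ofReal_toReal (hfin' _ hGG), ← ENNReal.ofReal_toReal hfin]
    rcases le_or_gt 0 κ with hκ | hκ
    · rw [← ENNReal.ofReal_add ENNReal.toReal_nonneg
        (mul_nonneg hκ (by linarith))]
      exact ENNReal.ofReal_le_ofReal h2
    · rw [ENNReal.ofReal_of_nonpos (mul_nonpos_of_nonpos_of_nonneg hκ.le (by linarith)),
        add_zero]
      exact ENNReal.ofReal_le_ofReal (ENNReal.toReal_mono hfin (measure_mono (image_mono hGG)))
  · have h3 : 0 ≤ Real.log (t / s₁) := Real.log_nonneg ((one_le_div h0).2 h1.le)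
    rw [ENNReal.ofReal_of_nonpos (mul_nonpos_of_nonpos_of_nonneg h2 h3), add_zero]
    exact measure_mono (image_mono hGG)

end Pool.Agent.HQT
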