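import Pool.Agent.HQT.Defs

/-! HQT (growth exponent 3, MP_7da5c3_an), file FunC: the function F (section 8) -/

set_option autoImplicit false

open Complex Metric Set Filter Topology MeasureTheory
open scoped ComplexConjugate Real

namespace Pool.Agent.HQT

open Pool.Agent.HQ

variable {A B : ℂ → ℂ}

theorem norm_le_Fun (W : Set ℂ) (e z : ℂ) : ‖A z‖ ≤ Fun A W e z := by
  unfold Fun
  split_ifs with h
  · have h1 := norm_add_le e (A z - e)
    rwa [add_sub_cancel] at h1
  · exact le_rfl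

theorem Fun_of_mem {W : Set ℂ} {e z : ℂ} (h : z ∈ W) : Fun A W e z = ‖e‖ + ‖A z - e‖ := by
  unfold Fun
  exact if_pos h

theorem Fun_of_notMem {W : Set ℂ} {e z : ℂ} (h : z ∉ W) : Fun A W e z = ‖A z‖ := by
  unfold Fun
  exact if_neg h

/-- On the cut both formulas agree: `A z = s e^{i arg e}`, `s > ‖e‖`, `‖A z - e‖ = s - ‖e‖`. -/
theorem Fun_cut {e z : ℂ} {s : ℝ} (hs : ‖e‖ < s) (h : A z = s * exp (arg e * I)) :
    ‖e‖ + ‖A z - e‖ = ‖A z‖ := by
  have h0 : 0 ≤ ‖e‖ := norm_nonneg e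
  have h1 : A z - e = ((s - ‖e‖ : ℝ) : ℂ) * exp (arg e * I) := by
    rw [h]
    nth_rewrite 2 [← norm_mul_exp_arg_mul_I e]
    push_cast
    ring
  have h2 : ‖A z - e‖ = s - ‖e‖ := by
    rw [h1, norm_mul, norm_exp_ofReal_mul_I, mul_one, Complex.norm_real, Real.norm_eq_abs,
      abs_of_pos (by linarith)]
  have h3 : ‖A z‖ = s := by
    rw [h, norm_mul, norm_exp_ofReal_mul_I, mul_one, Complex.norm_real, Real.norm_eq_abs,
      abs_of_pos (by linarith)]
  rw [h2, h3]
  ring

/-- Proof. `hs.Γcl`: `U \ Γ` is open.  If `z ∈ U \ Γ` and `z ∈ closure W₁` then a ball around `z` in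
`U \ Γ` meets `W₁`, so (`comp₁`) it is contained in `W₁`.  Hence every `z ∈ U` is in the open set
`W₁`, or in the open set `(U \ Γ) \ closure W₁`, or in `Γ`.  In the first two cases `Fun` is locally
one of the two continuous functions; at `z ∈ Γ` both continuous functions have the same value
(`Fun_cut`), so `Fun` is continuous at `z`. -/
theorem continuousOn_Fun {U : Set ℂ} (hU : IsOpen U) (hA : ContinuousOn A U) {t φ : ℝ}
    {ψ : ℂ → ℂ} {e : ℂ} {Γ W₁ W₂ : Set ℂ} (hs : Sides A U t φ ψ e Γ W₁ W₂) :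
    ContinuousOn (Fun A W₁ e) U := by
  intro z hz
  apply ContinuousAt.continuousWithinAt
  have hAz : ContinuousAt A z := hA.continuousAt (hU.mem_nhds hz)
  have hf : ContinuousAt (fun z => ‖e‖ + ‖A z - e‖) z :=
    continuousAt_const.add (hAz.sub continuousAt_const).norm
  have hg : ContinuousAt (fun z => ‖A z‖) z := hAz.norm
  by_cases hW : z ∈ W₁
  · refine hf.congr ?_
    filter_upwards [hs.opn₁.mem_nhds hW] with w hw
    exact (Fun_of_mem hw).symm
  by_cases hΓ : z ∈ Γ
  · obtain ⟨s, hse, hsA⟩ := hs.Γray z hΓ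
    have h1 := Fun_cut hse hsA
    unfold ContinuousAt
    rw [Fun_of_notMem hW]
    unfold ContinuousAt at hf hg
    simp only [h1] at hf
    unfold Fun
    classical
    exact Tendsto.if' hf hg
  · have hcl : z ∉ closure Γ := fun h => hΓ (hs.Γcl z hz h)
    have hnb : U ∩ (closure Γ)ᶜ ∈ 𝓝 z :=
      (hU.inter isClosed_closure.isOpen_compl).mem_nhds ⟨hz, hcl⟩
    obtain ⟨ε, hε, hball⟩ := Metric.mem_nhds_iff.1 hnb
    have hsub : ball z ε ⊆ U \ Γ := fun w hw =>
      ⟨(hball hw).1, fun h => (hball hw).2 (subset_closure h)⟩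
    have hdis : ∀ w ∈ ball z ε, w ∉ W₁ := by
      intro w hw hwW
      exact hW (hs.comp₁ (ball z ε) (convex_ball z ε).isPreconnected hsub ⟨w, hw, hwW⟩
        (mem_ball_self hε))
    refine hg.congr ?_
    filter_upwards [ball_mem_nhds z hε] with w hw
    exact (Fun_of_notMem (hdis w hw)).symm

end Pool.Agent.HQT
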