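import Pool.Agent.HQT.CSSide
import Pool.Agent.HQT.FunC

/-! HQT (growth exponent 3, MP_7da5c3_an), file CSClop: C_s is clopen in {F = s} (section 8) -/

set_option autoImplicit false

open Complex Metric Set Filter Topology MeasureTheory
open scoped ComplexConjugate Real

namespace Pool.Agent.HQT

open Pool.Agent.HQ

variable {A B : ℂ → ℂ}

private theorem norm_CSClop {s θ : ℝ} (hs : 0 ≤ s) : ‖(s * exp (θ * I) : ℂ)‖ = s := by
  rw [norm_mul, Complex.norm_real, Real.norm_of_nonneg hs, Complex.norm_exp_ofReal_mul_I, mul_one]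

/-- Imaginary part of `ρ e^{iθ} e^{-iχ}`. -/
private theorem im_CSClop (ρ θ χ : ℝ) :
    ((ρ * exp (θ * I) : ℂ) * exp (-(χ * I))).im = ρ * Real.sin (θ - χ) := by
  have h1 : (ρ * exp (θ * I) : ℂ) * exp (-(χ * I)) = (ρ : ℂ) * exp (((θ - χ : ℝ) : ℂ) * I) := by
    rw [mul_assoc, ← Complex.exp_add]
    congr 2
    push_cast
    ring
  rw [h1, Complex.im_ofReal_mul, Complex.exp_ofReal_mul_I_im]

/-- Points of the level near a point of a lift are on the lift. -/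
private theorem lift_CSClop {F : ℂ → ℂ} {ρ α β : ℝ} {z : ℝ → ℂ} (hρ : 0 < ρ)
    (hz : IsLift F ρ α β z) {θ₀ : ℝ} (hθ : θ₀ ∈ Icc α β) {δ : ℝ} (hδ : 0 < δ)
    (hinj : InjOn F (ball (z θ₀) δ)) (hF : ContinuousAt F (z θ₀)) {ε : ℝ} (hε : 0 < ε) :
    ∀ᶠ q in 𝓝 (z θ₀), ‖F q‖ = ρ →
      ∃ θ : ℝ, |θ - θ₀| < ε ∧ F q = ρ * exp (θ * I) ∧ (θ ∈ Icc α β → z θ = q) := by
  have hFq : F (z θ₀) = ρ * exp (θ₀ * I) := hz.eq θ₀ hθ
  have hne : F (z θ₀) ≠ 0 := by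
    rw [hFq]
    exact mul_ne_zero (by exact_mod_cast hρ.ne') (Complex.exp_ne_zero _)
  obtain ⟨ε', hε', hnear⟩ : ∃ ε' > 0, ∀ θ ∈ Icc α β, |θ - θ₀| < ε' → z θ ∈ ball (z θ₀) δ := by
    have h1 := Metric.continuousWithinAt_iff.mp (hz.cont θ₀ hθ) δ hδ
    obtain ⟨ε', h2, h3⟩ := h1
    refine ⟨ε', h2, fun θ h4 h5 => ?_⟩
    exact mem_ball.2 (h3 h4 (by rwa [Real.dist_eq]))
  have harg : ContinuousAt (fun q => arg (F q / F (z θ₀))) (z θ₀) := by
    refine ContinuousAt.comp (g := arg) (f := fun q => F q / F (z θ₀)) ?_ (hF.div_const _)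
    rw [div_self hne]
    exact Complex.continuousAt_arg (by simp [Complex.slitPlane])
  have hsmall : ∀ᶠ q in 𝓝 (z θ₀), |arg (F q / F (z θ₀))| < min ε ε' := by
    have h1 : Tendsto (fun q => |arg (F q / F (z θ₀))|) (𝓝 (z θ₀)) (𝓝 0) := by
      have h2 := harg.abs.tendsto
      simp only [div_self hne, Complex.arg_one, abs_zero] at h2
      exact h2
    exact h1.eventually_lt_const (lt_min hε hε')
  filter_upwards [hsmall, isOpen_ball.mem_nhds (mem_ball_self hδ)] with q h1 h2 h3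
  obtain ⟨h4, h5⟩ := lt_min_iff.1 h1
  have h6 : F q = ρ * exp (((θ₀ + arg (F q / F (z θ₀)) : ℝ) : ℂ) * I) := by
    have h7 : ‖F q / F (z θ₀)‖ = 1 := by
      rw [norm_div, h3, hFq, norm_CSClop hρ.le, div_self hρ.ne']
    have h8 := Complex.norm_mul_exp_arg_mul_I (F q / F (z θ₀))
    rw [h7, Complex.ofReal_one, one_mul] at h8
    have h9 : F q = F (z θ₀) * (F q / F (z θ₀)) := by
      field_simp
    rw [Complex.ofReal_add, add_mul, Complex.exp_add, h8, ← mul_assoc, ← hFq]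
    exact h9
  refine ⟨θ₀ + arg (F q / F (z θ₀)), by rwa [add_sub_cancel_left], h6, fun h7 => ?_⟩
  refine hinj (hnear _ h7 (by rwa [add_sub_cancel_left])) h2 ?_
  rw [hz.eq _ h7]
  exact h6.symm

/-- Proof. `zL θ`, `θ < χ`: in `W₂`, not in `W₁`, `Fun = ‖A‖ = s`.  `θ = χ`: the point
`J = ψ (s e^{iχ}) ∈ Γ` (`ψΓ`) is not in `W₁` (`sub₁`).  `zR η`, `η > χ`: in `W₁`,
`Fun = ‖e‖ + ‖A - e‖ = ‖e‖ + (s - ‖e‖)`. -/
theorem Cset_Fun {U : Set ℂ} (hA : DifferentiableOn ℂ A (ball 0 1))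
    (hA' : ∀ z ∈ ball (0 : ℂ) 1, deriv A z ≠ 0) {t φ r : ℝ} {z : ℝ → ℂ} {ψ : ℂ → ℂ} {e : ℂ}
    (hv : VS A U t φ r z ψ e) {Γ W₁ W₂ : Set ℂ} (hw : Sides A U t φ ψ e Γ W₁ W₂)
    {s a b : ℝ} (hs : s ∈ Ioo ‖e‖ t) {zL zR : ℝ → ℂ} (hc : CS A U ψ e s a b zL zR) :
    ∀ q ∈ Cset e a b zL zR, q ∈ U ∧ Fun A W₁ e q = s := by
  have hs0 : 0 < s := (norm_nonneg e).trans_lt hs.1
  have hJ : ψ (s * exp (arg e * I)) ∈ U ∧ Fun A W₁ e (ψ (s * exp (arg e * I))) = s := by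
    have h1 := hw.ψΓ s hs
    have h2 : ψ (s * exp (arg e * I)) ∉ W₁ := fun h3 => (hw.sub₁ h3).2 h1
    refine ⟨hw.Γsub h1, ?_⟩
    rw [Fun_of_notMem h2, ← hc.baseL, hc.liftL.eq _ ⟨hc.ha.le, le_rfl⟩, norm_CSClop hs0.le]
  rintro q (⟨θ, hθ, rfl⟩ | ⟨η, hη, rfl⟩)
  · rcases hθ.2.lt_or_eq with h1 | h1
    · refine ⟨hc.memL θ hθ, ?_⟩
      have h2 : zL θ ∉ W₁ := fun h3 =>
        (Set.disjoint_left.1 hw.disj h3) (CS_left hA hA' hv hw hs hc θ ⟨hθ.1, h1⟩)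
      rw [Fun_of_notMem h2, hc.liftL.eq _ ⟨hθ.1.le, hθ.2⟩, norm_CSClop hs0.le]
    · rw [h1, hc.baseL]
      exact hJ
  · rcases hη.1.lt_or_eq with h1 | h1
    · refine ⟨hc.memR η hη, ?_⟩
      have h3 := hc.liftR.eq η ⟨hη.1, hη.2.le⟩
      have h4 : ‖A (zR η) - e‖ = s - ‖e‖ := by
        rw [h3]
        exact norm_CSClop (by linarith [hs.1])
      rw [Fun_of_mem (CS_right hA hA' hv hw hs hc η ⟨h1, hη.2⟩), h4]
      ring
    · rw [← h1, hc.baseR]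
      exact hJ

/-- Proof. `zL '' Icc a χ` and `zR '' Icc χ b` are compact; `zL a ∉ U`, `zR b ∉ U`. -/
theorem Cset_closed {U : Set ℂ} {ψ : ℂ → ℂ} {e : ℂ} {s a b : ℝ} {zL zR : ℝ → ℂ}
    (hc : CS A U ψ e s a b zL zR) :
    ∀ q ∈ U, q ∈ closure (Cset e a b zL zR) → q ∈ Cset e a b zL zR := by
  intro q hqU hq
  have h1 : IsCompact (zL '' Icc a (arg e)) := isCompact_Icc.image_of_continuousOn hc.liftL.cont
  have h2 : IsCompact (zR '' Icc (arg e) b) := isCompact_Icc.image_of_continuousOn hc.liftR.cont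
  have h3 : IsClosed (zL '' Icc a (arg e) ∪ zR '' Icc (arg e) b) := (h1.union h2).isClosed
  have h4 : Cset e a b zL zR ⊆ zL '' Icc a (arg e) ∪ zR '' Icc (arg e) b :=
    union_subset_union (image_mono Ioc_subset_Icc_self) (image_mono Ico_subset_Icc_self)
  rcases closure_minimal h4 h3 hq with ⟨θ, hθ, rfl⟩ | ⟨η, hη, rfl⟩
  · refine Or.inl ⟨θ, ⟨lt_of_le_of_ne hθ.1 ?_, hθ.2⟩, rfl⟩
    rintro rfl
    exact hc.exL hqU
  · refine Or.inr ⟨η, ⟨hη.1, lt_of_le_of_ne hη.2 ?_⟩, rfl⟩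
    rintro rfl
    exact hc.exR hqU

/-- Proof. Let `q ∈ C_s`; `A` is injective on a neighbourhood `N` of `q` with local inverse
`ψ_q` on a ball around `A q` (`exists_locInv` with `K = {q}`).
(a) `q = zL θ₀`, `a < θ₀ < χ`: `q ∈ W₂` (open), `Fun = ‖A‖` on `W₂`; `q'` near `q` with
`‖A q'‖ = s`: `A q' = s e^{iθ}` with `θ` near `θ₀` (continuity of `arg (A q' / A q)`), `zL θ`
is near `q`, so `q' = zL θ` by injectivity.
(b) `q = zR η₀`, `χ < η₀ < b`: the same in `W₁` with `A - e`.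
(c) `q = J`, `A J = s e^{iχ}`.  For `q'` near `J` (so near that `q' = ψ (A q')`, `A q' ∈ Vseg t φ`):
if `q' ∈ W₁`: `‖A q' - e‖ = s - ‖e‖`, `A q' = e + ρ e^{iη}`, `η` near `χ`; `η < χ` would
give `Im (A q' e^{-iχ}) = ρ sin (η - χ) < 0`, so `q' ∈ W₂`, contradiction with `disj`; so
`η ≥ χ` and `q' = zR η`.  If `q' ∉ W₁`: `‖A q'‖ = s`, `A q' = s e^{iθ}`, `θ` near `χ`;
`θ > χ` would give `q' ∈ W₁` by `plus`; so `θ ≤ χ` and `q' = zL θ`. -/
theorem Cset_open {U : Set ℂ} (hA : DifferentiableOn ℂ A (ball 0 1))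
    (hA' : ∀ z ∈ ball (0 : ℂ) 1, deriv A z ≠ 0) {t φ r : ℝ} {z : ℝ → ℂ} {ψ : ℂ → ℂ} {e : ℂ}
    (hv : VS A U t φ r z ψ e) {Γ W₁ W₂ : Set ℂ} (hw : Sides A U t φ ψ e Γ W₁ W₂)
    {s a b : ℝ} (hs : s ∈ Ioo ‖e‖ t) {zL zR : ℝ → ℂ} (hc : CS A U ψ e s a b zL zR) :
    ∀ q ∈ Cset e a b zL zR, ∀ᶠ q' in 𝓝 q, Fun A W₁ e q' = s → q' ∈ Cset e a b zL zR := by
  have hs0 : 0 < s := (norm_nonneg e).trans_lt hs.1
  have hρ0 : 0 < s - ‖e‖ := by linarith [hs.1]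
  have hpi := Real.pi_pos
  -- local injectivity and continuity
  have hloc : ∀ q ∈ ball (0 : ℂ) 1, ContinuousAt A q ∧ ∃ δ > 0, InjOn A (ball q δ) := by
    intro q hq
    refine ⟨hA.continuousOn.continuousAt (isOpen_ball.mem_nhds hq), ?_⟩
    obtain ⟨δ, hδ, r', hr', h1, -⟩ := exists_locInv hA hA' (K := {q}) isCompact_singleton
      (by rwa [Set.singleton_subset_iff])
    exact ⟨δ, hδ, (h1 q rfl).2⟩
  have hlocL : ∀ θ₀ ∈ Icc a (arg e), ∀ ε > 0, ∀ᶠ q in 𝓝 (zL θ₀), ‖A q‖ = s →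
      ∃ θ : ℝ, |θ - θ₀| < ε ∧ A q = s * exp (θ * I) ∧ (θ ∈ Icc a (arg e) → zL θ = q) := by
    intro θ₀ hθ₀ ε hε
    obtain ⟨h1, δ, hδ, h2⟩ := hloc _ (hc.liftL.mem θ₀ hθ₀)
    exact lift_CSClop hs0 hc.liftL hθ₀ hδ h2 h1 hε
  have hlocR : ∀ θ₀ ∈ Icc (arg e) b, ∀ ε > 0, ∀ᶠ q in 𝓝 (zR θ₀), ‖A q - e‖ = s - ‖e‖ →
      ∃ θ : ℝ, |θ - θ₀| < ε ∧ A q - e = ((s - ‖e‖ : ℝ) : ℂ) * exp (θ * I) ∧
        (θ ∈ Icc (arg e) b → zR θ = q) := by
    intro θ₀ hθ₀ ε hε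
    obtain ⟨h1, δ, hδ, h2⟩ := hloc _ (hc.liftR.mem θ₀ hθ₀)
    refine lift_CSClop (F := fun z => A z - e) hρ0 hc.liftR hθ₀ hδ ?_ (h1.sub_const e) hε
    intro x hx y hy hxy
    exact h2 hx hy (sub_left_injective hxy)
  have hJ : ∀ᶠ q' in 𝓝 (ψ (s * exp (arg e * I))), Fun A W₁ e q' = s →
      q' ∈ Cset e a b zL zR := by
    have hw0 : (s * exp (arg e * I) : ℂ) ∈ Vseg t φ :=
      ray_mem_Vseg hv.hφ hv.hφ' hv.tip_re hv.tip_norm hs.1 hs.2
    have hw1 : (s * exp (arg e * I) : ℂ) ∈ thickening r (Vseg t φ) :=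
      self_subset_thickening hv.good.hr _ hw0
    have hJb : ψ (s * exp (arg e * I)) ∈ ball (0 : ℂ) 1 := hv.good.branch.mem _ hw1
    have hAJ : A (ψ (s * exp (arg e * I))) = s * exp (arg e * I) := hv.good.branch.eq _ hw1
    obtain ⟨hAc, δ, hδ, hinj⟩ := hloc _ hJb
    have hV : ∀ᶠ q' in 𝓝 (ψ (s * exp (arg e * I))), A q' ∈ Vseg t φ := by
      refine hAc.eventually_mem ?_
      rw [hAJ]
      exact (isOpen_Vseg t φ).mem_nhds hw0
    have hψA : ∀ᶠ q' in 𝓝 (ψ (s * exp (arg e * I))),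
        ψ (A q') ∈ ball (ψ (s * exp (arg e * I))) δ := by
      have h1 : ContinuousAt ψ (A (ψ (s * exp (arg e * I)))) := by
        rw [hAJ]
        exact hv.good.branch.diff.continuousOn.continuousAt
          (isOpen_thickening.mem_nhds hw1)
      have h2 : ContinuousAt (fun q' => ψ (A q')) (ψ (s * exp (arg e * I))) := h1.comp hAc
      refine h2.eventually_mem ?_
      simp only [hAJ]
      exact isOpen_ball.mem_nhds (mem_ball_self hδ)
    have hψ : ∀ᶠ q' in 𝓝 (ψ (s * exp (arg e * I))), ψ (A q') = q' := by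
      filter_upwards [hV, hψA, isOpen_ball.mem_nhds (mem_ball_self hδ)] with q' h1 h2 h3
      exact hinj h2 h3 (hv.good.branch.eq _ (self_subset_thickening hv.good.hr _ h1))
    have hL := hlocL (arg e) ⟨hc.ha.le, le_rfl⟩ (min (arg e - a) π)
      (lt_min (by linarith [hc.ha]) hpi)
    have hR := hlocR (arg e) ⟨le_rfl, hc.hb.le⟩ (min (b - arg e) π)
      (lt_min (by linarith [hc.hb]) hpi)
    rw [hc.baseL] at hL
    rw [hc.baseR] at hR
    filter_upwards [hL, hR, hV, hψ] with q' h1 h2 h3 h4 h5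
    by_cases h6 : q' ∈ W₁
    · have h7 : ‖A q' - e‖ = s - ‖e‖ := by
        rw [Fun_of_mem h6] at h5
        linarith
      obtain ⟨η, h8, h9, h10⟩ := h2 h7
      obtain ⟨h11, h12⟩ := lt_min_iff.1 h8
      have h13 := abs_lt.1 h11
      have h14 := abs_lt.1 h12
      by_cases h15 : arg e ≤ η
      · exact Or.inr ⟨η, ⟨h15, by linarith⟩, h10 ⟨h15, by linarith⟩⟩
      · exfalso
        rw [not_le] at h15
        have h16 : (A q' * exp (-(arg e * I))).im < 0 := by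
          have h17 : A q' = (‖e‖ : ℂ) * exp (arg e * I)
              + ((s - ‖e‖ : ℝ) : ℂ) * exp (η * I) := by
            rw [Complex.norm_mul_exp_arg_mul_I, ← h9]
            ring
          rw [h17, add_mul, Complex.add_im, im_CSClop, im_CSClop, sub_self, Real.sin_zero,
            mul_zero, zero_add]
          have h18 : Real.sin (η - arg e) < 0 :=
            Real.sin_neg_of_neg_of_neg_pi_lt (by linarith) (by linarith)
          exact mul_neg_of_pos_of_neg hρ0 h18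
        have h17 := hw.minus _ h3 h16
        rw [h4] at h17
        exact Set.disjoint_left.1 hw.disj h6 h17
    · have h7 : ‖A q'‖ = s := by
        rwa [Fun_of_notMem h6] at h5
      obtain ⟨θ, h8, h9, h10⟩ := h1 h7
      obtain ⟨h11, h12⟩ := lt_min_iff.1 h8
      have h13 := abs_lt.1 h11
      have h14 := abs_lt.1 h12
      by_cases h15 : θ ≤ arg e
      · exact Or.inl ⟨θ, ⟨by linarith, h15⟩, h10 ⟨by linarith, h15⟩⟩
      · exfalso
        rw [not_le] at h15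
        have h16 : 0 < (A q' * exp (-(arg e * I))).im := by
          rw [h9, im_CSClop]
          exact mul_pos hs0 (Real.sin_pos_of_pos_of_lt_pi (by linarith) (by linarith))
        have h17 := hw.plus _ h3 h16
        rw [h4] at h17
        exact h6 h17
  rintro q (⟨θ, hθ, rfl⟩ | ⟨η, hη, rfl⟩)
  · rcases hθ.2.lt_or_eq with h1 | h1
    · have h2 : zL θ ∈ W₂ := CS_left hA hA' hv hw hs hc θ ⟨hθ.1, h1⟩
      have h3 := hlocL θ ⟨hθ.1.le, hθ.2⟩ (min (θ - a) (arg e - θ))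
        (lt_min (by linarith [hθ.1]) (by linarith))
      filter_upwards [h3, hw.opn₂.mem_nhds h2] with q' h4 h5 h6
      have h7 : q' ∉ W₁ := fun h8 => Set.disjoint_left.1 hw.disj h8 h5
      rw [Fun_of_notMem h7] at h6
      obtain ⟨θ', h8, -, h10⟩ := h4 h6
      obtain ⟨h11, h12⟩ := lt_min_iff.1 h8
      have h13 := abs_lt.1 h11
      have h14 := abs_lt.1 h12
      exact Or.inl ⟨θ', ⟨by linarith, by linarith⟩, h10 ⟨by linarith, by linarith⟩⟩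
    · rw [h1, hc.baseL]
      exact hJ
  · rcases hη.1.lt_or_eq with h1 | h1
    · have h2 : zR η ∈ W₁ := CS_right hA hA' hv hw hs hc η ⟨h1, hη.2⟩
      have h3 := hlocR η ⟨hη.1, hη.2.le⟩ (min (η - arg e) (b - η))
        (lt_min (by linarith) (by linarith [hη.2]))
      filter_upwards [h3, hw.opn₁.mem_nhds h2] with q' h4 h5 h6
      rw [Fun_of_mem h5] at h6
      obtain ⟨η', h8, -, h10⟩ := h4 (by linarith)
      obtain ⟨h11, h12⟩ := lt_min_iff.1 h8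
      have h13 := abs_lt.1 h11
      have h14 := abs_lt.1 h12
      exact Or.inr ⟨η', ⟨by linarith, by linarith⟩, h10 ⟨by linarith, by linarith⟩⟩
    · rw [← h1, hc.baseR]
      exact hJ

end Pool.Agent.HQT
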