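import Mathlib

/-! HQT (growth exponent 3, MP_7da5c3_an), file IncrA: elementary inequality for the increment (section 10) -/

set_option autoImplicit false

open Complex Metric Set Filter Topology MeasureTheory
open scoped ComplexConjugate Real

namespace Pool.Agent.HQT


variable {A B : ℂ → ℂ}

/-- Proof. Let `p, q ≥ 0`, `p + q ≥ 2d - τ`.  By Titu,
`p²/(P) + (s/(s-E)) q²/Q = s (p²/(s P) + q²/((s-E) Q)) ≥ s (p+q)²/(s P + (s - E) Q)
≥ (2d - τ)²/(3π) ≥ 4d²/(3π) - 4 d τ/(3π)`.  With `δ' = log ((s e^δ - E)/(s - E))`,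
`δ' / δ → s/(s - E)` as `δ → 0+` (derivative at `0`), so
`(δ (p²/P - ε₁) + δ' (q²/Q - ε₁)) / δ → p²/P + (s/(s-E)) q²/Q - ε₁ (1 + s/(s-E))`. -/
theorem incr_ineq {E s P Q p q d ε : ℝ} (hE : 0 ≤ E) (hs : E < s) (hP : 0 < P) (hQ : 0 < Q)
    (hp : 0 ≤ p) (hq : 0 ≤ q) (hlen : s * P + (s - E) * Q ≤ 3 * Real.pi * s) (hd : 0 < d)
    {τ ε₁ : ℝ} (hτ : 0 < τ) (hτ2 : τ < 2 * d) (hpq : 2 * d - τ ≤ p + q) (hε₁ : 0 < ε₁)
    (hε : 4 * d * τ / (3 * Real.pi) + ε₁ * (1 + s / (s - E)) < ε) :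
    ∀ᶠ δ in 𝓝[>] (0 : ℝ), δ * (4 * d ^ 2 / (3 * Real.pi) - ε) ≤
      δ * (p ^ 2 / P - ε₁) +
        Real.log ((s * Real.exp δ - E) / (s - E)) * (q ^ 2 / Q - ε₁) := by
  have hs0 : 0 < s := lt_of_le_of_lt hE hs
  have hsE : 0 < s - E := sub_pos.2 hs
  have hpi : 0 < 3 * Real.pi := by positivity
  have hX : 0 < s * P := mul_pos hs0 hP
  have hY : 0 < (s - E) * Q := mul_pos hsE hQ
  -- Titu
  have h1 : (p + q) ^ 2 / (s * P + (s - E) * Q) ≤ p ^ 2 / (s * P) + q ^ 2 / ((s - E) * Q) := by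
    rw [div_add_div _ _ hX.ne' hY.ne', div_le_div_iff₀ (by positivity) (by positivity)]
    nlinarith [mul_nonneg (add_pos hX hY).le (sq_nonneg (p * ((s - E) * Q) - q * (s * P))),
      sq_nonneg (p * ((s - E) * Q) - q * (s * P))]
  have h2 : p ^ 2 / P + s / (s - E) * (q ^ 2 / Q) =
      s * (p ^ 2 / (s * P) + q ^ 2 / ((s - E) * Q)) := by
    field_simp
  have h3 : (p + q) ^ 2 / (3 * Real.pi) ≤ s * ((p + q) ^ 2 / (s * P + (s - E) * Q)) := by
    rw [mul_div_assoc', div_le_div_iff₀ hpi (by positivity)]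
    nlinarith [mul_le_mul_of_nonneg_left hlen (sq_nonneg (p + q))]
  have h4 : (4 * d ^ 2 - 4 * d * τ) / (3 * Real.pi) ≤ (p + q) ^ 2 / (3 * Real.pi) := by
    apply div_le_div_of_nonneg_right _ hpi.le
    nlinarith [sq_nonneg τ, mul_le_mul hpq hpq (by linarith) (by linarith)]
  have h5 : (4 * d ^ 2 - 4 * d * τ) / (3 * Real.pi) ≤ p ^ 2 / P + s / (s - E) * (q ^ 2 / Q) := by
    rw [h2]
    exact h4.trans (h3.trans (mul_le_mul_of_nonneg_left h1 hs0.le))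
  have h6 : 0 < (p ^ 2 / P - ε₁) + s / (s - E) * (q ^ 2 / Q - ε₁) -
      (4 * d ^ 2 / (3 * Real.pi) - ε) := by
    rw [sub_div] at h5
    have h7 : s / (s - E) * (q ^ 2 / Q - ε₁) = s / (s - E) * (q ^ 2 / Q) - ε₁ * (s / (s - E)) := by
      ring
    rw [h7]
    linarith
  -- the derivative
  have hd1 : HasDerivAt (fun δ : ℝ => (s * Real.exp δ - E) / (s - E))
      (s * Real.exp 0 / (s - E)) 0 :=
    (((Real.hasDerivAt_exp 0).const_mul s).sub_const E).div_const (s - E)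
  have hv : (s * Real.exp 0 - E) / (s - E) = 1 := by
    rw [Real.exp_zero, mul_one, div_self hsE.ne']
  have hd2 : HasDerivAt (fun δ : ℝ => Real.log ((s * Real.exp δ - E) / (s - E)))
      (s / (s - E)) 0 := by
    have := hd1.log (by rw [hv]; exact one_ne_zero)
    rw [hv, Real.exp_zero, mul_one, div_one] at this
    exact this
  have hd3 : HasDerivAt (fun δ : ℝ => δ * (p ^ 2 / P - ε₁) +
      Real.log ((s * Real.exp δ - E) / (s - E)) * (q ^ 2 / Q - ε₁) -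
        δ * (4 * d ^ 2 / (3 * Real.pi) - ε))
      (1 * (p ^ 2 / P - ε₁) + s / (s - E) * (q ^ 2 / Q - ε₁) -
        1 * (4 * d ^ 2 / (3 * Real.pi) - ε)) 0 :=
    (((hasDerivAt_id (0 : ℝ)).mul_const _).add (hd2.mul_const _)).sub
      ((hasDerivAt_id (0 : ℝ)).mul_const _)
  rw [one_mul, one_mul] at hd3
  have ht := (hasDerivAt_iff_tendsto_slope.1 hd3).eventually (lt_mem_nhds h6)
  have ht2 := ht.filter_mono (nhdsWithin_mono (0 : ℝ) (fun x (hx : x ∈ Set.Ioi (0 : ℝ)) =>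
    (ne_of_gt hx : x ≠ 0)))
  filter_upwards [ht2, self_mem_nhdsWithin] with δ h8 h9
  have h9' : (0 : ℝ) < δ := h9
  rw [slope_def_field, sub_zero, hv, Real.log_one] at h8
  have h10 := (lt_div_iff₀ h9').1 h8
  simp only [zero_mul, add_zero, sub_zero] at h10
  linarith

end Pool.Agent.HQT
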