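import Pool.Agent.HQT.StripL
import Pool.Agent.HQT.IncrA
import Pool.Agent.HQT.CSClop

/-! HQT (growth exponent 3, MP_7da5c3_an), file Incr: the area increment at a level s (section 10) -/

set_option autoImplicit false

open Complex Metric Set Filter Topology MeasureTheory
open scoped ComplexConjugate Real

namespace Pool.Agent.HQT

open Pool.Agent.HQ

variable {A B : ℂ → ℂ}

private theorem norm_Incr {s θ : ℝ} (hs : 0 ≤ s) : ‖(s * exp (θ * I) : ℂ)‖ = s := by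
  rw [norm_mul, Complex.norm_real, Real.norm_of_nonneg hs, Complex.norm_exp_ofReal_mul_I, mul_one]

/-- Near the left end. -/
private theorem left_Incr {z : ℝ → ℂ} {α β m : ℝ} (hαβ : α < β) (hz : ContinuousOn z (Icc α β))
    (hb : ∀ θ ∈ Icc α β, z θ ∈ ball (0 : ℂ) 1) {w : ℂ} {d τ : ℝ} (hτ : 0 < τ)
    (hd : d ≤ ‖Lmap (z α) - w‖) (hm : α < m) :
    ∃ θ ∈ Ioo α β, θ ≤ m ∧ d - τ ≤ ‖Lmap (z θ) - w‖ := by
  have hα : α ∈ Icc α β := ⟨le_rfl, hαβ.le⟩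
  have h0 : ContinuousAt Lmap (z α) :=
    differentiableOn_Lmap.continuousOn.continuousAt (isOpen_ball.mem_nhds (hb α hα))
  have h1 : ContinuousWithinAt (fun θ => ‖Lmap (z θ) - w‖) (Ioi α) α :=
    (((h0.comp_continuousWithinAt (hz α hα)).sub continuousWithinAt_const).norm).mono_of_mem_nhdsWithin
      (Icc_mem_nhdsGT hαβ)
  have h2 : ∀ᶠ θ in 𝓝[>] α, d - τ < ‖Lmap (z θ) - w‖ :=
    h1.tendsto.eventually_const_lt (by linarith)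
  have h3 : ∀ᶠ θ in 𝓝[>] α, θ ∈ Ioo α (min m β) := Ioo_mem_nhdsGT (lt_min hm hαβ)
  obtain ⟨θ, h4, h5⟩ := (h2.and h3).exists
  exact ⟨θ, ⟨h5.1, h5.2.trans_le (min_le_right _ _)⟩, (h5.2.trans_le (min_le_left _ _)).le, h4.le⟩

/-- Near the right end. -/
private theorem right_Incr {z : ℝ → ℂ} {α β m : ℝ} (hαβ : α < β) (hz : ContinuousOn z (Icc α β))
    (hb : ∀ θ ∈ Icc α β, z θ ∈ ball (0 : ℂ) 1) {w : ℂ} {d τ : ℝ} (hτ : 0 < τ)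
    (hd : d ≤ ‖Lmap (z β) - w‖) (hm : m < β) :
    ∃ θ ∈ Ioo α β, m ≤ θ ∧ d - τ ≤ ‖Lmap (z θ) - w‖ := by
  have hα : β ∈ Icc α β := ⟨hαβ.le, le_rfl⟩
  have h0 : ContinuousAt Lmap (z β) :=
    differentiableOn_Lmap.continuousOn.continuousAt (isOpen_ball.mem_nhds (hb β hα))
  have h1 : ContinuousWithinAt (fun θ => ‖Lmap (z θ) - w‖) (Iio β) β :=
    (((h0.comp_continuousWithinAt (hz β hα)).sub continuousWithinAt_const).norm).mono_of_mem_nhdsWithin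
      (Icc_mem_nhdsLT hαβ)
  have h2 : ∀ᶠ θ in 𝓝[<] β, d - τ < ‖Lmap (z θ) - w‖ :=
    h1.tendsto.eventually_const_lt (by linarith)
  have h3 : ∀ᶠ θ in 𝓝[<] β, θ ∈ Ioo (max m α) β := Ioo_mem_nhdsLT (max_lt hm hαβ)
  obtain ⟨θ, h4, h5⟩ := (h2.and h3).exists
  exact ⟨θ, ⟨(le_max_right _ _).trans_lt h5.1, h5.2⟩, ((le_max_left _ _).trans_lt h5.1).le, h4.le⟩

/-- The whole curve `C_s` lies in `GU A U t` if it contains a point of `[0, r₀]`.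
Proof. `C_s` is connected (two arcs with the common point `J`), in `U` (`memL`, `memR`), and
`‖A‖ ≤ s < t` on it (`‖A (zR η)‖ ≤ ‖e‖ + (s - ‖e‖)`); so is `[0, x]` for the point `x ∈ C_s`:
`‖A x‖ ≤ s < t = ‖A r₀‖`, so `x < r₀`, and `‖A‖ < t` on `[0, x]` (`hfirst`).  The union is
connected and contains `0`. -/
theorem Cset_sub_GU {U : Set ℂ} {t α β θ₀ r₀ : ℝ} {z : ℝ → ℂ}
    (ha : Arc A B U t α β θ₀ r₀ z) {ψ : ℂ → ℂ} {e : ℂ} {s a b : ℝ}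
    (hs : s ∈ Ioo ‖e‖ t) {zL zR : ℝ → ℂ} (hc : CS A U ψ e s a b zL zR) {x : ℝ}
    (hx : x ∈ Icc (0 : ℝ) r₀) (hxC : (x : ℂ) ∈ Cset e a b zL zR) :
    Cset e a b zL zR ⊆ GU A U t := by
  have hs0 : 0 < s := (norm_nonneg e).trans_lt hs.1
  have hC : ∀ q ∈ Cset e a b zL zR, q ∈ U ∧ ‖A q‖ ≤ s := by
    rintro q (⟨θ, hθ, rfl⟩ | ⟨η, hη, rfl⟩)
    · refine ⟨hc.memL θ hθ, ?_⟩
      rw [hc.liftL.eq θ (Ioc_subset_Icc_self hθ), norm_Incr hs0.le]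
    · refine ⟨hc.memR η hη, ?_⟩
      have h1 := hc.liftR.eq η (Ico_subset_Icc_self hη)
      have h2 : A (zR η) = e + ((s - ‖e‖ : ℝ) : ℂ) * exp (η * I) := by
        rw [← h1]
        ring
      rw [h2]
      refine (norm_add_le _ _).trans ?_
      rw [norm_Incr (sub_pos.2 hs.1).le]
      linarith
  have hJL : zL (arg e) ∈ zL '' Ioc a (arg e) := ⟨_, ⟨hc.ha, le_rfl⟩, rfl⟩
  have hJR : zL (arg e) ∈ zR '' Ico (arg e) b :=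
    ⟨arg e, ⟨le_rfl, hc.hb⟩, by rw [hc.baseL, hc.baseR]⟩
  have hpre : IsPreconnected (Cset e a b zL zR) :=
    IsPreconnected.union _ hJL hJR
      (isPreconnected_Ioc.image _ (hc.liftL.cont.mono Ioc_subset_Icc_self))
      (isPreconnected_Ico.image _ (hc.liftR.cont.mono Ico_subset_Icc_self))
  have hxr : x < r₀ := by
    refine lt_of_le_of_ne hx.2 fun h => ?_
    have h1 := (hC _ hxC).2
    rw [h, ha.heq] at h1
    linarith [hs.2]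
  have hpre2 : IsPreconnected ((fun y : ℝ => (y : ℂ)) '' Icc (0 : ℝ) x) :=
    isPreconnected_Icc.image _ Complex.continuous_ofReal.continuousOn
  have hpre3 : IsPreconnected (Cset e a b zL zR ∪ (fun y : ℝ => (y : ℂ)) '' Icc (0 : ℝ) x) :=
    IsPreconnected.union (x : ℂ) hxC ⟨x, ⟨hx.1, le_rfl⟩, rfl⟩ hpre hpre2
  refine subset_union_left.trans (hpre3.subset_connectedComponentIn
    (Or.inr ⟨0, ⟨le_rfl, hx.1⟩, Complex.ofReal_zero⟩) ?_)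
  rintro q (hq | ⟨y, hy, rfl⟩)
  · exact ⟨(hC q hq).1, (hC q hq).2.trans_lt hs.2⟩
  · exact ⟨ha.hX y ⟨hy.1, hy.2.trans hx.2⟩, ha.hfirst y ⟨hy.1, hy.2.trans_lt hxr⟩⟩

/-- The end of the argument: two strips. -/
private theorem two_Incr {U : Set ℂ} (hU : Dom U) (hA : DifferentiableOn ℂ A (ball 0 1))
    (hA' : ∀ z ∈ ball (0 : ℂ) 1, deriv A z ≠ 0) {t φ r : ℝ} {z : ℝ → ℂ} {ψ : ℂ → ℂ} {e : ℂ}
    (hv : VS A U t φ r z ψ e) {Γ W₁ W₂ : Set ℂ} (hw : Sides A U t φ ψ e Γ W₁ W₂)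
    {s₁ : ℝ} (hs₁ : ‖e‖ ≤ s₁) (hdisj : Disjoint (GU A U s₁) W₁) {s a b : ℝ}
    (hs : s ∈ Ioo s₁ t) {zL zR : ℝ → ℂ} (hc : CS A U ψ e s a b zL zR)
    {θ₁ θx θ₂ θy d ε τ ε₁ : ℝ} (hd0 : 0 < d) (h1 : θ₁ ∈ Ioo a (arg e)) (h2 : θ₂ ∈ Ioo (arg e) b)
    (h3 : θx ∈ Icc θ₁ (arg e)) (h4 : θy ∈ Icc (arg e) θ₂) (hxL : zL θx ∈ GU A U t)
    (hxR : zR θy ∈ GU A U t) (hτ : 0 < τ) (hτ2 : τ < 2 * d) (hε₁ : 0 < ε₁)
    (hε : 4 * d * τ / (3 * π) + ε₁ * (1 + s / (s - ‖e‖)) < ε)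
    (hpq : 2 * d - τ ≤ (‖Lmap (zL θ₁) - Lmap (zL θx)‖ + ‖Lmap (zL (arg e)) - Lmap (zL θx)‖) +
      (‖Lmap (zR (arg e)) - Lmap (zR θy)‖ + ‖Lmap (zR θ₂) - Lmap (zR θy)‖)) :
    ∃ δ₀ > 0, ∀ δ ∈ Ioo (0 : ℝ) δ₀, ∃ S : Set ℂ, IsOpen S ∧ S ⊆ GU A U t ∧
      Disjoint S (GU A U s₁) ∧
      (∀ q ∈ S, s < Fun A W₁ e q ∧ Fun A W₁ e q < s * Real.exp δ) ∧
      ENNReal.ofReal (δ * (4 * d ^ 2 / (3 * π) - ε)) ≤ volume (Lmap '' S) := by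
  have hsE : s ∈ Ioo ‖e‖ t := ⟨hs₁.trans_lt hs.1, hs.2⟩
  have hE0 := norm_nonneg e
  have hs0 : 0 < s := hE0.trans_lt hsE.1
  have hρ : 0 < s - ‖e‖ := sub_pos.2 hsE.1
  have hpi := Real.pi_pos
  obtain ⟨σL, hσL, HL⟩ := strip_L hU hA hA' hv hw hsE hc h1.1 h1.2 h3.1 h3.2 hxL hε₁
  obtain ⟨σR, hσR, HR⟩ := strip_R hU hA hA' hv hw hsE hc h2.2 h2.1 h4.1 h4.2 hxR hε₁
  set p := ‖Lmap (zL θ₁) - Lmap (zL θx)‖ + ‖Lmap (zL (arg e)) - Lmap (zL θx)‖ with hp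
  set q := ‖Lmap (zR (arg e)) - Lmap (zR θy)‖ + ‖Lmap (zR θ₂) - Lmap (zR θy)‖ with hq
  have hp0 : 0 ≤ p := by positivity
  have hq0 : 0 ≤ q := by positivity
  have hlen : s * (arg e - θ₁) + (s - ‖e‖) * (θ₂ - arg e) ≤ 3 * π * s := by
    have h5 : s * (arg e - θ₁) ≤ s * (arg e - a) :=
      mul_le_mul_of_nonneg_left (by linarith [h1.1]) hs0.le
    have h6 : (s - ‖e‖) * (θ₂ - arg e) ≤ (s - ‖e‖) * (b - arg e) :=
      mul_le_mul_of_nonneg_left (by linarith [h2.2]) hρ.le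
    linarith [hc.len]
  have hev := incr_ineq hE0 hsE.1 (sub_pos.2 h1.2) (sub_pos.2 h2.1) hp0 hq0 hlen hd0 hτ hτ2 hpq
    hε₁ hε
  -- the second width
  have hlim : ∀ᶠ δ in 𝓝[>] (0 : ℝ), Real.log ((s * Real.exp δ - ‖e‖) / (s - ‖e‖)) < σR := by
    have h5 : ContinuousAt (fun δ : ℝ => Real.log ((s * Real.exp δ - ‖e‖) / (s - ‖e‖))) 0 := by
      refine ContinuousAt.log ?_ ?_
      · fun_prop
      · rw [Real.exp_zero, mul_one, div_self hρ.ne']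
        exact one_ne_zero
    have h6 := h5.tendsto
    simp only [Real.exp_zero, mul_one, div_self hρ.ne', Real.log_one] at h6
    exact (h6.mono_left nhdsWithin_le_nhds).eventually_lt_const hσR
  have hall : ∀ᶠ δ in 𝓝[>] (0 : ℝ), (δ * (4 * d ^ 2 / (3 * π) - ε) ≤
      δ * (p ^ 2 / (arg e - θ₁) - ε₁) +
        Real.log ((s * Real.exp δ - ‖e‖) / (s - ‖e‖)) * (q ^ 2 / (θ₂ - arg e) - ε₁)) ∧
      Real.log ((s * Real.exp δ - ‖e‖) / (s - ‖e‖)) < σR ∧ δ ∈ Ioo 0 σL :=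
    hev.and (hlim.and (Ioo_mem_nhdsGT hσL))
  obtain ⟨δ₀, hδ₀, hsub⟩ := mem_nhdsGT_iff_exists_Ioo_subset.1 hall
  refine ⟨δ₀, hδ₀, fun δ hδ => ?_⟩
  obtain ⟨h5, h6, h7⟩ := hsub hδ
  have hratio : 1 < (s * Real.exp δ - ‖e‖) / (s - ‖e‖) := by
    rw [one_lt_div hρ]
    have := mul_lt_mul_of_pos_left (Real.one_lt_exp_iff.2 hδ.1) hs0
    linarith
  have hδ' := Real.log_pos hratio
  have hexp : (s - ‖e‖) * Real.exp (Real.log ((s * Real.exp δ - ‖e‖) / (s - ‖e‖))) =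
      s * Real.exp δ - ‖e‖ := by
    rw [Real.exp_log (by linarith)]
    field_simp
  obtain ⟨SL, hL1, hL2, hL3, hL4, hL5⟩ := HL δ h7
  obtain ⟨SR, hR1, hR2, hR3, hR4, hR5⟩ := HR _ ⟨hδ', h6⟩
  have hball : GU A U t ⊆ ball (0 : ℂ) 1 := fun q hq =>
    hU.sub (subset_closure (connectedComponentIn_subset _ _ hq).1)
  have hLR : Disjoint SL SR := Set.disjoint_left.2 fun q hqL hqR =>
    Set.disjoint_left.1 hw.disj (hR3 hqR) (hL3 hqL)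
  refine ⟨SL ∪ SR, hL1.union hR1, union_subset hL2 hR2, ?_, ?_, ?_⟩
  · rw [Set.disjoint_left]
    rintro q (hq | hq) hq'
    · have h8 := (connectedComponentIn_subset _ _ hq').2
      have h9 := (hL4 q hq).1
      linarith [hs.1]
    · exact Set.disjoint_left.1 hdisj hq' (hR3 hq)
  · rintro q (hq | hq)
    · have h8 : q ∉ W₁ := fun h => Set.disjoint_left.1 hw.disj h (hL3 hq)
      rw [Fun_of_notMem h8]
      exact hL4 q hq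
    · rw [Fun_of_mem (hR3 hq)]
      have h8 := hR4 q hq
      rw [hexp] at h8
      exact ⟨by linarith [h8.1], by linarith [h8.2]⟩
  · rw [image_union, measure_union]
    · refine (ENNReal.ofReal_le_ofReal h5).trans (ENNReal.ofReal_add_le.trans ?_)
      exact add_le_add hL5 hR5
    · exact Set.disjoint_image_image fun x hx y hy hxy =>
        Set.disjoint_left.1 hLR hx (injOn_Lmap (hball (hL2 hx)) (hball (hR2 hy)) hxy ▸ hy)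
    · exact hR1.measurableSet.image_of_continuousOn_injOn
        (differentiableOn_Lmap.continuousOn.mono (hR2.trans hball))
        (injOn_Lmap.mono (hR2.trans hball))

/-- THE INCREMENT.
Proof.  Let `τ` small, `ε₁` small as in `incr_ineq`.  `x ∈ C_s ∩ [0, r₀]` from `hX`,
`Lmap x` is real and in `[0, x₁]` (`Lmap_ofReal`, `hr`), so by `dist_exit`
`d ≤ ‖Lmap (zL a) - Lmap x‖`, `d ≤ ‖Lmap (zR b) - Lmap x‖` (`zL a`, `zR b` are in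
`closure U \ U` by continuity).  `J = zL χ = zR χ`.
Case `x = zL θx`, `a < θx ≤ χ`.  Choose `θ₁ ∈ (a, χ)`, `θ₁ ≤ θx` with
`‖Lmap (zL θ₁) - Lmap x‖ ≥ d - τ/2` and `θ₂ ∈ (χ, b)` with `‖Lmap (zR θ₂) - Lmap x‖ ≥ d - τ/2`
(continuity at `a`, `b`).  `strip_L` at `θx`, `strip_R` with `θx := χ`;
`p = ‖Lmap (zL θ₁) - Lmap x‖ + ‖Lmap J - Lmap x‖`, `q = ‖Lmap (zR θ₂) - Lmap J‖ + 0`,
`p + q ≥ 2d - τ`; `P = χ - θ₁ ≤ χ - a`, `Q = θ₂ - χ ≤ b - χ`, `hc.len`.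
Case `x = zR θx`: the same with the roles exchanged.
For `δ` small take `S = S_L ∪ S_R` with `S_L` for `δ` and `S_R` for
`δ' = log ((s e^δ - ‖e‖)/(s - ‖e‖))` (`→ 0`).  On `S_L ⊆ W₂` (not in `W₁`) `Fun = ‖A‖ ∈
(s, s e^δ)`; on `S_R ⊆ W₁` `Fun = ‖e‖ + ‖A - e‖ ∈ (s, s e^δ)`.  Disjointness from
`GU A U s₁`: on `S_L` `‖A‖ > s ≥ s₁`, `S_R ⊆ W₁`.  `S_L`, `S_R` are disjoint (`disj`), `Lmap` is
injective on `ball 0 1`, the images are open or measurable: volumes add, `ofReal` of the sum is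
at most the sum; `incr_ineq`. -/
theorem incr {x₁ d : ℝ} (hd0 : 0 < d) (hd : d < π / 2) {t α β θ₀ r₀ : ℝ} {z : ℝ → ℂ}
    (ha : Arc A B (Ubox x₁ d) t α β θ₀ r₀ z) (hr : Real.log ((1 + r₀) / (1 - r₀)) ≤ x₁)
    {φ r : ℝ} {ψ : ℂ → ℂ} {e : ℂ} (hv : VS A (Ubox x₁ d) t φ r z ψ e) {Γ W₁ W₂ : Set ℂ}
    (hw : Sides A (Ubox x₁ d) t φ ψ e Γ W₁ W₂) {s₁ : ℝ} (hs₁ : ‖e‖ ≤ s₁)
    (hdisj : Disjoint (GU A (Ubox x₁ d) s₁) W₁) {s a b : ℝ} (hs : s ∈ Ioo s₁ t)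
    {zL zR : ℝ → ℂ} (hc : CS A (Ubox x₁ d) ψ e s a b zL zR)
    (hX : ∃ x ∈ Icc (0 : ℝ) r₀, (x : ℂ) ∈ Cset e a b zL zR) {ε : ℝ} (hε : 0 < ε) :
    ∃ δ₀ > 0, ∀ δ ∈ Ioo (0 : ℝ) δ₀, ∃ S : Set ℂ, IsOpen S ∧ S ⊆ GU A (Ubox x₁ d) t ∧
      Disjoint S (GU A (Ubox x₁ d) s₁) ∧
      (∀ q ∈ S, s < Fun A W₁ e q ∧ Fun A W₁ e q < s * Real.exp δ) ∧
      ENNReal.ofReal (δ * (4 * d ^ 2 / (3 * π) - ε)) ≤ volume (Lmap '' S) := by
  have hpi := Real.pi_pos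
  have hsE : s ∈ Ioo ‖e‖ t := ⟨hs₁.trans_lt hs.1, hs.2⟩
  have hρ : 0 < s - ‖e‖ := sub_pos.2 hsE.1
  have hs0 : 0 < s := (norm_nonneg e).trans_lt hsE.1
  have hA := ha.pair.diffA
  have hA' : ∀ z ∈ ball (0 : ℂ) 1, deriv A z ≠ 0 := fun z hz =>
    ha.pair.deriv_ne (ball_subset_closedBall hz)
  obtain ⟨x, hx, hxC⟩ := hX
  have hGU := Cset_sub_GU ha hsE hc hx hxC
  -- the point on the real axis
  have hx1 : x < 1 := hx.2.trans_lt ha.hr₀.2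
  obtain ⟨x', hx'⟩ : ∃ x' : ℝ, x' = Real.log ((1 + x) / (1 - x)) := ⟨_, rfl⟩
  have hLx : Lmap x = x' := by
    rw [hx']
    exact Lmap_ofReal (by linarith [hx.1]) hx1
  have hx'I : x' ∈ Icc (0 : ℝ) x₁ := by
    rw [hx']
    have h1 : (1 : ℝ) ≤ (1 + x) / (1 - x) := by
      rw [one_le_div (by linarith)]
      linarith [hx.1]
    refine ⟨Real.log_nonneg h1, (Real.log_le_log (by linarith) ?_).trans hr⟩
    have h2 : (1 - r₀) ≤ (1 - x) := by linarith [hx.2]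
    have h3 : 0 < 1 - r₀ := by linarith [ha.hr₀.2]
    exact div_le_div₀ (by linarith [ha.hr₀.1]) (by linarith [hx.2]) h3 h2
  -- the end points
  have hLcl : zL a ∈ closure (Ubox x₁ d) := by
    refine ((hc.liftL.cont a ⟨le_rfl, hc.ha.le⟩).mono Ioc_subset_Icc_self).mem_closure ?_ hc.memL
    rw [closure_Ioc hc.ha.ne]
    exact ⟨le_rfl, hc.ha.le⟩
  have hRcl : zR b ∈ closure (Ubox x₁ d) := by
    refine ((hc.liftR.cont b ⟨hc.hb.le, le_rfl⟩).mono Ico_subset_Icc_self).mem_closure ?_ hc.memR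
    rw [closure_Ico hc.hb.ne]
    exact ⟨hc.hb.le, le_rfl⟩
  have hdL : d ≤ ‖Lmap (zL a) - Lmap x‖ := by
    rw [hLx]
    exact dist_exit hd0 hd hLcl hc.exL hx'I
  have hdR : d ≤ ‖Lmap (zR b) - Lmap x‖ := by
    rw [hLx]
    exact dist_exit hd0 hd hRcl hc.exR hx'I
  -- the parameters
  obtain ⟨τ, hτ⟩ : ∃ τ : ℝ, τ = min d (ε * (3 * π) / (16 * d)) := ⟨_, rfl⟩
  have hτ0 : 0 < τ := by
    rw [hτ]
    exact lt_min hd0 (by positivity)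
  have hτ1 : τ ≤ d := hτ ▸ min_le_left _ _
  have hτ2 : 4 * d * τ / (3 * π) ≤ ε / 4 := by
    have h1 : τ ≤ ε * (3 * π) / (16 * d) := hτ ▸ min_le_right _ _
    calc 4 * d * τ / (3 * π) ≤ 4 * d * (ε * (3 * π) / (16 * d)) / (3 * π) := by gcongr
      _ = ε / 4 := by
        field_simp
        ring
  have hk : 0 < 1 + s / (s - ‖e‖) := by positivity
  obtain ⟨ε₁, hε₁⟩ : ∃ ε₁ : ℝ, ε₁ = ε / 4 / (1 + s / (s - ‖e‖)) := ⟨_, rfl⟩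
  have hε₁0 : 0 < ε₁ := by
    rw [hε₁]
    positivity
  have hε₁1 : ε₁ * (1 + s / (s - ‖e‖)) = ε / 4 := by
    rw [hε₁]
    exact div_mul_cancel₀ _ hk.ne'
  have hεε : 4 * d * τ / (3 * π) + ε₁ * (1 + s / (s - ‖e‖)) < ε := by
    rw [hε₁1]
    linarith
  have hJ : zL (arg e) = zR (arg e) := by rw [hc.baseL, hc.baseR]
  have hJGU : zL (arg e) ∈ GU A (Ubox x₁ d) t := hGU (Or.inl ⟨_, ⟨hc.ha, le_rfl⟩, rfl⟩)
  rcases hxC with ⟨θx, hθx, hxe⟩ | ⟨θx, hθx, hxe⟩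
  · obtain ⟨θ₁, h1, h2, h3⟩ := left_Incr hc.ha hc.liftL.cont hc.liftL.mem (w := Lmap x)
      (half_pos hτ0) hdL hθx.1
    obtain ⟨θ₂, h4, h5, h6⟩ := right_Incr hc.hb hc.liftR.cont hc.liftR.mem (w := Lmap x)
      (half_pos hτ0) hdR hc.hb
    refine two_Incr ha.dom hA hA' hv hw hs₁ hdisj hs hc hd0 h1 h4 ⟨h2, hθx.2⟩ ⟨le_rfl, h5⟩
      (hGU (Or.inl ⟨_, hθx, rfl⟩)) (hJ ▸ hJGU) hτ0 (by linarith) hε₁0 hεε ?_
    have hxe' : zL θx = (x : ℂ) := hxe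
    rw [hxe', hJ, sub_self, norm_zero, zero_add]
    have h7 : ‖Lmap (zR θ₂) - Lmap x‖ ≤
        ‖Lmap (zR θ₂) - Lmap (zR (arg e))‖ + ‖Lmap (zR (arg e)) - Lmap x‖ :=
      norm_sub_le_norm_sub_add_norm_sub _ _ _
    linarith
  · obtain ⟨θ₁, h1, h2, h3⟩ := left_Incr hc.ha hc.liftL.cont hc.liftL.mem (w := Lmap x)
      (half_pos hτ0) hdL hc.ha
    obtain ⟨θ₂, h4, h5, h6⟩ := right_Incr hc.hb hc.liftR.cont hc.liftR.mem (w := Lmap x)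
      (half_pos hτ0) hdR hθx.2
    refine two_Incr ha.dom hA hA' hv hw hs₁ hdisj hs hc hd0 h1 h4 ⟨h2, le_rfl⟩ ⟨hθx.1, h5⟩
      hJGU (hGU (Or.inr ⟨_, hθx, rfl⟩)) hτ0 (by linarith) hε₁0 hεε ?_
    have hxe' : zR θx = (x : ℂ) := hxe
    rw [hxe', hJ, sub_self, norm_zero, add_zero]
    have h7 : ‖Lmap (zL θ₁) - Lmap x‖ ≤
        ‖Lmap (zL θ₁) - Lmap (zR (arg e))‖ + ‖Lmap (zR (arg e)) - Lmap x‖ :=
      norm_sub_le_norm_sub_add_norm_sub _ _ _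
    linarith

end Pool.Agent.HQT
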