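import Pool.Agent.HQT.GoodA
import Pool.Agent.HQT.FunC
import Pool.Agent.HQ.Thick

/-! HQT (growth exponent 3, MP_7da5c3_an), file SOne: the level s1 (section 9) -/

set_option autoImplicit false

open Complex Metric Set Filter Topology MeasureTheory
open scoped ComplexConjugate Real

namespace Pool.Agent.HQT

open Pool.Agent.HQ

variable {A B : ℂ → ℂ}

private theorem so_open {U : Set ℂ} (hU : IsOpen U) (hA : ContinuousOn A U) (s : ℝ) :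
    IsOpen {z | z ∈ U ∧ ‖A z‖ < s} := by
  have h1 : {z | z ∈ U ∧ ‖A z‖ < s} = U ∩ (fun z => ‖A z‖) ⁻¹' Iio s := rfl
  rw [h1]
  exact hA.norm.isOpen_inter_preimage hU isOpen_Iio

private theorem so_sub {U : Set ℂ} {s : ℝ} {q : ℂ} (hq : q ∈ GU A U s) :
    q ∈ U ∧ ‖A q‖ < s := by
  have h1 : q ∈ {z | z ∈ U ∧ ‖A z‖ < s} := connectedComponentIn_subset _ _ hq
  exact h1

private theorem so_zero {U : Set ℂ} {s : ℝ} {q : ℂ} (hq : q ∈ GU A U s) :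
    (0 : ℂ) ∈ GU A U s := by
  have h1 : (0 : ℂ) ∈ {z | z ∈ U ∧ ‖A z‖ < s} := by
    by_contra h
    have h2 : GU A U s = ∅ := connectedComponentIn_eq_empty h
    rw [h2] at hq
    exact hq
  exact mem_connectedComponentIn h1

private theorem so_mono {U : Set ℂ} {s s' : ℝ} (h : s ≤ s') : GU A U s ⊆ GU A U s' :=
  connectedComponentIn_mono _ fun _ hz => ⟨hz.1, hz.2.trans_le h⟩

/-- a smaller level -/
private theorem so_lt {U : Set ℂ} (hU : IsOpen U) (hA : ContinuousOn A U) {s : ℝ} {p : ℂ}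
    (hp : p ∈ GU A U s) : ∃ s' ∈ Ioo (0 : ℝ) s, p ∈ GU A U s' := by
  have h0 := so_zero hp
  have hs : 0 < s := (norm_nonneg _).trans_lt (so_sub h0).2
  have hopen : IsOpen (GU A U s) := (so_open hU hA s).connectedComponentIn
  have hconn : IsConnected (GU A U s) := ⟨⟨p, hp⟩, isPreconnected_connectedComponentIn⟩
  have hpath : IsPathConnected (GU A U s) := (hopen.isConnected_iff_isPathConnected).1 hconn
  obtain ⟨γ, hγ⟩ := hpath.joinedIn 0 h0 p hp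
  have hK : IsCompact (range γ) := isCompact_range γ.continuous
  have hKU : range γ ⊆ U := by
    rintro _ ⟨x, rfl⟩
    exact (so_sub (hγ x)).1
  obtain ⟨q, ⟨x, rfl⟩, hmax⟩ := hK.exists_isMaxOn ⟨γ 0, mem_range_self 0⟩
    ((hA.mono hKU).norm)
  have hqs : ‖A (γ x)‖ < s := (so_sub (hγ x)).2
  have hq0 : 0 ≤ ‖A (γ x)‖ := norm_nonneg _
  refine ⟨(‖A (γ x)‖ + s) / 2, ⟨by linarith, by linarith⟩, ?_⟩
  have hsub : range γ ⊆ {z | z ∈ U ∧ ‖A z‖ < (‖A (γ x)‖ + s) / 2} := by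
    intro y hy
    refine ⟨hKU hy, ?_⟩
    have h1 : ‖A y‖ ≤ ‖A (γ x)‖ := isMaxOn_iff.mp hmax y hy
    linarith
  have hpre : IsPreconnected (range γ) := isPreconnected_range γ.continuous
  have h2 := hpre.subset_connectedComponentIn (x := 0) ⟨0, γ.source⟩ hsub
  exact h2 ⟨1, γ.target⟩

/-- two nearby points with the same value of `A` -/
private theorem so_inj (hA : DifferentiableOn ℂ A (ball 0 1))
    (hA' : ∀ z ∈ ball (0 : ℂ) 1, deriv A z ≠ 0) {z₁ : ℂ} (hz₁ : z₁ ∈ ball (0 : ℂ) 1)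
    {f g : ℝ → ℂ} {l : Filter ℝ} (hf : Tendsto f l (𝓝 z₁)) (hg : Tendsto g l (𝓝 z₁))
    (h : ∀ᶠ x in l, A (f x) = A (g x)) : ∀ᶠ x in l, f x = g x := by
  obtain ⟨δ, hδ, R, hR, hb, -⟩ := exists_locInv hA hA' (isCompact_singleton (x := z₁))
    (singleton_subset_iff.2 hz₁)
  have hb0 := (hb z₁ rfl).2
  filter_upwards [hf (ball_mem_nhds z₁ hδ), hg (ball_mem_nhds z₁ hδ), h] with x h1 h2 h3
  exact hb0 h1 h2 h3

private theorem so_rect_convex (σ α β : ℝ) :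
    Convex ℝ {ω : ℂ | ω ∈ rectNhd σ α β ∧ ω.re < 0} := by
  have h : {ω : ℂ | ω ∈ rectNhd σ α β ∧ ω.re < 0} = (({ω : ℂ | ω.re < σ} ∩ {ω : ℂ | -σ < ω.re}) ∩
      ({ω : ℂ | ω.im < β + σ} ∩ {ω : ℂ | α - σ < ω.im})) ∩ {ω : ℂ | ω.re < 0} := by
    ext ω
    simp only [rectNhd, mem_ofPred_eq, mem_inter_iff, abs_lt]
    tauto
  rw [h]
  exact (((convex_halfSpace_re_lt _).inter (convex_halfSpace_re_gt _)).inter
    ((convex_halfSpace_im_lt _).inter (convex_halfSpace_im_gt _))).inter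
      (convex_halfSpace_re_lt _)

private theorem so_rect_open (σ α β : ℝ) : IsOpen (rectNhd σ α β) := by
  have h : rectNhd σ α β = {ω : ℂ | |ω.re| < σ} ∩
      ({ω : ℂ | α - σ < ω.im} ∩ {ω : ℂ | ω.im < β + σ}) := rfl
  rw [h]
  exact (isOpen_lt continuous_re.abs continuous_const).inter
    ((isOpen_lt continuous_const continuous_im).inter (isOpen_lt continuous_im continuous_const))

/-- the level `t` meets the segment -/
private theorem so_meet_t {U : Set ℂ} {t α β θ₀ r₀ : ℝ} {z : ℝ → ℂ}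
    (ha : Arc A B U t α β θ₀ r₀ z) (hα : α < -π) (hβ : π < β) {φ r : ℝ} {ψ : ℂ → ℂ}
    {e : ℂ} (hv : VS A U t φ r z ψ e) :
    ∃ p ∈ GU A U t, p ∈ ψ '' Vseg t φ := by
  have hpi := Real.pi_pos
  have ht0 : 0 < t := (norm_nonneg _).trans_lt ha.ht
  have hA := ha.pair.diffA
  have hA' : ∀ z ∈ ball (0 : ℂ) 1, deriv A z ≠ 0 := fun z hz =>
    ha.pair.deriv_ne (ball_subset_closedBall hz)
  have hUD : U ⊆ ball 0 1 := subset_closure.trans ha.dom.sub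
  have hAc : ∀ q ∈ ball (0 : ℂ) 1, ContinuousAt A q := fun q hq =>
    (hA.differentiableAt (isOpen_ball.mem_nhds hq)).continuousAt
  -- the flow box
  have hm1 : α < min 0 θ₀ := lt_min (by linarith) ha.lo
  have hm2 : max 0 θ₀ < β := max_lt (by linarith) ha.hi
  have hm3 : min 0 θ₀ ≤ 0 := min_le_left _ _
  have hm4 : min 0 θ₀ ≤ θ₀ := min_le_right _ _
  have hm5 : 0 ≤ max 0 θ₀ := le_max_left _ _
  have hm6 : θ₀ ≤ max 0 θ₀ := le_max_right _ _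
  obtain ⟨α', hα'⟩ : ∃ x : ℝ, x = (α + min 0 θ₀) / 2 := ⟨_, rfl⟩
  obtain ⟨β', hβ'⟩ : ∃ x : ℝ, x = (β + max 0 θ₀) / 2 := ⟨_, rfl⟩
  have hsub : Icc α' β' ⊆ Icc α β := Icc_subset_Icc (by linarith) (by linarith)
  have hsubo : ∀ θ ∈ Icc α' β', θ ∈ Ioo α β := fun θ hθ =>
    ⟨by linarith [hθ.1], by linarith [hθ.2]⟩
  obtain ⟨σ, hσ, Z, hZd, hZz, hZU, -⟩ := exists_thick hA hA' ht0 (α := α') (β := β')
    (by linarith) ⟨ha.lift.cont.mono hsub, fun θ hθ => ha.lift.mem θ (hsub hθ),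
      fun θ hθ => ha.lift.eq θ (hsub hθ)⟩ (ha.inj.mono hsub) ha.dom.opn hUD
    (fun θ hθ => ha.mem θ (hsubo θ hθ))
  have hZc : ∀ ω ∈ rectNhd σ α' β', ContinuousAt Z ω := fun ω hω =>
    (hZd.differentiableAt ((so_rect_open σ α' β').mem_nhds hω)).continuousAt
  have hrect : ∀ θ ∈ Icc α' β', ((θ : ℂ) * I) ∈ rectNhd σ α' β' := by
    intro θ hθ
    refine ⟨?_, ?_, ?_⟩
    · simpa using hσ
    · have h1 : ((θ : ℂ) * I).im = θ := by simp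
      rw [h1]
      linarith [hθ.1]
    · have h1 : ((θ : ℂ) * I).im = θ := by simp
      rw [h1]
      linarith [hθ.2]
  have hθ₀ : θ₀ ∈ Icc α' β' := ⟨by linarith, by linarith⟩
  have h0 : (0 : ℝ) ∈ Icc α' β' := ⟨by linarith, by linarith⟩
  -- the approach to the arc
  have hlim : ∀ θ : ℝ, Tendsto (fun x : ℝ => ((-x : ℝ) : ℂ) + (θ : ℂ) * I) (𝓝[>] 0)
      (𝓝 ((θ : ℂ) * I)) := by
    intro θ
    have h1 : Continuous fun x : ℝ => ((-x : ℝ) : ℂ) + (θ : ℂ) * I := by fun_prop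
    have h2 := h1.tendsto 0
    have h3 : ((-(0 : ℝ) : ℝ) : ℂ) + (θ : ℂ) * I = (θ : ℂ) * I := by simp
    rw [h3] at h2
    exact h2.mono_left nhdsWithin_le_nhds
  have hZlim : ∀ θ ∈ Icc α' β', Tendsto (fun x : ℝ => Z (((-x : ℝ) : ℂ) + (θ : ℂ) * I))
      (𝓝[>] 0) (𝓝 (z θ)) := by
    intro θ hθ
    rw [← hZz θ hθ]
    exact (hZc _ (hrect θ hθ)).tendsto.comp (hlim θ)
  have hrectev : ∀ θ ∈ Icc α' β', ∀ᶠ x : ℝ in 𝓝[>] 0,
      ((-x : ℝ) : ℂ) + (θ : ℂ) * I ∈ {ω : ℂ | ω ∈ rectNhd σ α' β' ∧ ω.re < 0} := by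
    intro θ hθ
    filter_upwards [(hlim θ) ((so_rect_open σ α' β').mem_nhds (hrect θ hθ)),
      self_mem_nhdsWithin] with x h1 h2
    refine ⟨h1, ?_⟩
    have h3 : (((-x : ℝ) : ℂ) + (θ : ℂ) * I).re = -x := by simp
    rw [h3]
    have h4 : 0 < x := h2
    linarith
  -- the local inverse at `r₀`
  have hr₀U : (r₀ : ℂ) ∈ U := ha.hX r₀ ⟨ha.hr₀.1.le, le_rfl⟩
  have hr₀D : (r₀ : ℂ) ∈ ball (0 : ℂ) 1 := hUD hr₀U
  obtain ⟨δ, hδ, R, hR, hb, hχ⟩ := exists_locInv hA hA' (isCompact_singleton (x := (r₀ : ℂ)))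
    (singleton_subset_iff.2 hr₀D)
  obtain ⟨χ, hχd, hχ0, hχm⟩ := hχ r₀ rfl
  have hinj := (hb r₀ rfl).2
  have hcont : ContinuousAt χ (A r₀) :=
    (hχd.continuousOn).continuousAt (isOpen_ball.mem_nhds (mem_ball_self hR))
  have hpre : χ ⁻¹' U ∈ 𝓝 (A r₀) := hcont (ha.dom.opn.mem_nhds (by rw [hχ0]; exact hr₀U))
  obtain ⟨R', hR', hR'U⟩ := Metric.mem_nhds_iff.1 hpre
  obtain ⟨ρ, hρ⟩ : ∃ q : ℝ, q = min R R' := ⟨_, rfl⟩
  have hρ0 : 0 < ρ := by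
    rw [hρ]
    exact lt_min hR hR'
  have hρR : ρ ≤ R := hρ ▸ min_le_left _ _
  have hρR' : ρ ≤ R' := hρ ▸ min_le_right _ _
  -- a point near `r₀` with value in the small ball is in the image of `χ`
  have hC2 : ∀ q : ℂ, q ∈ ball (r₀ : ℂ) δ → A q ∈ ball (A r₀) ρ → χ (A q) = q := by
    intro q h1 h2
    have h3 := hχm (A q) (ball_subset_ball hρR h2)
    exact hinj h3.1 h1 h3.2
  -- the sets
  set C₂ : Set ℂ := χ '' (ball (A r₀) ρ ∩ ball 0 t) with hC₂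
  set C₃ : Set ℂ := Z '' {ω : ℂ | ω ∈ rectNhd σ α' β' ∧ ω.re < 0} with hC₃
  set C₄ : Set ℂ := ψ '' Vseg t φ with hC₄
  have hpre₂ : IsPreconnected C₂ := by
    refine (((convex_ball _ _).inter (convex_ball _ _)).isPreconnected).image _ ?_
    exact hχd.continuousOn.mono (inter_subset_left.trans (ball_subset_ball hρR))
  have hpre₃ : IsPreconnected C₃ :=
    (so_rect_convex σ α' β').isPreconnected.image _
      (hZd.continuousOn.mono fun ω hω => hω.1)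
  have hVconv : Convex ℝ (Vseg t φ) := by
    have h3 : Vseg t φ = ball (0 : ℂ) t ∩ {w : ℂ | t * Real.cos φ < w.re} := by
      ext w
      simp [Vseg]
    rw [h3]
    exact (convex_ball _ _).inter (convex_halfSpace_re_gt _)
  have hVthick : Vseg t φ ⊆ thickening r (Vseg t φ) := self_subset_thickening hv.good.hr _
  have hpre₄ : IsPreconnected C₄ :=
    hVconv.isPreconnected.image _ (hv.good.branch.diff.continuousOn.mono hVthick)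
  -- they are below the level
  have hsub₂ : C₂ ⊆ {z | z ∈ U ∧ ‖A z‖ < t} := by
    rintro _ ⟨w, ⟨h1, h2⟩, rfl⟩
    refine ⟨hR'U (ball_subset_ball hρR' h1), ?_⟩
    rw [(hχm w (ball_subset_ball hρR h1)).2]
    exact mem_ball_zero_iff.1 h2
  have hsub₃ : C₃ ⊆ {z | z ∈ U ∧ ‖A z‖ < t} := by
    rintro _ ⟨ω, ⟨h1, h2⟩, rfl⟩
    refine ⟨(hZU ω h1).1, ?_⟩
    rw [(hZU ω h1).2, norm_mul, Complex.norm_real, Real.norm_of_nonneg ht0.le,
      Complex.norm_exp]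
    exact mul_lt_of_lt_one_right ht0 (Real.exp_lt_one_iff.2 h2)
  have hsub₄ : C₄ ⊆ {z | z ∈ U ∧ ‖A z‖ < t} := by
    rintro _ ⟨w, h1, rfl⟩
    refine ⟨hv.good.mem w h1, ?_⟩
    rw [hv.good.branch.eq w (hVthick h1)]
    exact h1.1
  -- the first common point
  obtain ⟨x, hx0, hxr, hx₂⟩ : ∃ x : ℝ, 0 < x ∧ x < r₀ ∧ (x : ℂ) ∈ C₂ := by
    have h1 : Tendsto (fun x : ℝ => (x : ℂ)) (𝓝[<] r₀) (𝓝 (r₀ : ℂ)) :=
      (Complex.continuous_ofReal.tendsto r₀).mono_left nhdsWithin_le_nhds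
    have h2 : Tendsto (fun x : ℝ => A (x : ℂ)) (𝓝[<] r₀) (𝓝 (A r₀)) :=
      (hAc _ hr₀D).tendsto.comp h1
    have h3 : ∀ᶠ x : ℝ in 𝓝[<] r₀, x ∈ Ioo 0 r₀ := Ioo_mem_nhdsLT ha.hr₀.1
    have h7 : ∀ᶠ x : ℝ in 𝓝[<] r₀, (x : ℂ) ∈ ball (r₀ : ℂ) δ := h1 (ball_mem_nhds _ hδ)
    have h8 : ∀ᶠ x : ℝ in 𝓝[<] r₀, A (x : ℂ) ∈ ball (A r₀) ρ := h2 (ball_mem_nhds _ hρ0)
    obtain ⟨x, h4, h5, h6⟩ := (h7.and (h8.and h3)).exists
    refine ⟨x, h6.1, h6.2, A x, ⟨h5, ?_⟩, hC2 x h4 h5⟩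
    rw [mem_ball_zero_iff]
    exact ha.hfirst x ⟨h6.1.le, h6.2⟩
  set C₁ : Set ℂ := (fun x : ℝ => (x : ℂ)) '' Icc 0 x with hC₁
  have hpre₁ : IsPreconnected C₁ :=
    isPreconnected_Icc.image _ Complex.continuous_ofReal.continuousOn
  have hsub₁ : C₁ ⊆ {z | z ∈ U ∧ ‖A z‖ < t} := by
    rintro _ ⟨y, hy, rfl⟩
    exact ⟨ha.hX y ⟨hy.1, hy.2.trans hxr.le⟩, ha.hfirst y ⟨hy.1, hy.2.trans_lt hxr⟩⟩
  -- the second common point
  obtain ⟨p₂, hp₂, hp₂'⟩ : ∃ p, p ∈ C₂ ∧ p ∈ C₃ := by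
    have h1 := hZlim θ₀ hθ₀
    rw [ha.zθ] at h1
    have h2 : Tendsto (fun x : ℝ => A (Z (((-x : ℝ) : ℂ) + (θ₀ : ℂ) * I))) (𝓝[>] 0)
        (𝓝 (A r₀)) := (hAc _ hr₀D).tendsto.comp h1
    have h8 : ∀ᶠ x : ℝ in 𝓝[>] 0, Z (((-x : ℝ) : ℂ) + (θ₀ : ℂ) * I) ∈ ball (r₀ : ℂ) δ :=
      h1 (ball_mem_nhds _ hδ)
    have h9 : ∀ᶠ x : ℝ in 𝓝[>] 0, A (Z (((-x : ℝ) : ℂ) + (θ₀ : ℂ) * I)) ∈ ball (A r₀) ρ :=
      h2 (ball_mem_nhds _ hρ0)
    obtain ⟨y, h4, h5, h6⟩ := (h8.and (h9.and (hrectev θ₀ hθ₀))).exists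
    have h7 : Z (((-y : ℝ) : ℂ) + (θ₀ : ℂ) * I) ∈ C₃ := ⟨_, h6, rfl⟩
    refine ⟨_, ⟨A (Z (((-y : ℝ) : ℂ) + (θ₀ : ℂ) * I)), ⟨h5, ?_⟩, hC2 _ h4 h5⟩, h7⟩
    rw [mem_ball_zero_iff]
    exact (hsub₃ h7).2
  -- the third common point
  obtain ⟨p₃, hp₃, hp₃'⟩ : ∃ p, p ∈ C₃ ∧ p ∈ C₄ := by
    have h1 := hZlim 0 h0
    have hψt : ContinuousAt ψ t := by
      refine hv.good.branch.diff.continuousOn.continuousAt ?_
      refine isOpen_thickening.mem_nhds ?_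
      have h2 := closedSeg_sub_thick ht0 hv.hφ hv.hφ'.le hv.good.hr
        (arc_mem_closedSeg (θ := 0) ht0 hv.hφ'.le ⟨by linarith [hv.hφ], hv.hφ.le⟩)
      simpa only [Complex.ofReal_zero, zero_mul, Complex.exp_zero, mul_one] using h2
    have h3 : Tendsto (fun x : ℝ => ((t * Real.exp (-x) : ℝ) : ℂ)) (𝓝[>] 0) (𝓝 (t : ℂ)) := by
      have h4 : Continuous fun x : ℝ => ((t * Real.exp (-x) : ℝ) : ℂ) := by fun_prop
      have h5 := h4.tendsto 0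
      simp only [neg_zero, Real.exp_zero, mul_one] at h5
      exact h5.mono_left nhdsWithin_le_nhds
    have h6 : Tendsto (fun x : ℝ => ψ ((t * Real.exp (-x) : ℝ) : ℂ)) (𝓝[>] 0) (𝓝 (z 0)) := by
      rw [← hv.good.base]
      exact hψt.tendsto.comp h3
    have hcos : Real.cos φ < 1 := by
      have h7 := Real.cos_lt_cos_of_nonneg_of_le_pi_div_two le_rfl hv.hφ'.le hv.hφ
      rwa [Real.cos_zero] at h7
    have hV : ∀ᶠ x : ℝ in 𝓝[>] 0, ((t * Real.exp (-x) : ℝ) : ℂ) ∈ Vseg t φ := by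
      have h7 : ∀ᶠ x : ℝ in 𝓝[>] 0, Real.cos φ < Real.exp (-x) := by
        have h8 : Continuous fun x : ℝ => Real.exp (-x) := by fun_prop
        have h9 := h8.tendsto 0
        simp only [neg_zero, Real.exp_zero] at h9
        exact (h9.mono_left nhdsWithin_le_nhds).eventually (lt_mem_nhds hcos)
      filter_upwards [h7, self_mem_nhdsWithin] with x h8 h9
      have h10 : 0 < x := h9
      refine ⟨?_, ?_⟩
      · rw [Complex.norm_real, Real.norm_of_nonneg (by positivity)]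
        exact mul_lt_of_lt_one_right ht0 (Real.exp_lt_one_iff.2 (by linarith))
      · rw [Complex.ofReal_re]
        exact mul_lt_mul_of_pos_left h8 ht0
    have h7 : ∀ᶠ x : ℝ in 𝓝[>] 0, A (Z (((-x : ℝ) : ℂ) + ((0 : ℝ) : ℂ) * I)) =
        A (ψ ((t * Real.exp (-x) : ℝ) : ℂ)) := by
      filter_upwards [hV, hrectev 0 h0] with x h8 h9
      rw [(hZU _ h9.1).2, hv.good.branch.eq _ (hVthick h8)]
      push_cast
      simp
    have hz0 : z 0 ∈ ball (0 : ℂ) 1 := hUD (ha.mem 0 (hsubo 0 h0))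
    obtain ⟨y, h8, h9, h10⟩ := ((so_inj hA hA' hz0 h1 h6 h7).and
      (hV.and (hrectev 0 h0))).exists
    exact ⟨_, ⟨_, h10, rfl⟩, ⟨_, h9, h8.symm⟩⟩
  -- the union
  have hx₁ : (x : ℂ) ∈ C₁ := ⟨x, ⟨hx0.le, le_rfl⟩, rfl⟩
  have hu₁ : IsPreconnected (C₁ ∪ C₂) := hpre₁.union (x : ℂ) hx₁ hx₂ hpre₂
  have hu₂ : IsPreconnected (C₁ ∪ C₂ ∪ C₃) := hu₁.union p₂ (Or.inr hp₂) hp₂' hpre₃
  have hu₃ : IsPreconnected (C₁ ∪ C₂ ∪ C₃ ∪ C₄) := hu₂.union p₃ (Or.inr hp₃) hp₃' hpre₄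
  have hsub' : C₁ ∪ C₂ ∪ C₃ ∪ C₄ ⊆ {z | z ∈ U ∧ ‖A z‖ < t} :=
    union_subset (union_subset (union_subset hsub₁ hsub₂) hsub₃) hsub₄
  have h0' : (0 : ℂ) ∈ C₁ ∪ C₂ ∪ C₃ ∪ C₄ :=
    Or.inl (Or.inl (Or.inl ⟨0, ⟨le_rfl, hx0.le⟩, Complex.ofReal_zero⟩))
  exact ⟨p₃, hu₃.subset_connectedComponentIn h0' hsub' (Or.inr hp₃'), hp₃'⟩

/-- `s* < t`.
Proof. `exists_thick` for the arc `z` on `[min 0 θ₀, max 0 θ₀]` (injective there; if
`θ₀ = 0` use any small interval around `0`, e.g. always `[min 0 θ₀ - η, max 0 θ₀ + η]`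
inside `Ioo α β`) with `V = U`: `Z ω ∈ U`, `A (Z ω) = t exp ω`, `Z (θ I) = z θ`.
(i) For small `σ > 0`: `Z (-σ) = ψ (t e^{-σ})`: both `σ ↦ Z (-σ)` and `σ ↦ ψ (t e^{-σ})` are
lifts, equal at `σ = 0` (`z 0 = ψ t`); and `t e^{-σ} ∈ Vseg t φ` for `0 < σ` small.
(ii) For small `σ > 0` the point `Z (-σ + θ₀ I)` is joined to a point `x < r₀` of the radius by a
path in `{q ∈ U : ‖A q‖ < t}`: local inverse `χ` of `A` at `r₀` on `ball (A r₀) R` with values in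
`U`; `Z (-σ + θ₀ I) = χ (t e^{-σ + i θ₀})`, `x = χ (A x)` for `x < r₀` close to `r₀`; the
segment between these two points is in `ball (A r₀) R ∩ ball 0 t` (convex).
(iii) The path: `[0, x]`, then (ii), then `θ ↦ Z (-σ + θ I)` from `θ₀` to `0`: a compact
connected subset `C` of `U` on which `‖A‖ < t`; let `s' = max ‖A‖ < t` on `C`; for
`s ∈ (s', t)`: `C ⊆ GU A U s` (connected, contains `0`), and `Z (-σ) ∈ ψ '' Vseg t φ`. -/
theorem exists_s_meet {U : Set ℂ} {t α β θ₀ r₀ : ℝ} {z : ℝ → ℂ}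
    (ha : Arc A B U t α β θ₀ r₀ z) (hα : α < -π) (hβ : π < β) {φ r : ℝ} {ψ : ℂ → ℂ}
    {e : ℂ} (hv : VS A U t φ r z ψ e) :
    ∃ s ∈ Ioo (0 : ℝ) t, (GU A U s ∩ ψ '' Vseg t φ).Nonempty := by
  obtain ⟨p, hp, hp'⟩ := so_meet_t ha hα hβ hv
  have hUD : U ⊆ ball 0 1 := subset_closure.trans ha.dom.sub
  obtain ⟨s, hs, hps⟩ := so_lt ha.dom.opn (ha.pair.diffA.continuousOn.mono hUD) hp
  exact ⟨s, hs, p, hps, hp'⟩

/-- THE LEVEL s1.
Proof. `s* = sInf {s ∈ Ioo 0 t : (GU A U s ∩ ψ '' Vseg t φ).Nonempty}`, `s₁ = max ‖e‖ s*`, `< t` by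
`exists_s_meet`.  `GU A U s` is increasing in `s`, so the third statement holds for `s > s*`.
Disjointness: suppose `q ∈ GU A U s₁ ∩ W₁`.  `GU A U s₁` is connected, contains `0 ∉ W₁` and
`q ∈ W₁`, so it is not contained in `U \ Γ` (`comp₁`): there is `p ∈ GU A U s₁ ∩ Γ`;
`‖e‖ < ‖A p‖ < s₁` (`Γray`), so `s₁ = s* > ‖e‖`; `p = ψ (A p)`, `A p ∈ Vseg t φ` (`Γψ`).
`GU A U s₁` is open and connected: a path in it from `0` to `p`; `s' = max ‖A‖ < s₁` on the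
(compact) path; for `s'' ∈ (s', s*)`, `s'' > 0`, the path is in `GU A U s''`, so `s''` belongs to
the set, contradiction with `s'' < s* = sInf`. -/
theorem exists_s1 {U : Set ℂ} {t α β θ₀ r₀ : ℝ} {z : ℝ → ℂ}
    (ha : Arc A B U t α β θ₀ r₀ z) (hα : α < -π) (hβ : π < β) {φ r : ℝ} {ψ : ℂ → ℂ}
    {e : ℂ} (hv : VS A U t φ r z ψ e) {Γ W₁ W₂ : Set ℂ} (hw : Sides A U t φ ψ e Γ W₁ W₂)
    (h0 : (0 : ℂ) ∉ W₁) :
    ∃ s₁ : ℝ, ‖e‖ ≤ s₁ ∧ s₁ < t ∧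
      (∀ s ∈ Ioo s₁ t, (GU A U s ∩ ψ '' Vseg t φ).Nonempty) ∧ Disjoint (GU A U s₁) W₁ := by
  have hUD : U ⊆ ball 0 1 := subset_closure.trans ha.dom.sub
  obtain ⟨S, hS⟩ : ∃ S : Set ℝ, S = {s | s ∈ Ioo (0 : ℝ) t ∧
      (GU A U s ∩ ψ '' Vseg t φ).Nonempty} := ⟨_, rfl⟩
  obtain ⟨s₀, hs₀, hs₀'⟩ := exists_s_meet ha hα hβ hv
  have hs₀S : s₀ ∈ S := by
    rw [hS]
    exact ⟨hs₀, hs₀'⟩
  have hbdd : BddBelow S := by
    refine ⟨0, ?_⟩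
    rintro s hs
    rw [hS] at hs
    exact hs.1.1.le
  have hlt : sInf S < t := (csInf_le hbdd hs₀S).trans_lt hs₀.2
  refine ⟨max ‖e‖ (sInf S), le_max_left _ _, max_lt hv.tip_norm hlt, ?_, ?_⟩
  · rintro s ⟨h1, h2⟩
    obtain ⟨s', hs', hs's⟩ := exists_lt_of_csInf_lt ⟨s₀, hs₀S⟩ ((le_max_right _ _).trans_lt h1)
    rw [hS] at hs'
    exact hs'.2.mono (inter_subset_inter_left _ (so_mono hs's.le))
  · rw [Set.disjoint_left]
    intro q hq hqW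
    have hq0 := so_zero hq
    obtain ⟨p, hp, hpΓ⟩ : ∃ p ∈ GU A U (max ‖e‖ (sInf S)), p ∈ Γ := by
      by_contra hcon
      push Not at hcon
      refine h0 (hw.comp₁ _ isPreconnected_connectedComponentIn ?_ ⟨q, hq, hqW⟩ hq0)
      intro p hp
      exact ⟨(so_sub hp).1, hcon p hp⟩
    have hpn := (so_sub hp).2
    obtain ⟨s, hs, hAs⟩ := hw.Γray p hpΓ
    have hns : ‖A p‖ = s := by
      rw [hAs, norm_mul, Complex.norm_real, Complex.norm_exp_ofReal_mul_I, mul_one,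
        Real.norm_of_nonneg ((norm_nonneg _).trans hs.le)]
    have hs1 : max ‖e‖ (sInf S) = sInf S := by
      refine max_eq_right ?_
      by_contra hcon
      rw [max_eq_left (not_le.1 hcon).le, hns] at hpn
      linarith
    have hpt : ‖A p‖ < t := hpn.trans (max_lt hv.tip_norm hlt)
    obtain ⟨hpψ, hpV⟩ := hw.Γψ p hpΓ hpt
    obtain ⟨s', hs', hps'⟩ := so_lt ha.dom.opn (ha.pair.diffA.continuousOn.mono hUD) hp
    have hs'S : s' ∈ S := by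
      rw [hS]
      exact ⟨⟨hs'.1, hs'.2.trans (max_lt hv.tip_norm hlt)⟩, p, hps', A p, hpV, hpψ.symm⟩
    have h1 := csInf_le hbdd hs'S
    have h2 := hs'.2
    rw [hs1] at h2
    linarith

end Pool.Agent.HQT
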