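import Pool.Agent.HQT.Ray
import Pool.Agent.HQT.Sep

/-! HQT (growth exponent 3, MP_7da5c3_an), file SidesEx: the two sides of the radial cut (section 8) -/

set_option autoImplicit false

open Complex Metric Set Filter Topology MeasureTheory
open scoped ComplexConjugate Real

namespace Pool.Agent.HQT

open Pool.Agent.HQ

variable {A B : ℂ → ℂ}

private theorem exp_cancel_SidesEx (x : ℝ) :
    exp ((x : ℂ) * I) * exp (-((x : ℂ) * I)) = 1 := by
  rw [← Complex.exp_add, add_neg_cancel, Complex.exp_zero]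

private theorem ray_of_im_SidesEx {x : ℝ} {w : ℂ} (h : (w * exp (-((x : ℂ) * I))).im = 0) :
    w = ((w * exp (-((x : ℂ) * I))).re : ℂ) * exp ((x : ℂ) * I) := by
  have h1 : ((w * exp (-((x : ℂ) * I))).re : ℂ) = w * exp (-((x : ℂ) * I)) := by
    apply Complex.ext
    · simp
    · rw [h]
      simp
  rw [h1, mul_assoc, mul_comm (exp (-((x : ℂ) * I))), exp_cancel_SidesEx, mul_one]

private theorem convex_half_SidesEx (c : ℂ) : Convex ℝ {w : ℂ | 0 < (w * c).im} :=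
  (convex_halfSpace_im_gt (0 : ℝ)).linear_preimage (LinearMap.mulRight ℝ c)

private theorem convex_half_SidesEx' (c : ℂ) : Convex ℝ {w : ℂ | (w * c).im < 0} :=
  (convex_halfSpace_im_lt (0 : ℝ)).linear_preimage (LinearMap.mulRight ℝ c)

/-- SIDES.
Proof. `Γ = ρ '' Ioo ‖e‖ S` from `exists_ray`.  `χ = arg e`, `G z = Im (A z e^{-iχ})`; `G = 0` on
`Γ`.  `U \ Γ` is open (`ray_closed`).  Choose `w₁, w₂ ∈ Vseg t φ` with
`Im (w₁ e^{-iχ}) > 0 > Im (w₂ e^{-iχ})` (near a point of the ray) and put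
`W_i = connectedComponentIn (U \ Γ) (ψ w_i)` (open).  `comp_i`:
`IsPreconnected.subset_connectedComponentIn` and `connectedComponentIn_eq`.  `plus`: the set
`{w ∈ Vseg t φ | Im (w e^{-iχ}) > 0}` is convex, its image under `ψ` is connected, contained in
`U \ Γ` (`A (ψ w) = w`, `G (ψ w) > 0`), and contains `ψ w₁`; `minus` the same.
`Γψ`: `eqψ` and `ray_mem_Vseg` (`ρ s` with `‖A (ρ s)‖ = s < t`).  `ψΓ`: `eqψ`.
`disj`: if the components meet they are equal, so `JoinedIn (U \ Γ) (ψ w₂) (ψ w₁)`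
(`IsOpen.isConnected_iff_isPathConnected` for the component).  `separation_level` with `F = G`,
`s = 0`, `x = ψ w₂`, `y = ψ w₁`; `hY`: the path `ψ` of the segment `[w₂, w₁] ⊆ Vseg t φ`: if
`G (ψ w) = Im (w e^{-iχ}) = 0` then `w = s' e^{iχ}` with `s' > ‖e‖` (because
`Re w > t cos φ = Re e = ‖e‖ cos χ` and `cos χ > 0`) and `s' = ‖w‖ < t`, so `ψ w ∈ Γ`.
`hop` is `ray_open`. -/
theorem exists_sides {x₁ d : ℝ} (hd0 : 0 < d) (hd : d < π / 2) {t α β θ₀ r₀ : ℝ}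
    {z : ℝ → ℂ} (ha : Arc A B (Ubox x₁ d) t α β θ₀ r₀ z) (hα : α < -π) (hβ : π < β)
    {φ r : ℝ} {ψ : ℂ → ℂ} {e : ℂ} (hv : VS A (Ubox x₁ d) t φ r z ψ e) :
    ∃ Γ W₁ W₂ : Set ℂ, Sides A (Ubox x₁ d) t φ ψ e Γ W₁ W₂ := by
  have hA : DifferentiableOn ℂ A (ball 0 1) := ha.pair.diffA
  have hA' : ∀ z ∈ ball (0 : ℂ) 1, deriv A z ≠ 0 := fun z hz =>
    ha.pair.deriv_ne (ball_subset_closedBall hz)
  obtain ⟨S, ρ, hR⟩ := exists_ray ha hα hβ hv
  have he0 : 0 ≤ ‖e‖ := norm_nonneg e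
  have het : ‖e‖ < t := hv.tip_norm
  have ht : 0 < t := he0.trans_lt het
  have hcφ : 0 < Real.cos φ :=
    Real.cos_pos_of_mem_Ioo ⟨by linarith [Real.pi_pos, hv.hφ], hv.hφ'⟩
  have hre : 0 < e.re := by
    rw [hv.tip_re]
    exact mul_pos ht hcφ
  have hcχ : 0 < Real.cos (arg e) := by
    have h1 : 0 < ‖e‖ * Real.cos (arg e) := by
      rw [Complex.norm_mul_cos_arg]
      exact hre
    exact pos_of_mul_pos_right h1 he0
  have hUb : Ubox x₁ d ⊆ ball 0 1 := fun z hz => hz.1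
  have hΓc := ray_closed hR het
  have hΓo := ray_open hA hA' ha.dom hR
  obtain ⟨Γ, hΓ⟩ : ∃ Γ : Set ℂ, Γ = ρ '' Ioo ‖e‖ S := ⟨_, rfl⟩
  rw [← hΓ] at hΓc hΓo
  have hΓU : Γ ⊆ Ubox x₁ d := by
    rw [hΓ]
    rintro _ ⟨s, hs, rfl⟩
    exact hR.mem s hs
  have hΓray : ∀ z ∈ Γ, ∃ s : ℝ, ‖e‖ < s ∧ A z = s * exp (arg e * I) ∧ s < S ∧ z = ρ s := by
    rw [hΓ]
    rintro _ ⟨s, hs, rfl⟩
    exact ⟨s, hs.1, hR.eq s (Ioo_subset_Icc_self hs), hs.2, rfl⟩
  have hψΓ : ∀ s ∈ Ioo ‖e‖ t, ψ (s * exp (arg e * I)) ∈ Γ := by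
    intro s hs
    rw [hΓ, ← hR.eqψ s (Ioo_subset_Icc_self hs)]
    exact ⟨s, ⟨hs.1, hs.2.trans hR.hS⟩, rfl⟩
  have hnorm : ∀ s : ℝ, 0 ≤ s → ‖(s * exp (arg e * I) : ℂ)‖ = s := fun s hs => by
    rw [norm_mul, Complex.norm_real, Real.norm_of_nonneg hs, Complex.norm_exp_ofReal_mul_I,
      mul_one]
  have hG0 : ∀ z ∈ Γ, (A z * exp (-(arg e * I))).im = 0 := by
    intro z hz
    obtain ⟨s, -, hs, -, -⟩ := hΓray z hz
    rw [hs, mul_assoc, exp_cancel_SidesEx, mul_one, Complex.ofReal_im]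
  have hopen : IsOpen (Ubox x₁ d \ Γ) := by
    have h1 : Ubox x₁ d \ Γ = Ubox x₁ d \ closure Γ := by
      ext z
      exact ⟨fun hz => ⟨hz.1, fun hc => hz.2 (hΓc z hz.1 hc)⟩,
        fun hz => ⟨hz.1, fun hc => hz.2 (subset_closure hc)⟩⟩
    rw [h1]
    exact (isOpen_Ubox x₁ d).sdiff isClosed_closure
  -- the branch on the segment
  have hψc : ContinuousOn ψ (Vseg t φ) :=
    hv.good.branch.diff.continuousOn.mono (self_subset_thickening hv.good.hr _)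
  have hψA : ∀ w ∈ Vseg t φ, A (ψ w) = w := fun w hw =>
    hv.good.branch.eq w (self_subset_thickening hv.good.hr _ hw)
  have hψU : ∀ w ∈ Vseg t φ, ψ w ∈ Ubox x₁ d := hv.good.mem
  have hψΓ' : ∀ w ∈ Vseg t φ, (w * exp (-(arg e * I))).im ≠ 0 → ψ w ∈ Ubox x₁ d \ Γ := by
    intro w hw hne
    refine ⟨hψU w hw, fun hc => hne ?_⟩
    have h1 := hG0 _ hc
    rwa [hψA w hw] at h1
  -- the two base points
  obtain ⟨w₁, hw₁, hw₁', w₂, hw₂, hw₂'⟩ : ∃ w₁ ∈ Vseg t φ, 0 < (w₁ * exp (-(arg e * I))).im ∧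
      ∃ w₂ ∈ Vseg t φ, (w₂ * exp (-(arg e * I))).im < 0 := by
    have hs₀ : ‖e‖ < (‖e‖ + t) / 2 := by linarith
    have hs₀' : (‖e‖ + t) / 2 < t := by linarith
    have h1 := ray_mem_Vseg hv.hφ hv.hφ' hv.tip_re het hs₀ hs₀'
    have h2 : Continuous fun y : ℝ =>
        ((((‖e‖ + t) / 2 : ℝ) : ℂ) + (y : ℂ) * I) * exp (arg e * I) := by fun_prop
    have h3 : ∀ᶠ y : ℝ in 𝓝 0,
        ((((‖e‖ + t) / 2 : ℝ) : ℂ) + (y : ℂ) * I) * exp (arg e * I) ∈ Vseg t φ := by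
      refine h2.continuousAt.eventually_mem ((isOpen_Vseg t φ).mem_nhds ?_)
      rw [Complex.ofReal_zero, zero_mul, add_zero]
      exact h1
    obtain ⟨δ, hδ, h4⟩ := Metric.eventually_nhds_iff.1 h3
    have h5 : ∀ y : ℝ, (((((‖e‖ + t) / 2 : ℝ) : ℂ) + (y : ℂ) * I) * exp (arg e * I)
        * exp (-(arg e * I))).im = y := by
      intro y
      rw [mul_assoc, exp_cancel_SidesEx, mul_one]
      simp
    refine ⟨_, h4 (y := δ / 2) ?_, ?_, _, h4 (y := -(δ / 2)) ?_, ?_⟩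
    · rw [Real.dist_eq, sub_zero, abs_of_pos (half_pos hδ)]
      exact half_lt_self hδ
    · rw [h5]
      exact half_pos hδ
    · rw [Real.dist_eq, sub_zero, abs_neg, abs_of_pos (half_pos hδ)]
      exact half_lt_self hδ
    · rw [h5]
      exact neg_neg_of_pos (half_pos hδ)
  have hm₁ : ψ w₁ ∈ Ubox x₁ d \ Γ := hψΓ' w₁ hw₁ hw₁'.ne'
  have hm₂ : ψ w₂ ∈ Ubox x₁ d \ Γ := hψΓ' w₂ hw₂ hw₂'.ne
  have hcomp : ∀ p : ℂ, ∀ T : Set ℂ, IsPreconnected T → T ⊆ Ubox x₁ d \ Γ →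
      (T ∩ connectedComponentIn (Ubox x₁ d \ Γ) p).Nonempty →
      T ⊆ connectedComponentIn (Ubox x₁ d \ Γ) p := by
    rintro p T hT hTs ⟨q, hq1, hq2⟩
    rw [connectedComponentIn_eq hq2]
    exact hT.subset_connectedComponentIn hq1 hTs
  refine ⟨Γ, connectedComponentIn (Ubox x₁ d \ Γ) (ψ w₁),
    connectedComponentIn (Ubox x₁ d \ Γ) (ψ w₂), ⟨hΓU, ?_, ?_, hψΓ, hΓc,
    hopen.connectedComponentIn, hopen.connectedComponentIn, connectedComponentIn_subset _ _,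
    connectedComponentIn_subset _ _, ?_, hcomp _, hcomp _, ?_, ?_⟩⟩
  · intro z hz
    obtain ⟨s, h1, h2, -, -⟩ := hΓray z hz
    exact ⟨s, h1, h2⟩
  · intro z hz hzt
    obtain ⟨s, h1, h2, h3, h4⟩ := hΓray z hz
    have h5 : s < t := by
      rw [h2, hnorm s (he0.trans h1.le)] at hzt
      exact hzt
    rw [h2]
    refine ⟨?_, ray_mem_Vseg hv.hφ hv.hφ' hv.tip_re het h1 h5⟩
    rw [h4]
    exact hR.eqψ s ⟨h1.le, h5.le⟩
  · rw [Set.disjoint_left]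
    intro q hq1 hq2
    have heq : connectedComponentIn (Ubox x₁ d \ Γ) (ψ w₁) =
        connectedComponentIn (Ubox x₁ d \ Γ) (ψ w₂) := by
      rw [connectedComponentIn_eq hq1, connectedComponentIn_eq hq2]
    have hcon : IsConnected (connectedComponentIn (Ubox x₁ d \ Γ) (ψ w₂)) :=
      isConnected_connectedComponentIn_iff.2 hm₂
    have hpc := (hopen.connectedComponentIn.isConnected_iff_isPathConnected).1 hcon
    have hX : JoinedIn (Ubox x₁ d \ Γ) (ψ w₂) (ψ w₁) := by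
      refine (hpc.joinedIn _ (mem_connectedComponentIn hm₂) _ ?_).mono
        (connectedComponentIn_subset _ _)
      rw [← heq]
      exact mem_connectedComponentIn hm₁
    have hGc : ContinuousOn (fun z => (A z * exp (-(arg e * I))).im) (Ubox x₁ d) :=
      continuous_im.comp_continuousOn ((hA.continuousOn.mono hUb).mul continuousOn_const)
    have hY : JoinedIn {z | z ∈ Ubox x₁ d ∧ ((A z * exp (-(arg e * I))).im = 0 → z ∈ Γ)}
        (ψ w₂) (ψ w₁) := by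
      have h1 := (((convex_Vseg t φ).isPathConnected ⟨w₁, hw₁⟩).joinedIn w₂ hw₂ w₁
        hw₁).map_continuousOn hψc
      refine h1.mono ?_
      rintro _ ⟨w, hw, rfl⟩
      refine ⟨hψU w hw, fun h2 => ?_⟩
      rw [hψA w hw] at h2
      have h3 := ray_of_im_SidesEx h2
      obtain ⟨s, hs⟩ : ∃ s : ℝ, s = (w * exp (-(arg e * I))).re := ⟨_, rfl⟩
      rw [← hs] at h3
      have h4 : w.re = s * Real.cos (arg e) := by
        rw [h3, Complex.re_ofReal_mul, Complex.exp_ofReal_mul_I_re]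
      have h5 : ‖e‖ < s := by
        have h6 : ‖e‖ * Real.cos (arg e) < s * Real.cos (arg e) := by
          rw [Complex.norm_mul_cos_arg, hv.tip_re, ← h4]
          exact hw.2
        exact lt_of_mul_lt_mul_right h6 hcχ.le
      have h7 : s < t := by
        have h8 := hw.1
        rw [h3, hnorm s (he0.trans h5.le)] at h8
        exact h8
      rw [h3]
      exact hψΓ s ⟨h5, h7⟩
    refine separation_level hd0 hd hGc (s := 0) (Γ := Γ) (fun z hz => ⟨hΓU hz, hG0 z hz⟩) hΓc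
      hΓo (hψU w₂ hw₂) (hψU w₁ hw₁) ?_ ?_ hY hX
    · simp only [hψA w₂ hw₂]
      exact hw₂'
    · simp only [hψA w₁ hw₁]
      exact hw₁'
  · intro w hw hwi
    have h1 : IsPreconnected (ψ '' (Vseg t φ ∩ {w : ℂ | 0 < (w * exp (-(arg e * I))).im})) :=
      ((convex_Vseg t φ).inter (convex_half_SidesEx _)).isPreconnected.image ψ
        (hψc.mono inter_subset_left)
    refine hcomp _ _ h1 ?_ ⟨ψ w₁, ⟨w₁, ⟨hw₁, hw₁'⟩, rfl⟩, mem_connectedComponentIn hm₁⟩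
      ⟨w, ⟨hw, hwi⟩, rfl⟩
    rintro _ ⟨v, ⟨hv1, hv2⟩, rfl⟩
    exact hψΓ' v hv1 (ne_of_gt hv2)
  · intro w hw hwi
    have h1 : IsPreconnected (ψ '' (Vseg t φ ∩ {w : ℂ | (w * exp (-(arg e * I))).im < 0})) :=
      ((convex_Vseg t φ).inter (convex_half_SidesEx' _)).isPreconnected.image ψ
        (hψc.mono inter_subset_left)
    refine hcomp _ _ h1 ?_ ⟨ψ w₂, ⟨w₂, ⟨hw₂, hw₂'⟩, rfl⟩, mem_connectedComponentIn hm₂⟩
      ⟨w, ⟨hw, hwi⟩, rfl⟩
    rintro _ ⟨v, ⟨hv1, hv2⟩, rfl⟩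
    exact hψΓ' v hv1 (ne_of_lt hv2)

end Pool.Agent.HQT
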