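import Pool.Agent.HQT.Defs

/-! HQT (growth exponent 3, MP_7da5c3_an), file VolBox: facts about Ubox and GU -/

set_option autoImplicit false

open Complex Metric Set Filter Topology MeasureTheory
open scoped ComplexConjugate Real

namespace Pool.Agent.HQT

open Pool.Agent.HQ

variable {A B : ℂ → ℂ}

theorem dom_Ubox {x₁ d : ℝ} (hd : d < π / 2) : Dom (Ubox x₁ d) :=
  ⟨isOpen_Ubox x₁ d, (closure_Ubox hd).1, fun z hz => ((closure_Ubox hd).2 z hz).1⟩

theorem isOpen_GU {U : Set ℂ} (hU : Dom U) (hA : ContinuousOn A (ball 0 1)) (s : ℝ) :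
    IsOpen (GU A U s) := by
  have h1 : IsOpen {z | z ∈ U ∧ ‖A z‖ < s} := by
    have h2 : ContinuousOn (fun z => ‖A z‖) U :=
      (hA.mono (subset_closure.trans hU.sub)).norm
    exact h2.isOpen_inter_preimage hU.opn (isOpen_Iio (a := s))
  exact h1.connectedComponentIn

theorem GU_mono {U : Set ℂ} {s s' : ℝ} (h : s ≤ s') : GU A U s ⊆ GU A U s' :=
  connectedComponentIn_mono 0 fun _ hz => ⟨hz.1, hz.2.trans_le h⟩

theorem GU_sub {U : Set ℂ} {s : ℝ} : GU A U s ⊆ U :=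
  (connectedComponentIn_subset _ _).trans fun _ hz => hz.1

/-- `Lmap '' Ubox` is contained in a rectangle with sides `x₁ + 2d`, `2d`. -/
theorem volume_Ubox_le {x₁ d : ℝ} (hx : 0 ≤ x₁) (hd0 : 0 < d) :
    volume (Lmap '' Ubox x₁ d) ≤ ENNReal.ofReal ((x₁ + 2 * d) * (2 * d)) := by
  have h1 : Lmap '' Ubox x₁ d ⊆ Complex.measurableEquivRealProd ⁻¹'
      (Ioo (-d) (x₁ + d) ×ˢ Ioo (-d) d) := by
    rintro _ ⟨z, hz, rfl⟩
    obtain ⟨_, h1, h2, h3⟩ := hz
    rw [mem_preimage, Complex.measurableEquivRealProd_apply, mem_prod]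
    exact ⟨⟨h1, h2⟩, abs_lt.1 h3⟩
  refine (measure_mono h1).trans (le_of_eq ?_)
  rw [Complex.volume_preserving_equiv_real_prod.measure_preimage
    (measurableSet_Ioo.prod measurableSet_Ioo).nullMeasurableSet, Measure.volume_eq_prod,
    Measure.prod_prod, Real.volume_Ioo, Real.volume_Ioo, ← ENNReal.ofReal_mul]
  · congr 1
    ring
  · linarith

/-- Real points of the box. -/
theorem real_mem_Ubox {x₁ d r₀ x : ℝ} (hd0 : 0 < d) (hr₀ : r₀ < 1)
    (hr : Real.log ((1 + r₀) / (1 - r₀)) ≤ x₁) (hx : x ∈ Icc (0 : ℝ) r₀) :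
    (x : ℂ) ∈ Ubox x₁ d ∧ ∃ x' ∈ Icc (0 : ℝ) x₁, Lmap x = x' := by
  have hx0 : 0 ≤ x := hx.1
  have hx1 : x < 1 := lt_of_le_of_lt hx.2 hr₀
  have h1 : Lmap (x : ℂ) = ((Real.log ((1 + x) / (1 - x)) : ℝ) : ℂ) :=
    Lmap_ofReal (by linarith) hx1
  have h2 : 0 ≤ Real.log ((1 + x) / (1 - x)) := by
    apply Real.log_nonneg
    rw [le_div_iff₀ (by linarith)]
    linarith
  have h3 : Real.log ((1 + x) / (1 - x)) ≤ x₁ := by
    refine le_trans (Real.log_le_log (by apply div_pos <;> linarith) ?_) hr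
    rw [div_le_div_iff₀ (by linarith) (by linarith)]
    nlinarith [hx.2]
  refine ⟨⟨?_, ?_, ?_, ?_⟩, _, ⟨h2, h3⟩, h1⟩
  · rw [mem_ball_zero_iff, norm_real, Real.norm_eq_abs, abs_of_nonneg hx0]
    exact hx1
  · rw [h1, ofReal_re]
    linarith
  · rw [h1, ofReal_re]
    linarith
  · rw [h1, ofReal_im, abs_zero]
    exact hd0

end Pool.Agent.HQT
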