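import Pool.Agent.HQT.VSEx
import Pool.Agent.HQT.SidesEx
import Pool.Agent.HQT.Cross
import Pool.Agent.HQT.SOne
import Pool.Agent.HQT.Incr
import Pool.Agent.HQT.DiniA
import Pool.Agent.HQT.VolBox

/-! HQT (growth exponent 3, MP_7da5c3_an), file BadStep: the bad levels -/

set_option autoImplicit false

open Complex Metric Set Filter Topology MeasureTheory
open scoped ComplexConjugate Real

namespace Pool.Agent.HQT

open Pool.Agent.HQ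

variable {A B : ℂ → ℂ}

private theorem re_pos_BadStep {U : Set ℂ} {t φ r : ℝ} {z : ℝ → ℂ} {ψ : ℂ → ℂ} {e : ℂ}
    (hv : VS A U t φ r z ψ e) : 0 < e.re := by
  have ht : 0 < t := (norm_nonneg e).trans_lt hv.tip_norm
  rw [hv.tip_re]
  exact mul_pos ht
    (Real.cos_pos_of_mem_Ioo ⟨by linarith [Real.pi_pos, hv.hφ], hv.hφ'⟩)

/-- Proof. `exists_s1` gives `s₁`; `0 < ‖e‖ ≤ s₁` (`Re e = t cos φ > 0`).  For `s ∈ Ioo s₁ t`:
`exists_CS`, `crossing`, `incr`.  `dini_area` with `G = GU A U t`, `G₁ = GU A U s₁`,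
`F = Fun A W₁ e` (`continuousOn_Fun`), `κ = 4d²/(3π)`; `volume_Ubox_le` for `hfin`. -/
theorem bad_step_aux {x₁ d : ℝ} (hx₁ : 0 ≤ x₁) (hd0 : 0 < d) (hd : d < π / 2)
    {t α β θ₀ r₀ : ℝ} {z : ℝ → ℂ} (ha : Arc A B (Ubox x₁ d) t α β θ₀ r₀ z)
    (hr : Real.log ((1 + r₀) / (1 - r₀)) ≤ x₁) (hα : α < -π) (hβ : π < β)
    {φ r : ℝ} {ψ : ℂ → ℂ} {e : ℂ} (hv : VS A (Ubox x₁ d) t φ r z ψ e) {Γ W₁ W₂ : Set ℂ}
    (hw : Sides A (Ubox x₁ d) t φ ψ e Γ W₁ W₂) (h0 : (0 : ℂ) ∉ W₁) :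
    ∃ σ ∈ Ioo (0 : ℝ) t, volume (Lmap '' GU A (Ubox x₁ d) σ) +
      ENNReal.ofReal (4 * d ^ 2 / (3 * π) * Real.log (t / σ)) ≤
        volume (Lmap '' GU A (Ubox x₁ d) t) := by
  obtain ⟨s₁, hs1, hs1t, hmeet, hdisj⟩ := exists_s1 ha hα hβ hv hw h0
  have he : 0 < ‖e‖ := by
    rw [norm_pos_iff]
    rintro rfl
    have h1 := re_pos_BadStep hv
    simp at h1
  have hs₁ : 0 < s₁ := he.trans_le hs1
  have hUb : Ubox x₁ d ⊆ ball 0 1 := fun z hz => hz.1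
  have hAc : ContinuousOn A (ball 0 1) := ha.pair.diffA.continuousOn
  refine ⟨s₁, ⟨hs₁, hs1t⟩, ?_⟩
  refine dini_area (F := Fun A W₁ e) hs₁ hs1t (isOpen_GU ha.dom hAc t) (isOpen_GU ha.dom hAc s₁)
    (GU_mono hs1t.le) (GU_sub.trans hUb)
    ((continuousOn_Fun ha.dom.opn (hAc.mono hUb) hw).mono GU_sub) ?_ ?_
  · exact ((measure_mono (image_mono GU_sub)).trans
      (volume_Ubox_le hx₁ hd0)).trans_lt ENNReal.ofReal_lt_top |>.ne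
  · intro s hs ε hε
    have hs' : s ∈ Ioo ‖e‖ t := ⟨hs1.trans_lt hs.1, hs.2⟩
    obtain ⟨a, b, zL, zR, hc⟩ := exists_CS hd0 hd ha hα hβ hv hs'
    have hX := crossing hd0 hd ha hα hβ hv hw h0 hs' hc (hmeet s hs)
    exact incr hd0 hd ha hr hv hw hs1 hdisj hs hc hX hε

/-- BAD LEVELS.
Proof. `exists_VS`, `exists_sides`.  If `0 ∉ W₁`: `bad_step_aux`.  If `0 ∈ W₁` then `0 ∉ W₂`
(`disj`) and `bad_step_aux` for the conjugate data (`Arc.cj`, `VS.cj`, `Sides.cj`, with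
`U = Ubox x₁ d` symmetric by `conj_mem_Ubox`), and `volume_GU_cj`. -/
theorem bad_step {x₁ d : ℝ} (hx₁ : 0 ≤ x₁) (hd0 : 0 < d) (hd : d < π / 2)
    {t α β θ₀ r₀ : ℝ} {z : ℝ → ℂ} (ha : Arc A B (Ubox x₁ d) t α β θ₀ r₀ z)
    (hr : Real.log ((1 + r₀) / (1 - r₀)) ≤ x₁) (hα : α < -π) (hβ : π < β)
    (hlen : 3 * π < β - α) :
    ∃ σ ∈ Ioo (0 : ℝ) t, volume (Lmap '' GU A (Ubox x₁ d) σ) +
      ENNReal.ofReal (4 * d ^ 2 / (3 * π) * Real.log (t / σ)) ≤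
        volume (Lmap '' GU A (Ubox x₁ d) t) := by
  have hU : ∀ z, conj z ∈ Ubox x₁ d ↔ z ∈ Ubox x₁ d := fun z => conj_mem_Ubox
  obtain ⟨φ, r, ψ, e, hv⟩ := exists_VS ha hU hα hβ hlen
  obtain ⟨Γ, W₁, W₂, hw⟩ := exists_sides hd0 hd ha hα hβ hv
  by_cases h0 : (0 : ℂ) ∈ W₁
  · have h0' : (0 : ℂ) ∉ {z : ℂ | conj z ∈ W₂} := by
      intro h
      have h1 : conj (0 : ℂ) ∈ W₂ := h
      rw [map_zero] at h1
      exact Set.disjoint_left.1 hw.disj h0 h1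
    obtain ⟨σ, hσ, h⟩ := bad_step_aux hx₁ hd0 hd (ha.cj hU) hr (by linarith) (by linarith)
      (hv.cj hU) (hw.cj hU (re_pos_BadStep hv)) h0'
    rw [volume_GU_cj, volume_GU_cj] at h
    exact ⟨σ, hσ, h⟩
  · exact bad_step_aux hx₁ hd0 hd ha hr hα hβ hv hw h0

end Pool.Agent.HQT
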