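import Pool.Agent.HQT.Defs

/-! HQT (growth exponent 3, MP_7da5c3_an), file BrExt: extension of a branch to a neighbourhood -/

set_option autoImplicit false

open Complex Metric Set Filter Topology MeasureTheory
open scoped ComplexConjugate Real

namespace Pool.Agent.HQT

open Pool.Agent.HQ

variable {A B : ℂ → ℂ}

/-- EXTENSION OF A BRANCH.
Proof. `K = closure U` is compact in `ball 0 1`; `exists_locInv` gives `δ, R > 0` and for each
`k ∈ K` an inverse branch `χ_k` on `ball (A k) R` with `χ_k (A k) = k`, values in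
`ball k δ ⊆ ball 0 1`.  `r = R / 2`.  For `p ∈ thickening r W` choose `w p ∈ W` with
`dist p (w p) < r` and put `ψ' p = χ_{ψ (w p)} p`.  CONSISTENCY: for `w₁, w₂ ∈ W`,
`p ∈ ball w₁ r ∩ ball w₂ r`: `χ_{ψ w₁} p = χ_{ψ w₂} p`.  Indeed `dist w₁ w₂ < R`, on the segment
`[w₁, w₂] ⊆ W ∩ ball w₁ R` the two lifts `ψ`, `χ_{ψ w₁}` of the identity agree at `w₁`
(`lift_eqOn`), so `χ_{ψ w₁} w₂ = ψ w₂`; on the segment `[w₂, p] ⊆ ball w₁ R ∩ ball w₂ R` the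
lifts `χ_{ψ w₁}`, `χ_{ψ w₂}` agree at `w₂`, hence at `p`.  So `ψ' = χ_{ψ w₁}` on `ball w₁ r` for
every `w₁ ∈ W`: differentiable, `A ψ' = id`; and `ψ' w = χ_{ψ w} w = ψ w` for `w ∈ W`. -/
theorem branch_extend (hA : DifferentiableOn ℂ A (ball 0 1))
    (hA' : ∀ z ∈ ball (0 : ℂ) 1, deriv A z ≠ 0) {U : Set ℂ} (hU : Dom U) {W : Set ℂ}
    (hWo : IsOpen W) (hWc : Convex ℝ W) {ψ : ℂ → ℂ} (hψ : Branch A W U ψ) :
    ∃ r > 0, ∃ ψ' : ℂ → ℂ, Branch A (thickening r W) (ball 0 1) ψ' ∧ EqOn ψ' ψ W := by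
  classical
  obtain ⟨δ, hδ, R, hR, hball, hχ⟩ := exists_locInv hA hA' hU.cpt hU.sub
  choose! χ hχd hχb hχm using hχ
  have hK : ∀ w ∈ W, ψ w ∈ closure U := fun w hw => subset_closure (hψ.mem w hw)
  have h1 : ∀ w ∈ W, DifferentiableOn ℂ (χ (ψ w)) (ball w R) := by
    intro w hw
    have h := hχd (ψ w) (hK w hw)
    rwa [hψ.eq w hw] at h
  have h2 : ∀ w ∈ W, χ (ψ w) w = ψ w := by
    intro w hw
    have h := hχb (ψ w) (hK w hw)
    rwa [hψ.eq w hw] at h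
  have h3 : ∀ w ∈ W, ∀ p ∈ ball w R, χ (ψ w) p ∈ ball (0 : ℂ) 1 ∧ A (χ (ψ w) p) = p := by
    intro w hw p hp
    have h := hχm (ψ w) (hK w hw) p (by rwa [hψ.eq w hw])
    exact ⟨(hball (ψ w) (hK w hw)).1 h.1, h.2⟩
  have hcons : ∀ w₁ ∈ W, ∀ w₂ ∈ W, ∀ p, dist p w₁ < R / 2 → dist p w₂ < R / 2 →
      χ (ψ w₁) p = χ (ψ w₂) p := by
    intro w₁ hw₁ w₂ hw₂ p hp₁ hp₂
    have h12 : w₂ ∈ ball w₁ R := by
      rw [mem_ball]
      calc dist w₂ w₁ ≤ dist w₂ p + dist p w₁ := dist_triangle _ _ _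
        _ < R / 2 + R / 2 := by
            rw [dist_comm w₂ p]
            exact add_lt_add hp₂ hp₁
        _ = R := by ring
    have e1 : EqOn ψ (χ (ψ w₁)) (W ∩ ball w₁ R) := by
      refine lift_eqOn (hWc.inter (convex_ball w₁ R)).isPreconnected hA hA'
        (hψ.diff.continuousOn.mono inter_subset_left)
        ((h1 w₁ hw₁).continuousOn.mono inter_subset_right)
        (fun x hx => hU.sub (hK x hx.1)) (fun x hx => (h3 w₁ hw₁ x hx.2).1)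
        (fun x hx => by rw [hψ.eq x hx.1, (h3 w₁ hw₁ x hx.2).2])
        ⟨hw₁, mem_ball_self hR⟩ (h2 w₁ hw₁).symm
    have e2 : χ (ψ w₁) w₂ = χ (ψ w₂) w₂ := by
      rw [h2 w₂ hw₂]
      exact (e1 ⟨hw₂, h12⟩).symm
    have e3 : EqOn (χ (ψ w₁)) (χ (ψ w₂)) (ball w₁ R ∩ ball w₂ R) := by
      refine lift_eqOn ((convex_ball w₁ R).inter (convex_ball w₂ R)).isPreconnected hA hA'
        ((h1 w₁ hw₁).continuousOn.mono inter_subset_left)
        ((h1 w₂ hw₂).continuousOn.mono inter_subset_right)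
        (fun x hx => (h3 w₁ hw₁ x hx.1).1) (fun x hx => (h3 w₂ hw₂ x hx.2).1)
        (fun x hx => by rw [(h3 w₁ hw₁ x hx.1).2, (h3 w₂ hw₂ x hx.2).2])
        ⟨h12, mem_ball_self hR⟩ e2
    exact e3 ⟨mem_ball.2 (by linarith), mem_ball.2 (by linarith)⟩
  have hchoice : ∀ p : ℂ, ∃ w, p ∈ thickening (R / 2) W → w ∈ W ∧ dist p w < R / 2 := by
    intro p
    by_cases hp : p ∈ thickening (R / 2) W
    · obtain ⟨w, hw, hd⟩ := mem_thickening_iff.1 hp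
      exact ⟨w, fun _ => ⟨hw, hd⟩⟩
    · exact ⟨0, fun h => absurd h hp⟩
  choose c hc using hchoice
  have hR2 : 0 < R / 2 := by linarith
  have hval : ∀ w ∈ W, ∀ p ∈ ball w (R / 2), χ (ψ (c p)) p = χ (ψ w) p := by
    intro w hw p hp
    have hp' : p ∈ thickening (R / 2) W := mem_thickening_iff.2 ⟨w, hw, hp⟩
    obtain ⟨h4, h5⟩ := hc p hp'
    exact hcons (c p) h4 w hw p h5 hp
  refine ⟨R / 2, hR2, fun p => χ (ψ (c p)) p, ⟨?_, ?_, ?_⟩, ?_⟩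
  · intro p hp
    obtain ⟨w, hw, hd⟩ := mem_thickening_iff.1 hp
    have hpw : p ∈ ball w (R / 2) := hd
    have h6 : (fun p => χ (ψ (c p)) p) =ᶠ[𝓝 p] χ (ψ w) := by
      filter_upwards [isOpen_ball.mem_nhds hpw] with q hq
      exact hval w hw q hq
    have h7 : DifferentiableAt ℂ (χ (ψ w)) p :=
      (h1 w hw).differentiableAt (isOpen_ball.mem_nhds (mem_ball.2 (by linarith)))
    exact (h6.differentiableAt_iff.2 h7).differentiableWithinAt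
  · intro p hp
    obtain ⟨h4, h5⟩ := hc p hp
    exact (h3 (c p) h4 p (mem_ball.2 (by linarith))).1
  · intro p hp
    obtain ⟨h4, h5⟩ := hc p hp
    exact (h3 (c p) h4 p (mem_ball.2 (by linarith))).2
  · intro w hw
    show χ (ψ (c w)) w = ψ w
    rw [hval w hw w (mem_ball_self hR2), h2 w hw]

/-- Uniqueness of branches (`lift_eqOn`; a branch is continuous). -/
theorem branch_eqOn (hA : DifferentiableOn ℂ A (ball 0 1))
    (hA' : ∀ z ∈ ball (0 : ℂ) 1, deriv A z ≠ 0) {W W₁ W₂ : Set ℂ} (hW : IsPreconnected W)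
    {ψ₁ ψ₂ : ℂ → ℂ} (h₁ : Branch A W₁ (ball 0 1) ψ₁) (h₂ : Branch A W₂ (ball 0 1) ψ₂)
    (hW₁ : W ⊆ W₁) (hW₂ : W ⊆ W₂) {w₀ : ℂ} (hw₀ : w₀ ∈ W) (h0 : ψ₁ w₀ = ψ₂ w₀) :
    EqOn ψ₁ ψ₂ W :=
  lift_eqOn hW hA hA' (h₁.diff.continuousOn.mono hW₁) (h₂.diff.continuousOn.mono hW₂)
    (fun x hx => h₁.mem x (hW₁ hx)) (fun x hx => h₂.mem x (hW₂ hx))
    (fun x hx => by rw [h₁.eq x (hW₁ hx), h₂.eq x (hW₂ hx)]) hw₀ h0

end Pool.Agent.HQT
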