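import Pool.Agent.HQT.BrExt
import Pool.Agent.HQ.LoopDisc
import Pool.Agent.HQ.LoopA
import Pool.Agent.HQ.LoopExt

/-! HQT (growth exponent 3, MP_7da5c3_an), file CLift: closed lifts (section 4) -/

set_option autoImplicit false

open Complex Metric Set Filter Topology MeasureTheory
open scoped ComplexConjugate Real

namespace Pool.Agent.HQT

open Pool.Agent.HQ

variable {A B : ℂ → ℂ}

private theorem half_CLift {e₀ : ℂ} {ρ r : ℝ} (hρ : 0 < ρ) (hr : ρ < r) {g : ℂ → ℂ}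
    (hg : DifferentiableOn ℂ g (ball e₀ r)) (c : ℂ) {m : ℝ}
    (h : ∀ w ∈ sphere e₀ ρ, (c * g w).re < m) : ∀ w ∈ closedBall e₀ ρ, (c * g w).re < m := by
  have hsub : closedBall e₀ ρ ⊆ ball e₀ r := closedBall_subset_ball hr
  have hcg : DifferentiableOn ℂ (fun w => c * g w) (ball e₀ r) := hg.const_mul c
  have hcont : ContinuousOn (fun w => (c * g w).re) (sphere e₀ ρ) :=
    continuous_re.comp_continuousOn
      (hcg.continuousOn.mono (sphere_subset_closedBall.trans hsub))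
  obtain ⟨w₀, hw₀, hmax⟩ := (isCompact_sphere e₀ ρ).exists_isMaxOn
    (NormedSpace.sphere_nonempty.2 hρ.le) hcont
  intro w hw
  have hd : DiffContOnCl ℂ (fun w => exp (c * g w)) (ball e₀ ρ) := by
    refine ⟨(hcg.cexp).mono (ball_subset_ball hr.le), ?_⟩
    rw [closure_ball e₀ hρ.ne']
    exact hcg.cexp.continuousOn.mono hsub
  have h1 := Complex.norm_le_of_forall_mem_frontier_norm_le isBounded_ball hd
    (C := Real.exp (c * g w₀).re) (fun z hz => by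
      rw [frontier_ball e₀ hρ.ne'] at hz
      rw [Complex.norm_exp]
      exact Real.exp_le_exp.2 (hmax hz)) (z := w) (by
      rw [closure_ball e₀ hρ.ne']
      exact hw)
  rw [Complex.norm_exp, Real.exp_le_exp] at h1
  exact h1.trans_lt (h w₀ hw₀)

/-- A CLOSED LIFT BOUNDS A BRANCH ON THE DISC.
Proof. `A₁ = A - e₀`.  `loop_thicken` (with `t = ρ`), `loop_extend`, `loop_disc` for `A₁` give
`ψ₀ : ball 0 (exp (log ρ + ε)) → ball 0 1`, `A₁ (ψ₀ w) = w`, `ψ₀ (exp ω) = Φ ω`, and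
`Φ (log ρ + θ I) = z₂ θ`; put `r = exp (log ρ + ε) > ρ`, `ψ₁ w = ψ₀ (w - e₀)`. -/
theorem closed_lift_disc (hA : DifferentiableOn ℂ A (ball 0 1))
    (hA' : ∀ z ∈ ball (0 : ℂ) 1, deriv A z ≠ 0) {e₀ : ℂ} {ρ a : ℝ} (hρ : 0 < ρ) {z₂ : ℝ → ℂ}
    (hz : IsLift (fun z => A z - e₀) ρ a (a + 2 * π) z₂) (hper : z₂ (a + 2 * π) = z₂ a) :
    ∃ r > ρ, ∃ ψ₁ : ℂ → ℂ, Branch A (ball e₀ r) (ball 0 1) ψ₁ ∧
      ∀ θ ∈ Icc a (a + 2 * π), ψ₁ (e₀ + ρ * exp (θ * I)) = z₂ θ := by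
  have hA₁ : DifferentiableOn ℂ (fun z => A z - e₀) (ball 0 1) := hA.sub_const e₀
  have hA₁' : ∀ z ∈ ball (0 : ℂ) 1, deriv (fun z => A z - e₀) z ≠ 0 := by
    intro z hz
    rw [deriv_sub_const]
    exact hA' z hz
  obtain ⟨ε, hε, Ψ, hΨ, hΨz⟩ := loop_thicken hA₁ hA₁' hρ hz hper
  obtain ⟨Φ, hΦ, hΦΨ⟩ := loop_extend hA₁ hA₁' hρ hε hΨ
  have hΦ' : ∀ c < Real.log ρ + ε, ExpBranch (fun z => A z - e₀) c (Real.log ρ + ε) Φ := by
    intro c _
    have h1 := hΦ (min c (Real.log ρ - 1)) (lt_of_le_of_lt (min_le_right _ _) (by linarith))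
    have h2 : ∀ x : ℝ, c < x → min c (Real.log ρ - 1) < x := fun x hx =>
      lt_of_le_of_lt (min_le_left _ _) hx
    exact ⟨h1.diff.mono fun ω hω => ⟨h2 _ hω.1, hω.2⟩, fun ω h3 h4 => h1.mem ω (h2 _ h3) h4,
      fun ω h3 h4 => h1.eq ω (h2 _ h3) h4, fun ω h3 h4 => h1.per ω (h2 _ h3) h4⟩
  obtain ⟨ψ, hψd, hψ, hψe⟩ := loop_disc hA₁ hΦ'
  have hR : ρ < Real.exp (Real.log ρ + ε) := by
    rw [Real.exp_add, Real.exp_log hρ]
    have h1 : 1 < Real.exp ε := Real.one_lt_exp_iff.2 hε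
    nlinarith
  have hmem : ∀ w ∈ ball e₀ (Real.exp (Real.log ρ + ε)),
      w - e₀ ∈ ball (0 : ℂ) (Real.exp (Real.log ρ + ε)) := by
    intro w hw
    rw [mem_ball_zero_iff, ← dist_eq_norm]
    exact hw
  refine ⟨Real.exp (Real.log ρ + ε), hR, fun w => ψ (w - e₀), ⟨?_, ?_, ?_⟩, ?_⟩
  · exact hψd.comp (differentiableOn_id.sub_const e₀) hmem
  · exact fun w hw => (hψ _ (hmem w hw)).1
  · intro w hw
    have h1 := (hψ _ (hmem w hw)).2
    exact sub_left_inj.1 h1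
  · intro θ hθ
    have hexp : exp ((Real.log ρ : ℂ) + θ * I) = ρ * exp (θ * I) := by
      rw [Complex.exp_add, ← Complex.ofReal_exp, Real.exp_log hρ]
    have hre : ((Real.log ρ : ℂ) + θ * I).re = Real.log ρ := by simp
    show ψ (e₀ + ρ * exp (θ * I) - e₀) = z₂ θ
    rw [add_sub_cancel_left, ← hexp, hψe _ (by rw [hre]; linarith), hΦΨ _ (by rw [hre]; linarith)
      (by rw [hre]; linarith), hΨz θ hθ]

/-- MAXIMUM PRINCIPLE.
Proof. `g = Lmap ∘ ψ₁` is holomorphic on `ball e₀ r ⊃ closedBall e₀ ρ`; on the circle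
`Re g < x₁ + d` etc.  For each of the four half planes `{Re (c w) < m}` (`c = 1, -1, I, -I`) apply
the maximum modulus principle to `exp (c g)`: `‖exp (c g)‖ = exp (Re (c g)) ≤ max over the circle
< exp m` (the circle is compact, `Complex.norm_le_of_forall_mem_frontier_norm_le`). -/
theorem disc_in_box {x₁ d ρ r : ℝ} (hd0 : 0 < d) (hd : d < π / 2) (hρ : 0 < ρ) (hr : ρ < r)
    {e₀ : ℂ} {ψ₁ : ℂ → ℂ} (hψ : DifferentiableOn ℂ ψ₁ (ball e₀ r))
    (hψ1 : ∀ w ∈ ball e₀ r, ψ₁ w ∈ ball (0 : ℂ) 1)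
    (hc : ∀ w ∈ sphere e₀ ρ, ψ₁ w ∈ Ubox x₁ d) : ∀ w ∈ closedBall e₀ ρ, ψ₁ w ∈ Ubox x₁ d := by
  have hg : DifferentiableOn ℂ (fun w => Lmap (ψ₁ w)) (ball e₀ r) :=
    differentiableOn_Lmap.comp hψ hψ1
  have e1 : ∀ w : ℂ, ((-1 : ℂ) * w).re = -w.re := fun w => by simp
  have e2 : ∀ w : ℂ, ((1 : ℂ) * w).re = w.re := fun w => by simp
  have e3 : ∀ w : ℂ, ((-I) * w).re = w.im := fun w => by simp
  have e4 : ∀ w : ℂ, (I * w).re = -w.im := fun w => by simp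
  have k1 := half_CLift hρ hr hg (-1) (m := d) (fun w hw => by
    have := (hc w hw).2.1
    rw [e1]
    linarith)
  have k2 := half_CLift hρ hr hg 1 (m := x₁ + d) (fun w hw => by
    have := (hc w hw).2.2.1
    rw [e2]
    linarith)
  have k3 := half_CLift hρ hr hg (-I) (m := d) (fun w hw => by
    have := (abs_lt.1 (hc w hw).2.2.2).2
    rw [e3]
    linarith)
  have k4 := half_CLift hρ hr hg I (m := d) (fun w hw => by
    have := (abs_lt.1 (hc w hw).2.2.2).1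
    rw [e4]
    linarith)
  intro w hw
  have l1 := k1 w hw
  have l2 := k2 w hw
  have l3 := k3 w hw
  have l4 := k4 w hw
  rw [e1] at l1
  rw [e2] at l2
  rw [e3] at l3
  rw [e4] at l4
  exact ⟨hψ1 w (closedBall_subset_ball hr hw), by linarith, l2, abs_lt.2 ⟨by linarith, l3⟩⟩

end Pool.Agent.HQT
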