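import Pool.Agent.HQT.ExtB
import Pool.Agent.HQ.LiftExit

/-! HQT (growth exponent 3, MP_7da5c3_an), file CSR: the piece R_s (section 6) -/

set_option autoImplicit false

open Complex Metric Set Filter Topology MeasureTheory
open scoped ComplexConjugate Real

namespace Pool.Agent.HQT

open Pool.Agent.HQ

variable {A B : ℂ → ℂ}

/-- THE PIECE `R_s`.
Proof (notation of file CSL).  `exists_lift_exit` for `A₁ = A - e` (`deriv A₁ = deriv A`), radius
`s - ‖e‖ > 0`, `θ₀ = χ`, `z₀ = J` (`A J - e = s e^{iχ} - ‖e‖ e^{iχ}`), `T = 2π` gives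
`b ∈ (χ, χ + 2π]`.  If `3π/2 < b` take `η₁ ∈ (3π/2, min b (2π))`; `extent_ccw` with `e₀ = e`,
`ρ = s - ‖e‖`, `η₀ = χ`: `Re e + ρ cos η₁ ≤ t cos φ = Re e`, so `cos η₁ ≤ 0`, contradiction.
So `b ≤ 3π/2 < χ + 2π` and the exit alternative holds. -/
theorem exists_R {x₁ d : ℝ} (hd0 : 0 < d) (hd : d < π / 2) {t α β θ₀ r₀ : ℝ}
    {z : ℝ → ℂ} (ha : Arc A B (Ubox x₁ d) t α β θ₀ r₀ z) (hα : α < -π) (hβ : π < β)
    {φ r : ℝ} {ψ : ℂ → ℂ} {e : ℂ} (hv : VS A (Ubox x₁ d) t φ r z ψ e) {s : ℝ}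
    (hs : s ∈ Ioo ‖e‖ t) :
    ∃ b : ℝ, ∃ zR : ℝ → ℂ, arg e < b ∧ b ≤ 3 * π / 2 ∧
      IsLift (fun z => A z - e) (s - ‖e‖) (arg e) b zR ∧
      zR (arg e) = ψ (s * exp (arg e * I)) ∧
      (∀ θ ∈ Ico (arg e) b, zR θ ∈ Ubox x₁ d) ∧ zR b ∉ Ubox x₁ d := by
  have hpi := Real.pi_pos
  have ht : 0 < t := (norm_nonneg _).trans_lt ha.ht
  have hs0 : 0 < s - ‖e‖ := by
    have := hs.1
    linarith
  have hχ : |arg e| < φ := abs_arg_lt ht hv.hφ hv.hφ' hv.tip_re.ge hv.tip_norm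
  have hχ' : |arg e| < π / 2 := hχ.trans hv.hφ'
  have hχ2 := abs_lt.1 hχ'
  have hV : (s * exp (arg e * I) : ℂ) ∈ Vseg t φ :=
    ray_mem_Vseg hv.hφ hv.hφ' hv.tip_re hv.tip_norm hs.1 hs.2
  have hJU : ψ (s * exp (arg e * I)) ∈ Ubox x₁ d := hv.good.mem _ hV
  have hAJ : A (ψ (s * exp (arg e * I))) = s * exp (arg e * I) :=
    hv.good.branch.eq _ (self_subset_thickening hv.good.hr _ hV)
  have hpol : (‖e‖ : ℂ) * exp (arg e * I) = e := Complex.norm_mul_exp_arg_mul_I e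
  have hsub : (s * exp (arg e * I) : ℂ) - e = ((s - ‖e‖ : ℝ) : ℂ) * exp (arg e * I) := by
    push_cast
    rw [sub_mul, hpol]
  have hadd : e + ((s - ‖e‖ : ℝ) : ℂ) * exp (arg e * I) = s * exp (arg e * I) := by
    rw [← hsub]
    ring
  have hAd : DifferentiableOn ℂ (fun z => A z - e) (ball 0 1) := by
    intro z hz
    exact ((ha.pair.anA z (ball_subset_closedBall hz)).differentiableAt.sub_const
      e).differentiableWithinAt
  have hA' : ∀ z ∈ ball (0 : ℂ) 1, deriv (fun z => A z - e) z ≠ 0 := by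
    intro z hz
    rw [deriv_sub_const]
    exact ha.pair.deriv_ne (ball_subset_closedBall hz)
  obtain ⟨b, hb, zR, hzR, hzR0, hzRU, hex⟩ := exists_lift_exit hAd hA' ha.dom.opn ha.dom.cpt
    ha.dom.sub (t := s - ‖e‖) (θ₀ := arg e) (T := 2 * π) hs0 (by linarith) hJU (by
      show A (ψ (s * exp (arg e * I))) - e = _
      rw [hAJ, hsub])
  have hb3 : b ≤ 3 * π / 2 := by
    by_contra hcon
    rw [not_le] at hcon
    have hm : 3 * π / 2 < min b (2 * π) := lt_min hcon (by linarith)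
    have hm1 : min b (2 * π) ≤ b := min_le_left _ _
    have hm2 : min b (2 * π) ≤ 2 * π := min_le_right _ _
    have hη : ∃ η₁ : ℝ, 3 * π / 2 < η₁ ∧ η₁ < b ∧ η₁ < 2 * π :=
      ⟨(3 * π / 2 + min b (2 * π)) / 2, by linarith, by linarith, by linarith⟩
    obtain ⟨η₁, hη1, hη2, hη3⟩ := hη
    have hlift : IsLift (fun z => A z - e) (s - ‖e‖) (arg e) η₁ zR :=
      ⟨hzR.cont.mono (Icc_subset_Icc_right hη2.le),
        fun θ hθ => hzR.mem θ ⟨hθ.1, hθ.2.trans hη2.le⟩,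
        fun θ hθ => hzR.eq θ ⟨hθ.1, hθ.2.trans hη2.le⟩⟩
    have hext := extent_ccw ha.pair hd0 hd ht ha.lift hα.le
      (by have := hv.hφ'; linarith) hv (e₀ := e) (ρ := s - ‖e‖) hs0
      (by have := hs.2; linarith) (mem_closedBall_self hs0.le) hv.tip_re.le (η₀ := arg e)
      (η₁ := η₁) hχ' (by linarith) hη3 hlift (fun θ hθ => hzRU θ ⟨hθ.1, hθ.2.trans_lt hη2⟩)
      (by rw [hadd]; exact hV) (by rw [hadd]; exact hzR0)
    rw [hv.tip_re] at hext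
    have hcos : 0 < Real.cos η₁ := by
      rw [← Real.cos_two_pi_sub]
      exact Real.cos_pos_of_mem_Ioo ⟨by linarith, by linarith⟩
    have := mul_pos hs0 hcos
    linarith
  refine ⟨b, zR, hb.1, hb3, hzR, hzR0, hzRU, ?_⟩
  rcases hex with h | h
  · exfalso
    linarith [hχ2.1]
  · exact h

end Pool.Agent.HQT
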