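import Pool.Agent.HQT.CSL
import Pool.Agent.HQT.CSR

/-! HQT (growth exponent 3, MP_7da5c3_an), file CSEx: the curve C_s (section 6) -/

set_option autoImplicit false

open Complex Metric Set Filter Topology MeasureTheory
open scoped ComplexConjugate Real

namespace Pool.Agent.HQT

open Pool.Agent.HQ

variable {A B : ℂ → ℂ}

/-- LENGTH.  Proof. The left side is at most
`s (χ + 3π/2 + arcsin (E cos χ / s)) + (s - E) (3π/2 - χ) = 3π s + s arcsin (E cos χ / s)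
- E (3π/2 - χ)`; `arcsin x ≤ (π/2) x` for `0 ≤ x ≤ 1` (Jordan: `Real.mul_le_sin`:
`(2/π) y ≤ sin y`), so `s arcsin (E cos χ/s) ≤ (π/2) E cos χ ≤ (π/2) E`, and
`3π/2 - χ ≥ π`. -/
theorem len_ineq {E s χ a b : ℝ} (hE : 0 < E) (hs : E < s) (hχ : |χ| < π / 2)
    (ha : -(3 * π / 2) - Real.arcsin (E * Real.cos χ / s) ≤ a) (hb : b ≤ 3 * π / 2) :
    s * (χ - a) + (s - E) * (b - χ) ≤ 3 * π * s := by
  have hs0 : 0 < s := hE.trans hs
  have hχ1 := (abs_lt.1 hχ).1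
  have hχ2 := (abs_lt.1 hχ).2
  have hc0 : 0 ≤ Real.cos χ := Real.cos_nonneg_of_mem_Icc ⟨by linarith, hχ2.le⟩
  have hc1 : Real.cos χ ≤ 1 := Real.cos_le_one χ
  set x : ℝ := E * Real.cos χ / s with hx
  have hxs : s * x = E * Real.cos χ := by
    rw [hx]
    field_simp
  have hx0 : 0 ≤ x := by positivity
  have hEc : E * Real.cos χ ≤ E := mul_le_of_le_one_right hE.le hc1
  have hx1 : x ≤ 1 := by
    rw [hx, div_le_one hs0]
    linarith
  have hy0 : 0 ≤ Real.arcsin x := Real.arcsin_nonneg.2 hx0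
  have hy1 : Real.arcsin x ≤ π / 2 := Real.arcsin_le_pi_div_two x
  have hy2 := Real.mul_le_sin hy0 hy1
  rw [Real.sin_arcsin (by linarith) hx1] at hy2
  have hpi := Real.pi_pos
  have hy3 : Real.arcsin x ≤ π / 2 * x := by
    have h1 : π / 2 * (2 / π * Real.arcsin x) = Real.arcsin x := by
      field_simp
    rw [← h1]
    exact mul_le_mul_of_nonneg_left hy2 (by positivity)
  have h1 : s * (χ - a) ≤ s * (χ + 3 * π / 2 + Real.arcsin x) :=
    mul_le_mul_of_nonneg_left (by linarith) hs0.le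
  have h2 : (s - E) * (b - χ) ≤ (s - E) * (3 * π / 2 - χ) :=
    mul_le_mul_of_nonneg_left (by linarith) (by linarith)
  have h3 : s * Real.arcsin x ≤ π / 2 * E := by
    calc s * Real.arcsin x ≤ s * (π / 2 * x) := mul_le_mul_of_nonneg_left hy3 hs0.le
      _ = π / 2 * (s * x) := by ring
      _ ≤ π / 2 * E := by
        rw [hxs]
        exact mul_le_mul_of_nonneg_left hEc (by positivity)
  have h4 : E * π ≤ E * (3 * π / 2 - χ) := mul_le_mul_of_nonneg_left (by linarith) hE.le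
  have h5 : 0 ≤ E * π := by positivity
  nlinarith [h1, h2, h3, h4, h5]

/-- Proof. `exists_L`, `exists_R`, `len_ineq` with `E = ‖e‖`, `χ = arg e`
(`t cos φ = Re e = ‖e‖ cos (arg e)`, `e ≠ 0` since `Re e > 0`, `|arg e| < φ < π/2`). -/
theorem exists_CS {x₁ d : ℝ} (hd0 : 0 < d) (hd : d < π / 2) {t α β θ₀ r₀ : ℝ}
    {z : ℝ → ℂ} (ha : Arc A B (Ubox x₁ d) t α β θ₀ r₀ z) (hα : α < -π) (hβ : π < β)
    {φ r : ℝ} {ψ : ℂ → ℂ} {e : ℂ} (hv : VS A (Ubox x₁ d) t φ r z ψ e) {s : ℝ}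
    (hs : s ∈ Ioo ‖e‖ t) :
    ∃ a b : ℝ, ∃ zL zR : ℝ → ℂ, CS A (Ubox x₁ d) ψ e s a b zL zR := by
  obtain ⟨a, zL, hL1, hL2, hL3, hL4, hL5, hL6, hL7⟩ := exists_L hd0 hd ha hα hβ hv hs
  obtain ⟨b, zR, hR1, hR2, hR3, hR4, hR5, hR6⟩ := exists_R hd0 hd ha hα hβ hv hs
  have ht0 : 0 < t := (norm_nonneg _).trans_lt ha.ht
  have hφ := hv.hφ
  have hφ' := hv.hφ'
  have hcos : 0 < Real.cos φ := Real.cos_pos_of_mem_Ioo ⟨by linarith, hφ'⟩
  have hre : 0 < e.re := by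
    rw [hv.tip_re]
    positivity
  have hE : 0 < ‖e‖ := by
    rw [norm_pos_iff]
    rintro rfl
    simp at hre
  have harg : |arg e| < π / 2 := Complex.abs_arg_lt_pi_div_two_iff.2 (Or.inl hre)
  have hEc : ‖e‖ * Real.cos (arg e) = t * Real.cos φ := by
    rw [Complex.norm_mul_cos_arg, hv.tip_re]
  rw [← hEc] at hL3
  exact ⟨a, b, zL, zR, hL1, hR1, hL2, by linarith [(abs_lt.1 harg).1], hL4, hR3, hL5, hR4, hL6,
    hR5, hL7, hR6, len_ineq hE hs.1 harg hL3 hR2⟩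

end Pool.Agent.HQT
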