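import Pool.Agent.HQT.ExtB
import Pool.Agent.HQ.LiftExit

/-! HQT (growth exponent 3, MP_7da5c3_an), file CSL: the piece L_s (section 6) -/

set_option autoImplicit false

open Complex Metric Set Filter Topology MeasureTheory
open scoped ComplexConjugate Real

namespace Pool.Agent.HQT

open Pool.Agent.HQ

variable {A B : ℂ → ℂ}

/-- THE PIECE `L_s`.
Proof (`χ = arg e`, `c = t cos φ = ‖e‖ cos χ`, `|χ| < φ < π/2` by `abs_arg_lt`, `J = ψ (s e^{iχ})`,
`s e^{iχ} ∈ Vseg t φ` by `ray_mem_Vseg`, so `J ∈ U`).  `exists_lift_exit'` with `T = 2π` gives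
`a ∈ [χ - 2π, χ)` and `zL`.  Let `θc = -(3π/2) - arcsin (c/s)`.
`χ - 2π < θc`: `c/s < cos χ = sin (π/2 - |χ|)`, so `arcsin (c/s) < π/2 - |χ|`.
`θc ≤ a`: otherwise take `η₁ ∈ (max a (-2π), θc)`; `η₁ ∈ (-2π, -3π/2)`; `extent_cw` with
`e₀ = 0`, `ρ = s`, `η₀ = χ`, `z₂ = zL` restricted to `[η₁, χ]` gives `s cos η₁ ≤ c`; but
`cos η₁ > cos θc = sin (arcsin (c/s)) = c/s`, contradiction.
So `a ≥ θc > χ - 2π` and the exit alternative holds: `zL a ∉ U`. -/
theorem exists_L {x₁ d : ℝ} (hd0 : 0 < d) (hd : d < π / 2) {t α β θ₀ r₀ : ℝ}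
    {z : ℝ → ℂ} (ha : Arc A B (Ubox x₁ d) t α β θ₀ r₀ z) (hα : α < -π) (hβ : π < β)
    {φ r : ℝ} {ψ : ℂ → ℂ} {e : ℂ} (hv : VS A (Ubox x₁ d) t φ r z ψ e) {s : ℝ}
    (hs : s ∈ Ioo ‖e‖ t) :
    ∃ a : ℝ, ∃ zL : ℝ → ℂ, a < arg e ∧ arg e - 2 * π < a ∧
      -(3 * π / 2) - Real.arcsin (t * Real.cos φ / s) ≤ a ∧ IsLift A s a (arg e) zL ∧
      zL (arg e) = ψ (s * exp (arg e * I)) ∧
      (∀ θ ∈ Ioc a (arg e), zL θ ∈ Ubox x₁ d) ∧ zL a ∉ Ubox x₁ d := by
  have hpi := Real.pi_pos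
  have ht : 0 < t := (norm_nonneg _).trans_lt ha.ht
  have hφ := hv.hφ
  have hφ' := hv.hφ'
  have hcφ : 0 < Real.cos φ := Real.cos_pos_of_mem_Ioo ⟨by linarith, hφ'⟩
  have hc0 : 0 < t * Real.cos φ := mul_pos ht hcφ
  have hs0 : 0 < s := (norm_nonneg e).trans_lt hs.1
  have hA := ha.pair.diffA
  have hA' : ∀ z ∈ ball (0 : ℂ) 1, deriv A z ≠ 0 := fun z hz =>
    ha.pair.deriv_ne (ball_subset_closedBall hz)
  have hχ : |arg e| < φ := abs_arg_lt ht hφ hφ' hv.tip_re.ge hv.tip_norm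
  have hw : (s * exp (arg e * I) : ℂ) ∈ Vseg t φ :=
    ray_mem_Vseg hφ hφ' hv.tip_re hv.tip_norm hs.1 hs.2
  have hJ : ψ (s * exp (arg e * I)) ∈ Ubox x₁ d := hv.good.mem _ hw
  have hAJ : A (ψ (s * exp (arg e * I))) = s * exp (arg e * I) :=
    hv.good.branch.eq _ (self_subset_thickening hv.good.hr _ hw)
  obtain ⟨a, ha1, zL, hL, hL0, hLU, hex⟩ := exists_lift_exit' hA hA' ha.dom.opn ha.dom.cpt
    ha.dom.sub hs0 (by linarith : 0 < 2 * π) hJ hAJ
  have hre : e.re = ‖e‖ * Real.cos (arg e) := (Complex.norm_mul_cos_arg e).symm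
  have hcos : 0 < Real.cos (arg e) := by
    have h1 := hv.tip_re
    rw [hre] at h1
    rw [← h1] at hc0
    exact pos_of_mul_pos_right hc0 (norm_nonneg e)
  have hcs : t * Real.cos φ / s < Real.cos (arg e) := by
    rw [div_lt_iff₀ hs0, ← hv.tip_re, hre, mul_comm]
    exact mul_lt_mul_of_pos_left hs.1 hcos
  have hcs0 : 0 < t * Real.cos φ / s := div_pos hc0 hs0
  have hcs1 : t * Real.cos φ / s < 1 := hcs.trans_le (Real.cos_le_one _)
  have hx1 : Real.arcsin (t * Real.cos φ / s) < π / 2 - |arg e| := by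
    rw [Real.arcsin_lt_iff_lt_sin ⟨by linarith, hcs1.le⟩
      ⟨by linarith [abs_nonneg (arg e)], by linarith [abs_nonneg (arg e)]⟩]
    rw [Real.sin_pi_div_two_sub, Real.cos_abs]
    exact hcs
  have hx0 : 0 < Real.arcsin (t * Real.cos φ / s) := Real.arcsin_pos.2 hcs0
  have hθ1 : arg e - 2 * π < -(3 * π / 2) - Real.arcsin (t * Real.cos φ / s) := by
    have := le_abs_self (arg e)
    linarith
  have hθ2 : -(3 * π / 2) - Real.arcsin (t * Real.cos φ / s) ≤ a := by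
    by_contra hcon
    rw [not_le] at hcon
    have h1 : max a (-(2 * π)) < -(3 * π / 2) - Real.arcsin (t * Real.cos φ / s) :=
      max_lt hcon (by linarith [abs_nonneg (arg e)])
    obtain ⟨η₁, h2, h3⟩ := exists_between h1
    have h4 : a < η₁ := (le_max_left _ _).trans_lt h2
    have h5 : -(2 * π) < η₁ := (le_max_right _ _).trans_lt h2
    have hz₂ : IsLift (fun z => A z - 0) s η₁ (arg e) zL :=
      ⟨hL.cont.mono (Icc_subset_Icc h4.le le_rfl),
        fun θ hθ => hL.mem θ ⟨h4.le.trans hθ.1, hθ.2⟩,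
        fun θ hθ => by
          simp only [sub_zero]
          exact hL.eq θ ⟨h4.le.trans hθ.1, hθ.2⟩⟩
    have h6 := extent_cw (e₀ := 0) (ρ := s) (η₀ := arg e) (η₁ := η₁) (z₂ := zL) ha.pair hd0 hd ht
      ha.lift (by linarith) hβ.le hv hs0 (by simpa using hs.2)
      (by rw [mem_closedBall_zero_iff]; exact hs.1.le) (by simpa using hc0.le)
      (hχ.trans hφ') (by linarith) h5 hz₂
      (fun θ hθ => hLU θ ⟨h4.trans_le hθ.1, hθ.2⟩) (by rw [zero_add]; exact hw)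
      (by rw [zero_add]; exact hL0)
    have h7 : t * Real.cos φ / s < Real.cos η₁ := by
      have h8 := Real.cos_lt_cos_of_nonneg_of_le_pi (x := η₁ + 2 * π)
        (y := π / 2 - Real.arcsin (t * Real.cos φ / s)) (by linarith) (by linarith)
        (by linarith)
      rw [Real.cos_pi_div_two_sub, Real.sin_arcsin (by linarith) hcs1.le,
        Real.cos_add_two_pi] at h8
      exact h8
    rw [div_lt_iff₀ hs0] at h7
    simp only [Complex.zero_re, zero_add] at h6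
    linarith
  refine ⟨a, zL, ha1.2, hθ1.trans_le hθ2, hθ2, hL, hL0, hLU, ?_⟩
  rcases hex with h | h
  · exfalso
    linarith
  · exact h

end Pool.Agent.HQT
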