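import Pool.Agent.HQT.CSEx
import Pool.Agent.HQT.Sep

/-! HQT (growth exponent 3, MP_7da5c3_an), file CSSide: the pieces of C_s lie on their sides (section 8) -/

set_option autoImplicit false

open Complex Metric Set Filter Topology MeasureTheory
open scoped ComplexConjugate Real

namespace Pool.Agent.HQT

open Pool.Agent.HQ

variable {A B : ℂ → ℂ}

private theorem tip_eq_CSSide (e : ℂ) : (‖e‖ : ℂ) * exp (arg e * I) = e :=
  Complex.norm_mul_exp_arg_mul_I e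

private theorem exp_ne_CSSide {r r' θ χ : ℝ} (hr : 0 < r) (hr' : 0 < r') (hne : θ ≠ χ)
    (h1 : θ - χ < 2 * π) (h2 : -(2 * π) < θ - χ) (h : (r : ℂ) * exp (θ * I) = r' * exp (χ * I)) :
    False := by
  have hn := congrArg norm h
  rw [norm_mul, norm_mul, Complex.norm_exp_ofReal_mul_I, Complex.norm_exp_ofReal_mul_I,
    Complex.norm_real, Complex.norm_real, Real.norm_of_nonneg hr.le, Real.norm_of_nonneg hr'.le,
    mul_one, mul_one] at hn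
  subst hn
  have hr0 : (r : ℂ) ≠ 0 := by exact_mod_cast hr.ne'
  have h3 := mul_left_cancel₀ hr0 h
  have h4 : exp ((θ - χ : ℝ) * I) = 1 := by
    rw [Complex.ofReal_sub, sub_mul, Complex.exp_sub, h3, div_self (Complex.exp_ne_zero _)]
  have h5 := congrArg Complex.re h4
  rw [Complex.exp_ofReal_mul_I_re, Complex.one_re] at h5
  have h6 := (Real.cos_eq_one_iff_of_lt_of_lt h2 h1).1 h5
  exact hne (by linarith)

private theorem im_CSSide (s θ χ : ℝ) :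
    ((s : ℂ) * exp (θ * I) * exp (-(χ * I))).im = s * Real.sin (θ - χ) := by
  have h1 : (s : ℂ) * exp (θ * I) * exp (-(χ * I)) = (s : ℂ) * exp ((θ - χ : ℝ) * I) := by
    rw [mul_assoc, ← Complex.exp_add, Complex.ofReal_sub]
    congr 2
    ring
  rw [h1, Complex.im_ofReal_mul, Complex.exp_ofReal_mul_I_im]

private theorem im_CSSide' (e : ℂ) (s θ : ℝ) :
    ((e + ((s : ℂ) - ‖e‖) * exp (θ * I)) * exp (-(arg e * I))).im =
      (s - ‖e‖) * Real.sin (θ - arg e) := by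
  have h1 : (e + ((s : ℂ) - ‖e‖) * exp (θ * I)) * exp (-(arg e * I)) =
      (‖e‖ : ℂ) + ((s - ‖e‖ : ℝ) : ℂ) * exp (θ * I) * exp (-(arg e * I)) := by
    have h2 : e * exp (-(arg e * I)) = ‖e‖ := by
      nth_rewrite 1 [← tip_eq_CSSide e]
      rw [mul_assoc, ← Complex.exp_add, add_neg_cancel, Complex.exp_zero, mul_one]
    rw [add_mul, h2, Complex.ofReal_sub]
  rw [h1, Complex.add_im, Complex.ofReal_im, zero_add, im_CSSide]

/-- Near the base point `zL` and `zR` are given by `ψ`.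
Proof. `{θ | s e^{iθ} ∈ Vseg t φ}` is open and contains `χ = arg e` (`ray_mem_Vseg`), so it contains
an interval `(χ - η, χ]`, `η` small (`χ - η > a`), on which `zL θ = ψ (s e^{iθ})` by
`lift_eqOn` (both are lifts with values in `ball 0 1`, equal at `χ`).  The same for `zR`. -/
theorem CS_near {U : Set ℂ} (hA : DifferentiableOn ℂ A (ball 0 1))
    (hA' : ∀ z ∈ ball (0 : ℂ) 1, deriv A z ≠ 0) {t φ r : ℝ} {z : ℝ → ℂ} {ψ : ℂ → ℂ} {e : ℂ}
    (hv : VS A U t φ r z ψ e) {s a b : ℝ} (hs : s ∈ Ioo ‖e‖ t) {zL zR : ℝ → ℂ}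
    (hc : CS A U ψ e s a b zL zR) :
    ∃ η > 0, a < arg e - η ∧ arg e + η < b ∧
      (∀ θ ∈ Icc (arg e - η) (arg e), (s * exp (θ * I) : ℂ) ∈ Vseg t φ ∧
        zL θ = ψ (s * exp (θ * I))) ∧
      ∀ θ ∈ Icc (arg e) (arg e + η), (e + (s - ‖e‖) * exp (θ * I) : ℂ) ∈ Vseg t φ ∧
        zR θ = ψ (e + (s - ‖e‖) * exp (θ * I)) := by
  have hbase : (e + (s - ‖e‖) * exp (arg e * I) : ℂ) = s * exp (arg e * I) := by
    nth_rewrite 1 [← tip_eq_CSSide e]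
    ring
  have hw0 : (s * exp (arg e * I) : ℂ) ∈ Vseg t φ :=
    ray_mem_Vseg hv.hφ hv.hφ' hv.tip_re hv.tip_norm hs.1 hs.2
  have hc1 : Continuous fun θ : ℝ => (s * exp (θ * I) : ℂ) := by fun_prop
  have hc2 : Continuous fun θ : ℝ => (e + (s - ‖e‖) * exp (θ * I) : ℂ) := by fun_prop
  have hev : ∀ᶠ θ : ℝ in 𝓝 (arg e), (s * exp (θ * I) : ℂ) ∈ Vseg t φ ∧
      (e + (s - ‖e‖) * exp (θ * I) : ℂ) ∈ Vseg t φ ∧ θ ∈ Ioo a b := by
    refine (hc1.continuousAt.eventually ((isOpen_Vseg t φ).mem_nhds hw0)).and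
      ((hc2.continuousAt.eventually ((isOpen_Vseg t φ).mem_nhds ?_)).and
        (Ioo_mem_nhds hc.ha hc.hb))
    show (e + (s - ‖e‖) * exp (arg e * I) : ℂ) ∈ Vseg t φ
    rw [hbase]
    exact hw0
  obtain ⟨η, hη, hsub⟩ := (nhds_basis_Icc_pos (arg e)).mem_iff.1 hev
  have hin1 : ∀ θ ∈ Icc (arg e - η) (arg e), θ ∈ Icc (arg e - η) (arg e + η) := fun θ hθ =>
    ⟨hθ.1, by linarith [hθ.2]⟩
  have hin2 : ∀ θ ∈ Icc (arg e) (arg e + η), θ ∈ Icc (arg e - η) (arg e + η) := fun θ hθ =>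
    ⟨by linarith [hθ.1], hθ.2⟩
  have hlo : a < arg e - η := (hsub ⟨le_rfl, by linarith⟩).2.2.1
  have hhi : arg e + η < b := (hsub ⟨by linarith, le_rfl⟩).2.2.2
  have hV : Vseg t φ ⊆ thickening r (Vseg t φ) := self_subset_thickening hv.good.hr _
  have hψc : ContinuousOn ψ (Vseg t φ) := hv.good.branch.diff.continuousOn.mono hV
  refine ⟨η, hη, hlo, hhi, ?_, ?_⟩
  · have h1 : EqOn zL (fun θ : ℝ => ψ (s * exp (θ * I))) (Icc (arg e - η) (arg e)) := by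
      refine lift_eqOn isPreconnected_Icc hA hA' (x₀ := arg e)
        (hc.liftL.cont.mono (Icc_subset_Icc_left hlo.le))
        (hψc.comp hc1.continuousOn fun θ hθ => (hsub (hin1 θ hθ)).1)
        (fun θ hθ => hc.liftL.mem θ ⟨hlo.le.trans hθ.1, hθ.2⟩)
        (fun θ hθ => hv.good.branch.mem _ (hV (hsub (hin1 θ hθ)).1)) (fun θ hθ => ?_)
        ⟨by linarith, le_rfl⟩ hc.baseL
      rw [hc.liftL.eq θ ⟨hlo.le.trans hθ.1, hθ.2⟩,
        hv.good.branch.eq _ (hV (hsub (hin1 θ hθ)).1)]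
    exact fun θ hθ => ⟨(hsub (hin1 θ hθ)).1, h1 hθ⟩
  · have h1 : EqOn zR (fun θ : ℝ => ψ (e + (s - ‖e‖) * exp (θ * I)))
        (Icc (arg e) (arg e + η)) := by
      refine lift_eqOn isPreconnected_Icc hA hA' (x₀ := arg e)
        (hc.liftR.cont.mono (Icc_subset_Icc_right hhi.le))
        (hψc.comp hc2.continuousOn fun θ hθ => (hsub (hin2 θ hθ)).2.1)
        (fun θ hθ => hc.liftR.mem θ ⟨hθ.1, hθ.2.trans hhi.le⟩)
        (fun θ hθ => hv.good.branch.mem _ (hV (hsub (hin2 θ hθ)).2.1)) (fun θ hθ => ?_)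
        ⟨le_rfl, by linarith⟩ ?_
      · have h2 := hc.liftR.eq θ ⟨hθ.1, hθ.2.trans hhi.le⟩
        rw [hv.good.branch.eq _ (hV (hsub (hin2 θ hθ)).2.1)]
        rw [Complex.ofReal_sub] at h2
        rw [← h2]
        ring
      · rw [hc.baseR, hbase]
    exact fun θ hθ => ⟨(hsub (hin2 θ hθ)).2.1, h1 hθ⟩

/-- Proof. `zL '' Ioo a χ` is connected and contained in `U \ Γ`: if `zL θ ∈ Γ` then
`s e^{iθ} = s' e^{iχ}`, so `θ - χ ∈ 2πℤ`, but `θ ∈ (χ - 2π, χ)`.  It meets `W₂`: for `θ < χ`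
close to `χ` (`CS_near`) `zL θ = ψ (s e^{iθ})`, `Im (s e^{i(θ - χ)}) = s sin (θ - χ) < 0`,
`Sides.minus`.  So `comp₂`. -/
theorem CS_left {U : Set ℂ} (hA : DifferentiableOn ℂ A (ball 0 1))
    (hA' : ∀ z ∈ ball (0 : ℂ) 1, deriv A z ≠ 0) {t φ r : ℝ} {z : ℝ → ℂ} {ψ : ℂ → ℂ} {e : ℂ}
    (hv : VS A U t φ r z ψ e) {Γ W₁ W₂ : Set ℂ} (hw : Sides A U t φ ψ e Γ W₁ W₂)
    {s a b : ℝ} (hs : s ∈ Ioo ‖e‖ t) {zL zR : ℝ → ℂ} (hc : CS A U ψ e s a b zL zR) :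
    ∀ θ ∈ Ioo a (arg e), zL θ ∈ W₂ := by
  obtain ⟨η, hη, hlo, -, hL, -⟩ := CS_near hA hA' hv hs hc
  have hs0 : 0 < s := (norm_nonneg e).trans_lt hs.1
  have h1 : zL '' Ioo a (arg e) ⊆ W₂ := by
    refine hw.comp₂ _ (isPreconnected_Ioo.image _ (hc.liftL.cont.mono Ioo_subset_Icc_self)) ?_ ?_
    · rintro _ ⟨θ, hθ, rfl⟩
      refine ⟨hc.memL θ ⟨hθ.1, hθ.2.le⟩, fun hΓ => ?_⟩
      obtain ⟨s', hs', h2⟩ := hw.Γray _ hΓ
      rw [hc.liftL.eq θ (Ioo_subset_Icc_self hθ)] at h2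
      exact exp_ne_CSSide hs0 ((norm_nonneg e).trans_lt hs') hθ.2.ne
        (by linarith [hθ.2, Real.pi_pos]) (by linarith [hθ.1, hc.ha']) h2
    · have hm0 : 0 < min η 1 := lt_min hη one_pos
      have hm1 := min_le_left η 1
      have hm2 := min_le_right η 1
      have h3 : arg e - min η 1 ∈ Icc (arg e - η) (arg e) := ⟨by linarith, by linarith⟩
      obtain ⟨h4, h5⟩ := hL _ h3
      refine ⟨zL (arg e - min η 1), ⟨_, ⟨by linarith, by linarith⟩, rfl⟩, ?_⟩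
      rw [h5]
      refine hw.minus _ h4 ?_
      rw [im_CSSide]
      refine mul_neg_of_pos_of_neg hs0 (Real.sin_neg_of_neg_of_neg_pi_lt (by linarith) ?_)
      linarith [Real.pi_gt_three]
  exact fun θ hθ => h1 ⟨θ, hθ, rfl⟩

/-- Proof. The same: if `zR η ∈ Γ` then `e + ρ e^{iη} = s' e^{iχ}`, `s' > ‖e‖`, `e = ‖e‖ e^{iχ}`, so
`ρ e^{iη} = (s' - ‖e‖) e^{iχ}`, `η - χ ∈ 2πℤ`; near `χ`:
`Im ((e + ρ e^{iη}) e^{-iχ}) = ρ sin (η - χ) > 0`, `Sides.plus`, `comp₁`. -/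
theorem CS_right {U : Set ℂ} (hA : DifferentiableOn ℂ A (ball 0 1))
    (hA' : ∀ z ∈ ball (0 : ℂ) 1, deriv A z ≠ 0) {t φ r : ℝ} {z : ℝ → ℂ} {ψ : ℂ → ℂ} {e : ℂ}
    (hv : VS A U t φ r z ψ e) {Γ W₁ W₂ : Set ℂ} (hw : Sides A U t φ ψ e Γ W₁ W₂)
    {s a b : ℝ} (hs : s ∈ Ioo ‖e‖ t) {zL zR : ℝ → ℂ} (hc : CS A U ψ e s a b zL zR) :
    ∀ θ ∈ Ioo (arg e) b, zR θ ∈ W₁ := by
  obtain ⟨η, hη, -, hhi, -, hR⟩ := CS_near hA hA' hv hs hc
  have hρ : 0 < s - ‖e‖ := sub_pos.2 hs.1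
  have h1 : zR '' Ioo (arg e) b ⊆ W₁ := by
    refine hw.comp₁ _ (isPreconnected_Ioo.image _ (hc.liftR.cont.mono Ioo_subset_Icc_self)) ?_ ?_
    · rintro _ ⟨θ, hθ, rfl⟩
      refine ⟨hc.memR θ ⟨hθ.1.le, hθ.2⟩, fun hΓ => ?_⟩
      obtain ⟨s', hs', h2⟩ := hw.Γray _ hΓ
      have h3 := hc.liftR.eq θ (Ioo_subset_Icc_self hθ)
      have h4 : ((s - ‖e‖ : ℝ) : ℂ) * exp (θ * I) = ((s' - ‖e‖ : ℝ) : ℂ) * exp (arg e * I) := by
        rw [← h3, h2, Complex.ofReal_sub, sub_mul, tip_eq_CSSide]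
      exact exp_ne_CSSide hρ (sub_pos.2 hs') hθ.1.ne'
        (by linarith [hθ.2, hc.hb']) (by linarith [hθ.1, Real.pi_pos]) h4
    · have hm0 : 0 < min η 1 := lt_min hη one_pos
      have hm1 := min_le_left η 1
      have hm2 := min_le_right η 1
      have h3 : arg e + min η 1 ∈ Icc (arg e) (arg e + η) := ⟨by linarith, by linarith⟩
      obtain ⟨h4, h5⟩ := hR _ h3
      refine ⟨zR (arg e + min η 1), ⟨_, ⟨by linarith, by linarith⟩, rfl⟩, ?_⟩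
      rw [h5]
      refine hw.plus _ h4 ?_
      rw [im_CSSide']
      refine mul_pos hρ (Real.sin_pos_of_pos_of_lt_pi (by linarith) ?_)
      linarith [Real.pi_gt_three]
  exact fun θ hθ => h1 ⟨θ, hθ, rfl⟩

end Pool.Agent.HQT
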