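import Mathlib

/-! HQT (growth exponent 3 for univalent harmonic maps), file CoefA: Taylor coefficients from integral means -/

set_option autoImplicit false

open Complex Metric Set Filter Topology MeasureTheory
open scoped ComplexConjugate Real

namespace Pool.Agent.HQT

/-- CAUCHY.  Proof. `DiffContOnCl.circleIntegral_one_div_sub_center_pow_smul` on the circle of radius
`ρ`: `‖iteratedDeriv n F 0‖ / n! ≤ (2π)⁻¹ ∫ θ in 0..2π, ‖F (ρ e^{iθ})‖ ρ^{-n}`. -/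
theorem coef_le_mean {F : ℂ → ℂ} (hF : DifferentiableOn ℂ F (ball 0 1)) {ρ : ℝ} (h0 : 0 < ρ)
    (h1 : ρ < 1) (n : ℕ) :
    ‖iteratedDeriv n F 0‖ / n.factorial ≤
      Real.circleAverage (fun z => ‖F (ρ * z)‖) 0 1 / ρ ^ n := by
  obtain ⟨r, rfl⟩ : ∃ r : NNReal, (r : ℝ) = ρ := ⟨⟨ρ, h0.le⟩, rfl⟩
  have hF' : DifferentiableOn ℂ F (closedBall 0 r) :=
    hF.mono (closedBall_subset_ball h1)
  have hp := hF'.hasFPowerSeriesOnBall (by exact_mod_cast h0)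
  have e1 : iteratedDeriv n F 0 = n.factorial • cauchyPowerSeries F 0 r n (fun _ => (1 : ℂ)) := by
    rw [hp.factorial_smul, iteratedDeriv_eq_iteratedFDeriv]
  have hfac : (0 : ℝ) < n.factorial := by exact_mod_cast n.factorial_pos
  have e2 : ‖iteratedDeriv n F 0‖ / n.factorial =
      ‖cauchyPowerSeries F 0 r n (fun _ => (1 : ℂ))‖ := by
    rw [e1, nsmul_eq_mul, norm_mul, Complex.norm_natCast, mul_div_assoc, mul_comm,
      div_mul_cancel₀ _ hfac.ne']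
  have e3 : ‖cauchyPowerSeries F 0 r n (fun _ => (1 : ℂ))‖ ≤ ‖cauchyPowerSeries F 0 r n‖ := by
    have := (cauchyPowerSeries F 0 r n).le_opNorm (fun _ => (1 : ℂ))
    rwa [norm_one, Finset.prod_const_one, mul_one] at this
  have e4 := norm_cauchyPowerSeries_le F 0 r n
  rw [e2]
  refine (e3.trans e4).trans (le_of_eq ?_)
  rw [Real.circleAverage_def, smul_eq_mul, abs_of_pos h0, inv_pow, div_eq_mul_inv]
  congr 2
  refine intervalIntegral.integral_congr fun θ _ => ?_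
  simp [circleMap]

/-- Proof. `‖F‖ = ‖F‖^{1-p} ‖F‖^p ≤ S^{1-p} ‖F‖^p` on the circle. -/
theorem mean_le_of_pmean {F : ℂ → ℂ} (hF : DifferentiableOn ℂ F (ball 0 1)) {ρ p S M : ℝ}
    (h0 : 0 < ρ) (h1 : ρ < 1) (hp : 0 < p) (hp1 : p < 1)
    (hS : ∀ z : ℂ, ‖z‖ = ρ → ‖F z‖ ≤ S)
    (hM : Real.circleAverage (fun z => ‖F (ρ * z)‖ ^ p) 0 1 ≤ M) :
    Real.circleAverage (fun z => ‖F (ρ * z)‖) 0 1 ≤ S ^ (1 - p) * M := by
  have hmem : ∀ z : ℂ, z ∈ sphere (0 : ℂ) |1| → ‖(ρ : ℂ) * z‖ = ρ := by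
    intro z hz
    rw [abs_one, mem_sphere_zero_iff_norm] at hz
    rw [norm_mul, hz, mul_one, Complex.norm_real, Real.norm_eq_abs, abs_of_pos h0]
  have hcont : ContinuousOn (fun z : ℂ => ‖F (ρ * z)‖) (sphere 0 |1|) := by
    refine ContinuousOn.norm (hF.continuousOn.comp (by fun_prop) fun z hz => ?_)
    rw [mem_ball_zero_iff, hmem z hz]
    exact h1
  have hi1 : CircleIntegrable (fun z : ℂ => ‖F (ρ * z)‖) 0 1 :=
    ContinuousOn.circleIntegrable' hcont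
  have hcont2 : ContinuousOn (fun z : ℂ => ‖F (ρ * z)‖ ^ p) (sphere 0 |1|) :=
    hcont.rpow_const fun z _ => Or.inr hp.le
  have hcont3 : ContinuousOn (fun z : ℂ => S ^ (1 - p) • ‖F (ρ * z)‖ ^ p) (sphere 0 |1|) := by
    intro z hz
    exact (hcont2 z hz).const_mul (S ^ (1 - p))
  have hi2 : CircleIntegrable (fun z : ℂ => S ^ (1 - p) • ‖F (ρ * z)‖ ^ p) 0 1 :=
    ContinuousOn.circleIntegrable' hcont3
  have hS0 : 0 ≤ S := by
    refine (norm_nonneg _).trans (hS (ρ : ℂ) ?_)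
    rw [Complex.norm_real, Real.norm_eq_abs, abs_of_pos h0]
  calc Real.circleAverage (fun z => ‖F (ρ * z)‖) 0 1
      ≤ Real.circleAverage (fun z : ℂ => S ^ (1 - p) • ‖F (ρ * z)‖ ^ p) 0 1 := by
        refine Real.circleAverage_mono hi1 hi2 fun z hz => ?_
        have a1 : ‖F (ρ * z)‖ ≤ S := hS _ (hmem z hz)
        have a0 : 0 ≤ ‖F (ρ * z)‖ := norm_nonneg _
        have a2 : ‖F (ρ * z)‖ = ‖F (ρ * z)‖ ^ (1 - p) * ‖F (ρ * z)‖ ^ p := by
          rw [← Real.rpow_add_of_nonneg a0 (by linarith) hp.le, sub_add_cancel, Real.rpow_one]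
        calc ‖F (ρ * z)‖ = ‖F (ρ * z)‖ ^ (1 - p) * ‖F (ρ * z)‖ ^ p := a2
          _ ≤ S ^ (1 - p) * ‖F (ρ * z)‖ ^ p :=
            mul_le_mul_of_nonneg_right (Real.rpow_le_rpow a0 a1 (by linarith))
              (Real.rpow_nonneg a0 _)
    _ = S ^ (1 - p) * Real.circleAverage (fun z : ℂ => ‖F (ρ * z)‖ ^ p) 0 1 := by
        rw [Real.circleAverage_fun_smul, smul_eq_mul]
    _ ≤ S ^ (1 - p) * M := mul_le_mul_of_nonneg_left hM (Real.rpow_nonneg hS0 _)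

/-- Proof. The two lemmas above with `ρ = n / (n + 1)`: `ρ^{-n} = (1 + 1/n)^n ≤ 3`,
`S' = S (1 - ρ)^{-3} = S (n+1)^3`, `S'^{1-p} ≤ S^{1-p} (n+1)^{3(1-p)} ≤ 8 S^{1-p} n^{3(1-p)}`. -/
theorem coef_of_means {F : ℂ → ℂ} (hF : DifferentiableOn ℂ F (ball 0 1)) {p S M : ℝ}
    (hp : 0 < p) (hp1 : p < 1) (hS0 : 0 ≤ S)
    (hS : ∀ z : ℂ, ‖z‖ < 1 → ‖F z‖ ≤ S * (1 - ‖z‖) ^ (-3 : ℝ))
    (hM : ∀ ρ ∈ Ioo (0 : ℝ) 1, Real.circleAverage (fun z => ‖F (ρ * z)‖ ^ p) 0 1 ≤ M) {n : ℕ}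
    (hn : 1 ≤ n) :
    ‖iteratedDeriv n F 0‖ / n.factorial ≤
      24 * S ^ (1 - p) * M * (n : ℝ) ^ (3 * (1 - p)) := by
  have hn0 : (0 : ℝ) < n := by exact_mod_cast hn
  have hn1 : (1 : ℝ) ≤ n := by exact_mod_cast hn
  obtain ⟨ρ, hρ⟩ : ∃ ρ : ℝ, ρ = n / (n + 1) := ⟨_, rfl⟩
  have h0 : 0 < ρ := by
    rw [hρ]
    positivity
  have h1 : ρ < 1 := by
    rw [hρ, div_lt_one (by positivity)]
    linarith
  have h2 : 1 - ρ = 1 / (n + 1) := by
    rw [hρ]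
    field_simp
    ring
  have hS' : ∀ z : ℂ, ‖z‖ = ρ → ‖F z‖ ≤ S * ((n : ℝ) + 1) ^ 3 := by
    intro z hz
    have := hS z (by rw [hz]; exact h1)
    refine this.trans (le_of_eq ?_)
    rw [hz, h2, one_div, Real.inv_rpow (by positivity), Real.rpow_neg (by positivity), inv_inv]
    norm_num
  have hM' := hM ρ ⟨h0, h1⟩
  have hM0 : 0 ≤ M := by
    refine le_trans (Real.circleAverage_nonneg_of_nonneg fun z _ => ?_) hM'
    exact Real.rpow_nonneg (norm_nonneg _) _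
  have k1 := mean_le_of_pmean hF h0 h1 hp hp1 hS' hM'
  have k2 := coef_le_mean hF h0 h1 n
  have hpow : 1 / ρ ^ n ≤ 3 := by
    have e1 : 1 / ρ ^ n = (1 + 1 / (n : ℝ)) ^ n := by
      rw [hρ, one_div, ← inv_pow, inv_div]
      congr 1
      field_simp
    have e2 : (1 + 1 / (n : ℝ)) ^ n ≤ Real.exp 1 := by
      have a1 : 1 + 1 / (n : ℝ) ≤ Real.exp (1 / n) := by
        rw [add_comm]
        exact Real.add_one_le_exp _
      calc (1 + 1 / (n : ℝ)) ^ n ≤ Real.exp (1 / n) ^ n :=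
            pow_le_pow_left₀ (by positivity) a1 n
        _ = Real.exp 1 := by
            rw [← Real.exp_nat_mul]
            congr 1
            field_simp
    rw [e1]
    exact e2.trans Real.exp_one_lt_three.le
  have hA : (S * ((n : ℝ) + 1) ^ 3) ^ (1 - p) ≤ 8 * S ^ (1 - p) * (n : ℝ) ^ (3 * (1 - p)) := by
    rw [Real.mul_rpow hS0 (by positivity)]
    have b1 : (((n : ℝ) + 1) ^ 3) ^ (1 - p) ≤ 8 * (n : ℝ) ^ (3 * (1 - p)) := by
      calc (((n : ℝ) + 1) ^ 3) ^ (1 - p) ≤ (8 * (n : ℝ) ^ 3) ^ (1 - p) := by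
            refine Real.rpow_le_rpow (by positivity) ?_ (by linarith)
            calc ((n : ℝ) + 1) ^ 3 ≤ (2 * (n : ℝ)) ^ 3 :=
                  pow_le_pow_left₀ (by positivity) (by linarith) 3
              _ = 8 * (n : ℝ) ^ 3 := by ring
        _ = 8 ^ (1 - p) * ((n : ℝ) ^ 3) ^ (1 - p) :=
            Real.mul_rpow (by norm_num) (by positivity)
        _ ≤ 8 * ((n : ℝ) ^ 3) ^ (1 - p) := by
            refine mul_le_mul_of_nonneg_right ?_ (by positivity)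
            calc (8 : ℝ) ^ (1 - p) ≤ 8 ^ (1 : ℝ) :=
                  Real.rpow_le_rpow_of_exponent_le (by norm_num) (by linarith)
              _ = 8 := Real.rpow_one 8
        _ = 8 * (n : ℝ) ^ (3 * (1 - p)) := by
            rw [← Real.rpow_natCast (n : ℝ) 3, ← Real.rpow_mul hn0.le]
            norm_num
    calc S ^ (1 - p) * (((n : ℝ) + 1) ^ 3) ^ (1 - p)
        ≤ S ^ (1 - p) * (8 * (n : ℝ) ^ (3 * (1 - p))) :=
          mul_le_mul_of_nonneg_left b1 (Real.rpow_nonneg hS0 _)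
      _ = _ := by ring
  calc ‖iteratedDeriv n F 0‖ / n.factorial
      ≤ Real.circleAverage (fun z => ‖F (ρ * z)‖) 0 1 / ρ ^ n := k2
    _ ≤ (S * ((n : ℝ) + 1) ^ 3) ^ (1 - p) * M / ρ ^ n :=
        div_le_div_of_nonneg_right k1 (by positivity)
    _ = (S * ((n : ℝ) + 1) ^ 3) ^ (1 - p) * M * (1 / ρ ^ n) := by ring
    _ ≤ (8 * S ^ (1 - p) * (n : ℝ) ^ (3 * (1 - p))) * M * 3 := by
        refine mul_le_mul (mul_le_mul_of_nonneg_right hA hM0) hpow (by positivity) ?_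
        exact mul_nonneg (by
          have := Real.rpow_nonneg hS0 (1 - p)
          positivity) hM0
    _ = _ := by ring

end Pool.Agent.HQT
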