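import Pool.Agent.HQT.CoefA
import Pool.Agent.HQ.TransA
import Pool.Agent.HQ.TransC

/-! HQT (growth exponent 3 for univalent harmonic maps), file CoefB: coefficients and growth of all normalised univalent harmonic maps -/

set_option autoImplicit false

open Complex Metric Set Filter Topology MeasureTheory
open scoped ComplexConjugate Real

namespace Pool.Agent.HQT

open Pool.Agent.HQ

private theorem coefB_dil {K α : ℝ} (hK : 0 < K) (hα : 0 < α) {F : ℂ → ℂ}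
    (hF : DifferentiableOn ℂ F (ball 0 1))
    (hb : ∀ r : ℝ, 0 < r → r < 1 → ∀ z : ℂ, ‖z‖ < 1 →
      ‖F (r * z) - F (r * 0)‖ ≤ K * ‖deriv (fun w : ℂ => F (r * w)) 0‖
        * ((1 + ‖z‖) / (1 - ‖z‖)) ^ α) {z : ℂ} (hz : ‖z‖ < 1) :
    ‖F z‖ ≤ (‖F 0‖ + K * ‖deriv F 0‖ * 4 ^ α) * (1 - ‖z‖) ^ (-α) := by
  set r : ℝ := (1 + ‖z‖) / 2 with hr
  have hr0 : 0 < r := by rw [hr]; linarith [norm_nonneg z]
  have hr1 : r < 1 := by rw [hr]; linarith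
  have hrz : ‖z‖ < r := by rw [hr]; linarith
  have hn : ‖z / r‖ = ‖z‖ / r := by
    rw [norm_div, norm_real, Real.norm_of_nonneg hr0.le]
  have h1 := hb r hr0 hr1 (z / r) (by rw [hn, div_lt_one hr0]; exact hrz)
  have hr0' : (r : ℂ) ≠ 0 := by exact_mod_cast hr0.ne'
  rw [mul_div_cancel₀ _ hr0', mul_zero, hn] at h1
  have h2 : ‖deriv (fun w : ℂ => F (r * w)) 0‖ ≤ ‖deriv F 0‖ := by
    have e1 : HasDerivAt F (deriv F ((r : ℂ) * 0)) ((r : ℂ) * 0) := by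
      rw [mul_zero]
      exact ((hF 0 (mem_ball_self one_pos)).differentiableAt
        (isOpen_ball.mem_nhds (mem_ball_self one_pos))).hasDerivAt
    have e2 : HasDerivAt (fun w : ℂ => (r : ℂ) * w) (r : ℂ) 0 := by
      have := (hasDerivAt_id (0 : ℂ)).const_mul (r : ℂ)
      simpa using this
    have e3 := HasDerivAt.comp (0 : ℂ) e1 e2
    have e4 : deriv (fun w : ℂ => F (r * w)) 0 = deriv F ((r : ℂ) * 0) * r := e3.deriv
    rw [e4, mul_zero, norm_mul, norm_real, Real.norm_of_nonneg hr0.le]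
    exact mul_le_of_le_one_right (norm_nonneg _) hr1.le
  have h3 : ((1 + ‖z‖ / r) / (1 - ‖z‖ / r)) ^ α ≤ 4 ^ α * (1 - ‖z‖) ^ (-α) := by
    have e0 : (0 : ℝ) < 1 - ‖z‖ := by linarith
    have e1 : (1 + ‖z‖ / r) / (1 - ‖z‖ / r) ≤ 4 / (1 - ‖z‖) := by
      have e2 : (1 + ‖z‖ / r) / (1 - ‖z‖ / r) = (r + ‖z‖) / (r - ‖z‖) := by
        have : r - ‖z‖ ≠ 0 := by linarith
        field_simp
      rw [e2, div_le_div_iff₀ (by linarith) e0, hr]
      nlinarith [norm_nonneg z]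
    have e3 : 0 ≤ (1 + ‖z‖ / r) / (1 - ‖z‖ / r) := by
      have : ‖z‖ / r ≤ 1 := by rw [div_le_one hr0]; exact hrz.le
      have : 0 ≤ ‖z‖ / r := by positivity
      apply div_nonneg <;> linarith
    calc ((1 + ‖z‖ / r) / (1 - ‖z‖ / r)) ^ α ≤ (4 / (1 - ‖z‖)) ^ α :=
          Real.rpow_le_rpow e3 e1 hα.le
      _ = 4 ^ α * (1 - ‖z‖) ^ (-α) := by
          rw [Real.div_rpow (by norm_num) e0.le, Real.rpow_neg e0.le, div_eq_mul_inv]
  have h4 : 1 ≤ (1 - ‖z‖) ^ (-α) := by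
    apply Real.one_le_rpow_of_pos_of_le_one_of_nonpos (by linarith)
    · linarith [norm_nonneg z]
    · linarith
  have h5 : 0 ≤ ((1 + ‖z‖ / r) / (1 - ‖z‖ / r)) ^ α := by
    apply Real.rpow_nonneg
    have : ‖z‖ / r ≤ 1 := by rw [div_le_one hr0]; exact hrz.le
    have : 0 ≤ ‖z‖ / r := by positivity
    apply div_nonneg <;> linarith
  calc ‖F z‖ ≤ ‖F 0‖ + ‖F z - F 0‖ := by
        calc ‖F z‖ = ‖F 0 + (F z - F 0)‖ := by congr 1; ring
          _ ≤ _ := norm_add_le _ _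
    _ ≤ ‖F 0‖ + K * ‖deriv F 0‖ * (4 ^ α * (1 - ‖z‖) ^ (-α)) := by
        apply add_le_add le_rfl
        refine h1.trans ?_
        apply mul_le_mul _ h3 h5 (mul_nonneg hK.le (norm_nonneg _))
        exact mul_le_mul_of_nonneg_left h2 hK.le
    _ ≤ ‖F 0‖ * (1 - ‖z‖) ^ (-α) + K * ‖deriv F 0‖ * (4 ^ α * (1 - ‖z‖) ^ (-α)) := by
        apply add_le_add _ le_rfl
        exact le_mul_of_one_le_right (norm_nonneg _) h4
    _ = _ := by ring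

private theorem coefB_deriv {F : ℂ → ℂ} (hF : DifferentiableOn ℂ F (ball 0 1)) {r : ℝ}
    (hr0 : 0 < r) (hr1 : r < 1) : ‖deriv (fun w : ℂ => F (r * w)) 0‖ ≤ ‖deriv F 0‖ := by
  have e1 : HasDerivAt F (deriv F ((r : ℂ) * 0)) ((r : ℂ) * 0) := by
    rw [mul_zero]
    exact ((hF 0 (mem_ball_self one_pos)).differentiableAt
      (isOpen_ball.mem_nhds (mem_ball_self one_pos))).hasDerivAt
  have e2 : HasDerivAt (fun w : ℂ => (r : ℂ) * w) (r : ℂ) 0 := by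
    have := (hasDerivAt_id (0 : ℂ)).const_mul (r : ℂ)
    simpa using this
  have e3 := HasDerivAt.comp (0 : ℂ) e1 e2
  have e4 : deriv (fun w : ℂ => F (r * w)) 0 = deriv F ((r : ℂ) * 0) * r := e3.deriv
  rw [e4, mul_zero, norm_mul, norm_real, Real.norm_of_nonneg hr0.le]
  exact mul_le_of_le_one_right (norm_nonneg _) hr1.le

private theorem coefB_pair {K : ℝ} (hK : 0 < K) (hG : GrowthBound K 3) {p : ℝ} (hp : 0 < p)
    (hp1 : p < 1 / 3) : ∃ M > 0, ∀ A B : ℂ → ℂ, HPair A B →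
      Real.circleAverage (fun z => ‖A z - A 0‖ ^ p) 0 1 ≤ M * ‖deriv A 0‖ ^ p := by
  obtain ⟨K', hK'⟩ := loc_of_growthBound hK (by norm_num) hG
  obtain ⟨M, hM, H⟩ := pair_mean hK' (α := 3) (K1 := 8 * K) (by norm_num) (by positivity) hp hp1
  refine ⟨M, hM, fun A B hAB => H A B hAB fun z hz => ?_⟩
  refine (hG A B hAB z hz).trans ?_
  have h1 : 0 < 1 - ‖z‖ := by linarith
  have h2 : 0 ≤ 1 + ‖z‖ := by linarith [norm_nonneg z]
  rw [Real.div_rpow h2 h1.le, Real.rpow_neg h1.le]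
  have h3 : (1 + ‖z‖) ^ (3 : ℝ) ≤ 2 ^ (3 : ℝ) := Real.rpow_le_rpow h2 (by linarith) (by norm_num)
  have h4 : (2 : ℝ) ^ (3 : ℝ) = 8 := by norm_num
  rw [h4] at h3
  have h5 : 0 < ((1 - ‖z‖) ^ (3 : ℝ))⁻¹ := by positivity
  calc K * ‖deriv A 0‖ * ((1 + ‖z‖) ^ (3 : ℝ) / (1 - ‖z‖) ^ (3 : ℝ))
      = K * ‖deriv A 0‖ * (((1 - ‖z‖) ^ (3 : ℝ))⁻¹ * (1 + ‖z‖) ^ (3 : ℝ)) := by ring
    _ ≤ K * ‖deriv A 0‖ * (((1 - ‖z‖) ^ (3 : ℝ))⁻¹ * 8) :=
        mul_le_mul_of_nonneg_left (mul_le_mul_of_nonneg_left h3 h5.le)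
          (mul_nonneg hK.le (norm_nonneg _))
    _ = _ := by ring

private theorem coefB_half (a b : ℂ) {c : ℝ} (h1 : ‖a + b‖ ≤ c) (h2 : ‖a - b‖ ≤ c) :
    ‖a‖ ≤ c ∧ ‖b‖ ≤ c := by
  constructor
  · have h : a = ((a + b) + (a - b)) / 2 := by ring
    calc ‖a‖ = ‖((a + b) + (a - b)) / 2‖ := by rw [← h]
      _ = ‖(a + b) + (a - b)‖ / 2 := by rw [norm_div]; simp
      _ ≤ _ := by
        have := norm_add_le (a + b) (a - b)
        linarith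
  · have h : b = ((a + b) - (a - b)) / 2 := by ring
    calc ‖b‖ = ‖((a + b) - (a - b)) / 2‖ := by rw [← h]
      _ = ‖(a + b) - (a - b)‖ / 2 := by rw [norm_div]; simp
      _ ≤ _ := by
        have := norm_sub_le (a + b) (a - b)
        linarith

/-- GROWTH AND MEANS of `F = h + g` or `F = I (h - g)`, uniformly.
Proof. For `ρ ∈ (0, 1)` the pair `(h (ρ z) + g (ρ z), h (ρ z) - g (ρ z))` (`hpair_of_harmonic`) and
the swapped pair (`hpair_swap`).  GROWTH (`hG`, as in `growth_of_growthBound`/`transC_dil`):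
`‖F (ρ z)‖ ≤ K ‖ρ F' 0‖ ((1+‖z‖)/(1-‖z‖))^3 ≤ 16 K (1 - ‖z‖)^(-3)` (`‖F' 0‖ ≤ 2`,
`(1 + ‖z‖)^3 ≤ 8`); for a point `w` of the disc let `ρ → 1`, `z = w / ρ`.
MEANS: `pair_mean` (`Loc K'` from `loc_of_growthBound`, `α = 3`, `K1 = 8 K`) for these pairs:
`circleAverage (‖F (ρ z)‖^p) 0 1 ≤ M ‖ρ F' 0‖^p ≤ M 2^p`. -/
theorem growth_means {K : ℝ} (hK : 0 < K) (hG : GrowthBound K 3) {p : ℝ} (hp : 0 < p)
    (hp1 : p < 1 / 3) : ∃ S > 0, ∃ M > 0, ∀ h g : ℂ → ℂ,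
      DifferentiableOn ℂ h (ball 0 1) → DifferentiableOn ℂ g (ball 0 1) →
      InjOn (fun z => h z + conj (g z)) (ball 0 1) →
      (∀ z ∈ ball (0 : ℂ) 1, ‖deriv g z‖ < ‖deriv h z‖) →
      h 0 = 0 → deriv h 0 = 1 → g 0 = 0 →
      ((∀ z : ℂ, ‖z‖ < 1 → ‖h z + g z‖ ≤ S * (1 - ‖z‖) ^ (-3 : ℝ)) ∧
        ∀ ρ ∈ Ioo (0 : ℝ) 1,
          Real.circleAverage (fun z => ‖h (ρ * z) + g (ρ * z)‖ ^ p) 0 1 ≤ M) ∧
      ((∀ z : ℂ, ‖z‖ < 1 → ‖h z - g z‖ ≤ S * (1 - ‖z‖) ^ (-3 : ℝ)) ∧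
        ∀ ρ ∈ Ioo (0 : ℝ) 1,
          Real.circleAverage (fun z => ‖h (ρ * z) - g (ρ * z)‖ ^ p) 0 1 ≤ M) := by
  obtain ⟨M, hM, H⟩ := coefB_pair hK hG hp hp1
  refine ⟨K * 2 * 4 ^ (3 : ℝ), by positivity, M * 2 ^ p, by positivity,
    fun h g hh hg hinj hor h0 h1 g0 => ?_⟩
  have hA : DifferentiableOn ℂ (fun z => h z + g z) (ball 0 1) := hh.add hg
  have hB : DifferentiableOn ℂ (fun z => h z - g z) (ball 0 1) := hh.sub hg
  have hm0 : (0 : ℂ) ∈ ball (0 : ℂ) 1 := mem_ball_self one_pos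
  have dh : DifferentiableAt ℂ h 0 := (hh 0 hm0).differentiableAt (isOpen_ball.mem_nhds hm0)
  have dg : DifferentiableAt ℂ g 0 := (hg 0 hm0).differentiableAt (isOpen_ball.mem_nhds hm0)
  have hg1 : ‖deriv g 0‖ ≤ 1 := by
    have := hor 0 hm0
    rw [h1, norm_one] at this
    exact this.le
  have dA : ‖deriv (fun z => h z + g z) 0‖ ≤ 2 := by
    rw [deriv_fun_add dh dg, h1]
    refine (norm_add_le _ _).trans ?_
    rw [norm_one]
    linarith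
  have dB : ‖deriv (fun z => h z - g z) 0‖ ≤ 2 := by
    rw [deriv_fun_sub dh dg, h1]
    refine (norm_sub_le _ _).trans ?_
    rw [norm_one]
    linarith
  have hdI : ∀ r : ℝ, deriv (fun z : ℂ => I * (h (r * z) - g (r * z))) 0 =
      I * deriv (fun z : ℂ => h (r * z) - g (r * z)) 0 := fun r => by
    rw [deriv_const_mul_field]
  have key : ∀ F : ℂ → ℂ, DifferentiableOn ℂ F (ball 0 1) → F 0 = 0 → ‖deriv F 0‖ ≤ 2 →
      (∀ r : ℝ, 0 < r → r < 1 → ∀ z : ℂ, ‖z‖ < 1 → ‖F (r * z) - F (r * 0)‖ ≤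
        K * ‖deriv (fun w : ℂ => F (r * w)) 0‖ * ((1 + ‖z‖) / (1 - ‖z‖)) ^ (3 : ℝ)) →
      (∀ r : ℝ, 0 < r → r < 1 → Real.circleAverage (fun z => ‖F (r * z) - F (r * 0)‖ ^ p) 0 1 ≤
        M * ‖deriv (fun w : ℂ => F (r * w)) 0‖ ^ p) →
      (∀ z : ℂ, ‖z‖ < 1 → ‖F z‖ ≤ K * 2 * 4 ^ (3 : ℝ) * (1 - ‖z‖) ^ (-3 : ℝ)) ∧
        ∀ ρ ∈ Ioo (0 : ℝ) 1, Real.circleAverage (fun z => ‖F (ρ * z)‖ ^ p) 0 1 ≤ M * 2 ^ p := by
    intro F hF hF0 hdF hgr hmn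
    constructor
    · intro z hz
      refine (coefB_dil hK (by norm_num) hF hgr hz).trans ?_
      rw [hF0, norm_zero, zero_add]
      have h2 : 0 ≤ (1 - ‖z‖) ^ (-3 : ℝ) := Real.rpow_nonneg (by linarith) _
      refine mul_le_mul_of_nonneg_right ?_ h2
      refine mul_le_mul_of_nonneg_right ?_ (by positivity)
      exact mul_le_mul_of_nonneg_left hdF hK.le
    · intro ρ hρ
      have h2 := hmn ρ hρ.1 hρ.2
      rw [mul_zero, hF0] at h2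
      simp only [sub_zero] at h2
      refine h2.trans (mul_le_mul_of_nonneg_left ?_ hM.le)
      exact Real.rpow_le_rpow (norm_nonneg _) ((coefB_deriv hF hρ.1 hρ.2).trans hdF) hp.le
  constructor
  · refine key (fun z => h z + g z) hA (by simp [h0, g0]) dA ?_ ?_
    · intro r hr hr1 z hz
      exact hG _ _ (hpair_of_harmonic hh hg hinj hor hr hr1) z hz
    · intro r hr hr1
      exact H _ _ (hpair_of_harmonic hh hg hinj hor hr hr1)
  · refine key (fun z => h z - g z) hB (by simp [h0, g0]) dB ?_ ?_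
    · intro r hr hr1 z hz
      have h2 := hG _ _ (hpair_swap (hpair_of_harmonic hh hg hinj hor hr hr1)) z hz
      rw [hdI, ← mul_sub, norm_mul, norm_mul, norm_I, one_mul, one_mul] at h2
      exact h2
    · intro r hr hr1
      have h2 := H _ _ (hpair_swap (hpair_of_harmonic hh hg hinj hor hr hr1))
      rw [hdI, norm_mul, norm_I, one_mul] at h2
      have h3 : (fun z : ℂ => ‖I * (h (r * z) - g (r * z)) - I * (h (r * 0) - g (r * 0))‖ ^ p) =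
          fun z : ℂ => ‖(h (r * z) - g (r * z)) - (h (r * 0) - g (r * 0))‖ ^ p := by
        funext z
        rw [← mul_sub, norm_mul, norm_I, one_mul]
      rw [h3] at h2
      exact h2

/-- GROWTH THEOREM for the class `S_H` (sharp exponent `3`).
Proof. `growth_means` with `p = 1/4`; `h = ((h + g) + (h - g)) / 2`. -/
theorem growth_SH {K : ℝ} (hK : 0 < K) (hG : GrowthBound K 3) : ∃ C > 0, ∀ h g : ℂ → ℂ,
      DifferentiableOn ℂ h (ball 0 1) → DifferentiableOn ℂ g (ball 0 1) →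
      InjOn (fun z => h z + conj (g z)) (ball 0 1) →
      (∀ z ∈ ball (0 : ℂ) 1, ‖deriv g z‖ < ‖deriv h z‖) →
      h 0 = 0 → deriv h 0 = 1 → g 0 = 0 →
      ∀ z : ℂ, ‖z‖ < 1 → ‖h z‖ ≤ C / (1 - ‖z‖) ^ 3 ∧ ‖g z‖ ≤ C / (1 - ‖z‖) ^ 3 := by
  obtain ⟨S, hS, M, hM, H⟩ := growth_means hK hG (p := 1 / 4) (by norm_num) (by norm_num)
  refine ⟨S, hS, fun h g hh hg hinj hor h0 h1 g0 z hz => ?_⟩
  obtain ⟨⟨h2, -⟩, h3, -⟩ := H h g hh hg hinj hor h0 h1 g0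
  have h4 : 0 < 1 - ‖z‖ := by linarith
  have h5 : S * (1 - ‖z‖) ^ (-3 : ℝ) = S / (1 - ‖z‖) ^ 3 := by
    rw [Real.rpow_neg h4.le, div_eq_mul_inv]
    norm_num
  have h6 := h2 z hz
  have h7 := h3 z hz
  rw [h5] at h6 h7
  exact coefB_half _ _ h6 h7

/-- COEFFICIENT THEOREM for the class `S_H` (sharp exponent `2`, up to `ε`).
Proof. We may assume `ε < 1`; `p = (1 - ε) / 3`, so `3 (1 - p) = 2 + ε`.  `growth_means` and
`coef_of_means` for `F = h + g` and `F = h - g`; `iteratedDeriv n (h ± g) 0` is the sum/difference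
(`h`, `g` are analytic at `0`), so `‖a_n‖ ≤ (‖a_n + b_n‖ + ‖a_n - b_n‖) / 2`. -/
theorem coef_SH {K : ℝ} (hK : 0 < K) (hG : GrowthBound K 3) {ε : ℝ} (hε : 0 < ε) :
    ∃ C > 0, ∀ h g : ℂ → ℂ,
      DifferentiableOn ℂ h (ball 0 1) → DifferentiableOn ℂ g (ball 0 1) →
      InjOn (fun z => h z + conj (g z)) (ball 0 1) →
      (∀ z ∈ ball (0 : ℂ) 1, ‖deriv g z‖ < ‖deriv h z‖) →
      h 0 = 0 → deriv h 0 = 1 → g 0 = 0 →
      ∀ n : ℕ, 1 ≤ n → ‖iteratedDeriv n h 0‖ / n.factorial ≤ C * (n : ℝ) ^ (2 + ε) ∧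
        ‖iteratedDeriv n g 0‖ / n.factorial ≤ C * (n : ℝ) ^ (2 + ε) := by
  obtain ⟨e, he, he1, heε⟩ : ∃ e : ℝ, 0 < e ∧ e < 1 ∧ e ≤ ε :=
    ⟨min ε (1 / 2), by positivity, by
      have := min_le_right ε (1 / 2)
      linarith, min_le_left _ _⟩
  obtain ⟨S, hS, M, hM, H⟩ := growth_means hK hG (p := (1 - e) / 3) (by linarith) (by linarith)
  refine ⟨24 * S ^ (1 - (1 - e) / 3) * M, by positivity,
    fun h g hh hg hinj hor h0 h1 g0 n hn => ?_⟩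
  obtain ⟨⟨h2, h2'⟩, h3, h3'⟩ := H h g hh hg hinj hor h0 h1 g0
  have hm0 : (0 : ℂ) ∈ ball (0 : ℂ) 1 := mem_ball_self one_pos
  have ch : ContDiffAt ℂ n h 0 := ((hh.analyticOnNhd isOpen_ball) 0 hm0).contDiffAt
  have cg : ContDiffAt ℂ n g 0 := ((hg.analyticOnNhd isOpen_ball) 0 hm0).contDiffAt
  have h4 := coef_of_means (hh.add hg) (by linarith) (by linarith) hS.le h2 h2' hn
  have h5 := coef_of_means (hh.sub hg) (by linarith) (by linarith) hS.le h3 h3' hn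
  rw [iteratedDeriv_add ch cg] at h4
  rw [iteratedDeriv_sub ch cg] at h5
  have hn1 : (1 : ℝ) ≤ n := by exact_mod_cast hn
  have h6 : (n : ℝ) ^ (3 * (1 - (1 - e) / 3)) ≤ (n : ℝ) ^ (2 + ε) :=
    Real.rpow_le_rpow_of_exponent_le hn1 (by linarith)
  have h7 : 24 * S ^ (1 - (1 - e) / 3) * M * (n : ℝ) ^ (3 * (1 - (1 - e) / 3)) ≤
      24 * S ^ (1 - (1 - e) / 3) * M * (n : ℝ) ^ (2 + ε) :=
    mul_le_mul_of_nonneg_left h6 (by positivity)
  have hf : (0 : ℝ) < n.factorial := by exact_mod_cast n.factorial_pos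
  have h8 := h4.trans h7
  have h9 := h5.trans h7
  rw [div_le_iff₀ hf] at h8 h9
  rw [div_le_iff₀ hf, div_le_iff₀ hf]
  exact coefB_half _ _ h8 h9

end Pool.Agent.HQT
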