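import Pool.Agent.HQT.Defs

/-! HQT (growth exponent 3, MP_7da5c3_an), file SegGeo: geometry of the circular segment -/

set_option autoImplicit false

open Complex Metric Set Filter Topology MeasureTheory
open scoped ComplexConjugate Real

namespace Pool.Agent.HQT

open Pool.Agent.HQ

variable {A B : ℂ → ℂ}

private theorem cos_pos_SegGeo {φ : ℝ} (hφ : 0 < φ) (hφ' : φ < π / 2) : 0 < Real.cos φ :=
  Real.cos_pos_of_mem_Ioo ⟨by linarith [Real.pi_pos], hφ'⟩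

private theorem cos_lt_one_SegGeo {φ : ℝ} (hφ : 0 < φ) (hφ' : φ ≤ π / 2) : Real.cos φ < 1 := by
  have h1 := Real.cos_lt_cos_of_nonneg_of_le_pi (x := 0) (y := φ) le_rfl
    (by linarith [Real.pi_pos]) hφ
  rwa [Real.cos_zero] at h1

private theorem norm_SegGeo {s θ : ℝ} (hs : 0 ≤ s) : ‖(s * exp (θ * I) : ℂ)‖ = s := by
  rw [norm_mul, Complex.norm_real, Real.norm_of_nonneg hs, Complex.norm_exp_ofReal_mul_I, mul_one]

private theorem re_SegGeo {s θ : ℝ} : (s * exp (θ * I) : ℂ).re = s * Real.cos θ := by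
  rw [Complex.re_ofReal_mul, Complex.exp_ofReal_mul_I_re]

theorem isOpen_Vseg (t φ : ℝ) : IsOpen (Vseg t φ) := by
  exact (isOpen_lt continuous_norm continuous_const).inter
    (isOpen_lt continuous_const Complex.continuous_re)

theorem convex_Vseg (t φ : ℝ) : Convex ℝ (Vseg t φ) := by
  have h1 : Vseg t φ = ball (0 : ℂ) t ∩ {w : ℂ | t * Real.cos φ < w.re} := by
    ext w
    simp [Vseg]
  rw [h1]
  exact (convex_ball _ _).inter (convex_halfSpace_re_gt _)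

theorem Vseg_mono {t φ₁ φ₂ : ℝ} (ht : 0 ≤ t) (h1 : 0 ≤ φ₁) (h2 : φ₁ ≤ φ₂) (h3 : φ₂ ≤ π) :
    Vseg t φ₁ ⊆ Vseg t φ₂ := by
  rintro w ⟨hw1, hw2⟩
  refine ⟨hw1, lt_of_le_of_lt ?_ hw2⟩
  exact mul_le_mul_of_nonneg_left (Real.cos_le_cos_of_nonneg_of_le_pi h1 h3 h2) ht

/-- Points `w + η (p - w)`, `p ∈ Vseg t φ` fixed, e.g. `p = t (1 + cos φ) / 2`. -/
theorem closedSeg_sub_closure {t φ : ℝ} (ht : 0 < t) (hφ : 0 < φ) (hφ' : φ ≤ π / 2) :
    {w : ℂ | ‖w‖ ≤ t ∧ t * Real.cos φ ≤ w.re} ⊆ closure (Vseg t φ) := by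
  rintro w ⟨hw1, hw2⟩
  have hc1 := cos_lt_one_SegGeo hφ hφ'
  have hc0 : 0 ≤ Real.cos φ := Real.cos_nonneg_of_mem_Icc ⟨by linarith [Real.pi_pos], hφ'⟩
  obtain ⟨q, hq⟩ : ∃ q : ℝ, q = t * (1 + Real.cos φ) / 2 := ⟨_, rfl⟩
  have hq1 : q < t := by
    rw [hq]
    nlinarith
  have hq2 : t * Real.cos φ < q := by
    rw [hq]
    nlinarith
  have hq0 : 0 ≤ q := by
    rw [hq]
    positivity
  have hcont : Tendsto (fun η : ℝ => w + (η : ℂ) * ((q : ℂ) - w)) (𝓝[>] 0) (𝓝 w) := by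
    have h1 : Continuous fun η : ℝ => w + (η : ℂ) * ((q : ℂ) - w) := by fun_prop
    have h2 := h1.tendsto 0
    simp only [Complex.ofReal_zero, zero_mul, add_zero] at h2
    exact h2.mono_left nhdsWithin_le_nhds
  refine mem_closure_of_tendsto hcont ?_
  have hev : ∀ᶠ η : ℝ in 𝓝[>] 0, η ∈ Ioo (0 : ℝ) 1 :=
    Ioo_mem_nhdsGT one_pos
  filter_upwards [hev] with η hη
  have h1 : w + (η : ℂ) * ((q : ℂ) - w) = ((1 - η : ℝ) : ℂ) * w + (η : ℂ) * (q : ℂ) := by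
    push_cast
    ring
  refine ⟨?_, ?_⟩
  · rw [h1]
    refine (norm_add_le _ _).trans_lt ?_
    rw [norm_mul, norm_mul, Complex.norm_real, Complex.norm_real, Complex.norm_real,
      Real.norm_of_nonneg (by linarith [hη.2]), Real.norm_of_nonneg hη.1.le,
      Real.norm_of_nonneg hq0]
    have h2 : (1 - η) * ‖w‖ ≤ (1 - η) * t :=
      mul_le_mul_of_nonneg_left hw1 (by linarith [hη.2])
    have h3 : η * q < η * t := mul_lt_mul_of_pos_left hq1 hη.1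
    linarith
  · rw [h1, Complex.add_re, Complex.re_ofReal_mul, ← Complex.ofReal_mul, Complex.ofReal_re]
    have h2 : (1 - η) * (t * Real.cos φ) ≤ (1 - η) * w.re :=
      mul_le_mul_of_nonneg_left hw2 (by linarith [hη.2])
    have h3 : η * (t * Real.cos φ) < η * q := mul_lt_mul_of_pos_left hq2 hη.1
    linarith

theorem closedSeg_sub_thick {t φ r : ℝ} (ht : 0 < t) (hφ : 0 < φ) (hφ' : φ ≤ π / 2)
    (hr : 0 < r) :
    {w : ℂ | ‖w‖ ≤ t ∧ t * Real.cos φ ≤ w.re} ⊆ thickening r (Vseg t φ) := by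
  exact (closedSeg_sub_closure ht hφ hφ').trans (Metric.closure_subset_thickening hr _)

theorem arc_mem_closedSeg {t φ θ : ℝ} (ht : 0 < t) (hφ' : φ ≤ π / 2)
    (hθ : θ ∈ Icc (-φ) φ) :
    (t * exp (θ * I) : ℂ) ∈ {w : ℂ | ‖w‖ ≤ t ∧ t * Real.cos φ ≤ w.re} := by
  refine ⟨(norm_SegGeo ht.le).le, ?_⟩
  rw [re_SegGeo, ← Real.cos_abs θ]
  refine mul_le_mul_of_nonneg_left ?_ ht.le
  exact Real.cos_le_cos_of_nonneg_of_le_pi (abs_nonneg _) (by linarith [Real.pi_pos])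
    (abs_le.mpr ⟨hθ.1, hθ.2⟩)

/-- Every boundary point with `|w| = t` is `t e^{iθ}`, `|θ| ≤ φ`. -/
theorem closedSeg_norm_eq {t φ : ℝ} (ht : 0 < t) (hφ : 0 < φ) (hφ' : φ < π / 2) {w : ℂ}
    (h1 : ‖w‖ = t) (h2 : t * Real.cos φ ≤ w.re) : ∃ θ ∈ Icc (-φ) φ, w = t * exp (θ * I) := by
  have hw : w = t * exp (arg w * I) := by
    rw [← h1]
    exact (Complex.norm_mul_exp_arg_mul_I w).symm
  refine ⟨arg w, ?_, hw⟩
  have h3 : |arg w| ≤ φ := by
    by_contra hcon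
    rw [not_le] at hcon
    have h4 := Real.cos_lt_cos_of_nonneg_of_le_pi hφ.le (Complex.abs_arg_le_pi w) hcon
    rw [Real.cos_abs] at h4
    have h5 := Complex.norm_mul_cos_arg w
    rw [h1] at h5
    have h6 := mul_lt_mul_of_pos_left h4 ht
    linarith
  exact abs_le.mp h3

theorem conj_mem_Vseg {t φ : ℝ} {w : ℂ} : conj w ∈ Vseg t φ ↔ w ∈ Vseg t φ := by
  simp [Vseg]

/-- Scaling outwards stays in the segment. -/
theorem smul_mem_Vseg {t φ s : ℝ} (ht : 0 < t) (hφ : 0 < φ) (hφ' : φ < π / 2) {w : ℂ}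
    (hw : w ∈ Vseg t φ) (hs : 1 ≤ s) (hs' : s * ‖w‖ < t) : (s * w : ℂ) ∈ Vseg t φ := by
  have hs0 : 0 ≤ s := by linarith
  refine ⟨?_, ?_⟩
  · rw [norm_mul, Complex.norm_real, Real.norm_of_nonneg hs0]
    exact hs'
  · rw [Complex.re_ofReal_mul]
    have h1 : 0 < t * Real.cos φ := mul_pos ht (cos_pos_SegGeo hφ hφ')
    have h2 : t * Real.cos φ < w.re := hw.2
    nlinarith

/-- Points of the ray from the tip. -/
theorem ray_mem_Vseg {t φ s : ℝ} (hφ : 0 < φ) (hφ' : φ < π / 2) {e : ℂ}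
    (he : e.re = t * Real.cos φ) (he' : ‖e‖ < t) (hs : ‖e‖ < s) (hs' : s < t) :
    (s * exp (arg e * I) : ℂ) ∈ Vseg t φ := by
  have hs0 : 0 < s := (norm_nonneg e).trans_lt hs
  have ht : 0 < t := (norm_nonneg e).trans_lt he'
  refine ⟨by rw [norm_SegGeo hs0.le]; exact hs', ?_⟩
  rw [re_SegGeo, ← he, ← Complex.norm_mul_cos_arg e]
  have h1 : 0 < ‖e‖ * Real.cos (arg e) := by
    rw [Complex.norm_mul_cos_arg, he]
    exact mul_pos ht (cos_pos_SegGeo hφ hφ')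
  have h2 : 0 < Real.cos (arg e) := pos_of_mul_pos_right h1 (norm_nonneg e)
  exact mul_lt_mul_of_pos_right hs h2

theorem abs_arg_lt {t φ : ℝ} (ht : 0 < t) (hφ : 0 < φ) (hφ' : φ < π / 2) {w : ℂ}
    (hw : t * Real.cos φ ≤ w.re) (hw' : ‖w‖ < t) : |arg w| < φ := by
  by_contra hcon
  rw [not_lt] at hcon
  have h1 := Real.cos_le_cos_of_nonneg_of_le_pi hφ.le (Complex.abs_arg_le_pi w) hcon
  rw [Real.cos_abs] at h1
  have h2 := Complex.norm_mul_cos_arg w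
  have h3 := mul_le_mul_of_nonneg_left h1 (norm_nonneg w)
  have h4 := mul_lt_mul_of_pos_right hw' (cos_pos_SegGeo hφ hφ')
  linarith

end Pool.Agent.HQT
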