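import Pool.Agent.HQT.CLift
import Pool.Agent.HQT.SegGeo

/-! HQT (growth exponent 3, MP_7da5c3_an), file NoCL: no closed lift through the segment (section 4) -/

set_option autoImplicit false

open Complex Metric Set Filter Topology MeasureTheory
open scoped ComplexConjugate Real

namespace Pool.Agent.HQT

open Pool.Agent.HQ

variable {A B : ℂ → ℂ}

private lemma sphere_param_NoCL {e₀ w : ℂ} {ρ : ℝ} (hw : w ∈ sphere e₀ ρ) (a : ℝ) :
    ∃ θ ∈ Icc a (a + 2 * π), w = e₀ + ρ * exp (θ * I) := by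
  have hper : Function.Periodic (fun θ : ℝ => exp ((θ : ℂ) * I)) (2 * π) := by
    intro θ
    show exp (((θ + 2 * π : ℝ) : ℂ) * I) = exp ((θ : ℂ) * I)
    have h1 : (((θ + 2 * π : ℝ) : ℂ) * I) = (θ : ℂ) * I + 2 * π * I := by
      push_cast
      ring
    rw [h1]
    exact Complex.exp_periodic _
  have hmem := toIcoMod_mem_Ico Real.two_pi_pos a (arg (w - e₀))
  refine ⟨toIcoMod Real.two_pi_pos a (arg (w - e₀)), ⟨hmem.1, hmem.2.le⟩, ?_⟩
  have h2 : exp (((toIcoMod Real.two_pi_pos a (arg (w - e₀)) : ℝ) : ℂ) * I) =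
      exp ((arg (w - e₀) : ℂ) * I) := by
    rw [← self_sub_toIcoDiv_zsmul]
    exact hper.sub_zsmul_eq _
  rw [h2]
  have h3 : ‖w - e₀‖ = ρ := by
    rw [← dist_eq_norm]
    exact hw
  have h4 := Complex.norm_mul_exp_arg_mul_I (w - e₀)
  rw [h3] at h4
  rw [h4]
  ring

/-- NO CLOSED LIFT.
Proof. `closed_lift_disc` and `disc_in_box` (every point of the sphere is
`e₀ + ρ e^{iθ}`, `θ ∈ Icc a (a + 2π)`) give `ψ₁` on `ball e₀ r`, `ψ₁ (closedBall e₀ ρ) ⊆ U`.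
`ψ₁ = ψ` at `w₁ = e₀ + ρ e^{iθ₁} ∈ Vseg t φ`, so on the convex set `Vseg t φ ∩ ball e₀ r`
(`branch_eqOn`).  `e ∈ ball e₀ r` is in the closure of this set (`e + η (p - e)`, or:
`e ∈ closure (Vseg t φ)` by `closedSeg_sub_closure` and `ball e₀ r` is an open neighbourhood of
`e`); both `ψ₁` and `ψ` are continuous at `e` (`e ∈ thickening r' (Vseg t φ)`), so
`ψ e = ψ₁ e ∈ U`, contradicting `hv.tip`. -/
theorem no_closed_lift (hA : DifferentiableOn ℂ A (ball 0 1))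
    (hA' : ∀ z ∈ ball (0 : ℂ) 1, deriv A z ≠ 0) {x₁ d : ℝ} (hd0 : 0 < d) (hd : d < π / 2)
    {t φ r : ℝ} (ht : 0 < t) {z : ℝ → ℂ} {ψ : ℂ → ℂ} {e : ℂ}
    (hv : VS A (Ubox x₁ d) t φ r z ψ e) {e₀ : ℂ} {ρ a : ℝ} (hρ : 0 < ρ)
    (he : e ∈ closedBall e₀ ρ) {z₂ : ℝ → ℂ}
    (hz : IsLift (fun z => A z - e₀) ρ a (a + 2 * π) z₂) (hper : z₂ (a + 2 * π) = z₂ a)
    (hU : ∀ θ ∈ Icc a (a + 2 * π), z₂ θ ∈ Ubox x₁ d) {θ₁ : ℝ} (hθ₁ : θ₁ ∈ Icc a (a + 2 * π))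
    (hw : (e₀ + ρ * exp (θ₁ * I) : ℂ) ∈ Vseg t φ)
    (hz1 : z₂ θ₁ = ψ (e₀ + ρ * exp (θ₁ * I))) : False := by
  obtain ⟨R, hR, ψ₁, hb₁, hψz⟩ := closed_lift_disc hA hA' hρ hz hper
  have hsph : ∀ w ∈ sphere e₀ ρ, ψ₁ w ∈ Ubox x₁ d := by
    intro w hw
    obtain ⟨θ, hθ, hwθ⟩ := sphere_param_NoCL hw a
    rw [hwθ, hψz θ hθ]
    exact hU θ hθ
  have hdisc := disc_in_box hd0 hd hρ hR hb₁.diff hb₁.mem hsph
  have hconv : Convex ℝ (Vseg t φ ∩ ball e₀ R) := (convex_Vseg t φ).inter (convex_ball _ _)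
  have hsub : Vseg t φ ⊆ thickening r (Vseg t φ) := self_subset_thickening hv.good.hr _
  have hw₁ball : (e₀ + ρ * exp (θ₁ * I) : ℂ) ∈ ball e₀ R := by
    rw [mem_ball, dist_eq_norm, add_sub_cancel_left, norm_mul, Complex.norm_real,
      Real.norm_of_nonneg hρ.le, Complex.norm_exp_ofReal_mul_I, mul_one]
    exact hR
  have hEq : EqOn ψ₁ ψ (Vseg t φ ∩ ball e₀ R) :=
    branch_eqOn hA hA' hconv.isPreconnected hb₁ hv.good.branch inter_subset_right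
      (inter_subset_left.trans hsub) ⟨hw, hw₁ball⟩ (by rw [hψz θ₁ hθ₁, hz1])
  have heR : e ∈ ball e₀ R := closedBall_subset_ball hR he
  have hecl : e ∈ closure (Vseg t φ) :=
    closedSeg_sub_closure ht hv.hφ hv.hφ'.le ⟨hv.tip_norm.le, hv.tip_re.ge⟩
  have heth : e ∈ thickening r (Vseg t φ) := closure_subset_thickening hv.good.hr _ hecl
  have hecl2 : e ∈ closure (Vseg t φ ∩ ball e₀ R) := by
    rw [mem_closure_iff_nhds]
    intro N hN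
    obtain ⟨y, hy1, hy2⟩ := mem_closure_iff_nhds.mp hecl (N ∩ ball e₀ R)
      (inter_mem hN (isOpen_ball.mem_nhds heR))
    exact ⟨y, hy1.1, hy2, hy1.2⟩
  have hc1 : ContinuousAt ψ₁ e :=
    (hb₁.diff.differentiableAt (isOpen_ball.mem_nhds heR)).continuousAt
  have hc2 : ContinuousAt ψ e :=
    (hv.good.branch.diff.differentiableAt (isOpen_thickening.mem_nhds heth)).continuousAt
  have heq : ψ₁ e = ψ e := by
    have : (𝓝[Vseg t φ ∩ ball e₀ R] e).NeBot := mem_closure_iff_nhdsWithin_neBot.mp hecl2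
    have h1 : Tendsto ψ₁ (𝓝[Vseg t φ ∩ ball e₀ R] e) (𝓝 (ψ₁ e)) :=
      hc1.tendsto.mono_left nhdsWithin_le_nhds
    have h2 : Tendsto ψ (𝓝[Vseg t φ ∩ ball e₀ R] e) (𝓝 (ψ e)) :=
      hc2.tendsto.mono_left nhdsWithin_le_nhds
    have h3 : Tendsto ψ₁ (𝓝[Vseg t φ ∩ ball e₀ R] e) (𝓝 (ψ e)) := by
      refine h2.congr' ?_
      filter_upwards [self_mem_nhdsWithin] with w hw
      exact (hEq hw).symm
    exact tendsto_nhds_unique h1 h3
  apply hv.tip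
  rw [← heq]
  exact hdisc e he

end Pool.Agent.HQT
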