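import Pool.Agent.HQT.GoodC
import Pool.Agent.HQT.NoCL

/-! HQT (growth exponent 3, MP_7da5c3_an), file ExtA: extents lemma, core (section 5) -/

set_option autoImplicit false

open Complex Metric Set Filter Topology MeasureTheory
open scoped ComplexConjugate Real

namespace Pool.Agent.HQT

open Pool.Agent.HQ

variable {A B : ℂ → ℂ}

private theorem left_neg_ExtA {f : ℝ → ℝ} {a b : ℝ} (hab : a ≤ b)
    (hf : ContinuousOn f (Icc a b)) (h0 : ∀ x ∈ Icc a b, f x ≠ 0) (hb : f b < 0) : f a < 0 := by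
  by_contra hcon
  rw [not_lt] at hcon
  obtain ⟨x, hx, hx0⟩ := intermediate_value_Icc' hab hf ⟨hb.le, hcon⟩
  exact h0 x hx hx0

private theorem right_neg_ExtA {f : ℝ → ℝ} {a b : ℝ} (hab : a ≤ b)
    (hf : ContinuousOn f (Icc a b)) (h0 : ∀ x ∈ Icc a b, f x ≠ 0) (ha : f a < 0) : f b < 0 := by
  by_contra hcon
  rw [not_lt] at hcon
  obtain ⟨x, hx, hx0⟩ := intermediate_value_Icc hab hf ⟨ha.le, hcon⟩
  exact h0 x hx hx0

private theorem pair_ExtA (h : HPair A B) (e₀ : ℂ) : HPair (fun z => A z - e₀) B := by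
  refine ⟨fun z hz => (h.anA z hz).sub analyticAt_const, h.anB, fun z hz w hw hzw => ?_,
    fun z hz => ?_⟩
  · apply h.inj hz hw
    simp only [shearMap, Complex.mk.injEq, Complex.sub_re] at hzw ⊢
    exact ⟨by linarith [hzw.1], hzw.2⟩
  · have h1 : deriv (fun z => A z - e₀) z = deriv A z := by
      rw [deriv_sub_const]
    rw [h1]
    exact h.pos z hz

/-- two points with the same level and the same height are equal -/
private theorem eq_ExtA (h : HPair A B) {z w : ℂ} (hz : z ∈ ball (0 : ℂ) 1)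
    (hw : w ∈ ball (0 : ℂ) 1) (hre : (A z).re = (A w).re) (him : (B z).im = (B w).im) : z = w := by
  apply h.inj (ball_subset_closedBall hz) (ball_subset_closedBall hw)
  simp only [shearMap, Complex.mk.injEq]
  exact ⟨hre, him⟩

private theorem cont_ExtA (h : HPair A B) {z : ℝ → ℂ} {s : Set ℝ} (hz : ContinuousOn z s)
    (hm : ∀ θ ∈ s, z θ ∈ ball (0 : ℂ) 1) : ContinuousOn (fun θ => (B (z θ)).im) s :=
  Complex.continuous_im.comp_continuousOn
    (h.anB.continuousOn.comp hz fun θ hθ => ball_subset_closedBall (hm θ hθ))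

private theorem lift_re_ExtA {e₀ : ℂ} {ρ α β : ℝ} {z₃ : ℝ → ℂ}
    (hz₃ : IsLift (fun z => A z - e₀) ρ α β z₃) {θ : ℝ} (hθ : θ ∈ Icc α β) :
    A (z₃ θ) = e₀ + ρ * exp (θ * I) := by
  have h1 : A (z₃ θ) - e₀ = ρ * exp (θ * I) := hz₃.eq θ hθ
  rw [← h1]
  ring

private theorem re_ExtA (e₀ : ℂ) (ρ θ : ℝ) :
    (e₀ + ρ * exp (θ * I) : ℂ).re = e₀.re + ρ * Real.cos θ := by
  rw [Complex.add_re, Complex.re_ofReal_mul, Complex.exp_ofReal_mul_I_re]

private theorem im_ExtA (e₀ : ℂ) (ρ θ : ℝ) :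
    (e₀ + ρ * exp (θ * I) : ℂ).im = e₀.im + ρ * Real.sin θ := by
  rw [Complex.add_im, Complex.im_ofReal_mul, Complex.exp_ofReal_mul_I_im]

private theorem norm_le_ExtA (e₀ : ℂ) {ρ : ℝ} (hρ : 0 < ρ) (θ : ℝ) :
    ‖(e₀ + ρ * exp (θ * I) : ℂ)‖ ≤ ‖e₀‖ + ρ := by
  refine (norm_add_le _ _).trans ?_
  rw [norm_mul, Complex.norm_real, Real.norm_of_nonneg hρ.le, Complex.norm_exp_ofReal_mul_I,
    mul_one]

private theorem cap_ExtA (h : HPair A B) {e₀ : ℂ} {ρ δ : ℝ} (hρ : 0 < ρ) (hδ : 0 < δ)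
    (hδ' : δ < π / 2) {z₃ : ℝ → ℂ}
    (hz₃ : IsLift (fun z => A z - e₀) ρ (-δ) (2 * π - δ) z₃) :
    (B (z₃ (2 * π - δ))).im < (B (z₃ δ)).im := by
  have hpi := Real.pi_pos
  have h1 := left_cap (pair_ExtA h e₀) hρ (j := 0) (θ₁ := π) (by simp) (by linarith)
    (by linarith) hz₃
  have h2 : ∀ᶠ ε in 𝓝[>] (0 : ℝ), ε ∈ Ioo (0 : ℝ) (π - δ) := Ioo_mem_nhdsGT (by linarith)
  obtain ⟨ε, h3, h4⟩ := (h1.and h2).exists
  have hc := cont_ExtA h hz₃.cont hz₃.mem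
  have hm1 : MapsTo (fun x : ℝ => π + x) (Icc ε (π - δ)) (Icc (-δ) (2 * π - δ)) := fun x hx =>
    ⟨by linarith [hx.1, h4.1], by linarith [hx.2]⟩
  have hm2 : MapsTo (fun x : ℝ => π - x) (Icc ε (π - δ)) (Icc (-δ) (2 * π - δ)) := fun x hx =>
    ⟨by linarith [hx.2], by linarith [hx.1, h4.1]⟩
  have hf : ContinuousOn (fun x : ℝ => (B (z₃ (π + x))).im - (B (z₃ (π - x))).im)
      (Icc ε (π - δ)) := by
    refine ContinuousOn.sub ?_ ?_
    · exact hc.comp (f := fun x : ℝ => π + x) (by fun_prop) hm1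
    · exact hc.comp (f := fun x : ℝ => π - x) (by fun_prop) hm2
  have h5 := right_neg_ExtA h4.2.le hf (fun x hx h0 => ?_) (by linarith)
  · have e1 : π + (π - δ) = 2 * π - δ := by ring
    have e2 : π - (π - δ) = δ := by ring
    rw [e1, e2] at h5
    linarith
  · have a1 := lift_re_ExtA hz₃ (hm1 hx)
    have a2 := lift_re_ExtA hz₃ (hm2 hx)
    have a3 : z₃ (π + x) = z₃ (π - x) := by
      refine eq_ExtA h (hz₃.mem _ (hm1 hx)) (hz₃.mem _ (hm2 hx)) ?_ (sub_eq_zero.1 h0)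
      rw [a1, a2, re_ExtA, re_ExtA, Real.cos_add, Real.cos_sub]
      simp
    have a4 := congrArg Complex.im (a1.symm.trans ((congrArg A a3).trans a2))
    rw [im_ExtA, im_ExtA] at a4
    have a5 : Real.sin (π + x) = - Real.sin x := by
      rw [add_comm, Real.sin_add_pi]
    have a6 : Real.sin (π - x) = Real.sin x := Real.sin_pi_sub x
    rw [a5, a6] at a4
    have a7 : 0 < Real.sin x := Real.sin_pos_of_pos_of_lt_pi (by linarith [hx.1, h4.1])
      (by linarith [hx.2])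
    have a8 : 0 < ρ * Real.sin x := mul_pos hρ a7
    linarith

/-- EXTENTS LEMMA, CORE.  `δ = 2π - η₁`.
Proof (`y = Im B`, `c = t cos φ`, `u' = Re e₀ + ρ cos δ > c`, `P = z₃ (2π - δ)`,
`A P = e₀ + ρ e^{-iδ} ∈ Vseg t φ`).
1. `P ≠ ψ (A P)`: otherwise `z₃ (2π - δ) = z₃ (-δ)` and `no_closed_lift` (`a = -δ`,
   `θ₁ = -δ`) gives a contradiction.
2. `u' = t cos φ₁` with `φ₁ ∈ (0, φ)` (`c < u' < t`; `φ₁ = arccos (u'/t)`).  `chord_between` with
   this `φ₁` and `q = P`: since `P ≠ ψ (A P)`, `y P < y (z (-φ₁))` or `y (z φ₁) < y P`.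
3. `y (z₃ (π + x)) < y (z₃ (π - x))` for `0 < x ≤ π - δ`: for small `x` by `left_cap` applied to
   the pair `(A - e₀, B)`: (`HPair.affine` with `c = q = 1`, `s = 0`, or directly); never equal
   since the `A`-values differ (imaginary parts `∓ ρ sin x`), real parts agree, `HPair.inj`.
   With `x = π - δ`: `y P < y (z₃ δ)`, `z₃ δ = ψ (e₀ + ρ e^{iδ})` which is on the chord of level
   `u'`, so (`im_B_lt` on the convex open set `Vseg t φ`, and continuity up to the end point, or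
   `im_B_lt` on the convex open set `thickening r (Vseg t φ)`) `y (z₃ δ) < y (z φ₁)`.
   So `y P < y (z (-φ₁))`, and in the same way `y (z (-φ₁)) < y (z₃ δ)`.
4. For `u ∈ [Re e₀ - ρ, u']` let `D u = z₃ (2π - arccos ((u - Re e₀)/ρ))`,
   `T u = z₃ (arccos ((u - Re e₀)/ρ))`, `S u = z (- arccos (u / t))`.  All three are continuous,
   `Re A = u` on all three, `‖A‖ = t` on `S` and `‖A‖ ≤ ‖e₀‖ + ρ < t` on `D`, `T`
   (`-t < Re e₀ - ρ`).  So `y (D u) - y (S u)` and `y (S u) - y (T u)` never vanish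
   (`HPair.inj`), they are negative at `u = u'`, hence at `u = Re e₀ - ρ`, where
   `D u = T u = z₃ π`: contradiction. -/
theorem extent_core (h : HPair A B) {x₁ d : ℝ} (hd0 : 0 < d) (hd : d < π / 2)
    {t φ r α β : ℝ} (ht : 0 < t) {z : ℝ → ℂ} (hz : IsLift A t α β z) (hα : α ≤ -π)
    (hβ : φ ≤ β) {ψ : ℂ → ℂ} {e : ℂ} (hv : VS A (Ubox x₁ d) t φ r z ψ e) {e₀ : ℂ} {ρ : ℝ}
    (hρ : 0 < ρ) (hρt : ‖e₀‖ + ρ < t) (he : e ∈ closedBall e₀ ρ) {δ : ℝ} (hδ : 0 < δ)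
    (hδ' : δ < π / 2) (hu : t * Real.cos φ < e₀.re + ρ * Real.cos δ) {z₃ : ℝ → ℂ}
    (hz₃ : IsLift (fun z => A z - e₀) ρ (-δ) (2 * π - δ) z₃)
    (hz₃U : ∀ θ ∈ Icc (-δ) (2 * π - δ), z₃ θ ∈ Ubox x₁ d)
    (hz₃ψ : ∀ θ ∈ Icc (-δ) δ, z₃ θ = ψ (e₀ + ρ * exp (θ * I))) : False := by
  have hpi := Real.pi_pos
  have hφ := hv.hφ
  have hφ' := hv.hφ'
  have hcφ : 0 < Real.cos φ := Real.cos_pos_of_mem_Ioo ⟨by linarith, hφ'⟩
  have hc0 : 0 < t * Real.cos φ := mul_pos ht hcφ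
  -- the level
  obtain ⟨u', hu'⟩ : ∃ u' : ℝ, u' = e₀.re + ρ * Real.cos δ := ⟨_, rfl⟩
  have hu1 : t * Real.cos φ < u' := hu'.symm ▸ hu
  have hre0 : |e₀.re| ≤ ‖e₀‖ := Complex.abs_re_le_norm e₀
  have hcδ : Real.cos δ < 1 := by
    have h1 := Real.cos_lt_cos_of_nonneg_of_le_pi (x := 0) (y := δ) le_rfl (by linarith) hδ
    rwa [Real.cos_zero] at h1
  have hu2 : u' < t := by
    have h1 : ρ * Real.cos δ < ρ * 1 := mul_lt_mul_of_pos_left hcδ hρ
    have h2 := (abs_le.1 hre0).2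
    rw [hu']
    linarith
  have hq1 : u' / t < 1 := (div_lt_one ht).2 hu2
  have hq0 : Real.cos φ < u' / t := by
    rw [lt_div_iff₀ ht]
    linarith
  obtain ⟨φ₁, hφ₁⟩ : ∃ φ₁ : ℝ, φ₁ = Real.arccos (u' / t) := ⟨_, rfl⟩
  have hcos1 : Real.cos φ₁ = u' / t := by
    rw [hφ₁, Real.cos_arccos (by linarith) hq1.le]
  have h1pos : 0 < φ₁ := by
    rw [hφ₁]
    exact Real.arccos_pos.2 hq1
  have h1lt : φ₁ < φ := by
    by_contra hcon
    rw [not_lt] at hcon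
    have h1 := Real.cos_le_cos_of_nonneg_of_le_pi hφ.le
      (hφ₁.symm ▸ Real.arccos_le_pi _ : φ₁ ≤ π) hcon
    linarith [hcos1]
  have htc : t * Real.cos φ₁ = u' := by
    rw [hcos1]
    field_simp
  -- membership
  have hV : ∀ θ : ℝ, Real.cos θ = Real.cos δ → (e₀ + ρ * exp (θ * I) : ℂ) ∈ Vseg t φ := by
    intro θ hθ
    refine ⟨(norm_le_ExtA e₀ hρ θ).trans_lt hρt, ?_⟩
    rw [re_ExtA, hθ, ← hu']
    exact hu1
  have hVm : (e₀ + ρ * exp ((-δ : ℝ) * I) : ℂ) ∈ Vseg t φ := hV (-δ) (Real.cos_neg δ)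
  have hVp : (e₀ + ρ * exp ((δ : ℝ) * I) : ℂ) ∈ Vseg t φ := hV δ rfl
  have hI1 : (2 * π - δ) ∈ Icc (-δ) (2 * π - δ) := ⟨by linarith, le_rfl⟩
  have hI2 : (-δ) ∈ Icc (-δ) (2 * π - δ) := ⟨le_rfl, by linarith⟩
  have hI3 : δ ∈ Icc (-δ) (2 * π - δ) := ⟨by linarith, by linarith⟩
  have hAP : A (z₃ (2 * π - δ)) = e₀ + ρ * exp ((-δ : ℝ) * I) := by
    rw [lift_re_ExtA hz₃ hI1]
    congr 2
    rw [show (((2 * π - δ : ℝ) : ℂ) * I) = ((-δ : ℝ) : ℂ) * I + 2 * π * I by push_cast; ring,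
      Complex.exp_periodic]
  -- step 1
  have hne : z₃ (2 * π - δ) ≠ ψ (A (z₃ (2 * π - δ))) := by
    intro h1
    rw [hAP, ← hz₃ψ (-δ) ⟨le_rfl, by linarith⟩] at h1
    have e1 : -δ + 2 * π = 2 * π - δ := by ring
    refine no_closed_lift (a := -δ) (θ₁ := -δ) h.diffA
      (fun z hz => h.deriv_ne (ball_subset_closedBall hz)) hd0 hd ht hv hρ he (z₂ := z₃)
      ?_ ?_ ?_ ⟨le_rfl, by linarith⟩ hVm (hz₃ψ (-δ) ⟨le_rfl, by linarith⟩)
    · rw [e1]
      exact hz₃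
    · rw [e1]
      exact h1
    · rw [e1]
      exact hz₃U
  have hPre : (A (z₃ (2 * π - δ))).re = t * Real.cos φ₁ := by
    rw [hAP, re_ExtA, Real.cos_neg, htc, hu']
  -- the branch near the closed segment
  have hThick := closedSeg_sub_thick ht hφ hφ'.le hv.good.hr
  have hWo : IsOpen (thickening r (Vseg t φ)) := isOpen_thickening
  have hWc : Convex ℝ (thickening r (Vseg t φ)) := (convex_Vseg t φ).thickening r
  have hbr : ∀ w ∈ thickening r (Vseg t φ), ψ w ∈ ball (0 : ℂ) 1 ∧ A (ψ w) = w := fun w hw =>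
    ⟨hv.good.branch.mem w hw, hv.good.branch.eq w hw⟩
  have hbd := good_bdry h.diffA (fun z hz => h.deriv_ne (ball_subset_closedBall hz)) ht hφ hφ'
    hz (by linarith) hβ hv.good
  have hsin1 : 0 < t * Real.sin φ₁ :=
    mul_pos ht (Real.sin_pos_of_pos_of_lt_pi h1pos (by linarith))
  have hwim : |(e₀ + ρ * exp (δ * I) : ℂ).im| < t * Real.sin φ₁ := by
    refine abs_lt_of_sq_lt_sq ?_ hsin1.le
    have h1 : ‖(e₀ + ρ * exp (δ * I) : ℂ)‖ < t := (norm_le_ExtA e₀ hρ δ).trans_lt hρt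
    have h2 : ‖(e₀ + ρ * exp (δ * I) : ℂ)‖ ^ 2 < t ^ 2 :=
      pow_lt_pow_left₀ h1 (norm_nonneg _) two_ne_zero
    rw [← Complex.normSq_eq_norm_sq, Complex.normSq_apply, re_ExtA, ← hu', ← htc] at h2
    have h3 := Real.sin_sq_add_cos_sq φ₁
    have h4 : (t * Real.sin φ₁) ^ 2 = t ^ 2 - (t * Real.cos φ₁) * (t * Real.cos φ₁) := by
      linear_combination t ^ 2 * h3
    rw [h4, sq]
    linarith
  have hy1 : (B (z₃ δ)).im < (B (z φ₁)).im := by
    rw [hz₃ψ δ ⟨by linarith, le_rfl⟩, ← hbd φ₁ ⟨by linarith, h1lt.le⟩]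
    refine im_B_lt h hWo hWc hv.good.branch.diff hbr (self_subset_thickening hv.good.hr _ hVp)
      (hThick (arc_mem_closedSeg ht hφ'.le ⟨by linarith, h1lt.le⟩)) ?_ ?_
    · rw [re_ExtA, Complex.re_ofReal_mul, Complex.exp_ofReal_mul_I_re, htc, hu']
    · rw [Complex.im_ofReal_mul, Complex.exp_ofReal_mul_I_im]
      exact (abs_lt.1 hwim).2
  have hy2 : (B (z (-φ₁))).im < (B (z₃ δ)).im := by
    rw [hz₃ψ δ ⟨by linarith, le_rfl⟩, ← hbd (-φ₁) ⟨by linarith, by linarith⟩]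
    refine im_B_lt h hWo hWc hv.good.branch.diff hbr
      (hThick (arc_mem_closedSeg ht hφ'.le ⟨by linarith, by linarith⟩))
      (self_subset_thickening hv.good.hr _ hVp) ?_ ?_
    · rw [re_ExtA, Complex.re_ofReal_mul, Complex.exp_ofReal_mul_I_re, Real.cos_neg, htc, hu']
    · rw [Complex.im_ofReal_mul, Complex.exp_ofReal_mul_I_im, Real.sin_neg, mul_neg]
      exact (abs_lt.1 hwim).1
  have hy3 := cap_ExtA h hρ hδ hδ' hz₃
  -- step 2
  have hy4 : (B (z₃ (2 * π - δ))).im < (B (z (-φ₁))).im := by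
    by_contra hcon
    rw [not_lt] at hcon
    exact hne (chord_between h ht hφ hφ' h1pos h1lt.le hz (by linarith) hβ hv.good
      (hz₃.mem _ hI1) hPre hcon (by linarith)).1
  -- step 4
  have hu0 : e₀.re - ρ ≤ u' := by
    have h1 : 0 < Real.cos δ := Real.cos_pos_of_mem_Ioo ⟨by linarith, hδ'⟩
    have h2 : 0 < ρ * Real.cos δ := mul_pos hρ h1
    rw [hu']
    linarith
  have hau : ∀ u ∈ Icc (e₀.re - ρ) u', Real.arccos ((u - e₀.re) / ρ) ∈ Icc δ π ∧
      ρ * Real.cos (Real.arccos ((u - e₀.re) / ρ)) = u - e₀.re := by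
    intro u hu
    have h1 : -1 ≤ (u - e₀.re) / ρ := by
      rw [le_div_iff₀ hρ]
      linarith [hu.1]
    have h2 : (u - e₀.re) / ρ ≤ Real.cos δ := by
      rw [div_le_iff₀ hρ]
      have := hu.2
      rw [hu'] at this
      linarith
    refine ⟨⟨?_, Real.arccos_le_pi _⟩, ?_⟩
    · have h3 := Real.arccos_le_arccos h2
      rwa [Real.arccos_cos hδ.le (by linarith)] at h3
    · rw [Real.cos_arccos h1 (h2.trans hcδ.le)]
      field_simp
  have hsu : ∀ u ∈ Icc (e₀.re - ρ) u', -Real.arccos (u / t) ∈ Icc α β ∧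
      t * Real.cos (-Real.arccos (u / t)) = u := by
    intro u hu
    have h0 := (abs_le.1 hre0).1
    have h1 : -1 ≤ u / t := by
      rw [le_div_iff₀ ht]
      linarith [hu.1]
    have h2 : u / t ≤ 1 := by
      rw [div_le_iff₀ ht]
      linarith [hu.2]
    refine ⟨⟨?_, ?_⟩, ?_⟩
    · have := Real.arccos_le_pi (u / t)
      linarith
    · have := Real.arccos_nonneg (u / t)
      linarith
    · rw [Real.cos_neg, Real.cos_arccos h1 h2]
      field_simp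
  have hTm : ∀ u ∈ Icc (e₀.re - ρ) u', Real.arccos ((u - e₀.re) / ρ) ∈ Icc (-δ) (2 * π - δ) :=
    fun u hu => ⟨by linarith [(hau u hu).1.1], by linarith [(hau u hu).1.2]⟩
  have hDm : ∀ u ∈ Icc (e₀.re - ρ) u',
      2 * π - Real.arccos ((u - e₀.re) / ρ) ∈ Icc (-δ) (2 * π - δ) :=
    fun u hu => ⟨by linarith [(hau u hu).1.2], by linarith [(hau u hu).1.1]⟩
  have hcz₃ := cont_ExtA h hz₃.cont hz₃.mem
  have hcz := cont_ExtA h hz.cont hz.mem
  have hcT : ContinuousOn (fun u : ℝ => (B (z₃ (Real.arccos ((u - e₀.re) / ρ)))).im)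
      (Icc (e₀.re - ρ) u') :=
    hcz₃.comp (f := fun u : ℝ => Real.arccos ((u - e₀.re) / ρ))
      (Continuous.continuousOn (Real.continuous_arccos.comp (by fun_prop))) hTm
  have hcD : ContinuousOn (fun u : ℝ => (B (z₃ (2 * π - Real.arccos ((u - e₀.re) / ρ)))).im)
      (Icc (e₀.re - ρ) u') :=
    hcz₃.comp (f := fun u : ℝ => 2 * π - Real.arccos ((u - e₀.re) / ρ))
      (Continuous.continuousOn (continuous_const.sub
        (Real.continuous_arccos.comp (by fun_prop)))) hDm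
  have hcS : ContinuousOn (fun u : ℝ => (B (z (-Real.arccos (u / t)))).im)
      (Icc (e₀.re - ρ) u') :=
    hcz.comp (f := fun u : ℝ => -Real.arccos (u / t))
      (Continuous.continuousOn (Real.continuous_arccos.comp (by fun_prop)).neg)
      fun u hu => (hsu u hu).1
  -- the values of `A`
  have hnS : ∀ u ∈ Icc (e₀.re - ρ) u', ‖A (z (-Real.arccos (u / t)))‖ = t := by
    intro u hu
    rw [hz.eq _ (hsu u hu).1, norm_mul, Complex.norm_real, Real.norm_of_nonneg ht.le,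
      Complex.norm_exp_ofReal_mul_I, mul_one]
  have hrS : ∀ u ∈ Icc (e₀.re - ρ) u', (A (z (-Real.arccos (u / t)))).re = u := by
    intro u hu
    rw [hz.eq _ (hsu u hu).1, Complex.re_ofReal_mul, Complex.exp_ofReal_mul_I_re]
    exact (hsu u hu).2
  have hrT : ∀ u ∈ Icc (e₀.re - ρ) u', (A (z₃ (Real.arccos ((u - e₀.re) / ρ)))).re = u := by
    intro u hu
    rw [lift_re_ExtA hz₃ (hTm u hu), re_ExtA, (hau u hu).2]
    ring
  have hrD : ∀ u ∈ Icc (e₀.re - ρ) u',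
      (A (z₃ (2 * π - Real.arccos ((u - e₀.re) / ρ)))).re = u := by
    intro u hu
    rw [lift_re_ExtA hz₃ (hDm u hu), re_ExtA, Real.cos_two_pi_sub, (hau u hu).2]
    ring
  have hlt : ∀ θ ∈ Icc (-δ) (2 * π - δ), ‖A (z₃ θ)‖ < t := by
    intro θ hθ
    rw [lift_re_ExtA hz₃ hθ]
    exact (norm_le_ExtA e₀ hρ θ).trans_lt hρt
  have hmem : ∀ u ∈ Icc (e₀.re - ρ) u', z (-Real.arccos (u / t)) ∈ ball (0 : ℂ) 1 :=
    fun u hu => hz.mem _ (hsu u hu).1
  have e3 : Real.arccos ((u' - e₀.re) / ρ) = δ := by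
    have h1 : (u' - e₀.re) / ρ = Real.cos δ := by
      rw [hu']
      field_simp
      ring
    rw [h1, Real.arccos_cos hδ.le (by linarith)]
  have e4 : Real.arccos ((e₀.re - ρ - e₀.re) / ρ) = π := by
    have h1 : (e₀.re - ρ - e₀.re) / ρ = -1 := by
      field_simp
      ring
    rw [h1, Real.arccos_neg_one]
  have hf1 := left_neg_ExtA hu0 (hcD.sub hcS) (fun u hu h0 => ?_) (by
    show (B (z₃ (2 * π - Real.arccos ((u' - e₀.re) / ρ)))).im -
      (B (z (-Real.arccos (u' / t)))).im < 0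
    rw [e3, ← hφ₁]
    linarith)
  · have hf2 := left_neg_ExtA hu0 (hcS.sub hcT) (fun u hu h0 => ?_) (by
      show (B (z (-Real.arccos (u' / t)))).im -
        (B (z₃ (Real.arccos ((u' - e₀.re) / ρ)))).im < 0
      rw [e3, ← hφ₁]
      linarith)
    · have g1 : (B (z₃ (2 * π - Real.arccos ((e₀.re - ρ - e₀.re) / ρ)))).im -
        (B (z (-Real.arccos ((e₀.re - ρ) / t)))).im < 0 := hf1
      have g2 : (B (z (-Real.arccos ((e₀.re - ρ) / t)))).im -
        (B (z₃ (Real.arccos ((e₀.re - ρ - e₀.re) / ρ)))).im < 0 := hf2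
      have e5 : 2 * π - π = π := by ring
      rw [e4, e5] at g1
      rw [e4] at g2
      linarith
    · have h1 : z (-Real.arccos (u / t)) = z₃ (Real.arccos ((u - e₀.re) / ρ)) :=
        eq_ExtA h (hmem u hu) (hz₃.mem _ (hTm u hu)) ((hrS u hu).trans (hrT u hu).symm)
          (sub_eq_zero.1 h0)
      have h2 := hlt _ (hTm u hu)
      rw [← h1, hnS u hu] at h2
      exact lt_irrefl _ h2
  · have h1 : z₃ (2 * π - Real.arccos ((u - e₀.re) / ρ)) = z (-Real.arccos (u / t)) :=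
      eq_ExtA h (hz₃.mem _ (hDm u hu)) (hmem u hu) ((hrD u hu).trans (hrS u hu).symm)
        (sub_eq_zero.1 h0)
    have h2 := hlt _ (hDm u hu)
    rw [h1, hnS u hu] at h2
    exact lt_irrefl _ h2

end Pool.Agent.HQT
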