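import Pool.Agent.HQT.Sym

/-! HQT (growth exponent 3, MP_7da5c3_an), file SymB: conj symmetry of Arc, Good, VS, Sides -/

set_option autoImplicit false

open Complex Metric Set Filter Topology MeasureTheory
open scoped ComplexConjugate Real

namespace Pool.Agent.HQT

open Pool.Agent.HQ

variable {A B : ℂ → ℂ}

private theorem symb_exp (s θ : ℝ) :
    conj ((s : ℂ) * exp ((θ : ℂ) * I)) = s * exp (((-θ : ℝ) : ℂ) * I) := by
  rw [map_mul, conj_ofReal, ← exp_conj, map_mul, conj_ofReal, conj_I, ofReal_neg, mul_neg, neg_mul]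

private theorem symb_norm (A : ℂ → ℂ) (z : ℂ) : ‖cj A z‖ = ‖A (conj z)‖ := by
  rw [cj, norm_conj]

private theorem symb_deriv (A : ℂ → ℂ) : deriv (cj A) 0 = conj (deriv A 0) := by
  have h1 : cj A = (starRingEnd ℂ) ∘ A ∘ (starRingEnd ℂ) := rfl
  rw [h1, deriv_conj_conj]
  change conj (deriv A (conj 0)) = _
  rw [map_zero]

private theorem symb_lift {t α β : ℝ} {z : ℝ → ℂ} (h : IsLift A t α β z) :
    IsLift (cj A) t (-β) (-α) (fun θ => conj (z (-θ))) := by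
  have hm : ∀ θ ∈ Icc (-β) (-α), -θ ∈ Icc α β := fun θ hθ =>
    ⟨by linarith [hθ.2], by linarith [hθ.1]⟩
  refine ⟨?_, ?_, ?_⟩
  · exact continuous_conj.comp_continuousOn (h.cont.comp continuous_neg.continuousOn hm)
  · intro θ hθ
    have h1 := h.mem _ (hm θ hθ)
    rw [mem_ball_zero_iff] at h1 ⊢
    rw [norm_conj]
    exact h1
  · intro θ hθ
    have h1 := h.eq _ (hm θ hθ)
    change conj (A (conj (conj (z (-θ))))) = _
    rw [conj_conj, h1, symb_exp, neg_neg]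

private theorem symb_vseg {t φ : ℝ} {w : ℂ} (hw : w ∈ Vseg t φ) : conj w ∈ Vseg t φ := by
  obtain ⟨h1, h2⟩ := hw
  exact ⟨by rwa [norm_conj], by rwa [conj_re]⟩

private theorem symb_arg {e : ℂ} (he : 0 < e.re) : arg (conj e) = -arg e := by
  rw [arg_conj, if_neg]
  intro h1
  have h2 := (abs_arg_lt_pi_div_two_iff.2 (Or.inl he))
  rw [h1, abs_of_pos Real.pi_pos] at h2
  linarith [Real.pi_pos]

/-- `z*(θ) = conj (z (-θ))`.  Proof: routine, `HPair_cj`, `conj (t e^{-iθ}) = t e^{iθ}`;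
`deriv (cj A) 0 = conj (deriv A 0)`; `conj` of a real number. -/
theorem Arc.cj {U : Set ℂ} {t α β θ₀ r₀ : ℝ} {z : ℝ → ℂ} (h : Arc A B U t α β θ₀ r₀ z)
    (hU : ∀ z, conj z ∈ U ↔ z ∈ U) :
    Arc (cj A) (cj B) U t (-β) (-α) (-θ₀) r₀ (fun θ => conj (z (-θ))) := by
  refine ⟨HPair_cj h.pair, ?_, h.dom, ?_, h.hr₀, h.hX, ?_, ?_, neg_lt_neg h.hi, neg_lt_neg h.lo,
    ?_, symb_lift h.lift, ?_, ?_, ?_, ?_, ?_⟩
  · rw [Pool.Agent.HQT.cj, map_zero, h.A0, map_zero]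
  · rw [symb_deriv, norm_conj]
    exact h.ht
  · intro r hr
    rw [symb_norm, conj_ofReal]
    exact h.hfirst r hr
  · rw [symb_norm, conj_ofReal]
    exact h.heq
  · have := h.len
    linarith
  · change conj (z (- -θ₀)) = r₀
    rw [neg_neg, h.zθ, conj_ofReal]
  · intro θ hθ
    exact (hU _).2 (h.mem _ ⟨by linarith [hθ.2], by linarith [hθ.1]⟩)
  · intro h1
    have h2 := (hU _).1 h1
    rw [neg_neg] at h2
    exact h.exβ h2
  · intro h1
    have h2 := (hU _).1 h1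
    rw [neg_neg] at h2
    exact h.exα h2
  · intro θ hθ η hη h1
    have h2 : z (-θ) = z (-η) := (starRingEnd ℂ).injective h1
    have h3 := h.inj ⟨by linarith [hθ.2], by linarith [hθ.1]⟩
      ⟨by linarith [hη.2], by linarith [hη.1]⟩ h2
    linarith

theorem Good.cj {U : Set ℂ} {t φ r : ℝ} {z₀ : ℂ} {ψ : ℂ → ℂ} (h : Good A U t φ z₀ r ψ)
    (hU : ∀ z, conj z ∈ U ↔ z ∈ U) :
    Good (cj A) U t φ (conj z₀) r (cj ψ) := by
  refine ⟨h.hr, ⟨?_, ?_, ?_⟩, ?_, ?_⟩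
  · intro w hw
    have h1 : DifferentiableAt ℂ ψ (conj w) := h.branch.diff.differentiableAt
      (isOpen_thickening.mem_nhds (conj_thickening.2 hw))
    have h2 : Pool.Agent.HQT.cj ψ = (starRingEnd ℂ) ∘ ψ ∘ (starRingEnd ℂ) := rfl
    rw [h2]
    exact (differentiableAt_conj_conj_iff.2 h1).differentiableWithinAt
  · intro w hw
    have h1 := h.branch.mem _ (conj_thickening.2 hw)
    rw [mem_ball_zero_iff] at h1 ⊢
    rw [symb_norm]
    exact h1
  · intro w hw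
    have h1 := h.branch.eq _ (conj_thickening.2 hw)
    change conj (A (conj (conj (ψ (conj w))))) = w
    rw [conj_conj, h1, conj_conj]
  · intro w hw
    exact (hU _).2 (h.mem _ (symb_vseg hw))
  · rw [Pool.Agent.HQT.cj, conj_ofReal, h.base]

theorem VS.cj {U : Set ℂ} {t φ r : ℝ} {z : ℝ → ℂ} {ψ : ℂ → ℂ} {e : ℂ} (h : VS A U t φ r z ψ e)
    (hU : ∀ z, conj z ∈ U ↔ z ∈ U) :
    VS (cj A) U t φ r (fun θ => conj (z (-θ))) (cj ψ) (conj e) := by
  refine ⟨h.hφ, h.hφ', ?_, ?_, ?_, ?_⟩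
  · have h1 := h.good.cj hU
    rw [neg_zero]
    exact h1
  · rw [conj_re]
    exact h.tip_re
  · rw [norm_conj]
    exact h.tip_norm
  · intro h1
    apply h.tip
    rw [Pool.Agent.HQT.cj, conj_conj] at h1
    exact (hU _).1 h1

/-- `arg (conj e) = - arg e` since `0 < Re e`. -/
theorem Sides.cj {U : Set ℂ} {t φ : ℝ} {ψ : ℂ → ℂ} {e : ℂ} {Γ W₁ W₂ : Set ℂ}
    (h : Sides A U t φ ψ e Γ W₁ W₂) (hU : ∀ z, conj z ∈ U ↔ z ∈ U) (he : 0 < e.re) :
    Sides (cj A) U t φ (cj ψ) (conj e) {z | conj z ∈ Γ} {z | conj z ∈ W₂} {z | conj z ∈ W₁} := by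
  have harg := symb_arg he
  have hinv : ∀ S : Set ℂ, ∀ z, z ∈ (starRingEnd ℂ) '' S ↔ conj z ∈ S := by
    intro S z
    constructor
    · rintro ⟨w, hw, rfl⟩
      rwa [conj_conj]
    · intro h1
      exact ⟨conj z, h1, conj_conj z⟩
  have hcomp : ∀ W : Set ℂ, (∀ S : Set ℂ, IsPreconnected S → S ⊆ U \ Γ → (S ∩ W).Nonempty →
      S ⊆ W) → ∀ S : Set ℂ, IsPreconnected S → S ⊆ U \ {z | conj z ∈ Γ} →
      (S ∩ {z | conj z ∈ W}).Nonempty → S ⊆ {z | conj z ∈ W} := by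
    intro W hW S hS hSU ⟨x, hx, hxW⟩ y hy
    have h1 := hW ((starRingEnd ℂ) '' S) (hS.image _ continuous_conj.continuousOn) ?_ ?_
    · exact h1 ⟨y, hy, rfl⟩
    · rintro _ ⟨w, hw, rfl⟩
      obtain ⟨h1, h2⟩ := hSU hw
      exact ⟨(hU _).2 h1, h2⟩
    · exact ⟨conj x, ⟨x, hx, rfl⟩, hxW⟩
  refine ⟨?_, ?_, ?_, ?_, ?_, h.opn₂.preimage continuous_conj, h.opn₁.preimage continuous_conj,
    ?_, ?_, ?_, hcomp _ h.comp₂, hcomp _ h.comp₁, ?_, ?_⟩
  · intro z hz
    exact (hU _).1 (h.Γsub hz)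
  · intro z hz
    obtain ⟨s, hs, h1⟩ := h.Γray _ hz
    refine ⟨s, by rwa [norm_conj], ?_⟩
    change conj (A (conj z)) = _
    rw [h1, symb_exp, harg]
  · intro z hz hzt
    rw [symb_norm] at hzt
    obtain ⟨h1, h2⟩ := h.Γψ _ hz hzt
    refine ⟨?_, symb_vseg h2⟩
    change z = conj (ψ (conj (conj (A (conj z)))))
    rw [conj_conj, ← h1, conj_conj]
  · intro s hs
    rw [norm_conj] at hs
    have h1 := h.ψΓ s hs
    change conj (conj (ψ (conj (s * exp (arg (conj e) * I))))) ∈ Γ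
    rw [conj_conj, harg, symb_exp, neg_neg]
    exact h1
  · intro z hz hzc
    apply h.Γcl _ ((hU _).2 hz)
    have h1 := map_mem_closure continuous_conj hzc (t := Γ) (fun w hw => hw)
    exact h1
  · intro z hz
    obtain ⟨h1, h2⟩ := h.sub₂ hz
    exact ⟨(hU _).1 h1, h2⟩
  · intro z hz
    obtain ⟨h1, h2⟩ := h.sub₁ hz
    exact ⟨(hU _).1 h1, h2⟩
  · rw [Set.disjoint_left]
    intro z h1 h2
    exact Set.disjoint_left.1 h.disj h2 h1
  · intro w hw hpos
    change conj (conj (ψ (conj w))) ∈ W₂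
    rw [conj_conj]
    apply h.minus _ (symb_vseg hw)
    have h1 : conj w * exp (-(arg e * I)) = conj (w * exp (-(arg (conj e) * I))) := by
      rw [map_mul, ← exp_conj, map_neg, map_mul, conj_ofReal, conj_I, harg, ofReal_neg]
      congr 2
      ring
    rw [h1, conj_im]
    linarith
  · intro w hw hneg
    change conj (conj (ψ (conj w))) ∈ W₁
    rw [conj_conj]
    apply h.plus _ (symb_vseg hw)
    have h1 : conj w * exp (-(arg e * I)) = conj (w * exp (-(arg (conj e) * I))) := by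
      rw [map_mul, ← exp_conj, map_neg, map_mul, conj_ofReal, conj_I, harg, ofReal_neg]
      congr 2
      ring
    rw [h1, conj_im]
    linarith

end Pool.Agent.HQT
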