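import Pool.Agent.HQT.ExtA
import Pool.Agent.HQT.SymB

/-! HQT (growth exponent 3, MP_7da5c3_an), file ExtB: extents lemma, both orientations (section 5) -/

set_option autoImplicit false

open Complex Metric Set Filter Topology MeasureTheory
open scoped ComplexConjugate Real

namespace Pool.Agent.HQT

open Pool.Agent.HQ

variable {A B : ℂ → ℂ}

/-- the lift of a circle around `e₀` in the two ways -/
private theorem conj_lift_ExtB {e₀ : ℂ} {ρ a b : ℝ} {z : ℝ → ℂ}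
    (hz : IsLift (fun z => A z - e₀) ρ a b z) :
    IsLift (fun z => cj A z - conj e₀) ρ (-b) (-a) (fun θ => conj (z (-θ))) := by
  have hm : MapsTo (fun θ : ℝ => -θ) (Icc (-b) (-a)) (Icc a b) := fun θ hθ =>
    ⟨by linarith [hθ.2], by linarith [hθ.1]⟩
  refine ⟨?_, fun θ hθ => ?_, fun θ hθ => ?_⟩
  · exact continuous_conj.comp_continuousOn
      (hz.cont.comp (f := fun θ : ℝ => -θ) (by fun_prop) hm)
  · have h1 := hz.mem _ (hm hθ)
    rw [mem_ball_zero_iff] at h1 ⊢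
    rwa [norm_conj]
  · have h1 := hz.eq _ (hm hθ)
    simp only at h1
    show conj (A (conj (conj (z (-θ))))) - conj e₀ = ρ * exp (θ * I)
    rw [conj_conj, ← map_sub, h1, map_mul, conj_ofReal, ← exp_conj, map_mul, conj_ofReal, conj_I]
    push_cast
    ring_nf

private theorem conj_circ_ExtB (e₀ : ℂ) (ρ η : ℝ) :
    conj (e₀ + ρ * exp (η * I)) = conj e₀ + ρ * exp ((-η : ℝ) * I) := by
  rw [map_add, map_mul, conj_ofReal, ← exp_conj, map_mul, conj_ofReal, conj_I]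
  push_cast
  ring_nf

/-- EXTENTS LEMMA, counterclockwise.
Proof. Suppose `t cos φ < Re e₀ + ρ cos η₁` and put `δ = 2π - η₁`; `cos δ = cos η₁ > 0` because
`Re e₀ ≤ t cos φ`, so `δ ∈ (0, π/2)`.  Every `η` with `cos η ≥ cos δ` has
`e₀ + ρ e^{iη} ∈ Vseg t φ` (norm `≤ ‖e₀‖ + ρ < t`).  Define `z₃ η = ψ (e₀ + ρ e^{iη})` for
`η ∈ [-δ, max δ η₀]` and `z₃ η = z₂ η` for `η ≥ max δ η₀`, that is
`z₃ η = if η ≤ δ then ψ (e₀ + ρ e^{iη}) else z₂ η` after showing that `z₂ η = ψ (e₀ + ρ e^{iη})`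
for `η ∈ [η₀, δ]` if `η₀ ≤ δ` (`lift_eqOn`, all these points are in the segment because
`cos η ≥ min (cos η₀) (cos δ)`, and `e₀ + ρ e^{iη₀} ∈ Vseg t φ`).  If `δ < η₀` use
`if η ≤ η₀ then ψ (..) else z₂ η` (for `η ∈ [δ, η₀]` again `cos η ≥ cos η₀`).
Apply `extent_core`. -/
theorem extent_ccw (h : HPair A B) {x₁ d : ℝ} (hd0 : 0 < d) (hd : d < π / 2)
    {t φ r α β : ℝ} (ht : 0 < t) {z : ℝ → ℂ} (hz : IsLift A t α β z) (hα : α ≤ -π)
    (hβ : φ ≤ β) {ψ : ℂ → ℂ} {e : ℂ} (hv : VS A (Ubox x₁ d) t φ r z ψ e) {e₀ : ℂ} {ρ : ℝ}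
    (hρ : 0 < ρ) (hρt : ‖e₀‖ + ρ < t) (he : e ∈ closedBall e₀ ρ)
    (he₀ : e₀.re ≤ t * Real.cos φ) {η₀ η₁ : ℝ} (hη₀ : |η₀| < π / 2) (h1 : π < η₁)
    (h2 : η₁ < 2 * π) {z₂ : ℝ → ℂ} (hz₂ : IsLift (fun z => A z - e₀) ρ η₀ η₁ z₂)
    (hz₂U : ∀ θ ∈ Icc η₀ η₁, z₂ θ ∈ Ubox x₁ d)
    (hw : (e₀ + ρ * exp (η₀ * I) : ℂ) ∈ Vseg t φ) (hb : z₂ η₀ = ψ (e₀ + ρ * exp (η₀ * I))) :
    e₀.re + ρ * Real.cos η₁ ≤ t * Real.cos φ := by
  have hpi := Real.pi_pos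
  by_contra hcon
  rw [not_le] at hcon
  obtain ⟨δ, hδ⟩ : ∃ δ : ℝ, δ = 2 * π - η₁ := ⟨_, rfl⟩
  have hη₁ : 2 * π - δ = η₁ := by rw [hδ]; ring
  have hδ0 : 0 < δ := by rw [hδ]; linarith
  have hδπ : δ < π := by rw [hδ]; linarith
  have hcos : Real.cos δ = Real.cos η₁ := by rw [hδ, Real.cos_two_pi_sub]
  have hu : t * Real.cos φ < e₀.re + ρ * Real.cos δ := by rwa [hcos]
  have hcp : 0 < Real.cos δ := by
    by_contra hc
    rw [not_lt] at hc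
    have := mul_nonpos_of_nonneg_of_nonpos hρ.le hc
    linarith
  have hδ2 : δ < π / 2 := by
    by_contra hc
    rw [not_lt] at hc
    have := Real.cos_nonpos_of_pi_div_two_le_of_le hc (by linarith)
    linarith
  -- the points of the segment
  have hnorm : ∀ η : ℝ, ‖(e₀ + ρ * exp (η * I) : ℂ)‖ < t := by
    intro η
    refine lt_of_le_of_lt ((norm_add_le _ _).trans ?_) hρt
    rw [norm_mul, Complex.norm_real, Real.norm_of_nonneg hρ.le, Complex.norm_exp_ofReal_mul_I,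
      mul_one]
  have hre : ∀ η : ℝ, (e₀ + ρ * exp (η * I) : ℂ).re = e₀.re + ρ * Real.cos η := by
    intro η
    rw [Complex.add_re, Complex.re_ofReal_mul, Complex.exp_ofReal_mul_I_re]
  have hVs : ∀ η : ℝ, |η| ≤ max |η₀| δ → (e₀ + ρ * exp (η * I) : ℂ) ∈ Vseg t φ := by
    intro η hη
    refine ⟨hnorm η, ?_⟩
    rw [hre]
    rcases le_total |η₀| δ with hc | hc
    · rw [max_eq_right hc] at hη
      have h3 : Real.cos δ ≤ Real.cos η := by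
        rw [← Real.cos_abs η]
        exact Real.cos_le_cos_of_nonneg_of_le_pi (abs_nonneg _) hδπ.le hη
      have h4 := mul_le_mul_of_nonneg_left h3 hρ.le
      linarith
    · rw [max_eq_left hc] at hη
      have h3 : Real.cos η₀ ≤ Real.cos η := by
        rw [← Real.cos_abs η, ← Real.cos_abs η₀]
        exact Real.cos_le_cos_of_nonneg_of_le_pi (abs_nonneg _) (by linarith) hη
      have h4 := mul_le_mul_of_nonneg_left h3 hρ.le
      have h5 := hw.2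
      rw [hre] at h5
      linarith
  obtain ⟨m, hm⟩ : ∃ m : ℝ, m = max δ η₀ := ⟨_, rfl⟩
  have hmδ : δ ≤ m := hm ▸ le_max_left _ _
  have hmη : η₀ ≤ m := hm ▸ le_max_right _ _
  have hm2 : m < π / 2 := by
    rw [hm]
    exact max_lt hδ2 (abs_lt.1 hη₀).2
  have hmm : m ≤ max |η₀| δ := by
    rw [hm]
    exact max_le (le_max_right _ _) ((le_abs_self _).trans (le_max_left _ _))
  have hV1 : ∀ η ∈ Icc (-δ) m, (e₀ + ρ * exp (η * I) : ℂ) ∈ Vseg t φ := by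
    intro η hη
    refine hVs η (abs_le.2 ⟨?_, hη.2.trans hmm⟩)
    have h3 : δ ≤ max |η₀| δ := le_max_right _ _
    linarith [hη.1]
  have hV2 : ∀ η ∈ Icc η₀ m, (e₀ + ρ * exp (η * I) : ℂ) ∈ Vseg t φ := by
    intro η hη
    refine hVs η (abs_le.2 ⟨?_, hη.2.trans hmm⟩)
    have h3 : |η₀| ≤ max |η₀| δ := le_max_left _ _
    linarith [hη.1, neg_abs_le η₀]
  have hth : ∀ w ∈ Vseg t φ, w ∈ thickening r (Vseg t φ) := fun w hw =>
    self_subset_thickening hv.good.hr _ hw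
  have hψc : ContinuousOn ψ (Vseg t φ) := hv.good.branch.diff.continuousOn.mono hth
  have hcc : Continuous fun η : ℝ => (e₀ + ρ * exp (η * I) : ℂ) := by fun_prop
  have hψ1 : ContinuousOn (fun η : ℝ => ψ (e₀ + ρ * exp (η * I))) (Icc (-δ) m) :=
    hψc.comp hcc.continuousOn hV1
  have hψ2 : ContinuousOn (fun η : ℝ => ψ (e₀ + ρ * exp (η * I))) (Icc η₀ m) :=
    hψc.comp hcc.continuousOn hV2
  have hsub : Icc η₀ m ⊆ Icc η₀ η₁ := Icc_subset_Icc_right (by linarith)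
  have hA2 : ∀ η ∈ Icc η₀ η₁, A (z₂ η) = e₀ + ρ * exp (η * I) := by
    intro η hη
    have h3 : A (z₂ η) - e₀ = ρ * exp (η * I) := hz₂.eq η hη
    rw [← h3]
    ring
  have heq : EqOn z₂ (fun η : ℝ => ψ (e₀ + ρ * exp (η * I))) (Icc η₀ m) := by
    refine lift_eqOn isPreconnected_Icc h.diffA
      (fun z hz => h.deriv_ne (ball_subset_closedBall hz)) (hz₂.cont.mono hsub) hψ2
      (fun x hx => hz₂.mem x (hsub hx))
      (fun x hx => hv.good.branch.mem _ (hth _ (hV2 x hx))) (fun x hx => ?_)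
      (left_mem_Icc.2 hmη) hb
    rw [hA2 x (hsub hx), hv.good.branch.eq _ (hth _ (hV2 x hx))]
  -- the lift
  have hle : ∀ η : ℝ, η ≤ m → (if η ≤ m then ψ (e₀ + ρ * exp (η * I)) else z₂ η) =
      ψ (e₀ + ρ * exp (η * I)) := fun η hη => if_pos hη
  have hge : ∀ η ∈ Icc m η₁, (if η ≤ m then ψ (e₀ + ρ * exp (η * I)) else z₂ η) = z₂ η := by
    intro η hη
    rcases eq_or_lt_of_le hη.1 with h3 | h3
    · rw [if_pos h3.symm.le]
      exact (heq ⟨h3 ▸ hmη, h3.symm.le⟩).symm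
    · rw [if_neg (not_le.2 h3)]
  have hun : Icc (-δ) η₁ = Icc (-δ) m ∪ Icc m η₁ :=
    (Icc_union_Icc_eq_Icc (by linarith) (by linarith)).symm
  have hz₃ : IsLift (fun z => A z - e₀) ρ (-δ) (2 * π - δ)
      (fun η : ℝ => if η ≤ m then ψ (e₀ + ρ * exp (η * I)) else z₂ η) := by
    rw [hη₁]
    refine ⟨?_, fun θ hθ => ?_, fun θ hθ => ?_⟩
    · rw [hun]
      refine ContinuousOn.union_of_isClosed ?_ ?_ isClosed_Icc isClosed_Icc
      · exact hψ1.congr fun η hη => hle η hη.2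
      · exact (hz₂.cont.mono (Icc_subset_Icc_left hmη)).congr hge
    · rcases le_total θ m with h3 | h3
      · show (if θ ≤ m then ψ (e₀ + ρ * exp (θ * I)) else z₂ θ) ∈ ball (0 : ℂ) 1
        rw [hle θ h3]
        exact hv.good.branch.mem _ (hth _ (hV1 θ ⟨hθ.1, h3⟩))
      · show (if θ ≤ m then ψ (e₀ + ρ * exp (θ * I)) else z₂ θ) ∈ ball (0 : ℂ) 1
        rw [hge θ ⟨h3, hθ.2⟩]
        exact hz₂.mem θ ⟨hmη.trans h3, hθ.2⟩
    · show A (if θ ≤ m then ψ (e₀ + ρ * exp (θ * I)) else z₂ θ) - e₀ = ρ * exp (θ * I)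
      rcases le_total θ m with h3 | h3
      · rw [hle θ h3, hv.good.branch.eq _ (hth _ (hV1 θ ⟨hθ.1, h3⟩))]
        ring
      · rw [hge θ ⟨h3, hθ.2⟩, hA2 θ ⟨hmη.trans h3, hθ.2⟩]
        ring
  refine extent_core h hd0 hd ht hz hα hβ hv hρ hρt he hδ0 hδ2 hu hz₃ (fun θ hθ => ?_)
    (fun θ hθ => hle θ (hθ.2.trans hmδ))
  rw [hη₁] at hθ
  show (if θ ≤ m then ψ (e₀ + ρ * exp (θ * I)) else z₂ θ) ∈ Ubox x₁ d
  rcases le_total θ m with h3 | h3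
  · rw [hle θ h3]
    exact hv.good.mem _ (hV1 θ ⟨hθ.1, h3⟩)
  · rw [hge θ ⟨h3, hθ.2⟩]
    exact hz₂U θ ⟨hmη.trans h3, hθ.2⟩

/-- EXTENTS LEMMA, clockwise: `extent_ccw` for the conjugate data (`VS.cj`, `HPair_cj`,
`conj_mem_Ubox`, `z₂*(η) = conj (z₂ (-η))`, `e₀* = conj e₀`). -/
theorem extent_cw (h : HPair A B) {x₁ d : ℝ} (hd0 : 0 < d) (hd : d < π / 2)
    {t φ r α β : ℝ} (ht : 0 < t) {z : ℝ → ℂ} (hz : IsLift A t α β z) (hα : α ≤ -φ)
    (hβ : π ≤ β) {ψ : ℂ → ℂ} {e : ℂ} (hv : VS A (Ubox x₁ d) t φ r z ψ e) {e₀ : ℂ} {ρ : ℝ}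
    (hρ : 0 < ρ) (hρt : ‖e₀‖ + ρ < t) (he : e ∈ closedBall e₀ ρ)
    (he₀ : e₀.re ≤ t * Real.cos φ) {η₀ η₁ : ℝ} (hη₀ : |η₀| < π / 2) (h1 : η₁ < -π)
    (h2 : -(2 * π) < η₁) {z₂ : ℝ → ℂ} (hz₂ : IsLift (fun z => A z - e₀) ρ η₁ η₀ z₂)
    (hz₂U : ∀ θ ∈ Icc η₁ η₀, z₂ θ ∈ Ubox x₁ d)
    (hw : (e₀ + ρ * exp (η₀ * I) : ℂ) ∈ Vseg t φ) (hb : z₂ η₀ = ψ (e₀ + ρ * exp (η₀ * I))) :
    e₀.re + ρ * Real.cos η₁ ≤ t * Real.cos φ := by
  have hz' : IsLift (cj A) t (-β) (-α) (fun θ => conj (z (-θ))) := by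
    have h3 : IsLift (fun z => A z - 0) t α β z := by
      simpa using hz
    have h4 := conj_lift_ExtB h3
    simpa using h4
  have hv' := VS.cj hv (fun z => conj_mem_Ubox (x₁ := x₁) (d := d) (z := z))
  have hz₂' := conj_lift_ExtB hz₂
  have key := extent_ccw (HPair_cj h) hd0 hd ht hz' (by linarith) (by linarith) hv' (e₀ := conj e₀)
    hρ (by rwa [norm_conj]) (by
      rw [mem_closedBall, dist_conj_conj]
      exact he) (by rwa [conj_re]) (η₀ := -η₀) (η₁ := -η₁) (by rwa [abs_neg]) (by linarith)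
    (by linarith) hz₂' (fun θ hθ => ?_) ?_ ?_
  · rwa [conj_re, Real.cos_neg] at key
  · exact conj_mem_Ubox.2 (hz₂U (-θ) ⟨by linarith [hθ.2], by linarith [hθ.1]⟩)
  · rw [← conj_circ_ExtB]
    exact conj_mem_Vseg.2 hw
  · rw [← conj_circ_ExtB]
    show conj (z₂ (- -η₀)) = conj (ψ (conj (conj (e₀ + ρ * exp (η₀ * I)))))
    rw [conj_conj, neg_neg, hb]

end Pool.Agent.HQT
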