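import Pool.Agent.HQT.Ind
import Pool.Agent.HQ.Defs

/-! HQT, file FinA: the growth theorem with exponent 3 for all pairs, from the claim. -/

set_option autoImplicit false

open Complex Metric Set Filter Topology MeasureTheory
open scoped ComplexConjugate Real

namespace Pool.Agent.HQT

open Pool.Agent.HQ

private lemma rot_mem_Fin3 {e z : ℂ} (he : ‖e‖ = 1) (hz : z ∈ closedBall (0 : ℂ) 1) :
    e * z ∈ closedBall (0 : ℂ) 1 := by
  rw [mem_closedBall_zero_iff] at hz ⊢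
  rw [norm_mul, he, one_mul]
  exact hz

private lemma rot_deriv_Fin3 {G : ℂ → ℂ} (hG : AnalyticOnNhd ℂ G (closedBall 0 1)) {e : ℂ}
    (he : ‖e‖ = 1) (c : ℂ) {z : ℂ} (hz : z ∈ closedBall (0 : ℂ) 1) :
    HasDerivAt (fun w => G (e * w) - c) (deriv G (e * z) * e) z := by
  have h1 : HasDerivAt G (deriv G (e * z)) (e * z) :=
    (hG _ (rot_mem_Fin3 he hz)).differentiableAt.hasDerivAt
  have h2 : HasDerivAt (fun w : ℂ => e * w) e z := by
    simpa using (hasDerivAt_id z).const_mul e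
  exact (h1.comp z h2).sub_const c

private lemma rot_an_Fin3 {G : ℂ → ℂ} (hG : AnalyticOnNhd ℂ G (closedBall 0 1)) {e : ℂ}
    (he : ‖e‖ = 1) (c : ℂ) : AnalyticOnNhd ℂ (fun w => G (e * w) - c) (closedBall 0 1) := by
  intro z hz
  have h1 : AnalyticAt ℂ (fun w : ℂ => e * w) z := analyticAt_const.mul analyticAt_id
  have h2 : AnalyticAt ℂ (fun w => G (e * w)) z :=
    AnalyticAt.comp (g := G) (hG _ (rot_mem_Fin3 he hz)) h1
  exact h2.sub analyticAt_const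

private lemma rot_pair_Fin3 {A B : ℂ → ℂ} (h : HPair A B) {e : ℂ} (he : ‖e‖ = 1) (c d : ℂ) :
    HPair (fun w => A (e * w) - c) (fun w => B (e * w) - d) := by
  have he0 : e ≠ 0 := by
    rintro rfl
    rw [norm_zero] at he
    exact zero_ne_one he
  refine ⟨rot_an_Fin3 h.anA he c, rot_an_Fin3 h.anB he d, ?_, ?_⟩
  · intro z hz w hw hzw
    have h1 : shearMap A B (e * z) = shearMap A B (e * w) := by
      simp only [shearMap, Complex.mk.injEq, sub_re, sub_im, sub_left_inj] at hzw ⊢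
      exact hzw
    exact mul_left_cancel₀ he0 (h.inj (rot_mem_Fin3 he hz) (rot_mem_Fin3 he hw) h1)
  · intro z hz
    rw [(rot_deriv_Fin3 h.anA he c hz).deriv, (rot_deriv_Fin3 h.anB he d hz).deriv]
    have h1 := h.pos _ (rot_mem_Fin3 he hz)
    have h2 : deriv B (e * z) * e * conj (deriv A (e * z) * e)
        = (deriv B (e * z) * conj (deriv A (e * z))) * ((normSq e : ℝ) : ℂ) := by
      rw [map_mul, ← mul_conj]
      ring
    rw [h2, re_mul_ofReal]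
    exact mul_pos h1 (normSq_pos.2 he0)

/-- The statement of the claim (section 0). -/
def Claim : Prop :=
  ∀ A B : ℂ → ℂ, HPair A B → A 0 = 0 → ∀ r₁ ∈ Ioo (0 : ℝ) 1, ∀ t d ε : ℝ, ‖deriv A 0‖ < t →
    t ≤ ‖A r₁‖ → 0 < d → d < π / 2 → 0 < ε → ∃ σ ∈ Ioo 0 t,
      volume (Lmap '' GU A (Ubox (Real.log ((1 + r₁) / (1 - r₁))) d) σ) +
        ENNReal.ofReal ((4 * d ^ 2 / (3 * π) - ε) * Real.log (t / σ)) ≤
      volume (Lmap '' GU A (Ubox (Real.log ((1 + r₁) / (1 - r₁))) d) t)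

theorem growth3_of_claim (hcl : Claim) {A B : ℂ → ℂ} (h : HPair A B) {z : ℂ}
    (hz : z ∈ ball (0 : ℂ) 1) :
    ‖A z - A 0‖ ≤ Real.exp (3 * π) * ‖deriv A 0‖ * ((1 + ‖z‖) / (1 - ‖z‖)) ^ 3 := by
  rw [mem_ball_zero_iff] at hz
  rcases eq_or_ne z 0 with rfl | hz0
  · rw [sub_self, norm_zero]
    positivity
  have hr : 0 < ‖z‖ := norm_pos_iff.2 hz0
  obtain ⟨e, he⟩ : ∃ e : ℂ, e = z / (‖z‖ : ℂ) := ⟨_, rfl⟩
  have hrc : (‖z‖ : ℂ) ≠ 0 := ofReal_ne_zero.2 hr.ne'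
  have he1 : ‖e‖ = 1 := by
    rw [he, norm_div, norm_real, norm_norm, div_self hr.ne']
  have hez : e * (‖z‖ : ℂ) = z := by
    rw [he, div_mul_cancel₀ _ hrc]
  have h0mem : (0 : ℂ) ∈ closedBall (0 : ℂ) 1 := mem_closedBall_self zero_le_one
  have hp := rot_pair_Fin3 h he1 (A 0) 0
  have h00 : (fun w => A (e * w) - A 0) 0 = 0 := by
    show A (e * 0) - A 0 = 0
    rw [mul_zero, sub_self]
  have h1 := radius_of_claim hp h00 (r₁ := ‖z‖) ⟨hr, hz⟩
    (fun t d ε h1 h2 h3 h4 h5 => hcl _ _ hp h00 ‖z‖ ⟨hr, hz⟩ t d ε h1 h2 h3 h4 h5)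
  rw [(rot_deriv_Fin3 h.anA he1 (A 0) h0mem).deriv, mul_zero, norm_mul, he1, mul_one, hez] at h1
  exact h1

theorem growthBound_three_of_claim (hcl : Claim) : GrowthBound (Real.exp (3 * π)) 3 := by
  intro A B h z hz
  have h1 := growth3_of_claim hcl h (mem_ball_zero_iff.2 hz)
  have h2 : ((1 + ‖z‖) / (1 - ‖z‖)) ^ (3 : ℝ) = ((1 + ‖z‖) / (1 - ‖z‖)) ^ (3 : ℕ) := by
    rw [← Real.rpow_natCast]
    norm_num
  rw [h2]
  exact h1

end Pool.Agent.HQT
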