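import Pool.Agent.HQT.SegGeo
import Pool.Agent.HQT.BrExt

/-! HQT (growth exponent 3, MP_7da5c3_an), file GoodA: good segments: small ones,
monotonicity, boundary values -/

set_option autoImplicit false

open Complex Metric Set Filter Topology MeasureTheory
open scoped ComplexConjugate Real

namespace Pool.Agent.HQT

open Pool.Agent.HQ

variable {A B : ℂ → ℂ}

/-- BOUNDARY VALUES.  Proof. `θ ↦ ψ (t e^{iθ})` and `z` are two lifts of `t e^{iθ}` on `[-φ, φ]`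
with values in `ball 0 1` (`arc_mem_closedSeg`, `closedSeg_sub_thick`), equal at `0`:
`lift_eqOn`. -/
theorem good_bdry (hA : DifferentiableOn ℂ A (ball 0 1))
    (hA' : ∀ z ∈ ball (0 : ℂ) 1, deriv A z ≠ 0) {U : Set ℂ} {t φ r α β : ℝ} (ht : 0 < t)
    (hφ : 0 < φ) (hφ' : φ < π / 2) {z : ℝ → ℂ} (hz : IsLift A t α β z) (h1 : α ≤ -φ)
    (h2 : φ ≤ β) {ψ : ℂ → ℂ} (hg : Good A U t φ (z 0) r ψ) :
    ∀ θ ∈ Icc (-φ) φ, ψ (t * exp (θ * I)) = z θ := by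
  have hsub : ∀ θ ∈ Icc (-φ) φ,
      (t * exp (θ * I) : ℂ) ∈ thickening r (Vseg t φ) := fun θ hθ =>
    closedSeg_sub_thick ht hφ hφ'.le hg.hr (arc_mem_closedSeg ht hφ'.le hθ)
  have hicc : ∀ θ ∈ Icc (-φ) φ, θ ∈ Icc α β := fun θ hθ =>
    ⟨h1.trans hθ.1, hθ.2.trans h2⟩
  have hc : Continuous fun θ : ℝ => (t * exp (θ * I) : ℂ) := by fun_prop
  have hu : ContinuousOn (fun θ : ℝ => ψ (t * exp (θ * I))) (Icc (-φ) φ) :=
    hg.branch.diff.continuousOn.comp hc.continuousOn hsub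
  have h0 : (0 : ℝ) ∈ Icc (-φ) φ := ⟨by linarith, hφ.le⟩
  refine lift_eqOn isPreconnected_Icc hA hA' hu (hz.cont.mono hicc) (fun θ hθ => ?_)
    (fun θ hθ => hz.mem θ (hicc θ hθ)) (fun θ hθ => ?_) h0 ?_
  · exact hg.branch.mem _ (hsub θ hθ)
  · rw [hg.branch.eq _ (hsub θ hθ), hz.eq θ (hicc θ hθ)]
  · simp only [Complex.ofReal_zero, zero_mul, Complex.exp_zero, mul_one]
    exact hg.base

theorem good_mono {U : Set ℂ} {t φ φ₁ r : ℝ} {z₀ : ℂ} (ht : 0 < t) {ψ : ℂ → ℂ} (h0 : 0 ≤ φ₁)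
    (h1 : φ₁ ≤ φ) (h2 : φ ≤ π / 2) (hg : Good A U t φ z₀ r ψ) : Good A U t φ₁ z₀ r ψ := by
  have hs : Vseg t φ₁ ⊆ Vseg t φ := Vseg_mono ht.le h0 h1 (by linarith [Real.pi_pos])
  have hs' : thickening r (Vseg t φ₁) ⊆ thickening r (Vseg t φ) :=
    Metric.thickening_subset_of_subset _ hs
  exact ⟨hg.hr, ⟨hg.branch.diff.mono hs', fun w hw => hg.branch.mem w (hs' hw),
    fun w hw => hg.branch.eq w (hs' hw)⟩, fun w hw => hg.mem w (hs hw), hg.base⟩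

/-- Proof. `exists_locInv` (with `K = {z₀}`, or `K = closure U`): a branch on `ball t R`; it is
continuous, so it maps `ball t R'` into `U`; `Vseg t φ ⊆ ball t (R'/2)` for small `φ`
(`|w - t|² = |w|² - 2 t Re w + t² < 2 t² (1 - cos φ)`), `r = R' / 2`. -/
theorem good_small (hA : DifferentiableOn ℂ A (ball 0 1))
    (hA' : ∀ z ∈ ball (0 : ℂ) 1, deriv A z ≠ 0) {U : Set ℂ} (hU : Dom U) {t : ℝ} (ht : 0 < t)
    {z₀ : ℂ} (hz₀ : z₀ ∈ U) (h0 : A z₀ = t) :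
    ∃ φ ∈ Ioo (0 : ℝ) (π / 2), ∃ r : ℝ, ∃ ψ : ℂ → ℂ, Good A U t φ z₀ r ψ := by
  have hz1 : z₀ ∈ ball (0 : ℂ) 1 := hU.sub (subset_closure hz₀)
  obtain ⟨δ, hδ, R, hR, hb, hχ⟩ := exists_locInv hA hA' (isCompact_singleton (x := z₀))
    (singleton_subset_iff.2 hz1)
  obtain ⟨χ, hχd, hχ0, hχm⟩ := hχ z₀ rfl
  have hb0 := (hb z₀ rfl).1
  rw [h0] at hχd hχ0 hχm
  have htR : (t : ℂ) ∈ ball (t : ℂ) R := mem_ball_self hR
  have hcont : ContinuousAt χ t := (hχd.continuousOn).continuousAt (isOpen_ball.mem_nhds htR)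
  have hpre : χ ⁻¹' U ∈ 𝓝 (t : ℂ) := hcont (hU.opn.mem_nhds (by rw [hχ0]; exact hz₀))
  obtain ⟨R', hR', hR'U⟩ := Metric.mem_nhds_iff.1 hpre
  obtain ⟨q, hq⟩ : ∃ q : ℝ, q = min R R' := ⟨_, rfl⟩
  have hq0 : 0 < q := by
    rw [hq]
    exact lt_min hR hR'
  have hqR : q ≤ R := hq ▸ min_le_left _ _
  have hqR' : q ≤ R' := hq ▸ min_le_right _ _
  -- the angle
  have hcos : ∀ᶠ φ : ℝ in 𝓝 0, 2 * t ^ 2 * (1 - Real.cos φ) < (q / 2) ^ 2 := by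
    have hc : Continuous fun φ : ℝ => 2 * t ^ 2 * (1 - Real.cos φ) := by fun_prop
    have h3 := hc.tendsto 0
    simp only [Real.cos_zero, sub_self, mul_zero] at h3
    exact h3.eventually (gt_mem_nhds (by positivity))
  obtain ⟨ε, hε, hεc⟩ := Metric.eventually_nhds_iff.1 hcos
  obtain ⟨φ, hφ⟩ : ∃ φ : ℝ, φ = min (ε / 2) 1 := ⟨_, rfl⟩
  have hφ0 : 0 < φ := by
    rw [hφ]
    exact lt_min (by positivity) one_pos
  have hφ1 : φ ≤ 1 := hφ ▸ min_le_right _ _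
  have hφε : φ < ε := lt_of_le_of_lt (hφ ▸ min_le_left _ _) (by linarith)
  have hφ2 := hεc (y := φ) (by rw [Real.dist_eq, sub_zero, abs_of_pos hφ0]; exact hφε)
  have hV : Vseg t φ ⊆ ball (t : ℂ) (q / 2) := by
    rintro w ⟨hw1, hw2⟩
    rw [mem_ball, dist_eq_norm]
    have h3 : ‖w - t‖ ^ 2 = ‖w‖ ^ 2 - 2 * t * w.re + t ^ 2 := by
      rw [← Complex.normSq_eq_norm_sq, ← Complex.normSq_eq_norm_sq, Complex.normSq_apply,
        Complex.normSq_apply]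
      simp only [Complex.sub_re, Complex.sub_im, Complex.ofReal_re, Complex.ofReal_im]
      ring
    have h4 : ‖w‖ ^ 2 < t ^ 2 := by
      have h5 := norm_nonneg w
      nlinarith
    have h6 : ‖w - t‖ ^ 2 < (q / 2) ^ 2 := by
      rw [h3]
      nlinarith
    exact lt_of_pow_lt_pow_left₀ 2 (by positivity) h6
  have hT : thickening (q / 2) (Vseg t φ) ⊆ ball (t : ℂ) q := by
    intro p hp
    obtain ⟨w, hw, hpw⟩ := Metric.mem_thickening_iff.1 hp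
    have h3 := mem_ball.1 (hV hw)
    have h4 := dist_triangle p w (t : ℂ)
    rw [mem_ball]
    linarith
  refine ⟨φ, ⟨hφ0, by linarith [Real.pi_gt_three]⟩, q / 2, χ, by positivity, ⟨?_, ?_, ?_⟩,
    ?_, hχ0⟩
  · exact hχd.mono (hT.trans (ball_subset_ball hqR))
  · exact fun w hw => hb0 (hχm w (ball_subset_ball hqR (hT hw))).1
  · exact fun w hw => (hχm w (ball_subset_ball hqR (hT hw))).2
  · intro w hw
    exact hR'U (ball_subset_ball (by linarith) (hV hw))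

/-- Proof. `branch_eqOn` on the closed segment of angle `φ₁` (convex), both are `z₀` at `t`. -/
theorem good_eq (hA : DifferentiableOn ℂ A (ball 0 1))
    (hA' : ∀ z ∈ ball (0 : ℂ) 1, deriv A z ≠ 0) {U : Set ℂ} {t φ₁ φ₂ r₁ r₂ : ℝ} {z₀ : ℂ}
    (ht : 0 < t) {ψ₁ ψ₂ : ℂ → ℂ} (h0 : 0 < φ₁) (h1 : φ₁ ≤ φ₂) (h2 : φ₂ ≤ π / 2)
    (hg₁ : Good A U t φ₁ z₀ r₁ ψ₁) (hg₂ : Good A U t φ₂ z₀ r₂ ψ₂) :
    EqOn ψ₁ ψ₂ (Vseg t φ₁) := by
  have hcos : Real.cos φ₂ ≤ Real.cos φ₁ :=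
    Real.cos_le_cos_of_nonneg_of_le_pi h0.le (by linarith [Real.pi_pos]) h1
  have hconv : Convex ℝ {w : ℂ | ‖w‖ ≤ t ∧ t * Real.cos φ₁ ≤ w.re} := by
    have h3 : {w : ℂ | ‖w‖ ≤ t ∧ t * Real.cos φ₁ ≤ w.re}
        = closedBall (0 : ℂ) t ∩ {w : ℂ | t * Real.cos φ₁ ≤ w.re} := by
      ext w
      simp
    rw [h3]
    exact (convex_closedBall _ _).inter (convex_halfSpace_re_ge _)
  have hs₂ : {w : ℂ | ‖w‖ ≤ t ∧ t * Real.cos φ₁ ≤ w.re}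
      ⊆ {w : ℂ | ‖w‖ ≤ t ∧ t * Real.cos φ₂ ≤ w.re} := fun w hw =>
    ⟨hw.1, (mul_le_mul_of_nonneg_left hcos ht.le).trans hw.2⟩
  have hmem : (t : ℂ) ∈ {w : ℂ | ‖w‖ ≤ t ∧ t * Real.cos φ₁ ≤ w.re} := by
    have h3 := arc_mem_closedSeg (t := t) (φ := φ₁) (θ := 0) ht (h1.trans h2)
      ⟨by linarith, h0.le⟩
    simpa only [Complex.ofReal_zero, zero_mul, Complex.exp_zero, mul_one] using h3
  have heq := branch_eqOn hA hA' hconv.isPreconnected hg₁.branch hg₂.branch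
    (closedSeg_sub_thick ht h0 (h1.trans h2) hg₁.hr)
    (hs₂.trans (closedSeg_sub_thick ht (h0.trans_le h1) h2 hg₂.hr)) hmem
    (by rw [hg₁.base, hg₂.base])
  intro w hw
  exact heq ⟨hw.1.le, hw.2.le⟩

end Pool.Agent.HQT
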