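import Pool.Agent.HQT.GoodA

/-! HQT (growth exponent 3, MP_7da5c3_an), file GoodB: good segments: union and openness -/

set_option autoImplicit false

open Complex Metric Set Filter Topology MeasureTheory
open scoped ComplexConjugate Real

namespace Pool.Agent.HQT

open Pool.Agent.HQ

variable {A B : ℂ → ℂ}

/-- UNION.  Proof. `Vseg t φ = ⋃_{φ' < φ} Vseg t φ'` (`cos` continuous).  Define `ψ w = ψ_{φ'} w`
for a chosen `φ' < φ` with `w ∈ Vseg t φ'`; by `good_eq` `ψ = ψ_{φ'}` on `Vseg t φ'` for every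
`φ'`.  So `ψ` is a branch `Vseg t φ → U`; `branch_extend` extends it to `ψ'` on
`thickening r (Vseg t φ)`.  `ψ' t = z₀`: `ψ'` and `ψ_{φ'}` (one fixed `φ'`) are continuous at
`t` and agree on `Vseg t φ'`, and `t ∈ closure (Vseg t φ')`. -/
theorem good_sup (hA : DifferentiableOn ℂ A (ball 0 1))
    (hA' : ∀ z ∈ ball (0 : ℂ) 1, deriv A z ≠ 0) {U : Set ℂ} (hU : Dom U) {t φ : ℝ}
    (ht : 0 < t) {z₀ : ℂ} (h0 : 0 < φ) (h1 : φ ≤ π / 2)
    (h : ∀ φ' ∈ Ioo (0 : ℝ) φ, ∃ r : ℝ, ∃ ψ : ℂ → ℂ, Good A U t φ' z₀ r ψ) :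
    ∃ r : ℝ, ∃ ψ : ℂ → ℂ, Good A U t φ z₀ r ψ := by
  classical
  choose ρ χ hχ using h
  -- exhaustion of the segment
  have hex : ∀ w ∈ Vseg t φ, ∃ φ', ∃ _ : φ' ∈ Ioo (0 : ℝ) φ, w ∈ Vseg t φ' := by
    intro w hw
    have hc : Continuous fun x : ℝ => t * Real.cos x := by fun_prop
    have h2 : ∀ᶠ x : ℝ in 𝓝[<] φ, t * Real.cos x < w.re :=
      nhdsWithin_le_nhds ((hc.tendsto φ).eventually (gt_mem_nhds hw.2))
    have h3 : ∀ᶠ x : ℝ in 𝓝[<] φ, x ∈ Ioo (0 : ℝ) φ := Ioo_mem_nhdsLT h0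
    obtain ⟨x, hx1, hx2⟩ := (h2.and h3).exists
    exact ⟨x, hx2, hw.1, hx1⟩
  choose a ha haw using hex
  obtain ⟨Ψ, hΨ⟩ : ∃ Ψ : ℂ → ℂ, ∀ (w : ℂ) (hw : w ∈ Vseg t φ), Ψ w = χ (a w hw) (ha w hw) w :=
    ⟨fun w => if hw : w ∈ Vseg t φ then χ (a w hw) (ha w hw) w else 0, fun w hw => by
      simp only [dif_pos hw]⟩
  have hsub : ∀ φ' ∈ Ioo (0 : ℝ) φ, Vseg t φ' ⊆ Vseg t φ := fun φ' hφ' =>
    Vseg_mono ht.le hφ'.1.le hφ'.2.le (by linarith [Real.pi_pos])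
  have hcons : ∀ (φ' : ℝ) (hφ' : φ' ∈ Ioo (0 : ℝ) φ), EqOn Ψ (χ φ' hφ') (Vseg t φ') := by
    intro φ' hφ' w hw
    have hw' := hsub φ' hφ' hw
    rw [hΨ w hw']
    rcases le_total (a w hw') φ' with h2 | h2
    · exact good_eq hA hA' ht (ha w hw').1 h2 (hφ'.2.le.trans h1) (hχ _ (ha w hw'))
        (hχ φ' hφ') (haw w hw')
    · exact (good_eq hA hA' ht hφ'.1 h2 ((ha w hw').2.le.trans h1) (hχ φ' hφ')
        (hχ _ (ha w hw')) hw).symm
  have hself : ∀ (φ' : ℝ) (hφ' : φ' ∈ Ioo (0 : ℝ) φ),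
      Vseg t φ' ⊆ thickening (ρ φ' hφ') (Vseg t φ') := fun φ' hφ' =>
    Metric.self_subset_thickening (hχ φ' hφ').hr _
  have hbr : Branch A (Vseg t φ) U Ψ := by
    refine ⟨fun w hw => ?_, fun w hw => ?_, fun w hw => ?_⟩
    · have h2 : Vseg t (a w hw) ∈ 𝓝 w := (isOpen_Vseg _ _).mem_nhds (haw w hw)
      have h3 : DifferentiableAt ℂ (χ (a w hw) (ha w hw)) w :=
        ((hχ _ (ha w hw)).branch.diff.mono (hself _ (ha w hw))).differentiableAt h2
      have h4 : Ψ =ᶠ[𝓝 w] χ (a w hw) (ha w hw) :=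
        Filter.eventually_of_mem h2 (hcons _ (ha w hw))
      exact (h4.differentiableAt_iff.2 h3).differentiableWithinAt
    · rw [hΨ w hw]
      exact (hχ _ (ha w hw)).mem w (haw w hw)
    · rw [hΨ w hw]
      exact (hχ _ (ha w hw)).branch.eq w (hself _ (ha w hw) (haw w hw))
  obtain ⟨r, hr, ψ', hb, he⟩ := branch_extend hA hA' hU (isOpen_Vseg t φ) (convex_Vseg t φ) hbr
  refine ⟨r, ψ', hr, hb, fun w hw => ?_, ?_⟩
  · rw [he hw]
    exact hbr.mem w hw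
  · -- the base point
    have hm : φ / 2 ∈ Ioo (0 : ℝ) φ := ⟨by linarith, by linarith⟩
    have hg0 := hχ _ hm
    have hmem : ∀ x : ℝ, 0 < x → x ≤ π / 2 →
        (t : ℂ) ∈ {w : ℂ | ‖w‖ ≤ t ∧ t * Real.cos x ≤ w.re} := by
      intro x hx hx2
      have h3 := arc_mem_closedSeg (t := t) (φ := x) (θ := 0) ht hx2 ⟨by linarith, hx.le⟩
      simpa only [Complex.ofReal_zero, zero_mul, Complex.exp_zero, mul_one] using h3
    have hcl : (t : ℂ) ∈ closure (Vseg t (φ / 2)) :=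
      closedSeg_sub_closure ht hm.1 (by linarith) (hmem _ hm.1 (by linarith))
    have h2 : (t : ℂ) ∈ thickening r (Vseg t φ) :=
      closedSeg_sub_thick ht h0 h1 hr (hmem _ h0 h1)
    have h3 : (t : ℂ) ∈ thickening (ρ _ hm) (Vseg t (φ / 2)) :=
      closedSeg_sub_thick ht hm.1 (by linarith) hg0.hr (hmem _ hm.1 (by linarith))
    have hc1 : ContinuousAt ψ' t :=
      hb.diff.continuousOn.continuousAt (isOpen_thickening.mem_nhds h2)
    have hc2 : ContinuousAt (χ _ hm) t :=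
      hg0.branch.diff.continuousOn.continuousAt (isOpen_thickening.mem_nhds h3)
    have : (𝓝[Vseg t (φ / 2)] (t : ℂ)).NeBot := mem_closure_iff_nhdsWithin_neBot.1 hcl
    have h4 : Tendsto ψ' (𝓝[Vseg t (φ / 2)] (t : ℂ)) (𝓝 (ψ' t)) :=
      hc1.mono_left nhdsWithin_le_nhds
    have h5 : Tendsto (χ _ hm) (𝓝[Vseg t (φ / 2)] (t : ℂ)) (𝓝 (χ _ hm t)) :=
      hc2.mono_left nhdsWithin_le_nhds
    have h6 : ψ' =ᶠ[𝓝[Vseg t (φ / 2)] (t : ℂ)] χ _ hm := by
      filter_upwards [self_mem_nhdsWithin] with w hw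
      rw [he (hsub _ hm hw), hcons _ hm hw]
    rw [tendsto_nhds_unique (h4.congr' h6) h5, hg0.base]

/-- OPENNESS.  Proof. The compact set `C = {‖w‖ ≤ t, t cos φ ≤ Re w}` is mapped by `ψ` into `U`:
interior points by `hg.mem`, points with `|w| = t` by `closedSeg_norm_eq`, `good_bdry` and `hzU`,
chord points by `hch`.  `O = {w ∈ thickening r (Vseg t φ) | ψ w ∈ U}` is open and contains `C`,
so `thickening δ C ⊆ O` for some `δ > 0` (compactness).  For `φ' > φ` close to `φ`,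
`Vseg t φ' ⊆ thickening (δ/2) C`: otherwise, by compactness, a limit point `w` of points
`w_n ∈ Vseg t φ_n`, `φ_n → φ`, `dist (w_n, C) ≥ δ/2` satisfies `‖w‖ ≤ t`, `t cos φ ≤ Re w`:
contradiction.  (Or: move `w` to `w + (t - |..|)`, by hand.)  Then `ψ` itself is good for `φ'`
with `r' = δ / 2`. -/
theorem good_open (hA : DifferentiableOn ℂ A (ball 0 1))
    (hA' : ∀ z ∈ ball (0 : ℂ) 1, deriv A z ≠ 0) {U : Set ℂ} (hU : Dom U) {t φ r α β : ℝ}
    (ht : 0 < t) (hφ : 0 < φ) (hφ' : φ < π / 2) {z : ℝ → ℂ} (hz : IsLift A t α β z)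
    (h1 : α ≤ -φ) (h2 : φ ≤ β) (hzU : ∀ θ ∈ Icc (-φ) φ, z θ ∈ U) {ψ : ℂ → ℂ}
    (hg : Good A U t φ (z 0) r ψ)
    (hch : ∀ w : ℂ, ‖w‖ < t → w.re = t * Real.cos φ → ψ w ∈ U) :
    ∃ φ₂ ∈ Ioo φ (π / 2), ∃ r₂ : ℝ, ∃ ψ₂ : ℂ → ℂ, Good A U t φ₂ (z 0) r₂ ψ₂ := by
  obtain ⟨C, hC⟩ : ∃ C : Set ℂ, C = {w : ℂ | ‖w‖ ≤ t ∧ t * Real.cos φ ≤ w.re} := ⟨_, rfl⟩
  have hCth : C ⊆ thickening r (Vseg t φ) := by
    rw [hC]
    exact closedSeg_sub_thick ht hφ hφ'.le hg.hr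
  have hCU : ∀ w ∈ C, ψ w ∈ U := by
    intro w hw
    rw [hC] at hw
    rcases lt_or_eq_of_le hw.1 with h3 | h3
    · rcases lt_or_eq_of_le hw.2 with h4 | h4
      · exact hg.mem w ⟨h3, h4⟩
      · exact hch w h3 h4.symm
    · obtain ⟨θ, hθ, hw'⟩ := closedSeg_norm_eq ht hφ hφ' h3 hw.2
      rw [hw', good_bdry hA hA' ht hφ hφ' hz h1 h2 hg θ hθ]
      exact hzU θ hθ
  have hCc : IsCompact C := by
    have h3 : C = closedBall (0 : ℂ) t ∩ {w : ℂ | t * Real.cos φ ≤ w.re} := by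
      rw [hC]
      ext w
      simp
    rw [h3]
    exact (isCompact_closedBall _ _).inter_right (isClosed_le continuous_const
      Complex.continuous_re)
  have hOo : IsOpen (thickening r (Vseg t φ) ∩ ψ ⁻¹' U) :=
    hg.branch.diff.continuousOn.isOpen_inter_preimage isOpen_thickening hU.opn
  obtain ⟨δ, hδ, hδO⟩ := hCc.exists_thickening_subset_open hOo fun w hw => ⟨hCth hw, hCU w hw⟩
  -- the parameter
  have hc1 : Real.cos φ < 1 := by
    have h3 := Real.cos_lt_cos_of_nonneg_of_le_pi (x := 0) (y := φ) le_rfl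
      (by linarith [Real.pi_pos]) hφ
    rwa [Real.cos_zero] at h3
  have hc0 : 0 < Real.cos φ := Real.cos_pos_of_mem_Ioo ⟨by linarith [Real.pi_pos], hφ'⟩
  obtain ⟨η, hη⟩ : ∃ η : ℝ, η = min (1 / 2) (δ / (8 * t)) := ⟨_, rfl⟩
  have hη0 : 0 < η := by
    rw [hη]
    exact lt_min (by norm_num) (by positivity)
  have hη1 : η ≤ 1 / 2 := hη ▸ min_le_left _ _
  have hη2 : η * (2 * t) < δ / 2 := by
    have h3 : η ≤ δ / (8 * t) := hη ▸ min_le_right _ _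
    have h4 : η * (2 * t) ≤ δ / (8 * t) * (2 * t) :=
      mul_le_mul_of_nonneg_right h3 (by positivity)
    have h5 : δ / (8 * t) * (2 * t) = δ / 4 := by
      field_simp
      ring
    linarith
  have hcos : ∀ᶠ x : ℝ in 𝓝[>] φ,
      Real.cos φ < (1 - η) * Real.cos x + η * ((1 + Real.cos φ) / 2) := by
    have hc : Continuous fun x : ℝ =>
        (1 - η) * Real.cos x + η * ((1 + Real.cos φ) / 2) := by fun_prop
    refine nhdsWithin_le_nhds ((hc.tendsto φ).eventually (lt_mem_nhds ?_))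
    nlinarith
  have hI : ∀ᶠ x : ℝ in 𝓝[>] φ, x ∈ Ioo φ (π / 2) := Ioo_mem_nhdsGT hφ'
  obtain ⟨φ₂, hφ₂, hφ₂I⟩ := (hcos.and hI).exists
  obtain ⟨q, hq⟩ : ∃ q : ℝ, q = t * ((1 + Real.cos φ) / 2) := ⟨_, rfl⟩
  have hq1 : q ≤ t := by
    rw [hq]
    nlinarith
  have hq0 : 0 ≤ q := by
    rw [hq]
    positivity
  have hV : Vseg t φ₂ ⊆ thickening (δ / 2) C := by
    rintro w ⟨hw1, hw2⟩
    rw [Metric.mem_thickening_iff]
    refine ⟨((1 - η : ℝ) : ℂ) * w + ((η * q : ℝ) : ℂ), ?_, ?_⟩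
    · rw [hC]
      refine ⟨?_, ?_⟩
      · refine (norm_add_le _ _).trans ?_
        rw [norm_mul, Complex.norm_real, Complex.norm_real,
          Real.norm_of_nonneg (by linarith : (0 : ℝ) ≤ 1 - η),
          Real.norm_of_nonneg (mul_nonneg hη0.le hq0)]
        have h3 : (1 - η) * ‖w‖ ≤ (1 - η) * t :=
          mul_le_mul_of_nonneg_left hw1.le (by linarith)
        have h4 : η * q ≤ η * t := mul_le_mul_of_nonneg_left hq1 hη0.le
        linarith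
      · rw [Complex.add_re, Complex.re_ofReal_mul, Complex.ofReal_re]
        have h3 : (1 - η) * (t * Real.cos φ₂) ≤ (1 - η) * w.re :=
          mul_le_mul_of_nonneg_left hw2.le (by linarith)
        have h4 := mul_lt_mul_of_pos_left hφ₂ ht
        rw [hq]
        nlinarith
    · rw [dist_eq_norm]
      have h3 : w - (((1 - η : ℝ) : ℂ) * w + ((η * q : ℝ) : ℂ)) = (η : ℂ) * (w - q) := by
        push_cast
        ring
      rw [h3, norm_mul, Complex.norm_real, Real.norm_of_nonneg hη0.le]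
      have h4 : ‖w - q‖ ≤ 2 * t := by
        refine (norm_sub_le _ _).trans ?_
        rw [Complex.norm_real, Real.norm_of_nonneg hq0]
        linarith
      exact (mul_le_mul_of_nonneg_left h4 hη0.le).trans_lt hη2
  have hV2 : thickening (δ / 2) (Vseg t φ₂) ⊆ thickening δ C := by
    intro p hp
    obtain ⟨w, hw, hpw⟩ := Metric.mem_thickening_iff.1 hp
    obtain ⟨c, hc, hwc⟩ := Metric.mem_thickening_iff.1 (hV hw)
    rw [Metric.mem_thickening_iff]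
    refine ⟨c, hc, ?_⟩
    have h3 := dist_triangle p w c
    linarith
  have hV3 : Vseg t φ₂ ⊆ thickening δ C :=
    hV.trans (Metric.thickening_mono (by linarith) _)
  refine ⟨φ₂, hφ₂I, δ / 2, ψ, by positivity, ⟨?_, ?_, ?_⟩, fun w hw => (hδO (hV3 hw)).2, hg.base⟩
  · exact hg.branch.diff.mono fun w hw => (hδO (hV2 hw)).1
  · exact fun w hw => hg.branch.mem w (hδO (hV2 hw)).1
  · exact fun w hw => hg.branch.eq w (hδO (hV2 hw)).1

end Pool.Agent.HQT
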