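import Pool.Agent.HQT.GoodA
import Pool.Agent.HQ.Strands

/-! HQT (growth exponent 3, MP_7da5c3_an), file GoodC: a good segment is not too large (section 3a) -/

set_option autoImplicit false

open Complex Metric Set Filter Topology MeasureTheory
open scoped ComplexConjugate Real

namespace Pool.Agent.HQT

open Pool.Agent.HQ

variable {A B : ℂ → ℂ}

private theorem exp_GoodC (t θ : ℝ) : (t * exp (θ * I) : ℂ).re = t * Real.cos θ ∧
    (t * exp (θ * I) : ℂ).im = t * Real.sin θ := by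
  rw [exp_mul_I]
  constructor
  · simp only [mul_re, mul_im, add_re, add_im, ofReal_re, ofReal_im, I_re, I_im,
      Complex.cos_ofReal_re, Complex.cos_ofReal_im, Complex.sin_ofReal_re, Complex.sin_ofReal_im]
    ring
  · simp only [mul_re, mul_im, add_re, add_im, ofReal_re, ofReal_im, I_re, I_im,
      Complex.cos_ofReal_re, Complex.cos_ofReal_im, Complex.sin_ofReal_re, Complex.sin_ofReal_im]
    ring

private theorem contB_GoodC (h : HPair A B) {W : Set ℂ} {ψ : ℂ → ℂ}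
    (hb : Branch A W (ball 0 1) ψ) {c : ℝ → ℂ} (hc : Continuous c) {s : Set ℝ}
    (hs : ∀ v ∈ s, c v ∈ W) : ContinuousOn (fun v : ℝ => (B (ψ (c v))).im) s := by
  have h1 : ContinuousOn (fun v : ℝ => ψ (c v)) s :=
    hb.diff.continuousOn.comp hc.continuousOn hs
  have h2 : ContinuousOn (fun v : ℝ => B (ψ (c v))) s :=
    h.diffB.continuousOn.comp h1 fun v hv => hb.mem _ (hs v hv)
  exact Complex.continuous_im.comp_continuousOn h2

/-- A POINT ON THE LEVEL OF A COMPLETE CHORD.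
`u = t cos φ₁` is the level of the chord from `z (-φ₁)` to `z φ₁`, `0 < φ₁ ≤ φ`.  If
`q ∈ ball 0 1` has `Re A q = u` and `Im B q` lies between `Im B (z (-φ₁))` and `Im B (z φ₁)`,
then `q = ψ (A q)` and `A q` is on the closed chord.
Proof. The closed chord `{u + i v : |v| ≤ t sin φ₁}` is in the closed segment of angle `φ`
(`closedSeg_sub_thick`), `v ↦ Im B (ψ (u + i v))` is continuous with end values
`Im B (z (∓ φ₁))` (`good_bdry`, `t e^{± i φ₁} = u ± i t sin φ₁`); by the intermediate value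
theorem it takes the value `Im B q` at some `v`; `shearMap A B q = shearMap A B (ψ (u + iv))`,
so `q = ψ (u + i v)` by `HPair.inj`, and `A q = u + iv`. -/
theorem chord_between (h : HPair A B) {U : Set ℂ} {t φ φ₁ r α β : ℝ}
    (ht : 0 < t) (hφ : 0 < φ) (hφ' : φ < π / 2) (h1 : 0 < φ₁) (h2 : φ₁ ≤ φ) {z : ℝ → ℂ}
    (hz : IsLift A t α β z) (h3 : α ≤ -φ) (h4 : φ ≤ β) {ψ : ℂ → ℂ}
    (hg : Good A U t φ (z 0) r ψ) {q : ℂ} (hq : q ∈ ball (0 : ℂ) 1)
    (hre : (A q).re = t * Real.cos φ₁) (hlo : (B (z (-φ₁))).im ≤ (B q).im)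
    (hhi : (B q).im ≤ (B (z φ₁)).im) :
    q = ψ (A q) ∧ ‖A q‖ ≤ t := by
  obtain ⟨m, hm⟩ : ∃ m : ℝ, m = t * Real.sin φ₁ := ⟨_, rfl⟩
  have hsin : 0 < Real.sin φ₁ := Real.sin_pos_of_pos_of_lt_pi h1 (by linarith [Real.pi_pos])
  have hm0 : 0 < m := by
    rw [hm]
    exact mul_pos ht hsin
  obtain ⟨c, hc⟩ : ∃ c : ℝ → ℂ, ∀ v, c v = ⟨t * Real.cos φ₁, v⟩ := ⟨_, fun _ => rfl⟩
  have hcre : ∀ v, (c v).re = t * Real.cos φ₁ := fun v => by rw [hc]
  have hcim : ∀ v, (c v).im = v := fun v => by rw [hc]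
  have hcc : Continuous c := by
    have : c = fun v : ℝ => ((t * Real.cos φ₁ : ℝ) : ℂ) + (v : ℂ) * I := by
      funext v
      apply Complex.ext
      · rw [hcre, add_re, ofReal_re, mul_I_re, ofReal_im, neg_zero, add_zero]
      · rw [hcim, add_im, ofReal_im, mul_I_im, ofReal_re, zero_add]
    rw [this]
    fun_prop
  have hnorm : ∀ v ∈ Icc (-m) m, ‖c v‖ ≤ t := by
    intro v hv
    have e1 : ‖c v‖ ^ 2 = (t * Real.cos φ₁) ^ 2 + v ^ 2 := by
      rw [← normSq_eq_norm_sq, normSq_apply, hcre, hcim]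
      ring
    have e2 : v ^ 2 ≤ m ^ 2 := by
      rw [sq_le_sq, abs_of_pos hm0]
      exact abs_le.2 hv
    have e3 : (t * Real.cos φ₁) ^ 2 + m ^ 2 = t ^ 2 := by
      rw [hm]
      have := Real.sin_sq_add_cos_sq φ₁
      calc (t * Real.cos φ₁) ^ 2 + (t * Real.sin φ₁) ^ 2
          = t ^ 2 * (Real.sin φ₁ ^ 2 + Real.cos φ₁ ^ 2) := by ring
        _ = t ^ 2 := by rw [this, mul_one]
    have e4 : ‖c v‖ ^ 2 ≤ t ^ 2 := by linarith
    exact (pow_le_pow_iff_left₀ (norm_nonneg _) ht.le two_ne_zero).1 e4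
  have hcos : Real.cos φ ≤ Real.cos φ₁ :=
    Real.cos_le_cos_of_nonneg_of_le_pi h1.le (by linarith [Real.pi_pos]) h2
  have hW : ∀ v ∈ Icc (-m) m, c v ∈ thickening r (Vseg t φ) := by
    intro v hv
    refine closedSeg_sub_thick ht hφ hφ'.le hg.hr ⟨hnorm v hv, ?_⟩
    rw [hcre]
    exact mul_le_mul_of_nonneg_left hcos ht.le
  have hcont := contB_GoodC h hg.branch hcc hW
  have hbd := good_bdry h.diffA (fun x hx => h.deriv_ne (ball_subset_closedBall hx)) ht hφ hφ' hz
    h3 h4 hg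
  have hexp := exp_GoodC t
  have hend1 : c (-m) = t * exp (((-φ₁ : ℝ) : ℂ) * I) := by
    apply Complex.ext
    · rw [hcre, (hexp _).1, Real.cos_neg]
    · rw [hcim, (hexp _).2, Real.sin_neg, hm]
      ring
  have hend2 : c m = t * exp ((φ₁ : ℂ) * I) := by
    apply Complex.ext
    · rw [hcre, (hexp _).1]
    · rw [hcim, (hexp _).2, hm]
  have hf1 : (B (ψ (c (-m)))).im = (B (z (-φ₁))).im := by
    rw [hend1, hbd (-φ₁) ⟨by linarith, by linarith⟩]
  have hf2 : (B (ψ (c m))).im = (B (z φ₁)).im := by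
    rw [hend2, hbd φ₁ ⟨by linarith, h2⟩]
  obtain ⟨v, hv, hvq⟩ := intermediate_value_Icc (by linarith : -m ≤ m) hcont
    (show (B q).im ∈ Icc (B (ψ (c (-m)))).im (B (ψ (c m))).im from
      ⟨by rw [hf1]; exact hlo, by rw [hf2]; exact hhi⟩)
  have hAv : A (ψ (c v)) = c v := hg.branch.eq _ (hW v hv)
  have hqe : q = ψ (c v) := by
    refine h.inj (ball_subset_closedBall hq)
      (ball_subset_closedBall (hg.branch.mem _ (hW v hv))) ?_
    unfold shearMap
    rw [hAv, hcre, hre]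
    have hvq' : (B (ψ (c v))).im = (B q).im := hvq
    rw [hvq']
  have hAq : A q = c v := by
    rw [hqe]
    exact hAv
  refine ⟨?_, ?_⟩
  · rw [hAq]
    exact hqe
  · rw [hAq]
    exact hnorm v hv

private theorem pos_GoodC {f : ℝ → ℝ} {a b : ℝ} (hab : a ≤ b) (hf : ContinuousOn f (Icc a b))
    (ha : 0 < f a) (hne : ∀ x ∈ Icc a b, f x ≠ 0) : 0 < f b := by
  by_contra hcon
  have h1 : f b < 0 := lt_of_le_of_ne (not_lt.1 hcon) (hne b ⟨hab, le_rfl⟩)
  obtain ⟨x, hx, hx0⟩ := intermediate_value_Icc' hab hf (show (0 : ℝ) ∈ Icc (f b) (f a) from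
    ⟨h1.le, ha.le⟩)
  exact hne x hx hx0

private theorem pos0_GoodC {f : ℝ → ℝ} {b : ℝ} (hb : 0 < b) (hf : ContinuousOn f (Icc 0 b))
    (h0 : ∀ᶠ ε in 𝓝[>] (0 : ℝ), 0 < f ε) (hne : ∀ x ∈ Ioc 0 b, f x ≠ 0) : 0 < f b := by
  have h1 : ∀ᶠ ε in 𝓝[>] (0 : ℝ), ε ∈ Ioc 0 b := Ioc_mem_nhdsGT hb
  obtain ⟨ε, h2, h3⟩ := (h0.and h1).exists
  exact pos_GoodC h3.2 (hf.mono fun x hx => ⟨h3.1.le.trans hx.1, hx.2⟩) h2
    fun x hx => hne x ⟨lt_of_lt_of_le h3.1 hx.1, hx.2⟩

private theorem ne_GoodC (h : HPair A B) {t α β : ℝ} {z : ℝ → ℂ} (hz : IsLift A t α β z)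
    (hinj : InjOn z (Icc α β)) {a b : ℝ} (ha : a ∈ Icc α β) (hb : b ∈ Icc α β) (hab : a ≠ b)
    (hcos : Real.cos a = Real.cos b) : (B (z a)).im ≠ (B (z b)).im := by
  intro heq
  refine hab (hinj ha hb (h.inj (ball_subset_closedBall (hz.mem a ha))
    (ball_subset_closedBall (hz.mem b hb)) ?_))
  have hexp : ∀ θ : ℝ, (t * exp (θ * I) : ℂ).re = t * Real.cos θ := fun θ => (exp_GoodC t θ).1
  unfold shearMap
  rw [hz.eq a ha, hz.eq b hb, hexp, hexp, hcos, heq]

/-- SECTION 3a.  `hβ`: the arc goes (at least) up to `2π - φ`.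
Proof. `P = z (2π - φ)`, `A P = t e^{-iφ}`, `Re A P = t cos φ`.
(i) `y (z (π + x)) < y (z (π - x))` for `0 < x ≤ π - φ` (`y = Im B`): true for small `x`
(`left_cap` with `j = 0`), the function `x ↦ y (z (π + x)) - y (z (π - x))` is continuous and
never `0` there (real parts of `A` are equal, so equality would give `z (π + x) = z (π - x)` by
`HPair.inj`, against `inj`).  With `x = π - φ`: `y P < y (z φ)`.
(ii) In the same way, by `right_cap` at `0`, `y (z (-x)) < y (z x)` for `0 < x ≤ π`; at `x = π`: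
`y (z (-π)) < y (z π)`.
(iii) `θ ↦ y (z (θ + 2π)) - y (z θ)` is continuous and never `0` on `[-π, -φ]`
(`θ + 2π ≤ 2π - φ ≤ β`) and positive at `-π`: `y (z (-φ)) < y P`.
(iv) `chord_between` with `φ₁ = φ`, `q = P`: `P = ψ (A P) = ψ (t e^{-iφ}) = z (-φ)`
(`good_bdry`), contradiction with (iii) (or injectivity). -/
theorem good_bound (h : HPair A B) {U : Set ℂ} {t φ r α β : ℝ} (ht : 0 < t)
    (hφ : 0 < φ) (hφ' : φ < π / 2) {z : ℝ → ℂ} (hz : IsLift A t α β z)
    (hinj : InjOn z (Icc α β)) (hα : α < -π) (hβ : 2 * π - φ ≤ β) {ψ : ℂ → ℂ}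
    (hg : Good A U t φ (z 0) r ψ) : False := by
  have hπ := Real.pi_pos
  obtain ⟨y, hy⟩ : ∃ y : ℝ → ℝ, ∀ θ, y θ = (B (z θ)).im := ⟨_, fun _ => rfl⟩
  have hyc : ContinuousOn y (Icc α β) := by
    have h1 : ContinuousOn (fun θ => B (z θ)) (Icc α β) :=
      h.diffB.continuousOn.comp hz.cont hz.mem
    have h2 : y = fun θ => (B (z θ)).im := funext hy
    rw [h2]
    exact Complex.continuous_im.comp_continuousOn h1
  have hne : ∀ a b : ℝ, a ∈ Icc α β → b ∈ Icc α β → a ≠ b → Real.cos a = Real.cos b →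
      y a ≠ y b := by
    intro a b ha hb hab hcos
    rw [hy, hy]
    exact ne_GoodC h hz hinj ha hb hab hcos
  -- (i)
  have s1 : y (2 * π - φ) < y φ := by
    have hcap := left_cap h ht (θ₁ := π) (j := 0) (by simp) (by linarith) (by linarith) hz
    have h1 := pos0_GoodC (f := fun x => y (π - x) - y (π + x)) (b := π - φ) (by linarith)
      (by
        refine ContinuousOn.sub ?_ ?_
        · exact hyc.comp (by fun_prop) fun x hx => ⟨by linarith [hx.2], by linarith [hx.1]⟩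
        · exact hyc.comp (by fun_prop) fun x hx => ⟨by linarith [hx.1], by linarith [hx.2]⟩)
      (by
        filter_upwards [hcap] with ε hε
        rw [hy, hy]
        exact sub_pos.2 hε)
      (fun x hx => sub_ne_zero.2 (hne _ _ ⟨by linarith [hx.2], by linarith [hx.1]⟩
        ⟨by linarith [hx.1], by linarith [hx.2]⟩ (by linarith [hx.1]) (by
          rw [Real.cos_pi_sub, add_comm, Real.cos_add_pi])))
    have h2 : 0 < y (π - (π - φ)) - y (π + (π - φ)) := h1
    rw [show π - (π - φ) = φ by ring, show π + (π - φ) = 2 * π - φ by ring] at h2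
    linarith
  -- (ii)
  have s2 : y (-π) < y π := by
    have hcap := right_cap h ht (θ₁ := 0) (j := 0) (by simp) (by linarith) (by linarith) hz
    have h1 := pos0_GoodC (f := fun x => y x - y (-x)) (b := π) hπ
      (by
        refine ContinuousOn.sub ?_ ?_
        · exact hyc.mono fun x hx => ⟨by linarith [hx.1], by linarith [hx.2]⟩
        · exact hyc.comp (by fun_prop) fun x hx => ⟨by linarith [hx.2], by linarith [hx.1]⟩)
      (by
        filter_upwards [hcap] with ε hε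
        rw [hy, hy]
        rw [zero_sub, zero_add] at hε
        exact sub_pos.2 hε)
      (fun x hx => sub_ne_zero.2 (hne _ _ ⟨by linarith [hx.1], by linarith [hx.2]⟩
        ⟨by linarith [hx.2], by linarith [hx.1]⟩ (by linarith [hx.1]) (by
          rw [Real.cos_neg])))
    have h2 : 0 < y π - y (-π) := h1
    linarith
  -- (iii)
  have s3 : y (-φ) < y (2 * π - φ) := by
    have h1 := pos_GoodC (f := fun x => y (x + 2 * π) - y x) (a := -π) (b := -φ) (by linarith)
      (by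
        refine ContinuousOn.sub ?_ ?_
        · exact hyc.comp (by fun_prop) fun x hx => ⟨by linarith [hx.1], by linarith [hx.2]⟩
        · exact hyc.mono fun x hx => ⟨by linarith [hx.1], by linarith [hx.2]⟩)
      (by
        show 0 < y (-π + 2 * π) - y (-π)
        rw [show -π + 2 * π = π by ring]
        linarith)
      (fun x hx => sub_ne_zero.2 (hne _ _ ⟨by linarith [hx.1], by linarith [hx.2]⟩
        ⟨by linarith [hx.1], by linarith [hx.2]⟩ (by linarith) (by
          rw [Real.cos_add_two_pi])))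
    have h2 : 0 < y (-φ + 2 * π) - y (-φ) := h1
    rw [show -φ + 2 * π = 2 * π - φ by ring] at h2
    linarith
  -- (iv)
  have hmem : 2 * π - φ ∈ Icc α β := ⟨by linarith, hβ⟩
  have hcos : Real.cos (2 * π - φ) = Real.cos φ := Real.cos_two_pi_sub φ
  have hsin : Real.sin (2 * π - φ) = -Real.sin φ := Real.sin_two_pi_sub φ
  have hAP : A (z (2 * π - φ)) = t * exp (((-φ : ℝ) : ℂ) * I) := by
    rw [hz.eq _ hmem, exp_mul_I, exp_mul_I, ← ofReal_cos, ← ofReal_sin, ← ofReal_cos,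
      ← ofReal_sin, hcos, hsin, Real.cos_neg, Real.sin_neg]
  have hre : (A (z (2 * π - φ))).re = t * Real.cos φ := by
    rw [hAP, (exp_GoodC t (-φ)).1, Real.cos_neg]
  obtain ⟨h5, -⟩ := chord_between h ht hφ hφ' hφ le_rfl hz (by linarith) (by linarith) hg
    (hz.mem _ hmem) hre (by
      rw [← hy, ← hy]
      exact s3.le) (by
      rw [← hy, ← hy]
      exact s1.le)
  rw [hAP, good_bdry h.diffA (fun x hx => h.deriv_ne (ball_subset_closedBall hx)) ht hφ hφ' hz
    (by linarith) (by linarith) hg (-φ) ⟨le_rfl, by linarith⟩] at h5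
  rw [hy, hy, h5] at s3
  exact lt_irrefl _ s3

end Pool.Agent.HQT
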