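import Pool.Agent.HQT.Defs

/-! HQT, file Ind: backward induction on the level (section 0). -/

set_option autoImplicit false

open Complex Metric Set Filter Topology MeasureTheory
open scoped ComplexConjugate Real

namespace Pool.Agent.HQT

open Pool.Agent.HQ

variable {A B : ℂ → ℂ}

theorem GU_mono (A : ℂ → ℂ) (U : Set ℂ) {s t : ℝ} (h : s ≤ t) : GU A U s ⊆ GU A U t :=
  connectedComponentIn_mono _ fun _ hz => ⟨hz.1, hz.2.trans_le h⟩

theorem GU_subset (A : ℂ → ℂ) (U : Set ℂ) (s : ℝ) : GU A U s ⊆ U := fun _ hz =>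
  (connectedComponentIn_subset _ _ hz).1

theorem volume_GU_le {x₁ d s : ℝ} (hd : d < π / 2) (hx : 0 ≤ x₁) :
    volume (Lmap '' GU A (Ubox x₁ d) s) ≤ ENNReal.ofReal ((x₁ + π) * π) := by
  rw [← volume_Abox hx]
  refine measure_mono ?_
  rintro _ ⟨z, hz, rfl⟩
  have h1 := GU_subset _ _ _ hz
  refine ⟨?_, ?_, ?_⟩
  · linarith [h1.2.1]
  · linarith [h1.2.2.1]
  · linarith [h1.2.2.2]

/-- Backward induction. -/
theorem ind_aux {x₁ d k t₀ R : ℝ} (hd : d < π / 2) (hx : 0 ≤ x₁) (ht₀ : 0 < t₀) (htR : t₀ < R)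
    (hk : 0 ≤ k)
    (hcl : ∀ t, t₀ < t → t ≤ R → ∃ σ ∈ Ioo 0 t,
      volume (Lmap '' GU A (Ubox x₁ d) σ) + ENNReal.ofReal (k * Real.log (t / σ)) ≤
        volume (Lmap '' GU A (Ubox x₁ d) t)) :
    k * (Real.log R - Real.log t₀) ≤ π * (x₁ + π) := by
  have hπ : 0 < π := Real.pi_pos
  have hR : 0 < R := ht₀.trans htR
  have hne : ∀ s, volume (Lmap '' GU A (Ubox x₁ d) s) ≠ ⊤ := fun s =>
    ne_top_of_le_ne_top ENNReal.ofReal_ne_top (volume_GU_le hd hx)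
  obtain ⟨m, hm⟩ : ∃ m : ℝ → ℝ, m = fun s => (volume (Lmap '' GU A (Ubox x₁ d) s)).toReal :=
    ⟨_, rfl⟩
  have hm0 : ∀ s, 0 ≤ m s := fun s => by
    rw [hm]
    exact ENNReal.toReal_nonneg
  have hmono : ∀ s t, s ≤ t → m s ≤ m t := by
    intro s t hst
    rw [hm]
    exact ENNReal.toReal_mono (hne t) (measure_mono (image_mono (GU_mono A _ hst)))
  have hmR : m R ≤ π * (x₁ + π) := by
    rw [hm, mul_comm]
    exact ENNReal.toReal_le_of_le_ofReal (by positivity) (volume_GU_le hd hx)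
  have hcl2 : ∀ t, t₀ < t → t ≤ R → ∃ σ ∈ Ioo 0 t, m σ + k * Real.log (t / σ) ≤ m t := by
    intro t h1 h2
    obtain ⟨σ, hσ, h3⟩ := hcl t h1 h2
    refine ⟨σ, hσ, ?_⟩
    have h4 := ENNReal.toReal_mono (hne t) h3
    rw [ENNReal.toReal_add (hne σ) ENNReal.ofReal_ne_top] at h4
    have h5 : k * Real.log (t / σ) ≤ (ENNReal.ofReal (k * Real.log (t / σ))).toReal := by
      rw [ENNReal.toReal_ofReal']
      exact le_max_left _ _
    have h6 : m σ + k * Real.log (t / σ) ≤ m σ +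
        (ENNReal.ofReal (k * Real.log (t / σ))).toReal := by linarith
    rw [hm] at h6 ⊢
    exact h6.trans h4
  -- the set
  let S : Set ℝ := {t | t ∈ Icc t₀ R ∧ k * (Real.log R - Real.log t) ≤ m R - m t}
  have hRS : R ∈ S := ⟨⟨htR.le, le_rfl⟩, by simp⟩
  have hbdd : BddBelow S := ⟨t₀, fun t ht => ht.1.1⟩
  obtain ⟨u, hu⟩ : ∃ u, u = sInf S := ⟨_, rfl⟩
  have hu0 : t₀ ≤ u := by
    rw [hu]
    exact le_csInf ⟨R, hRS⟩ fun t ht => ht.1.1
  have huR : u ≤ R := by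
    rw [hu]
    exact csInf_le hbdd hRS
  have hupos : 0 < u := ht₀.trans_le hu0
  have huS : k * (Real.log R - Real.log u) ≤ m R - m u := by
    by_contra hcon
    push Not at hcon
    have hc : ContinuousAt (fun t => k * (Real.log R - Real.log t)) u :=
      continuousAt_const.mul (continuousAt_const.sub (Real.continuousAt_log hupos.ne'))
    have hev : ∀ᶠ t in 𝓝 u, m R - m u < k * (Real.log R - Real.log t) :=
      continuousAt_const.eventually_lt hc hcon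
    obtain ⟨δ, hδ, hball⟩ := Metric.eventually_nhds_iff.1 hev
    have h1 : sInf S < u + δ := by
      rw [← hu]
      linarith
    obtain ⟨t, htS, htlt⟩ := exists_lt_of_csInf_lt ⟨R, hRS⟩ h1
    have hut : u ≤ t := by
      rw [hu]
      exact csInf_le hbdd htS
    have h2 : m R - m u < k * (Real.log R - Real.log t) := by
      apply hball
      rw [Real.dist_eq, abs_of_nonneg (by linarith)]
      linarith
    have h3 := htS.2
    have h4 := hmono u t hut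
    linarith
  rcases hu0.eq_or_lt with h1 | h1
  · rw [← h1] at huS
    have := hm0 t₀
    linarith
  · obtain ⟨σ, hσ, h2⟩ := hcl2 u h1 huR
    have hlog : Real.log (u / σ) = Real.log u - Real.log σ :=
      Real.log_div hupos.ne' hσ.1.ne'
    rw [hlog] at h2
    have h3 : k * (Real.log R - Real.log σ) ≤ m R - m σ := by
      have : k * (Real.log R - Real.log σ) = k * (Real.log R - Real.log u) +
        k * (Real.log u - Real.log σ) := by ring
      linarith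
    rcases lt_or_ge σ t₀ with h4 | h4
    · have h5 : Real.log σ ≤ Real.log t₀ := Real.log_le_log hσ.1 h4.le
      have h6 : k * (Real.log R - Real.log t₀) ≤ k * (Real.log R - Real.log σ) :=
        mul_le_mul_of_nonneg_left (by linarith) hk
      have := hm0 σ
      linarith
    · exfalso
      have h5 : σ ∈ S := ⟨⟨h4, hσ.2.le.trans huR⟩, h3⟩
      have h6 : u ≤ σ := by
        rw [hu]
        exact csInf_le hbdd h5
      linarith [hσ.2]

/-- The growth estimate on a positive radius from the claim. -/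
theorem radius_of_claim (h : HPair A B) (_h0 : A 0 = 0) {r₁ : ℝ} (hr₁ : r₁ ∈ Ioo (0 : ℝ) 1)
    (hcl : ∀ t d ε : ℝ, ‖deriv A 0‖ < t → t ≤ ‖A r₁‖ → 0 < d → d < π / 2 → 0 < ε →
      ∃ σ ∈ Ioo 0 t,
        volume (Lmap '' GU A (Ubox (Real.log ((1 + r₁) / (1 - r₁))) d) σ) +
          ENNReal.ofReal ((4 * d ^ 2 / (3 * π) - ε) * Real.log (t / σ)) ≤
        volume (Lmap '' GU A (Ubox (Real.log ((1 + r₁) / (1 - r₁))) d) t)) :
    ‖A r₁‖ ≤ Real.exp (3 * π) * ‖deriv A 0‖ * ((1 + r₁) / (1 - r₁)) ^ 3 := by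
  have hπ : 0 < π := Real.pi_pos
  have h1r : 0 < 1 - r₁ := by linarith [hr₁.2]
  have hq : 1 ≤ (1 + r₁) / (1 - r₁) := by
    rw [le_div_iff₀ h1r]
    linarith [hr₁.1]
  have hq0 : 0 < (1 + r₁) / (1 - r₁) := lt_of_lt_of_le one_pos hq
  have hD0 : 0 < ‖deriv A 0‖ := norm_pos_iff.2 (h.deriv_ne (mem_closedBall_self zero_le_one))
  rcases le_or_gt ‖A r₁‖ ‖deriv A 0‖ with hle | hgt
  · refine hle.trans ?_
    have h2 : 1 ≤ Real.exp (3 * π) := Real.one_le_exp (by positivity)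
    have h3 : 1 ≤ ((1 + r₁) / (1 - r₁)) ^ 3 := one_le_pow₀ hq
    calc ‖deriv A 0‖ = 1 * ‖deriv A 0‖ * 1 := by ring
      _ ≤ _ := by gcongr
  obtain ⟨x₁, hx₁⟩ : ∃ x₁, x₁ = Real.log ((1 + r₁) / (1 - r₁)) := ⟨_, rfl⟩
  rw [← hx₁] at hcl
  have hx : 0 ≤ x₁ := by
    rw [hx₁]
    exact Real.log_nonneg hq
  have hR0 : 0 < ‖A r₁‖ := hD0.trans hgt
  -- `ε → 0`
  have h1 : ∀ t₀ d : ℝ, ‖deriv A 0‖ < t₀ → t₀ < ‖A r₁‖ → d ∈ Ioo 0 (π / 2) →
      4 * d ^ 2 / (3 * π) * (Real.log ‖A r₁‖ - Real.log t₀) ≤ π * (x₁ + π) := by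
    intro t₀ d ht₀ htR hd
    have hk0 : 0 < 4 * d ^ 2 / (3 * π) := by
      have := hd.1
      positivity
    have ht : Tendsto (fun ε : ℝ => (4 * d ^ 2 / (3 * π) - ε) * (Real.log ‖A r₁‖ - Real.log t₀))
        (𝓝[>] 0) (𝓝 ((4 * d ^ 2 / (3 * π) - 0) * (Real.log ‖A r₁‖ - Real.log t₀))) := by
      have hc : Continuous fun ε : ℝ => (4 * d ^ 2 / (3 * π) - ε) *
          (Real.log ‖A r₁‖ - Real.log t₀) := by
        fun_prop
      exact (hc.tendsto _).mono_left nhdsWithin_le_nhds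
    rw [sub_zero] at ht
    refine le_of_tendsto ht ?_
    have hev : ∀ᶠ ε in 𝓝[>] (0 : ℝ), ε ∈ Ioo 0 (4 * d ^ 2 / (3 * π)) := Ioo_mem_nhdsGT hk0
    filter_upwards [hev] with ε hε
    exact ind_aux hd.2 hx (hD0.trans ht₀) htR (by linarith [hε.2])
      fun t h5 h6 => hcl t d ε (ht₀.trans h5) h6 hd.1 hd.2 hε.1
  -- let `d → π / 2`
  have h2 : ∀ t₀ : ℝ, ‖deriv A 0‖ < t₀ → t₀ < ‖A r₁‖ →
      4 * (π / 2) ^ 2 / (3 * π) * (Real.log ‖A r₁‖ - Real.log t₀) ≤ π * (x₁ + π) := by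
    intro t₀ ht₀ htR
    have ht : Tendsto (fun d : ℝ => 4 * d ^ 2 / (3 * π) * (Real.log ‖A r₁‖ - Real.log t₀))
        (𝓝[<] (π / 2)) (𝓝 (4 * (π / 2) ^ 2 / (3 * π) * (Real.log ‖A r₁‖ - Real.log t₀))) := by
      have hc : Continuous fun d : ℝ => 4 * d ^ 2 / (3 * π) *
          (Real.log ‖A r₁‖ - Real.log t₀) := by
        fun_prop
      exact (hc.tendsto _).mono_left nhdsWithin_le_nhds
    refine le_of_tendsto ht ?_
    have hev : ∀ᶠ d in 𝓝[<] (π / 2), d ∈ Ioo 0 (π / 2) := Ioo_mem_nhdsLT (by positivity)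
    filter_upwards [hev] with d hd
    exact h1 t₀ d ht₀ htR hd
  -- let `t₀ → ‖A' 0‖`
  have h3 : 4 * (π / 2) ^ 2 / (3 * π) * (Real.log ‖A r₁‖ - Real.log ‖deriv A 0‖) ≤
      π * (x₁ + π) := by
    have ht : Tendsto (fun t : ℝ => 4 * (π / 2) ^ 2 / (3 * π) * (Real.log ‖A r₁‖ - Real.log t))
        (𝓝[>] ‖deriv A 0‖)
        (𝓝 (4 * (π / 2) ^ 2 / (3 * π) * (Real.log ‖A r₁‖ - Real.log ‖deriv A 0‖))) := by
      have hc : ContinuousAt
          (fun t : ℝ => 4 * (π / 2) ^ 2 / (3 * π) * (Real.log ‖A r₁‖ - Real.log t))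
          ‖deriv A 0‖ :=
        continuousAt_const.mul (continuousAt_const.sub (Real.continuousAt_log hD0.ne'))
      exact hc.tendsto.mono_left nhdsWithin_le_nhds
    refine le_of_tendsto ht ?_
    have hev : ∀ᶠ t in 𝓝[>] ‖deriv A 0‖, t ∈ Ioo ‖deriv A 0‖ ‖A r₁‖ := Ioo_mem_nhdsGT hgt
    filter_upwards [hev] with t ht'
    exact h2 t ht'.1 ht'.2
  have h4 : Real.log ‖A r₁‖ - Real.log ‖deriv A 0‖ ≤ 3 * (x₁ + π) := by
    have h5 : 4 * (π / 2) ^ 2 / (3 * π) = π / 3 := by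
      field_simp
      ring
    rw [h5] at h3
    have h6 : π * ((Real.log ‖A r₁‖ - Real.log ‖deriv A 0‖) / 3) ≤ π * (x₁ + π) := by linarith
    have h7 := le_of_mul_le_mul_left h6 hπ
    linarith
  have h5 : ‖A r₁‖ = Real.exp (Real.log ‖A r₁‖) := (Real.exp_log hR0).symm
  have h6 : Real.exp (3 * x₁) = ((1 + r₁) / (1 - r₁)) ^ 3 := by
    rw [hx₁]
    have h7 := Real.exp_nat_mul (Real.log ((1 + r₁) / (1 - r₁))) 3
    rw [Real.exp_log hq0] at h7
    rw [← h7]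
    norm_num
  calc ‖A r₁‖ = Real.exp (Real.log ‖A r₁‖) := h5
    _ ≤ Real.exp (3 * π + Real.log ‖deriv A 0‖ + 3 * x₁) := Real.exp_le_exp.2 (by linarith)
    _ = Real.exp (3 * π) * ‖deriv A 0‖ * ((1 + r₁) / (1 - r₁)) ^ 3 := by
      rw [Real.exp_add, Real.exp_add, Real.exp_log hD0, h6]

end Pool.Agent.HQT
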