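import Pool.Agent.HQT.AreaS
import Pool.Agent.HQT.Ind

/-! HQT, file GoodJoin: the inner side of the first hitting arc is in `GU A U t`. -/

set_option autoImplicit false

open Complex Metric Set Filter Topology MeasureTheory
open scoped ComplexConjugate Real

namespace Pool.Agent.HQT

open Pool.Agent.HQ

variable {A B : ℂ → ℂ}

/-- The local inverse at a point of an open set, with values in the set. -/
theorem loc_branch (hA : DifferentiableOn ℂ A (ball 0 1))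
    (hA' : ∀ z ∈ ball (0 : ℂ) 1, deriv A z ≠ 0) {U : Set ℂ} (hU : IsOpen U)
    (hUD : U ⊆ ball 0 1) {z : ℂ} (hz : z ∈ U) :
    ∃ R > 0, ∃ χ : ℂ → ℂ, ContinuousOn χ (ball (A z) R) ∧
      (∀ w ∈ ball (A z) R, χ w ∈ U ∧ A (χ w) = w) ∧
      (∀ᶠ z' in 𝓝 z, z' ∈ U ∧ A z' ∈ ball (A z) R ∧ χ (A z') = z') := by
  obtain ⟨δ, hδ, R, hR, h1, h2⟩ := exists_locInv hA hA' (K := {z}) isCompact_singleton
    (singleton_subset_iff.2 (hUD hz))
  obtain ⟨hb, hinj⟩ := h1 z rfl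
  obtain ⟨χ, hχ, hχz, hχw⟩ := h2 z rfl
  have hc : ContinuousAt χ (A z) :=
    hχ.continuousOn.continuousAt (isOpen_ball.mem_nhds (mem_ball_self hR))
  have hev : ∀ᶠ w in 𝓝 (A z), χ w ∈ U := by
    have h3 : U ∈ 𝓝 (χ (A z)) := by
      rw [hχz]
      exact hU.mem_nhds hz
    exact hc.eventually h3
  obtain ⟨R', hR', hball⟩ := Metric.eventually_nhds_iff_ball.1 hev
  refine ⟨min R R', lt_min hR hR', χ,
    hχ.continuousOn.mono (ball_subset_ball (min_le_left _ _)), ?_, ?_⟩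
  · intro w hw
    exact ⟨hball w (ball_subset_ball (min_le_right _ _) hw),
      (hχw w (ball_subset_ball (min_le_left _ _) hw)).2⟩
  · have hAc : ContinuousAt A z :=
      hA.continuousOn.continuousAt (isOpen_ball.mem_nhds (hUD hz))
    have h3 : ∀ᶠ z' in 𝓝 z, A z' ∈ ball (A z) (min R R') :=
      hAc.eventually (isOpen_ball.mem_nhds (mem_ball_self (lt_min hR hR')))
    filter_upwards [hU.mem_nhds hz, h3, isOpen_ball.mem_nhds (mem_ball_self hδ)] with z' h4 h5 h6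
    have h7 := hχw (A z') (ball_subset_ball (min_le_left _ _) h5)
    exact ⟨h4, h5, hinj h7.1 h6 h7.2⟩

/-- The inner side of the first hitting arc at the first hitting point is in `GU A U t`. -/
theorem inner_mem_GU {U : Set ℂ} {t α β θ₀ r₀ : ℝ} {z : ℝ → ℂ}
    (ha : Arc A B U t α β θ₀ r₀ z) :
    ∀ᶠ q in 𝓝 (r₀ : ℂ), ‖A q‖ < t → q ∈ GU A U t := by
  have hA := ha.pair.diffA
  have hA' : ∀ z ∈ ball (0 : ℂ) 1, deriv A z ≠ 0 := fun z hz =>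
    ha.pair.deriv_ne (ball_subset_closedBall hz)
  have hr0 : 0 < r₀ := ha.hr₀.1
  have hrU : (r₀ : ℂ) ∈ U := ha.hX r₀ ⟨hr0.le, le_rfl⟩
  have hUD : U ⊆ ball 0 1 := subset_closure.trans ha.dom.sub
  obtain ⟨R, hR, χ, hχc, hχ, hev⟩ := loc_branch hA hA' ha.dom.opn hUD hrU
  -- the lens
  have hconv : Convex ℝ (ball (A r₀) R ∩ ball (0 : ℂ) t) :=
    (convex_ball _ _).inter (convex_ball _ _)
  have hpre : IsPreconnected (χ '' (ball (A r₀) R ∩ ball (0 : ℂ) t)) :=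
    hconv.isPreconnected.image _ (hχc.mono inter_subset_left)
  -- the radius
  have hrad : IsPreconnected ((fun x : ℝ => (x : ℂ)) '' Ico 0 r₀) :=
    isPreconnected_Ico.image _ Complex.continuous_ofReal.continuousOn
  -- a common point
  have hofr : Tendsto (fun x : ℝ => (x : ℂ)) (𝓝[<] r₀) (𝓝 (r₀ : ℂ)) :=
    (Complex.continuous_ofReal.tendsto r₀).mono_left nhdsWithin_le_nhds
  have hev2 : ∀ᶠ x : ℝ in 𝓝[<] r₀, (x : ℂ) ∈ U ∧ A x ∈ ball (A r₀) R ∧ χ (A x) = x :=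
    hofr.eventually hev
  have hev3 : ∀ᶠ x : ℝ in 𝓝[<] r₀, x ∈ Ioo 0 r₀ := Ioo_mem_nhdsLT hr0
  obtain ⟨x, ⟨hx1, hx2, hx3⟩, hx4⟩ := (hev2.and hev3).exists
  have hxm1 : (x : ℂ) ∈ χ '' (ball (A r₀) R ∩ ball (0 : ℂ) t) := by
    refine ⟨A x, ⟨hx2, ?_⟩, hx3⟩
    rw [mem_ball_zero_iff]
    exact ha.hfirst x ⟨hx4.1.le, hx4.2⟩
  have hxm2 : (x : ℂ) ∈ (fun x : ℝ => (x : ℂ)) '' Ico 0 r₀ := ⟨x, ⟨hx4.1.le, hx4.2⟩, rfl⟩
  have hun := IsPreconnected.union (x : ℂ) hxm1 hxm2 hpre hrad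
  have h0 : (0 : ℂ) ∈ χ '' (ball (A r₀) R ∩ ball (0 : ℂ) t) ∪ (fun x : ℝ => (x : ℂ)) '' Ico 0 r₀ :=
    Or.inr ⟨0, ⟨le_rfl, hr0⟩, Complex.ofReal_zero⟩
  have hsub : χ '' (ball (A r₀) R ∩ ball (0 : ℂ) t) ∪ (fun x : ℝ => (x : ℂ)) '' Ico 0 r₀ ⊆
      {z | z ∈ U ∧ ‖A z‖ < t} := by
    rintro q (⟨w, hw, rfl⟩ | ⟨y, hy, rfl⟩)
    · obtain ⟨h1, h2⟩ := hχ w hw.1
      refine ⟨h1, ?_⟩
      rw [h2]
      exact mem_ball_zero_iff.1 hw.2
    · exact ⟨ha.hX y ⟨hy.1, hy.2.le⟩, ha.hfirst y hy⟩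
  have hall := hun.subset_connectedComponentIn h0 hsub
  filter_upwards [hev] with q hq hqt
  apply hall
  refine Or.inl ⟨A q, ⟨hq.2.1, ?_⟩, hq.2.2⟩
  rw [mem_ball_zero_iff]
  exact hqt

/-- A rectangle in `GU`. -/
theorem rect_sub_GU {U : Set ℂ} {t α β θ₀ r₀ : ℝ} {z : ℝ → ℂ}
    (ha : Arc A B U t α β θ₀ r₀ z) {σ₀ α' β' : ℝ} (hσ₀ : 0 < σ₀) (h1 : α' < θ₀) (h2 : θ₀ < β')
    {Z : ℂ → ℂ} (hZc : ContinuousOn Z (rectNhd σ₀ α' β')) (hZ0 : Z (θ₀ * I) = r₀)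
    (hZ : ∀ ω ∈ rectNhd σ₀ α' β', Z ω ∈ U ∧ A (Z ω) = t * exp ω) {h : ℝ} (hh : 0 < h)
    (hhσ : h < σ₀) :
    Z '' {ω | -h < ω.re ∧ ω.re < 0 ∧ α' < ω.im ∧ ω.im < β'} ⊆ GU A U t := by
  have ht0 : 0 < t := (norm_nonneg _).trans_lt ha.ht
  have hsub : {ω : ℂ | -h < ω.re ∧ ω.re < 0 ∧ α' < ω.im ∧ ω.im < β'} ⊆ rectNhd σ₀ α' β' := by
    rintro ω ⟨a, b, c, d⟩
    refine ⟨?_, by linarith, by linarith⟩
    rw [abs_of_neg b]
    linarith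
  have hconv : Convex ℝ {ω : ℂ | -h < ω.re ∧ ω.re < 0 ∧ α' < ω.im ∧ ω.im < β'} := by
    have e : {ω : ℂ | -h < ω.re ∧ ω.re < 0 ∧ α' < ω.im ∧ ω.im < β'} =
        (Complex.reLm ⁻¹' Ioo (-h) 0) ∩ (Complex.imLm ⁻¹' Ioo α' β') := by
      ext ω
      simp only [mem_ofPred_eq, mem_inter_iff, mem_preimage, mem_Ioo,
        Complex.reLm_coe, Complex.imLm_coe]
      tauto
    rw [e]
    exact ((convex_Ioo _ _).linear_preimage _).inter ((convex_Ioo _ _).linear_preimage _)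
  have hpre : IsPreconnected (Z '' {ω : ℂ | -h < ω.re ∧ ω.re < 0 ∧ α' < ω.im ∧ ω.im < β'}) :=
    hconv.isPreconnected.image _ (hZc.mono hsub)
  have hnorm : ∀ ω ∈ {ω : ℂ | -h < ω.re ∧ ω.re < 0 ∧ α' < ω.im ∧ ω.im < β'},
      Z ω ∈ U ∧ ‖A (Z ω)‖ < t := by
    intro ω hω
    obtain ⟨h3, h4⟩ := hZ ω (hsub hω)
    refine ⟨h3, ?_⟩
    rw [h4, norm_mul, Complex.norm_real, Complex.norm_exp, Real.norm_of_nonneg ht0.le]
    have h5 : Real.exp ω.re < 1 := by rw [Real.exp_lt_one_iff]; exact hω.2.1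
    nlinarith
  -- a point of the rectangle near `r₀`
  have hmem0 : (θ₀ * I : ℂ) ∈ rectNhd σ₀ α' β' := by
    refine ⟨?_, ?_, ?_⟩
    · simpa using hσ₀
    · simp
      linarith
    · simp
      linarith
  have hopen : IsOpen (rectNhd σ₀ α' β') :=
    (isOpen_lt continuous_re.abs continuous_const).inter
      ((isOpen_lt continuous_const continuous_im).inter
        (isOpen_lt continuous_im continuous_const))
  have hcont : ContinuousAt Z (θ₀ * I) := hZc.continuousAt (hopen.mem_nhds hmem0)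
  have hT : Tendsto (fun s : ℝ => Z (-(s : ℂ) + θ₀ * I)) (𝓝[>] 0) (𝓝 (r₀ : ℂ)) := by
    have h3 : Tendsto (fun s : ℝ => (-(s : ℂ) + θ₀ * I)) (𝓝[>] 0) (𝓝 (θ₀ * I : ℂ)) := by
      have h4 : Continuous fun s : ℝ => (-(s : ℂ) + θ₀ * I) := by fun_prop
      have h5 := h4.tendsto 0
      simp only [Complex.ofReal_zero, neg_zero, zero_add] at h5
      exact h5.mono_left nhdsWithin_le_nhds
    have h6 := hcont.tendsto.comp h3
    rw [hZ0] at h6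
    exact h6
  have hev1 := hT.eventually (inner_mem_GU ha)
  have hev2 : ∀ᶠ s : ℝ in 𝓝[>] 0, s ∈ Ioo 0 h := Ioo_mem_nhdsGT hh
  obtain ⟨s, hs1, hs2⟩ := (hev1.and hev2).exists
  have hsm : (-(s : ℂ) + θ₀ * I) ∈ {ω : ℂ | -h < ω.re ∧ ω.re < 0 ∧ α' < ω.im ∧ ω.im < β'} := by
    refine ⟨?_, ?_, ?_, ?_⟩
    · simp
      exact hs2.2
    · simp
      exact hs2.1
    · simp
      exact h1
    · simp
      exact h2
  have hin := hs1 (hnorm _ hsm).2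
  unfold GU at hin ⊢
  rw [connectedComponentIn_eq hin]
  refine hpre.subset_connectedComponentIn ⟨_, hsm, rfl⟩ ?_
  rintro _ ⟨ω, hω, rfl⟩
  exact hnorm ω hω

/-- `Lmap r₀` is in `[0, x₁]`. -/
theorem Lmap_mem {x₁ r₁ r₀ : ℝ} (hr₁ : r₁ < 1) (hr₀ : 0 ≤ r₀) (hle : r₀ ≤ r₁)
    (hx₁ : x₁ = Real.log ((1 + r₁) / (1 - r₁))) :
    ∃ x ∈ Icc 0 x₁, Lmap (r₀ : ℂ) = (x : ℂ) := by
  have h1 : 0 < 1 - r₁ := by linarith
  have h2 : 0 < 1 - r₀ := by linarith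
  refine ⟨Real.log ((1 + r₀) / (1 - r₀)), ⟨?_, ?_⟩, Lmap_ofReal (by linarith) (by linarith)⟩
  · apply Real.log_nonneg
    rw [le_div_iff₀ h2]
    linarith
  · rw [hx₁]
    apply Real.log_le_log (div_pos (by linarith) h2)
    rw [div_le_div_iff₀ h2 h1]
    nlinarith

end Pool.Agent.HQT
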