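import Pool.Agent.HQT.StripG
import Pool.Agent.HQT.VolBox

/-! HQT (growth exponent 3, MP_7da5c3_an), file GoodStep: the good levels (section 1) -/

set_option autoImplicit false

open Complex Metric Set Filter Topology MeasureTheory
open scoped ComplexConjugate Real

namespace Pool.Agent.HQT

open Pool.Agent.HQ

variable {A B : ℂ → ℂ}

private theorem gs_mem_GU {U : Set ℂ} {s : ℝ} {z : ℂ} (hz : z ∈ GU A U s) : z ∈ U ∧ ‖A z‖ < s := by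
  have h : z ∈ {z | z ∈ U ∧ ‖A z‖ < s} := connectedComponentIn_subset _ _ hz
  exact h

/-- the strip below the arc lies in the component of the origin -/
private theorem gs_sub {U : Set ℂ} {t r₀ σ η α β θ₀ : ℝ} {Z : ℂ → ℂ}
    (hA : DifferentiableOn ℂ A (ball 0 1)) (hA' : ∀ z ∈ ball (0 : ℂ) 1, deriv A z ≠ 0)
    (hU : IsOpen U) (hUb : U ⊆ ball 0 1)
    (hr₀ : r₀ ∈ Ioo (0 : ℝ) 1) (ht : 0 < t) (hη : 0 < η) (hησ : η < σ)
    (hX : ∀ x ∈ Icc (0 : ℝ) r₀, (x : ℂ) ∈ U)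
    (hfirst : ∀ r ∈ Ico (0 : ℝ) r₀, ‖A r‖ < t) (hZ : ContinuousOn Z (rectNhd σ α β))
    (hZA : ∀ ω ∈ rectNhd σ α β, Z ω ∈ U ∧ A (Z ω) = t * exp ω)
    (hα : α < θ₀) (hβ : θ₀ < β) (hZ0 : Z (θ₀ * I) = r₀) :
    Z '' {ω | -η < ω.re ∧ ω.re < 0 ∧ α < ω.im ∧ ω.im < β} ⊆ GU A U t := by
  have hσ : 0 < σ := hη.trans hησ
  set S : Set ℂ := {ω | -η < ω.re ∧ ω.re < 0 ∧ α < ω.im ∧ ω.im < β} with hS
  have hsub : S ⊆ rectNhd σ α β := by
    rintro ω ⟨h1, h2, h3, h4⟩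
    refine ⟨?_, by linarith, by linarith⟩
    rw [abs_of_neg h2]
    linarith
  have hconv : Convex ℝ S := by
    have e : S = (Complex.reLm ⁻¹' Ioo (-η) 0) ∩ (Complex.imLm ⁻¹' Ioo α β) := by
      ext ω
      simp only [hS, mem_ofPred_eq, mem_inter_iff, mem_preimage, mem_Ioo,
        Complex.reLm_coe, Complex.imLm_coe]
      tauto
    rw [e]
    exact ((convex_Ioo (-η) 0).linear_preimage _).inter ((convex_Ioo α β).linear_preimage _)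
  have hp1 : IsPreconnected (Z '' S) := hconv.isPreconnected.image _ (hZ.mono hsub)
  have hr₀U : (r₀ : ℂ) ∈ U := hX r₀ ⟨hr₀.1.le, le_rfl⟩
  have hr₀b : (r₀ : ℂ) ∈ ball (0 : ℂ) 1 := hUb hr₀U
  obtain ⟨δ, hδ, R, hR, hinj, hex⟩ := exists_locInv hA hA' (isCompact_singleton (x := (r₀ : ℂ)))
    (singleton_subset_iff.2 hr₀b)
  obtain ⟨hδb, hδi⟩ := hinj r₀ rfl
  obtain ⟨ψ, hψd, hψ0, hψ⟩ := hex r₀ rfl
  -- shrink
  have hψc : ContinuousAt ψ (A r₀) :=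
    (hψd.continuousOn).continuousAt (isOpen_ball.mem_nhds (mem_ball_self hR))
  have hevU : ∀ᶠ w in 𝓝 (A r₀), ψ w ∈ U := hψc (hU.mem_nhds (by rw [hψ0]; exact hr₀U))
  obtain ⟨R₁, hR₁, hR₁U⟩ := Metric.eventually_nhds_iff_ball.1 hevU
  set R' : ℝ := min R R₁ with hR'
  have hR'p : 0 < R' := lt_min hR hR₁
  set T : Set ℂ := ψ '' (ball (A r₀) R' ∩ ball 0 t) with hT
  have hsubR : ball (A r₀) R' ⊆ ball (A r₀) R := ball_subset_ball (min_le_left _ _)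
  have hp2 : IsPreconnected T :=
    ((convex_ball _ _).inter (convex_ball _ _)).isPreconnected.image _
      (hψd.continuousOn.mono (inter_subset_left.trans hsubR))
  have hmemT : ∀ y ∈ ball (r₀ : ℂ) δ, A y ∈ ball (A r₀) R' → ‖A y‖ < t → y ∈ T := by
    intro y hy hyA hyt
    refine ⟨A y, ⟨hyA, mem_ball_zero_iff.2 hyt⟩, ?_⟩
    have h1 := hψ (A y) (hsubR hyA)
    exact hδi h1.1 hy h1.2
  -- the real point
  have hAc : ContinuousAt A (r₀ : ℂ) := hA.continuousOn.continuousAt (isOpen_ball.mem_nhds hr₀b)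
  have hreal : ∃ x ∈ Ioo (0 : ℝ) r₀, (x : ℂ) ∈ T := by
    have h1 : Tendsto (fun x : ℝ => (x : ℂ)) (𝓝[<] r₀) (𝓝 (r₀ : ℂ)) :=
      (Complex.continuous_ofReal.tendsto r₀).mono_left nhdsWithin_le_nhds
    have h2 : ∀ᶠ x : ℝ in 𝓝[<] r₀, (x : ℂ) ∈ ball (r₀ : ℂ) δ := h1 (ball_mem_nhds _ hδ)
    have h3 : ∀ᶠ x : ℝ in 𝓝[<] r₀, A (x : ℂ) ∈ ball (A r₀) R' :=
      (hAc.tendsto.comp h1) (ball_mem_nhds _ hR'p)
    have h4 : ∀ᶠ x : ℝ in 𝓝[<] r₀, x ∈ Ioo (0 : ℝ) r₀ := Ioo_mem_nhdsLT hr₀.1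
    obtain ⟨x, hx1, hx2, hx3⟩ := (h2.and (h3.and h4)).exists
    exact ⟨x, hx3, hmemT x hx1 hx2 (hfirst x ⟨hx3.1.le, hx3.2⟩)⟩
  obtain ⟨x, hx, hxT⟩ := hreal
  -- the strip point
  have hstrip : ∃ y ∈ Z '' S, y ∈ T := by
    have hcur : Continuous (fun s : ℝ => (-(s : ℂ) + θ₀ * I)) := by fun_prop
    have hre : ∀ s : ℝ, (-(s : ℂ) + θ₀ * I).re = -s := by
      intro s
      simp
    have him : ∀ s : ℝ, (-(s : ℂ) + θ₀ * I).im = θ₀ := by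
      intro s
      simp
    have hmaps : MapsTo (fun s : ℝ => (-(s : ℂ) + θ₀ * I)) (Ico 0 η) (rectNhd σ α β) := by
      intro s hs
      refine ⟨?_, ?_, ?_⟩
      · rw [hre, abs_neg, abs_of_nonneg hs.1]
        linarith [hs.2]
      · rw [him]; linarith
      · rw [him]; linarith
    have hc : ContinuousOn (fun s : ℝ => Z (-(s : ℂ) + θ₀ * I)) (Ico 0 η) :=
      hZ.comp hcur.continuousOn hmaps
    have h0 : Z (-((0 : ℝ) : ℂ) + θ₀ * I) = r₀ := by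
      rw [ofReal_zero, neg_zero, zero_add, hZ0]
    have hc0 : Tendsto (fun s : ℝ => Z (-(s : ℂ) + θ₀ * I)) (𝓝[Ioo 0 η] 0) (𝓝 (r₀ : ℂ)) := by
      have := (hc 0 ⟨le_rfl, hη⟩).mono Ioo_subset_Ico_self
      rw [ContinuousWithinAt, h0] at this
      exact this
    have hne : NeBot (𝓝[Ioo 0 η] (0 : ℝ)) := left_nhdsWithin_Ioo_neBot hη
    have h2 : ∀ᶠ s : ℝ in 𝓝[Ioo 0 η] 0, Z (-(s : ℂ) + θ₀ * I) ∈ ball (r₀ : ℂ) δ :=
      hc0 (ball_mem_nhds _ hδ)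
    have h3 : ∀ᶠ s : ℝ in 𝓝[Ioo 0 η] 0, A (Z (-(s : ℂ) + θ₀ * I)) ∈ ball (A r₀) R' :=
      (hAc.tendsto.comp hc0) (ball_mem_nhds _ hR'p)
    have h4 : ∀ᶠ s : ℝ in 𝓝[Ioo 0 η] 0, s ∈ Ioo 0 η := self_mem_nhdsWithin
    obtain ⟨s, hs1, hs2, hs3⟩ := (h2.and (h3.and h4)).exists
    have hsS : (-(s : ℂ) + θ₀ * I) ∈ S := by
      refine ⟨?_, ?_, ?_, ?_⟩
      · rw [hre]; linarith [hs3.2]
      · rw [hre]; linarith [hs3.1]
      · rw [him]; exact hα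
      · rw [him]; exact hβ
    refine ⟨_, ⟨_, hsS, rfl⟩, hmemT _ hs1 hs2 ?_⟩
    rw [(hZA _ (hsub hsS)).2, norm_mul, Complex.norm_real, Complex.norm_exp, Real.norm_eq_abs,
      abs_of_pos ht, hre]
    have : Real.exp (-s) < 1 := Real.exp_lt_one_iff.2 (by linarith [hs3.1])
    nlinarith
  obtain ⟨y, hyS, hyT⟩ := hstrip
  have hp3 : IsPreconnected ((fun r : ℝ => (r : ℂ)) '' Icc 0 x) :=
    isPreconnected_Icc.image _ Complex.continuous_ofReal.continuousOn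
  have hxI : (x : ℂ) ∈ (fun r : ℝ => (r : ℂ)) '' Icc 0 x := ⟨x, ⟨hx.1.le, le_rfl⟩, rfl⟩
  have hp12 := IsPreconnected.union y hyS hyT hp1 hp2
  have hp := IsPreconnected.union (x : ℂ) (Or.inr hxT) hxI hp12 hp3
  have hF : Z '' S ∪ T ∪ (fun r : ℝ => (r : ℂ)) '' Icc 0 x ⊆ {z | z ∈ U ∧ ‖A z‖ < t} := by
    rintro z ((⟨ω, hω, rfl⟩ | ⟨w, hw, rfl⟩) | ⟨r, hr, rfl⟩)
    · obtain ⟨h2, h3⟩ := hZA ω (hsub hω)
      refine ⟨h2, ?_⟩
      rw [h3, norm_mul, Complex.norm_real, Complex.norm_exp, Real.norm_eq_abs, abs_of_pos ht]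
      have : Real.exp ω.re < 1 := Real.exp_lt_one_iff.2 hω.2.1
      nlinarith
    · refine ⟨hR₁U w (ball_subset_ball (min_le_right _ _) hw.1), ?_⟩
      rw [(hψ w (hsubR hw.1)).2]
      exact mem_ball_zero_iff.1 hw.2
    · exact ⟨hX r ⟨hr.1, hr.2.trans hx.2.le⟩, hfirst r ⟨hr.1, hr.2.trans_lt hx.2⟩⟩
  have h0 : (0 : ℂ) ∈ Z '' S ∪ T ∪ (fun r : ℝ => (r : ℂ)) '' Icc 0 x :=
    Or.inr ⟨0, ⟨le_rfl, hx.1.le⟩, Complex.ofReal_zero⟩
  exact (subset_union_left.trans subset_union_left).trans (hp.subset_connectedComponentIn h0 hF)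

/-- GOOD LEVELS.
Proof. `U = Ubox x₁ d`, `Lmap r₀` is real in `[0, x₁]` (`real_mem_Ubox`).  `z α, z β` are in
`closure U \ U`, so `‖Lmap (z α) - Lmap r₀‖ ≥ d`, the same for `β` (`dist_exit`).  By continuity
choose `α' ∈ (α, θ₀)`, `β' ∈ (θ₀, β)` with `‖Lmap (z α') - Lmap r₀‖ ≥ d - τ`,
`‖Lmap (z β') - Lmap r₀‖ ≥ d - τ`, `τ < d` small.  `strip_gen` with `V = U`, `e₀ = 0`, `ρ = t`, the
arc `z` on `[α', β']`, `θ₀`, and a small `ε'`: for `0 < η < σ` the open set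
`S = Z '' {-η < Re < 0, α' < Im < β'}` has
`volume (Lmap '' S) ≥ ofReal (η ((2d - 2τ)²/(β' - α') - ε'))`, and
`(2d - 2τ)²/(β' - α') ≥ (2d - 2τ)²/(3π) ≥ 4d²/(3π) - 8 d τ/(3π)`.
Put `σ' = t e^{-η}`.  `S ⊆ GU A U t`: `S` is connected, in `U`, `t e^{-η} < ‖A‖ < t` on it.  Take the
local inverse `χ` of `A` at `r₀` on `ball (A r₀) R` with values in `U` (`exists_locInv`); the
set `χ '' (ball (A r₀) R ∩ ball 0 t)` is connected, in `{q ∈ U : ‖A q‖ < t}`, contains `x` for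
`x < r₀` close to `r₀` and `Z (-η' + θ₀ I)` for small `η' > 0`; `[0, x] ⊆ {q ∈ U : ‖A q‖ < t}`.  So
everything is in the component of `0`.  `S` is disjoint from `GU A U σ'` (`‖A‖ < σ'` there), so
the volumes add (`Lmap` injective, images open/measurable), `log (t / σ') = η`. -/
theorem good_step {x₁ d : ℝ} (hd0 : 0 < d) (hd : d < π / 2)
    {t α β θ₀ r₀ : ℝ} {z : ℝ → ℂ} (ha : Arc A B (Ubox x₁ d) t α β θ₀ r₀ z)
    (hr : Real.log ((1 + r₀) / (1 - r₀)) ≤ x₁) (hlen : β - α ≤ 3 * π) {ε : ℝ}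
    (hε : 0 < ε) :
    ∃ σ ∈ Ioo (0 : ℝ) t, volume (Lmap '' GU A (Ubox x₁ d) σ) +
      ENNReal.ofReal ((4 * d ^ 2 / (3 * π) - ε) * Real.log (t / σ)) ≤
        volume (Lmap '' GU A (Ubox x₁ d) t) := by
  classical
  have hpi := Real.pi_pos
  have htp : 0 < t := (norm_nonneg _).trans_lt ha.ht
  have hA := ha.pair.diffA
  have hA' : ∀ z ∈ ball (0 : ℂ) 1, deriv A z ≠ 0 := fun z hz =>
    ha.pair.deriv_ne (ball_subset_closedBall hz)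
  set U : Set ℂ := Ubox x₁ d with hUdef
  have hUo : IsOpen U := isOpen_Ubox x₁ d
  have hUb : U ⊆ ball 0 1 := subset_closure.trans ha.dom.sub
  obtain ⟨-, x', hx', hLx'⟩ := real_mem_Ubox hd0 ha.hr₀.2 hr ⟨ha.hr₀.1.le, le_rfl⟩
  have hαβ : α < β := ha.lo.trans ha.hi
  have hcl : ∀ θ ∈ Icc α β, z θ ∈ closure U := by
    intro θ hθ
    have h1 : ContinuousOn z (closure (Ioo α β)) := by
      rw [closure_Ioo hαβ.ne]
      exact ha.lift.cont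
    have h2 : z θ ∈ z '' closure (Ioo α β) := by
      rw [closure_Ioo hαβ.ne]
      exact ⟨θ, hθ, rfl⟩
    refine closure_mono ?_ (h1.image_closure h2)
    rintro _ ⟨θ', hθ', rfl⟩
    exact ha.mem θ' hθ'
  have hdα : d ≤ ‖Lmap (z α) - Lmap (z θ₀)‖ := by
    rw [ha.zθ, hLx']
    exact dist_exit hd0 hd (hcl α ⟨le_rfl, hαβ.le⟩) ha.exα hx'
  have hdβ : d ≤ ‖Lmap (z β) - Lmap (z θ₀)‖ := by
    rw [ha.zθ, hLx']
    exact dist_exit hd0 hd (hcl β ⟨hαβ.le, le_rfl⟩) ha.exβ hx'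
  have hgc : ContinuousOn (fun θ => ‖Lmap (z θ) - Lmap (z θ₀)‖) (Icc α β) :=
    ((differentiableOn_Lmap.continuousOn.comp ha.lift.cont ha.lift.mem).sub
      continuousOn_const).norm
  -- the constants
  set τ : ℝ := min (d / 2) (3 * π * ε / (16 * d)) with hτ
  have hτ0 : 0 < τ := lt_min (by linarith) (by positivity)
  have hτd : τ ≤ d / 2 := min_le_left _ _
  have hτε : τ ≤ 3 * π * ε / (16 * d) := min_le_right _ _
  have hτε' : 8 * d * τ ≤ 3 * π * (ε / 2) := by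
    rw [le_div_iff₀ (by positivity)] at hτε
    nlinarith
  obtain ⟨α', hα', hdα'⟩ : ∃ α' ∈ Ioo α θ₀, d - τ < ‖Lmap (z α') - Lmap (z θ₀)‖ := by
    have hne : NeBot (𝓝[Ioo α θ₀] α) := left_nhdsWithin_Ioo_neBot ha.lo
    have h1 := (hgc α ⟨le_rfl, hαβ.le⟩).mono
      (Ioo_subset_Icc_self.trans (Icc_subset_Icc_right ha.hi.le))
    have h2 : ∀ᶠ θ in 𝓝[Ioo α θ₀] α, d - τ < ‖Lmap (z θ) - Lmap (z θ₀)‖ :=
      h1 (Ioi_mem_nhds (by linarith))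
    obtain ⟨θ, hθ1, hθ2⟩ := (h2.and self_mem_nhdsWithin).exists
    exact ⟨θ, hθ2, hθ1⟩
  obtain ⟨β', hβ', hdβ'⟩ : ∃ β' ∈ Ioo θ₀ β, d - τ < ‖Lmap (z β') - Lmap (z θ₀)‖ := by
    have hne : NeBot (𝓝[Ioo θ₀ β] β) := right_nhdsWithin_Ioo_neBot ha.hi
    have h1 := (hgc β ⟨hαβ.le, le_rfl⟩).mono
      (Ioo_subset_Icc_self.trans (Icc_subset_Icc_left ha.lo.le))
    have h2 : ∀ᶠ θ in 𝓝[Ioo θ₀ β] β, d - τ < ‖Lmap (z θ) - Lmap (z θ₀)‖ :=
      h1 (Ioi_mem_nhds (by linarith))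
    obtain ⟨θ, hθ1, hθ2⟩ := (h2.and self_mem_nhdsWithin).exists
    exact ⟨θ, hθ2, hθ1⟩
  have hsubI : Icc α' β' ⊆ Ioo α β := fun θ hθ => ⟨hα'.1.trans_le hθ.1, hθ.2.trans_lt hβ'.2⟩
  have hsubI' : Icc α' β' ⊆ Icc α β := hsubI.trans Ioo_subset_Icc_self
  have hαβ' : α' < β' := hα'.2.trans hβ'.1
  have hlift : IsLift (fun z => A z - 0) t α' β' z := by
    refine ⟨ha.lift.cont.mono hsubI', fun θ hθ => ha.lift.mem θ (hsubI' hθ), fun θ hθ => ?_⟩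
    show A (z θ) - 0 = _
    rw [sub_zero]
    exact ha.lift.eq θ (hsubI' hθ)
  obtain ⟨σ, hσ, Z, hZd, hZz, hZV, harea⟩ := strip_gen hA hA' hUo hUb htp hα'.2.le hβ'.1.le
    hαβ' hlift (ha.inj.mono hsubI') (fun θ hθ => ha.mem θ (hsubI hθ)) (half_pos hε)
  set η : ℝ := σ / 2 with hη
  have hη0 : 0 < η := half_pos hσ
  have hησ : η < σ := half_lt_self hσ
  obtain ⟨hSo, hSv⟩ := harea (-η) 0 (by linarith) (by linarith) hσ
  have hZA : ∀ ω ∈ rectNhd σ α' β', Z ω ∈ U ∧ A (Z ω) = t * exp ω := by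
    intro ω hω
    obtain ⟨h1, h2⟩ := hZV ω hω
    rw [zero_add] at h2
    exact ⟨h1, h2⟩
  have hZ0 : Z (θ₀ * I) = r₀ := by
    rw [hZz θ₀ ⟨hα'.2.le, hβ'.1.le⟩, ha.zθ]
  have hsub := gs_sub hA hA' hUo hUb ha.hr₀ htp hη0 hησ ha.hX ha.hfirst hZd.continuousOn hZA
    hα'.2 hβ'.1 hZ0
  set S : Set ℂ := Z '' {ω | -η < ω.re ∧ ω.re < 0 ∧ α' < ω.im ∧ ω.im < β'} with hS
  have hSU : S ⊆ U := hsub.trans (fun y hy => (gs_mem_GU hy).1)
  have hσ't : t * Real.exp (-η) < t := by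
    have : Real.exp (-η) < 1 := Real.exp_lt_one_iff.2 (by linarith)
    nlinarith
  refine ⟨t * Real.exp (-η), ⟨by positivity, hσ't⟩, ?_⟩
  have hlog : Real.log (t / (t * Real.exp (-η))) = η := by
    rw [← div_div, div_self htp.ne', one_div, ← Real.exp_neg, neg_neg, Real.log_exp]
  rw [hlog]
  have hmeas : MeasurableSet (Lmap '' S) :=
    hSo.measurableSet.image_of_continuousOn_injOn
      (differentiableOn_Lmap.continuousOn.mono (hSU.trans hUb)) (injOn_Lmap.mono (hSU.trans hUb))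
  have hdisj : Disjoint (Lmap '' GU A U (t * Real.exp (-η))) (Lmap '' S) := by
    rw [Set.disjoint_left]
    rintro w ⟨v, hv, rfl⟩ ⟨_, ⟨ω, hω, rfl⟩, hωv⟩
    obtain ⟨b1, b2⟩ := gs_mem_GU hv
    have hωr : ω ∈ rectNhd σ α' β' := by
      obtain ⟨h1, h2, h3, h4⟩ := hω
      refine ⟨?_, by linarith, by linarith⟩
      rw [abs_of_neg h2]
      linarith
    have e : Z ω = v := injOn_Lmap (hUb (hZA ω hωr).1) (hUb b1) hωv
    have e2 := (hZA ω hωr).2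
    rw [e] at e2
    rw [e2, norm_mul, Complex.norm_real, Complex.norm_exp, Real.norm_eq_abs,
      abs_of_pos htp] at b2
    have h3 : Real.exp (-η) < Real.exp ω.re := Real.exp_lt_exp.2 hω.1
    nlinarith
  have hunion : Lmap '' GU A U (t * Real.exp (-η)) ∪ Lmap '' S ⊆ Lmap '' GU A U t := by
    rintro w (⟨v, hv, rfl⟩ | ⟨y, hy, rfl⟩)
    · exact ⟨v, GU_mono hσ't.le hv, rfl⟩
    · exact ⟨y, hsub hy, rfl⟩
  have hnum : (4 * d ^ 2 / (3 * π) - ε) * η ≤ (0 - -η) *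
      ((‖Lmap (z α') - Lmap (z θ₀)‖ + ‖Lmap (z β') - Lmap (z θ₀)‖) ^ 2 / (β' - α') - ε / 2) := by
    have h1 : (2 * (d - τ)) ^ 2 ≤
        (‖Lmap (z α') - Lmap (z θ₀)‖ + ‖Lmap (z β') - Lmap (z θ₀)‖) ^ 2 := by
      refine pow_le_pow_left₀ (by linarith) ?_ 2
      linarith
    have h2 : β' - α' ≤ 3 * π := by linarith [hα'.1, hβ'.2]
    have h3 : (2 * (d - τ)) ^ 2 / (3 * π) ≤
        (‖Lmap (z α') - Lmap (z θ₀)‖ + ‖Lmap (z β') - Lmap (z θ₀)‖) ^ 2 / (β' - α') :=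
      div_le_div₀ (sq_nonneg _) h1 (by linarith) h2
    have h4 : 4 * d ^ 2 / (3 * π) - ε / 2 ≤ (2 * (d - τ)) ^ 2 / (3 * π) := by
      rw [sub_le_iff_le_add, div_add' _ _ _ (by positivity), div_le_div_iff_of_pos_right
        (by positivity)]
      nlinarith [sq_nonneg τ]
    have h5 : 4 * d ^ 2 / (3 * π) - ε ≤
        (‖Lmap (z α') - Lmap (z θ₀)‖ + ‖Lmap (z β') - Lmap (z θ₀)‖) ^ 2 / (β' - α') -
          ε / 2 := by linarith
    have h6 := mul_le_mul_of_nonneg_left h5 hη0.le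
    linarith
  calc volume (Lmap '' GU A U (t * Real.exp (-η))) +
        ENNReal.ofReal ((4 * d ^ 2 / (3 * π) - ε) * η)
      ≤ volume (Lmap '' GU A U (t * Real.exp (-η))) + volume (Lmap '' S) :=
        add_le_add le_rfl ((ENNReal.ofReal_le_ofReal hnum).trans hSv)
    _ = volume (Lmap '' GU A U (t * Real.exp (-η)) ∪ Lmap '' S) :=
        (measure_union hdisj hmeas).symm
    _ ≤ volume (Lmap '' GU A U t) := measure_mono hunion

end Pool.Agent.HQT
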