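import Mathlib

/-! HQT, file Lewy: Lewy's theorem (the Jacobian of a univalent harmonic map does not vanish). -/

set_option autoImplicit false

open Complex Metric Set Filter Topology MeasureTheory
open scoped ComplexConjugate Real

namespace Pool.Agent.HQT

/-- LOCAL NORMAL FORM.
Proof. `F - F z₀` has finite order `m` at `z₀`, `m ≥ 2` since `deriv F z₀ = 0`
(`AnalyticAt.analyticOrderAt_eq_natCast` or `exists_eventuallyEq_pow_smul_nonzero_iff`):
`F z - F z₀ = (z - z₀)^m G z`, `G` analytic, `G z₀ ≠ 0`.  Near `z₀` `G = exp l` with `l` analytic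
(`l z = log (G z / G z₀) + log (G z₀)`), `w z = (z - z₀) exp (l z / m)`. -/
theorem local_root {F : ℂ → ℂ} {z₀ : ℂ} (hF : AnalyticAt ℂ F z₀) (hd : deriv F z₀ = 0)
    (hc : ¬ ∀ᶠ z in 𝓝 z₀, F z = F z₀) :
    ∃ m : ℕ, 2 ≤ m ∧ ∃ w : ℂ → ℂ, AnalyticAt ℂ w z₀ ∧ w z₀ = 0 ∧ deriv w z₀ ≠ 0 ∧
      ∀ᶠ z in 𝓝 z₀, F z = F z₀ + w z ^ m := by
  have hF' : AnalyticAt ℂ (fun z => F z - F z₀) z₀ := hF.sub analyticAt_const
  have hord : analyticOrderAt (fun z => F z - F z₀) z₀ ≠ ⊤ := by
    intro h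
    rw [analyticOrderAt_eq_top] at h
    exact hc (h.mono fun z hz => sub_eq_zero.1 hz)
  obtain ⟨G, hG, hG0, hFG⟩ := hF'.analyticOrderAt_ne_top.1 hord
  obtain ⟨m, hm⟩ : ∃ m : ℕ, m = analyticOrderNatAt (fun z => F z - F z₀) z₀ := ⟨_, rfl⟩
  rw [← hm] at hFG
  have hm2 : 2 ≤ m := by
    by_contra hlt
    have hcase : m = 0 ∨ m = 1 := by omega
    rcases hcase with h | h
    · have h1 := hFG.self_of_nhds
      rw [h] at h1
      simp only [sub_self, pow_zero, one_smul] at h1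
      exact hG0 h1.symm
    · have h1 : HasDerivAt (fun z => (z - z₀) ^ m • G z) (G z₀) z₀ := by
        have h2 : HasDerivAt (fun z => (z - z₀) * G z)
            (1 * G z₀ + (z₀ - z₀) * deriv G z₀) z₀ :=
          ((hasDerivAt_id z₀).sub_const z₀).mul hG.differentiableAt.hasDerivAt
        rw [one_mul, sub_self, zero_mul, add_zero] at h2
        rw [h]
        simpa only [pow_one, smul_eq_mul] using h2
      have h3 : HasDerivAt (fun z => F z - F z₀) (deriv F z₀) z₀ :=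
        hF.differentiableAt.hasDerivAt.sub_const (F z₀)
      have h4 := h3.unique (h1.congr_of_eventuallyEq hFG)
      rw [hd] at h4
      exact hG0 h4.symm
  have hm0 : (m : ℂ) ≠ 0 := by
    have : m ≠ 0 := by omega
    exact_mod_cast this
  have hGq : AnalyticAt ℂ (fun z => G z / G z₀) z₀ := hG.div_const
  have hslit : G z₀ / G z₀ ∈ slitPlane := by
    rw [div_self hG0]
    exact one_mem_slitPlane
  have hl : AnalyticAt ℂ (fun z => (log (G z / G z₀) + log (G z₀)) / m) z₀ :=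
    ((hGq.clog hslit).add analyticAt_const).div_const
  have hw : AnalyticAt ℂ (fun z => (z - z₀) * exp ((log (G z / G z₀) + log (G z₀)) / m)) z₀ :=
    (analyticAt_id.sub analyticAt_const).mul hl.cexp
  refine ⟨m, hm2, _, hw, by simp, ?_, ?_⟩
  · have h2 : HasDerivAt (fun z => (z - z₀) * exp ((log (G z / G z₀) + log (G z₀)) / m))
        (1 * exp ((log (G z₀ / G z₀) + log (G z₀)) / m) + (z₀ - z₀) *
          deriv (fun z => exp ((log (G z / G z₀) + log (G z₀)) / m)) z₀) z₀ :=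
      ((hasDerivAt_id z₀).sub_const z₀).mul hl.cexp.differentiableAt.hasDerivAt
    rw [h2.deriv, sub_self, zero_mul, add_zero, one_mul]
    exact exp_ne_zero _
  · have hne : ∀ᶠ z in 𝓝 z₀, G z ≠ 0 := hG.continuousAt.eventually_ne hG0
    filter_upwards [hFG, hne] with z h1 h2
    have h3 : exp ((log (G z / G z₀) + log (G z₀)) / m) ^ m = G z := by
      rw [← Complex.exp_nat_mul, mul_div_cancel₀ _ hm0, Complex.exp_add,
        Complex.exp_log (div_ne_zero h2 hG0), Complex.exp_log hG0, div_mul_cancel₀ _ hG0]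
    rw [mul_pow, h3]
    rw [smul_eq_mul] at h1
    rw [← h1]
    ring

/-- THREE HALF OPEN INTERVALS IN A LINE.
Proof. Each `γ k` is injective and continuous on `[0, ε]` with `γ k 0 = c`, so it has constant sign
of `γ k s - c` on `(0, ε]`; two of the three have the same sign, say `k ≠ l` both positive; by the
intermediate value theorem both take the value `c + η` for small `η > 0`. -/
theorem three_rays {γ : Fin 3 → ℝ → ℝ} {ε c : ℝ} (hε : 0 < ε)
    (hc : ∀ k, ContinuousOn (γ k) (Icc 0 ε)) (h0 : ∀ k, γ k 0 = c)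
    (hne : ∀ k, ∀ s ∈ Ioc (0 : ℝ) ε, γ k s ≠ c) :
    ∃ k l : Fin 3, k ≠ l ∧ ∃ s ∈ Ioc (0 : ℝ) ε, ∃ s' ∈ Ioc (0 : ℝ) ε, γ k s = γ l s' := by
  have hpos : ∀ (δ : ℝ → ℝ) (a : ℝ), ContinuousOn δ (Icc 0 ε) → δ 0 = a → ∀ η, a < η → η ≤ δ ε →
      ∃ s ∈ Ioc (0 : ℝ) ε, δ s = η := by
    intro δ a hδ h0' η h1 h2
    obtain ⟨s, hs, hsη⟩ := intermediate_value_Icc hε.le hδ ⟨by rw [h0']; exact h1.le, h2⟩
    refine ⟨s, ⟨lt_of_le_of_ne hs.1 ?_, hs.2⟩, hsη⟩
    rintro rfl
    rw [h0'] at hsη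
    exact h1.ne hsη
  obtain ⟨k, l, hkl, h⟩ := Fintype.exists_ne_map_eq_of_card_lt
    (fun k : Fin 3 => decide (c < γ k ε)) (by simp)
  have hk := hne k ε ⟨hε, le_rfl⟩
  have hl := hne l ε ⟨hε, le_rfl⟩
  refine ⟨k, l, hkl, ?_⟩
  have h' : (c < γ k ε) ↔ (c < γ l ε) := by simpa using h
  by_cases hck : c < γ k ε
  · have hcl := h'.1 hck
    obtain ⟨s, hs, h1⟩ := hpos (γ k) c (hc k) (h0 k) (min (γ k ε) (γ l ε)) (lt_min hck hcl)
      (min_le_left _ _)
    obtain ⟨s', hs', h2⟩ := hpos (γ l) c (hc l) (h0 l) (min (γ k ε) (γ l ε)) (lt_min hck hcl)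
      (min_le_right _ _)
    exact ⟨s, hs, s', hs', h1.trans h2.symm⟩
  · have hck' : γ k ε < c := lt_of_le_of_ne (not_lt.1 hck) hk
    have hcl' : γ l ε < c := lt_of_le_of_ne (not_lt.1 fun hh => hck (h'.2 hh)) hl
    have hm : -c < -max (γ k ε) (γ l ε) := neg_lt_neg (max_lt hck' hcl')
    obtain ⟨s, hs, h1⟩ := hpos (fun s => -γ k s) (-c) (hc k).neg (by simp only [h0 k])
      (-max (γ k ε) (γ l ε)) hm (neg_le_neg (le_max_left _ _))
    obtain ⟨s', hs', h2⟩ := hpos (fun s => -γ l s) (-c) (hc l).neg (by simp only [h0 l])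
      (-max (γ k ε) (γ l ε)) hm (neg_le_neg (le_max_right _ _))
    exact ⟨s, hs, s', hs', neg_injective (h1.trans h2.symm)⟩

private noncomputable def th_Lewy (m : ℕ) (k : Fin 3) : ℝ := ((k : ℕ) - 1 / 2) * π / m

private theorem th_mem_Lewy {m : ℕ} (hm : 2 ≤ m) (k : Fin 3) : th_Lewy m k ∈ Ioc (-π) π := by
  have hm' : (2 : ℝ) ≤ m := by exact_mod_cast hm
  have hm0 : (0 : ℝ) < m := by linarith
  have hpi := Real.pi_pos
  have hk0 : (0 : ℝ) ≤ (k : ℕ) := Nat.cast_nonneg _
  have hk2 : ((k : ℕ) : ℝ) ≤ 2 := by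
    have : (k : ℕ) ≤ 2 := by omega
    exact_mod_cast this
  unfold th_Lewy
  constructor
  · rw [lt_div_iff₀ hm0]
    nlinarith
  · rw [div_le_iff₀ hm0]
    nlinarith

private theorem th_inj_Lewy {m : ℕ} (hm : 2 ≤ m) {k l : Fin 3} (h : th_Lewy m k = th_Lewy m l) :
    k = l := by
  have hm0 : (m : ℝ) ≠ 0 := by
    have : m ≠ 0 := by omega
    exact_mod_cast this
  unfold th_Lewy at h
  rw [div_left_inj' hm0] at h
  have h1 := mul_right_cancel₀ Real.pi_pos.ne' h
  have h2 : ((k : ℕ) : ℝ) = ((l : ℕ) : ℝ) := by linarith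
  exact Fin.ext (by exact_mod_cast h2)

private theorem th_cos_Lewy {m : ℕ} (hm : 2 ≤ m) (k : Fin 3) (s : ℝ) :
    ((((s : ℂ) * exp (th_Lewy m k * I)) ^ m)).re = 0 := by
  have hm0 : (m : ℝ) ≠ 0 := by
    have : m ≠ 0 := by omega
    exact_mod_cast this
  have h1 : (m : ℂ) * ((th_Lewy m k : ℂ) * I) = (((((k : ℕ) : ℝ) - 1 / 2) * π : ℝ) : ℂ) * I := by
    have h2 : (m : ℝ) * th_Lewy m k = (((k : ℕ) : ℝ) - 1 / 2) * π := by
      unfold th_Lewy
      field_simp
    rw [← mul_assoc, ← h2]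
    push_cast
    ring
  rw [mul_pow, ← Complex.exp_nat_mul, h1, ← Complex.ofReal_pow, Complex.re_ofReal_mul,
    Complex.exp_ofReal_mul_I_re]
  have h3 : Real.cos ((((k : ℕ) : ℝ) - 1 / 2) * π) = 0 := by
    rw [Real.cos_eq_zero_iff]
    refine ⟨((k : ℕ) : ℤ) - 1, ?_⟩
    push_cast
    ring
  rw [h3, mul_zero]

private theorem core_Lewy {h g : ℂ → ℂ} (hh : ContinuousOn h (ball 0 1))
    (hg : ContinuousOn g (ball 0 1)) (hinj : InjOn (fun z => h z + conj (g z)) (ball 0 1))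
    {c : ℂ} (hc : c ≠ 0) {v : ℂ → ℂ} {ε : ℝ} (hε : 0 < ε)
    (hv : ContinuousOn v (closedBall 0 ε)) (hvm : MapsTo v (closedBall 0 ε) (ball 0 1))
    (hvi : InjOn v (closedBall 0 ε)) {m : ℕ} (hm : 2 ≤ m) {a : ℝ}
    (hre : ∀ (k : Fin 3) (s : ℝ), s ∈ Icc 0 ε →
      (c * (h (v (s * exp (th_Lewy m k * I))) +
        conj (g (v (s * exp (th_Lewy m k * I)))))).re = a) : False := by
  have hnorm : ∀ (k : Fin 3) (s : ℝ), 0 ≤ s → ‖((s : ℂ) * exp (th_Lewy m k * I))‖ = s := by
    intro k s hs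
    rw [norm_mul, Complex.norm_real, Real.norm_of_nonneg hs, Complex.norm_exp_ofReal_mul_I,
      mul_one]
  have hmem : ∀ (k : Fin 3) (s : ℝ), s ∈ Icc 0 ε →
      ((s : ℂ) * exp (th_Lewy m k * I)) ∈ closedBall (0 : ℂ) ε := by
    intro k s hs
    rw [mem_closedBall_zero_iff, hnorm k s hs.1]
    exact hs.2
  have harg : ∀ (k : Fin 3) (s : ℝ), 0 < s →
      arg ((s : ℂ) * exp (th_Lewy m k * I)) = th_Lewy m k := by
    intro k s hs
    rw [Complex.exp_mul_I]
    exact Complex.arg_mul_cos_add_sin_mul_I hs (th_mem_Lewy hm k)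
  have hcurve : ∀ k : Fin 3, ContinuousOn (fun s : ℝ => v ((s : ℂ) * exp (th_Lewy m k * I)))
      (Icc 0 ε) := by
    intro k
    refine hv.comp ?_ fun s hs => hmem k s hs
    exact (Complex.continuous_ofReal.mul continuous_const).continuousOn
  have hf : ContinuousOn (fun z => c * (h z + conj (g z))) (ball 0 1) :=
    continuousOn_const.mul (hh.add (Complex.continuous_conj.comp_continuousOn hg))
  have h00 : ∀ k : Fin 3, (((0 : ℝ) : ℂ) * exp (th_Lewy m k * I)) = 0 := by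
    intro k
    rw [Complex.ofReal_zero, zero_mul]
  have heq : ∀ (k l : Fin 3) (s s' : ℝ), s ∈ Icc 0 ε → s' ∈ Icc 0 ε →
      (c * (h (v (s * exp (th_Lewy m k * I))) + conj (g (v (s * exp (th_Lewy m k * I)))))).im =
      (c * (h (v (s' * exp (th_Lewy m l * I))) +
        conj (g (v (s' * exp (th_Lewy m l * I)))))).im →
      ((s : ℂ) * exp (th_Lewy m k * I)) = ((s' : ℂ) * exp (th_Lewy m l * I)) := by
    intro k l s s' hs hs' him
    have h1 := Complex.ext ((hre k s hs).trans (hre l s' hs').symm) him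
    have h2 := mul_left_cancel₀ hc h1
    exact hvi (hmem k s hs) (hmem l s' hs') (hinj (hvm (hmem k s hs)) (hvm (hmem l s' hs')) h2)
  obtain ⟨k, l, hkl, s, hs, s', hs', h1⟩ := three_rays
    (γ := fun k s => (c * (h (v (s * exp (th_Lewy m k * I))) +
      conj (g (v (s * exp (th_Lewy m k * I)))))).im)
    (c := (c * (h (v 0) + conj (g (v 0)))).im) hε
    (fun k => Complex.continuous_im.comp_continuousOn
      (hf.comp (hcurve k) fun s hs => hvm (hmem k s hs)))
    (fun k => by simp only [h00]) (fun k s hs h => by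
      have h2 := heq k k s 0 (Ioc_subset_Icc_self hs) ⟨le_rfl, hε.le⟩ (by
        simp only [h00]
        exact h)
      rw [h00] at h2
      have h3 := hnorm k s hs.1.le
      rw [h2, norm_zero] at h3
      exact hs.1.ne h3)
  have h2 := heq k l s s' (Ioc_subset_Icc_self hs) (Ioc_subset_Icc_self hs') h1
  have h3 := congrArg arg h2
  rw [harg k s hs.1, harg l s' hs'.1] at h3
  exact hkl (th_inj_Lewy hm h3)

/-- LEWY'S THEOREM.
Proof. Suppose `‖g' z₀‖ = ‖h' z₀‖`.  There is `c` with `‖c‖ = 1` and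
`c h' z₀ + conj c * g' z₀ = 0` (if both derivatives vanish take `c = 1`; otherwise
`c² = - g' z₀ / h' z₀`).  `F = c h + conj c g` is analytic, `deriv F z₀ = 0` and
`Re F = Re (c (h + conj g))`.  `F` is not locally constant: otherwise `Re (c f)` is constant near
`z₀`, so `f` maps a ball injectively and continuously into a line; impossible (e.g. three segments
from `z₀` and `three_rays`).  `local_root`: `F = F z₀ + w^m`, `m ≥ 2`; `w` has a local inverse `v`
(continuous, injective near `0`, `v 0 = z₀`).  For `k = 0, 1, 2` let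
`θ_k = (π/2 + k π)/m` (different modulo `2π`, since `2m ≥ 4 > 3`), `z_k s = v (s e^{i θ_k})`:
`F (z_k s) = F z₀ + s^m e^{i (π/2 + kπ)}`, so `Re (c f (z_k s)) = Re F z₀` is constant;
`γ k s = Im (c f (z_k s))` satisfies the hypotheses of `three_rays` (`f` is injective and
`z_k s ≠ z₀` for `s > 0`), so `c f (z_k s) = c f (z_l s')` with `z_k s ≠ z_l s'`: contradiction. -/
theorem lewy {h g : ℂ → ℂ} (hh : DifferentiableOn ℂ h (ball 0 1))
    (hg : DifferentiableOn ℂ g (ball 0 1))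
    (hinj : InjOn (fun z => h z + conj (g z)) (ball 0 1)) :
    ∀ z ∈ ball (0 : ℂ) 1, ‖deriv g z‖ ≠ ‖deriv h z‖ := by
  intro z₀ hz₀ hn
  have hha : AnalyticAt ℂ h z₀ := hh.analyticAt (isOpen_ball.mem_nhds hz₀)
  have hga : AnalyticAt ℂ g z₀ := hg.analyticAt (isOpen_ball.mem_nhds hz₀)
  obtain ⟨c, hc0, hc⟩ : ∃ c : ℂ, c ≠ 0 ∧ c * deriv h z₀ + conj c * deriv g z₀ = 0 := by
    by_cases h0 : deriv h z₀ = 0
    · rw [h0, norm_zero, norm_eq_zero] at hn
      exact ⟨1, one_ne_zero, by rw [h0, hn]; simp⟩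
    · obtain ⟨c, hc⟩ := IsAlgClosed.exists_pow_nat_eq (-(deriv g z₀) / deriv h z₀)
        (n := 2) (by norm_num)
      have hc1 : ‖c‖ = 1 := by
        have h1 : ‖c‖ ^ 2 = 1 := by
          rw [← norm_pow, hc, norm_div, norm_neg, hn, div_self (norm_ne_zero_iff.2 h0)]
        have h2 : (‖c‖ - 1) * (‖c‖ + 1) = 0 := by ring_nf; rw [h1]; ring
        rcases mul_eq_zero.1 h2 with h3 | h3
        · linarith
        · have := norm_nonneg c
          linarith
      have hc0 : c ≠ 0 := by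
        rintro rfl
        rw [norm_zero] at hc1
        exact zero_ne_one hc1
      refine ⟨c, hc0, ?_⟩
      have h3 : c * conj c = 1 := by
        rw [Complex.mul_conj, Complex.normSq_eq_norm_sq, hc1]
        simp
      have h4 : c ^ 2 * deriv h z₀ = -(deriv g z₀) := by
        rw [hc, div_mul_cancel₀ _ h0]
      apply mul_left_cancel₀ hc0
      rw [mul_zero]
      linear_combination h4 + deriv g z₀ * h3
  obtain ⟨F, hFdef⟩ : ∃ F : ℂ → ℂ, F = fun z => c * h z + conj c * g z := ⟨_, rfl⟩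
  have hF : AnalyticAt ℂ F z₀ := by
    rw [hFdef]
    exact (analyticAt_const.mul hha).add (analyticAt_const.mul hga)
  have hFd : deriv F z₀ = 0 := by
    have h1 : HasDerivAt (fun z => c * h z + conj c * g z)
        (c * deriv h z₀ + conj c * deriv g z₀) z₀ :=
      (hha.differentiableAt.hasDerivAt.const_mul c).add
        (hga.differentiableAt.hasDerivAt.const_mul (conj c))
    rw [hFdef, h1.deriv, hc]
  have hFre : ∀ z, (c * (h z + conj (g z))).re = (F z).re := by
    intro z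
    rw [hFdef]
    simp only [mul_add, add_re, mul_re, conj_re, conj_im]
    ring
  have hball : ∀ᶠ z in 𝓝 z₀, z ∈ ball (0 : ℂ) 1 := isOpen_ball.mem_nhds hz₀
  by_cases hcst : ∀ᶠ z in 𝓝 z₀, F z = F z₀
  · obtain ⟨ε, hε, hε'⟩ := Metric.eventually_nhds_iff.1 (hcst.and hball)
    have hmem : ∀ x ∈ closedBall (0 : ℂ) (ε / 2), dist (z₀ + x) z₀ < ε := by
      intro x hx
      rw [mem_closedBall_zero_iff] at hx
      rw [dist_eq_norm, add_sub_cancel_left]
      linarith
    refine core_Lewy hh.continuousOn hg.continuousOn hinj hc0 (v := fun x => z₀ + x)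
      (half_pos hε) (continuous_const.add continuous_id).continuousOn
      (fun x hx => (hε' (hmem x hx)).2) (fun x _ y _ hxy => add_left_cancel hxy) le_rfl
      (a := (F z₀).re) fun k s hs => ?_
    rw [hFre, (hε' (hmem _ ?_)).1]
    rw [mem_closedBall_zero_iff, norm_mul, Complex.norm_real, Real.norm_of_nonneg hs.1,
      Complex.norm_exp_ofReal_mul_I, mul_one]
    exact hs.2
  · obtain ⟨m, hm, w, hw, hw0, hwd, hFw⟩ := local_root hF hFd hcst
    have hst := hw.hasStrictDerivAt.hasStrictFDerivAt_equiv hwd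
    obtain ⟨e, he⟩ : ∃ e : OpenPartialHomeomorph ℂ ℂ, e = hst.toOpenPartialHomeomorph w :=
      ⟨_, rfl⟩
    have hew : ∀ z, e z = w z := by
      intro z
      rw [he, hst.toOpenPartialHomeomorph_coe]
    have hes : z₀ ∈ e.source := by
      rw [he]
      exact hst.mem_toOpenPartialHomeomorph_source
    have het : (0 : ℂ) ∈ e.target := by
      have h1 := e.map_source hes
      rwa [hew, hw0] at h1
    have hes0 : e.symm 0 = z₀ := by
      have h1 := e.left_inv hes
      rwa [hew, hw0] at h1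
    have hsc : ContinuousAt e.symm 0 :=
      e.continuousOn_symm.continuousAt (e.open_target.mem_nhds het)
    have hev : ∀ᶠ x in 𝓝 (0 : ℂ), (F (e.symm x) = F z₀ + w (e.symm x) ^ m ∧
        e.symm x ∈ ball (0 : ℂ) 1) ∧ x ∈ e.target := by
      have h1 : ∀ᶠ z in 𝓝 (e.symm 0), F z = F z₀ + w z ^ m ∧ z ∈ ball (0 : ℂ) 1 := by
        rw [hes0]
        exact hFw.and hball
      exact (hsc.eventually h1).and (e.open_target.mem_nhds het)
    obtain ⟨ε, hε, hε'⟩ := Metric.eventually_nhds_iff.1 hev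
    have hmem : ∀ x ∈ closedBall (0 : ℂ) (ε / 2), dist x 0 < ε := by
      intro x hx
      rw [mem_closedBall] at hx
      linarith
    have hwe : ∀ x ∈ closedBall (0 : ℂ) (ε / 2), w (e.symm x) = x := by
      intro x hx
      rw [← hew]
      exact e.right_inv (hε' (hmem x hx)).2
    refine core_Lewy hh.continuousOn hg.continuousOn hinj hc0 (v := e.symm)
      (half_pos hε) (e.continuousOn_symm.mono fun x hx => (hε' (hmem x hx)).2)
      (fun x hx => (hε' (hmem x hx)).1.2) (fun x hx y hy hxy => ?_) hm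
      (a := (F z₀).re) fun k s hs => ?_
    · rw [← hwe x hx, ← hwe y hy, hxy]
    · have hx : ((s : ℂ) * exp (th_Lewy m k * I)) ∈ closedBall (0 : ℂ) (ε / 2) := by
        rw [mem_closedBall_zero_iff, norm_mul, Complex.norm_real, Real.norm_of_nonneg hs.1,
          Complex.norm_exp_ofReal_mul_I, mul_one]
        exact hs.2
      rw [hFre, (hε' (hmem _ hx)).1.1, hwe _ hx, Complex.add_re, th_cos_Lewy hm, add_zero]

/-- Proof. `‖deriv h z‖ - ‖deriv g z‖` is continuous on the ball (connected) and never `0`. -/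
theorem lewy_sign {h g : ℂ → ℂ} (hh : DifferentiableOn ℂ h (ball 0 1))
    (hg : DifferentiableOn ℂ g (ball 0 1))
    (hinj : InjOn (fun z => h z + conj (g z)) (ball 0 1)) :
    (∀ z ∈ ball (0 : ℂ) 1, ‖deriv g z‖ < ‖deriv h z‖) ∨
      ∀ z ∈ ball (0 : ℂ) 1, ‖deriv h z‖ < ‖deriv g z‖ := by
  have hne := lewy hh hg hinj
  have hcont : ContinuousOn (fun z => ‖deriv h z‖ - ‖deriv g z‖) (ball 0 1) :=
    (hh.deriv isOpen_ball).continuousOn.norm.sub (hg.deriv isOpen_ball).continuousOn.norm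
  have hpre : IsPreconnected (ball (0 : ℂ) 1) := (convex_ball _ _).isPreconnected
  by_contra hcon
  push Not at hcon
  obtain ⟨⟨a, ha, ha'⟩, b, hb, hb'⟩ := hcon
  obtain ⟨z, hz, hz0⟩ := hpre.intermediate_value ha hb hcont
    (show (0 : ℝ) ∈ Icc _ _ from ⟨by simpa using ha', by simpa using hb'⟩)
  exact hne z hz (sub_eq_zero.1 hz0).symm

end Pool.Agent.HQT
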