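import Pool.Agent.HQT.Sym
import Pool.Agent.HQ.StrandsB

/-! HQT (growth exponent 3, MP_7da5c3_an), file Normal: normalisation of a long arc -/

set_option autoImplicit false

open Complex Metric Set Filter Topology MeasureTheory
open scoped ComplexConjugate Real

namespace Pool.Agent.HQT

open Pool.Agent.HQ

variable {A B : ℂ → ℂ}

/-- shift of the parameter -/
private theorem arc_shift_Normal {A B A' B' : ℂ → ℂ} {U : Set ℂ} {t α β θ₀ r₀ : ℝ} {z : ℝ → ℂ}
    (h : Arc A B U t α β θ₀ r₀ z) (m : ℝ) (hp : HPair A' B') (hn : ∀ w, ‖A' w‖ = ‖A w‖)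
    (h0 : A' 0 = 0) (hd : ‖deriv A' 0‖ = ‖deriv A 0‖)
    (he : ∀ θ : ℝ, A' (z (θ + m)) = A (z (θ + m)) * exp (-(m * I))) :
    Arc A' B' U t (α - m) (β - m) (θ₀ - m) r₀ fun θ => z (θ + m) := by
  have hIcc : ∀ θ ∈ Icc (α - m) (β - m), θ + m ∈ Icc α β := by
    rintro θ ⟨h1, h2⟩
    constructor <;> linarith
  refine ⟨hp, h0, h.dom, by rw [hd]; exact h.ht, h.hr₀, h.hX, ?_, ?_, ?_, ?_, ?_, ?_, ?_, ?_,
    ?_, ?_, ?_⟩
  · intro r hr
    rw [hn]
    exact h.hfirst r hr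
  · rw [hn]
    exact h.heq
  · linarith [h.lo]
  · linarith [h.hi]
  · linarith [h.len]
  · refine ⟨?_, ?_, ?_⟩
    · exact h.lift.cont.comp (continuous_id.add continuous_const).continuousOn hIcc
    · intro θ hθ
      exact h.lift.mem _ (hIcc θ hθ)
    · intro θ hθ
      show A' (z (θ + m)) = _
      rw [he, h.lift.eq _ (hIcc θ hθ), mul_assoc, ← Complex.exp_add]
      congr 2
      push_cast
      ring
  · show z (θ₀ - m + m) = r₀
    rw [sub_add_cancel]
    exact h.zθ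
  · rintro θ ⟨h1, h2⟩
    exact h.mem _ ⟨by linarith, by linarith⟩
  · show z (α - m + m) ∉ U
    rw [sub_add_cancel]
    exact h.exα
  · show z (β - m + m) ∉ U
    rw [sub_add_cancel]
    exact h.exβ
  · intro θ hθ θ' hθ' hz
    have := h.inj (hIcc θ hθ) (hIcc θ' hθ') hz
    linarith

/-- NORMALISATION.
Proof. Let `k₀ = ⌊α / π⌋ + 1`: `α < k₀ π`, `(k₀ - 1) π ≤ α`.  `no_three_strands` on
`[k₀ π, (k₀+3) π]` (restriction of the lift, `z` is injective) gives `β < (k₀ + 3) π`; from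
`β > α + 3π` we get `(k₀ + 2) π < β`.  With `m = (k₀ + 1) π`: `α - m < -π`, `π < β - m`.
If `k₀ + 1` is even take `A' = A`, `z' θ = z (θ + m)`; if odd take `A' = -A`, `B' = -B`
(`HPair_neg`), `z' θ = z (θ + m)`: `-A (z (θ + m)) = - t e^{i(θ+m)} = t e^{iθ}`.
All the other fields of `Arc` are immediate (`deriv (-A) 0 = - deriv A 0`). -/
theorem exists_normal {U : Set ℂ} {t α β θ₀ r₀ : ℝ} {z : ℝ → ℂ} (h : Arc A B U t α β θ₀ r₀ z)
    (hlen : 3 * π < β - α) :
    ∃ A' B' : ℂ → ℂ, ∃ α' β' θ' : ℝ, ∃ z' : ℝ → ℂ,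
      ((A' = A ∧ B' = B) ∨ (A' = (fun z => -A z) ∧ B' = fun z => -B z)) ∧
      Arc A' B' U t α' β' θ' r₀ z' ∧ α' < -π ∧ π < β' ∧ 3 * π < β' - α' := by
  have hpi := Real.pi_pos
  obtain ⟨k, hk1, hk2⟩ : ∃ k : ℤ, ((k : ℝ) - 1) * π ≤ α ∧ α < k * π := by
    refine ⟨⌊α / π⌋ + 1, ?_, ?_⟩
    · have h1 := Int.floor_le (α / π)
      rw [le_div_iff₀ hpi] at h1
      push_cast
      linarith
    · have h1 := Int.lt_floor_add_one (α / π)
      rw [div_lt_iff₀ hpi] at h1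
      push_cast
      linarith
  set m : ℝ := ((k : ℝ) + 1) * π with hm
  have b1 : α - m < -π := by rw [hm]; linarith
  have b2 : π < β - m := by rw [hm]; linarith
  have b3 : 3 * π < (β - m) - (α - m) := by linarith
  rcases Int.even_or_odd' (k + 1) with ⟨j, hj | hj⟩
  · refine ⟨A, B, α - m, β - m, θ₀ - m, fun θ => z (θ + m), Or.inl ⟨rfl, rfl⟩,
      arc_shift_Normal h m h.pair (fun _ => rfl) h.A0 rfl (fun θ => ?_), b1, b2, b3⟩
    have h2 : exp (-((m : ℂ) * I)) = 1 := by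
      rw [Complex.exp_eq_one_iff]
      refine ⟨-j, ?_⟩
      have h3 : (k : ℝ) + 1 = 2 * j := by exact_mod_cast hj
      rw [hm, h3]
      push_cast
      ring
    rw [h2, mul_one]
  · refine ⟨fun z => -A z, fun z => -B z, α - m, β - m, θ₀ - m, fun θ => z (θ + m),
      Or.inr ⟨rfl, rfl⟩, arc_shift_Normal h m (HPair_neg h.pair) (fun _ => norm_neg _) ?_ ?_
      (fun θ => ?_), b1, b2, b3⟩
    · show -A 0 = 0
      rw [h.A0, neg_zero]
    · rw [deriv.fun_neg, norm_neg]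
    · have h2 : exp (-((m : ℂ) * I)) = -1 := by
        have h3 : (k : ℝ) + 1 = 2 * j + 1 := by exact_mod_cast hj
        have h4 : -((m : ℂ) * I) = (π : ℂ) * I + ((-j - 1 : ℤ) : ℂ) * (2 * π * I) := by
          rw [hm, h3]
          push_cast
          ring
        rw [h4, Complex.exp_add, Complex.exp_pi_mul_I, Complex.exp_int_mul_two_pi_mul_I, mul_one]
      rw [h2, mul_neg_one]

end Pool.Agent.HQT
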