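import Pool.Agent.HQT.Defs

/-! HQT (growth exponent 3, MP_7da5c3_an), file PLift: lifting of a path until the exit from U -/

set_option autoImplicit false

open Complex Metric Set Filter Topology MeasureTheory
open scoped ComplexConjugate Real

namespace Pool.Agent.HQT

open Pool.Agent.HQ

variable {A B : ℂ → ℂ}

/-- The first exit of a path from an open set. -/
private lemma first_exit_plift {U : Set ℂ} (hU : IsOpen U) {a b : ℝ} (hab : a < b)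
    {z : ℝ → ℂ} (hz : ContinuousOn z (Icc a b)) (ha : z a ∈ U) :
    ∃ β ∈ Ioc a b, (∀ θ ∈ Ico a β, z θ ∈ U) ∧ (β = b ∨ z β ∉ U) := by
  have hS : IsClosed {θ ∈ Icc a b | z θ ∈ Uᶜ} :=
    hz.preimage_isClosed_of_isClosed isClosed_Icc hU.isClosed_compl
  by_cases hne : ({θ ∈ Icc a b | z θ ∈ Uᶜ}).Nonempty
  · have hbdd : BddBelow {θ ∈ Icc a b | z θ ∈ Uᶜ} := ⟨a, fun θ hθ => hθ.1.1⟩
    have hmem := hS.csInf_mem hne hbdd
    set β := sInf {θ ∈ Icc a b | z θ ∈ Uᶜ} with hβ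
    refine ⟨β, ⟨lt_of_le_of_ne hmem.1.1 ?_, hmem.1.2⟩, ?_, Or.inr hmem.2⟩
    · intro h
      exact hmem.2 (h ▸ ha)
    · intro θ hθ
      by_contra hcon
      have h1 : β ≤ θ := csInf_le hbdd ⟨⟨hθ.1, hθ.2.le.trans hmem.1.2⟩, hcon⟩
      exact absurd hθ.2 (not_lt.mpr h1)
  · refine ⟨b, ⟨hab, le_rfl⟩, ?_, Or.inl rfl⟩
    intro θ hθ
    by_contra hcon
    exact hne ⟨θ, ⟨hθ.1, hθ.2.le⟩, hcon⟩

/-- A uniform step. -/
private lemma step_plift (hA : DifferentiableOn ℂ A (ball 0 1))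
    (hA' : ∀ z ∈ ball (0 : ℂ) 1, deriv A z ≠ 0) {K : Set ℂ} (hK : IsCompact K)
    (hKD : K ⊆ ball 0 1) {a b : ℝ} {γ : ℝ → ℂ} (hγ : ContinuousOn γ (Icc a b)) :
    ∃ s > 0, ∀ z₁ ∈ K, ∀ θ₁ θ₂ : ℝ, a ≤ θ₁ → θ₂ ≤ b → θ₂ ≤ θ₁ + s → A z₁ = γ θ₁ →
      ∃ z : ℝ → ℂ, ContinuousOn z (Icc θ₁ θ₂) ∧
        (∀ θ ∈ Icc θ₁ θ₂, z θ ∈ ball (0 : ℂ) 1 ∧ A (z θ) = γ θ) ∧ z θ₁ = z₁ := by
  obtain ⟨δ, hδ, r, hr, h1, h2⟩ := exists_locInv hA hA' hK hKD
  have huc : UniformContinuousOn γ (Icc a b) :=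
    isCompact_Icc.uniformContinuousOn_of_continuous hγ
  obtain ⟨ε, hε, hball⟩ := Metric.uniformContinuousOn_iff.1 huc r hr
  refine ⟨ε / 2, by positivity, ?_⟩
  intro z₁ hz₁ θ₁ θ₂ ha hb h12 hθ₁
  obtain ⟨ψ, hψ, hψ1, hψ2⟩ := h2 z₁ hz₁
  have hin : ∀ θ ∈ Icc θ₁ θ₂, γ θ ∈ ball (A z₁) r := by
    intro θ hθ
    rw [mem_ball, hθ₁]
    refine hball θ ⟨ha.trans hθ.1, hθ.2.trans hb⟩ θ₁
      ⟨ha, hθ.1.trans (hθ.2.trans hb)⟩ ?_
    rw [Real.dist_eq, abs_of_nonneg (by linarith [hθ.1])]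
    linarith [hθ.2]
  refine ⟨fun θ => ψ (γ θ), ?_, ?_, ?_⟩
  · refine hψ.continuousOn.comp ?_ hin
    exact hγ.mono (Icc_subset_Icc ha hb)
  · intro θ hθ
    exact ⟨(h1 z₁ hz₁).1 (hψ2 _ (hin θ hθ)).1, (hψ2 _ (hin θ hθ)).2⟩
  · show ψ (γ θ₁) = z₁
    rw [← hθ₁, hψ1]

/-- PATH LIFTING UNTIL THE EXIT.
Proof. Like `Pool.Agent.HQ.exists_lift_exit` (file HQ/LiftExit.lean), whose proof can be adapted
word by word (there `γ θ = t e^{iθ}`). -/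
theorem exists_path_exit (hA : DifferentiableOn ℂ A (ball 0 1))
    (hA' : ∀ z ∈ ball (0 : ℂ) 1, deriv A z ≠ 0) {U : Set ℂ} (hU : Dom U) {a b : ℝ}
    (hab : a < b) {γ : ℝ → ℂ} (hγ : ContinuousOn γ (Icc a b)) {z₀ : ℂ} (hz₀ : z₀ ∈ U)
    (h : A z₀ = γ a) :
    ∃ b' ∈ Ioc a b, ∃ ρ : ℝ → ℂ, ContinuousOn ρ (Icc a b') ∧ ρ a = z₀ ∧
      (∀ s ∈ Icc a b', ρ s ∈ ball (0 : ℂ) 1 ∧ A (ρ s) = γ s) ∧ (∀ s ∈ Ico a b', ρ s ∈ U) ∧
      (b' = b ∨ ρ b' ∉ U) := by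
  obtain ⟨s, hs, hstep⟩ := step_plift hA hA' hU.cpt hU.sub hγ
  have key : ∀ n : ℕ, ∀ (θ₀ : ℝ) (z₀ : ℂ), a ≤ θ₀ → θ₀ < b → b - θ₀ ≤ n * s → z₀ ∈ U →
      A z₀ = γ θ₀ →
      ∃ β ∈ Ioc θ₀ b, ∃ z : ℝ → ℂ, ContinuousOn z (Icc θ₀ β) ∧ z θ₀ = z₀ ∧
        (∀ θ ∈ Icc θ₀ β, z θ ∈ ball (0 : ℂ) 1 ∧ A (z θ) = γ θ) ∧
        (∀ θ ∈ Ico θ₀ β, z θ ∈ U) ∧ (β = b ∨ z β ∉ U) := by
    intro n
    induction n with
    | zero =>
      intro θ₀ z₀ _ hT hTn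
      simp only [Nat.cast_zero, zero_mul] at hTn
      exact absurd hTn (by linarith)
    | succ n ih =>
      intro θ₀ z₀ haθ hT hTn hz₀ h
      rcases le_or_gt b (θ₀ + s) with hTs | hTs
      · obtain ⟨z, hzc, hzm, hz0⟩ := hstep z₀ (subset_closure hz₀) θ₀ b haθ le_rfl hTs h
        obtain ⟨β, hβ, h1, h2⟩ := first_exit_plift hU.opn hT hzc (by rw [hz0]; exact hz₀)
        exact ⟨β, hβ, z, hzc.mono (Icc_subset_Icc_right hβ.2), hz0,
          fun θ hθ => hzm θ ⟨hθ.1, hθ.2.trans hβ.2⟩, h1, h2⟩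
      · obtain ⟨z, hzc, hzm, hz0⟩ :=
          hstep z₀ (subset_closure hz₀) θ₀ (θ₀ + s) haθ hTs.le le_rfl h
        obtain ⟨β, hβ, h1, h2⟩ := first_exit_plift hU.opn (by linarith : θ₀ < θ₀ + s) hzc
          (by rw [hz0]; exact hz₀)
        have hzβc : ContinuousOn z (Icc θ₀ β) := hzc.mono (Icc_subset_Icc_right hβ.2)
        have hzβm : ∀ θ ∈ Icc θ₀ β, z θ ∈ ball (0 : ℂ) 1 ∧ A (z θ) = γ θ :=
          fun θ hθ => hzm θ ⟨hθ.1, hθ.2.trans hβ.2⟩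
        by_cases hβU : z β ∈ U
        · have hβ' : β = θ₀ + s := h2.resolve_right (not_not.mpr hβU)
          have hTn' : b - β ≤ n * s := by
            push_cast at hTn
            rw [hβ']
            linarith
          obtain ⟨β', hβ2, z', hz2c, hz20, hz2m, h3, h4⟩ := ih β (z β)
            (by rw [hβ']; linarith) (by rw [hβ']; exact hTs) hTn' hβU
            (hzβm β ⟨hβ.1.le, le_rfl⟩).2
          obtain ⟨w, hw1, hw2⟩ : ∃ w : ℝ → ℂ, EqOn w z (Icc θ₀ β) ∧ EqOn w z' (Icc β β') := by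
            refine ⟨fun θ => if θ ≤ β then z θ else z' θ, fun θ hθ => if_pos hθ.2, ?_⟩
            intro θ hθ
            rcases eq_or_lt_of_le hθ.1 with he | hlt
            · subst he
              simp only [le_refl, if_true]
              exact hz20.symm
            · exact if_neg (not_le.mpr hlt)
          have hun : Icc θ₀ β' ⊆ Icc θ₀ β ∪ Icc β β' := by
            intro θ hθ
            rcases le_total θ β with h5 | h5
            · exact Or.inl ⟨hθ.1, h5⟩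
            · exact Or.inr ⟨h5, hθ.2⟩
          refine ⟨β', ⟨hβ.1.trans hβ2.1, hβ2.2⟩, w, ?_, ?_, ?_, ?_, ?_⟩
          · exact (ContinuousOn.union_of_isClosed (hzβc.congr hw1) (hz2c.congr hw2)
              isClosed_Icc isClosed_Icc).mono hun
          · rw [hw1 ⟨le_rfl, hβ.1.le⟩]
            exact hz0
          · intro θ hθ
            rcases hun hθ with h5 | h5
            · rw [hw1 h5]
              exact hzβm θ h5
            · rw [hw2 h5]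
              exact hz2m θ h5
          · intro θ hθ
            rcases lt_or_ge θ β with h5 | h5
            · rw [hw1 ⟨hθ.1, h5.le⟩]
              exact h1 θ ⟨hθ.1, h5⟩
            · rw [hw2 ⟨h5, hθ.2.le⟩]
              exact h3 θ ⟨h5, hθ.2⟩
          · rcases h4 with h5 | h5
            · exact Or.inl h5
            · right
              rw [hw2 ⟨hβ2.1.le, le_rfl⟩]
              exact h5
        · exact ⟨β, ⟨hβ.1, hβ.2.trans hTs.le⟩, z, hzβc, hz0, hzβm, h1, Or.inr hβU⟩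
  obtain ⟨n, hn⟩ := exists_nat_ge ((b - a) / s)
  exact key n a z₀ le_rfl hab ((div_le_iff₀ hs).mp hn) hz₀ h

end Pool.Agent.HQT
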