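import Pool.Agent.HQT.PLift
import Pool.Agent.HQT.GoodA

/-! HQT (growth exponent 3, MP_7da5c3_an), file Ray: the lift of the ray from the tip (section 8) -/

set_option autoImplicit false

open Complex Metric Set Filter Topology MeasureTheory
open scoped ComplexConjugate Real

namespace Pool.Agent.HQT

open Pool.Agent.HQ

variable {A B : ℂ → ℂ}

/-- The lift `ρ` of the ray `s ↦ s e^{i arg e}`, `s ≥ |e|`, until its exit from `U` at `S`. -/
structure RayL (A : ℂ → ℂ) (U : Set ℂ) (t : ℝ) (ψ : ℂ → ℂ) (e : ℂ) (S : ℝ) (ρ : ℝ → ℂ) :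
    Prop where
  hS : t < S
  cont : ContinuousOn ρ (Icc ‖e‖ S)
  ball : ∀ s ∈ Icc ‖e‖ S, ρ s ∈ Metric.ball (0 : ℂ) 1
  eq : ∀ s ∈ Icc ‖e‖ S, A (ρ s) = s * exp (arg e * I)
  mem : ∀ s ∈ Ioo ‖e‖ S, ρ s ∈ U
  ex₁ : ρ ‖e‖ ∉ U
  ex₂ : ρ S ∉ U
  eqψ : ∀ s ∈ Icc ‖e‖ t, ρ s = ψ (s * exp (arg e * I))

/-- Proof. For `s ≤ t` take `ψ (s e^{i arg e})`: for `s ∈ Ioo ‖e‖ t` the point is in `Vseg t φ`
(`ray_mem_Vseg`), for `s = ‖e‖` it is `e` (`Complex.norm_mul_exp_arg_mul_I`), `ψ e ∉ U`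
(`hv.tip`), for `s = t` it is `z (arg e) ∈ U` (`good_bdry`, `|arg e| < φ` by `abs_arg_lt`,
`ha.mem`); all are in the closed segment, where `ψ` is continuous.  For `s ≥ t` apply
`exists_path_exit` with `γ s = s e^{i arg e}` on `[t, b]`, `b > max over closure U of ‖A‖` (compact;
`closure U ⊆ ball 0 1`, `A` continuous): the case `b' = b` is impossible because
`ρ b ∈ closure U` and `‖A (ρ b)‖ = b`.  Glue at `t`. -/
theorem exists_ray {U : Set ℂ} {t α β θ₀ r₀ : ℝ} {z : ℝ → ℂ} (ha : Arc A B U t α β θ₀ r₀ z)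
    (hα : α < -π) (hβ : π < β) {φ r : ℝ} {ψ : ℂ → ℂ} {e : ℂ} (hv : VS A U t φ r z ψ e) :
    ∃ S : ℝ, ∃ ρ : ℝ → ℂ, RayL A U t ψ e S ρ := by
  classical
  have hpi := Real.pi_pos
  have hφ := hv.hφ
  have hφ' := hv.hφ'
  have het := hv.tip_norm
  have ht : 0 < t := (norm_nonneg e).trans_lt het
  have hA := ha.pair.diffA
  have hA' : ∀ z ∈ ball (0 : ℂ) 1, deriv A z ≠ 0 := fun z hz =>
    ha.pair.deriv_ne (ball_subset_closedBall hz)
  have harg : |arg e| < φ := abs_arg_lt ht hφ hφ' hv.tip_re.ge het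
  have harg' := abs_lt.1 harg
  have hcos : 0 ≤ Real.cos (arg e) :=
    Real.cos_nonneg_of_mem_Icc ⟨by linarith, by linarith⟩
  obtain ⟨γ, hγ⟩ : ∃ γ : ℝ → ℂ, γ = fun s : ℝ => (s : ℂ) * exp (arg e * I) := ⟨_, rfl⟩
  have hγc : Continuous γ := by
    rw [hγ]
    fun_prop
  have hγn : ∀ s : ℝ, 0 ≤ s → ‖γ s‖ = s := by
    intro s hs
    rw [hγ]
    show ‖(s : ℂ) * exp (arg e * I)‖ = s
    rw [norm_mul, Complex.norm_real, Real.norm_of_nonneg hs, Complex.norm_exp_ofReal_mul_I,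
      mul_one]
  have hγe : γ ‖e‖ = e := by
    rw [hγ]
    exact Complex.norm_mul_exp_arg_mul_I e
  have hseg : ∀ s ∈ Icc ‖e‖ t, γ s ∈ {w : ℂ | ‖w‖ ≤ t ∧ t * Real.cos φ ≤ w.re} := by
    intro s hs
    have hs0 : 0 ≤ s := (norm_nonneg e).trans hs.1
    refine ⟨(hγn s hs0).trans_le hs.2, ?_⟩
    rw [hγ]
    show t * Real.cos φ ≤ ((s : ℂ) * exp (arg e * I)).re
    rw [Complex.re_ofReal_mul, Complex.exp_ofReal_mul_I_re, ← hv.tip_re,
      ← Complex.norm_mul_cos_arg e]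
    exact mul_le_mul_of_nonneg_right hs.1 hcos
  have hthick := closedSeg_sub_thick ht hφ hφ'.le hv.good.hr
  have hψc : ContinuousOn (fun s : ℝ => ψ (γ s)) (Icc ‖e‖ t) :=
    hv.good.branch.diff.continuousOn.comp hγc.continuousOn fun s hs => hthick (hseg s hs)
  -- the bound
  obtain ⟨M, hM⟩ : ∃ M : ℝ, ∀ z ∈ closure U, ‖A z‖ ≤ M :=
    ha.dom.cpt.exists_bound_of_continuousOn (hA.continuousOn.mono ha.dom.sub)
  have hzU : z (arg e) ∈ U := ha.mem _ ⟨by linarith, by linarith⟩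
  have hzA : A (z (arg e)) = γ t := by
    rw [hγ]
    exact ha.lift.eq _ ⟨by linarith, by linarith⟩
  have hψt : ψ (γ t) = z (arg e) := by
    rw [hγ]
    exact good_bdry hA hA' ht hφ hφ' ha.lift (by linarith) (by linarith) hv.good _
      ⟨by linarith, by linarith⟩
  have hb : t < max M t + 1 := by
    have := le_max_right M t
    linarith
  obtain ⟨b', hb', ρ₁, hρc, hρt, hρA, hρU, hρe⟩ := exists_path_exit hA hA' ha.dom hb
    hγc.continuousOn hzU hzA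
  have hex : ρ₁ b' ∉ U := by
    rcases hρe with h1 | h1
    · exfalso
      have h2 : b' ∈ Icc t b' := ⟨hb'.1.le, le_rfl⟩
      have h3 : ρ₁ b' ∈ closure U := by
        refine ((hρc b' h2).mono Ico_subset_Icc_self).mem_closure ?_ hρU
        rw [closure_Ico hb'.1.ne]
        exact h2
      have h4 := hM _ h3
      rw [(hρA b' h2).2, hγn b' (by linarith [hb'.1]), h1] at h4
      have := le_max_left M t
      linarith
    · exact h1
  obtain ⟨ρ, hρ⟩ : ∃ ρ : ℝ → ℂ, ρ = fun s => if s ≤ t then ψ (γ s) else ρ₁ s := ⟨_, rfl⟩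
  have hρ1 : ∀ s ≤ t, ρ s = ψ (γ s) := fun s hs => by
    rw [hρ]
    exact if_pos hs
  have hρ2 : ∀ s, t ≤ s → ρ s = ρ₁ s := fun s hs => by
    rcases hs.eq_or_lt with h1 | h1
    · rw [hρ1 s h1.ge, ← h1, hψt, hρt]
    · rw [hρ]
      exact if_neg (not_le.2 h1)
  have hsub : ∀ s ∈ Icc ‖e‖ b', s ∈ Icc ‖e‖ t ∨ s ∈ Icc t b' := fun s hs => by
    rcases le_total s t with h1 | h1
    · exact Or.inl ⟨hs.1, h1⟩
    · exact Or.inr ⟨h1, hs.2⟩
  refine ⟨b', ρ, ⟨hb'.1, ?_, ?_, ?_, ?_, ?_, ?_, ?_⟩⟩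
  · have h1 : ContinuousOn ρ (Icc ‖e‖ t ∪ Icc t b') := by
      refine ContinuousOn.union_of_isClosed ?_ ?_ isClosed_Icc isClosed_Icc
      · exact hψc.congr fun s hs => hρ1 s hs.2
      · exact hρc.congr fun s hs => hρ2 s hs.1
    exact h1.mono hsub
  · intro s hs
    rcases hsub s hs with h1 | h1
    · rw [hρ1 s h1.2]
      exact hv.good.branch.mem _ (hthick (hseg s h1))
    · rw [hρ2 s h1.1]
      exact (hρA s h1).1
  · intro s hs
    have h3 : γ s = s * exp (arg e * I) := by rw [hγ]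
    rw [← h3]
    rcases hsub s hs with h1 | h1
    · rw [hρ1 s h1.2]
      exact hv.good.branch.eq _ (hthick (hseg s h1))
    · rw [hρ2 s h1.1]
      exact (hρA s h1).2
  · intro s hs
    rcases lt_or_ge s t with h1 | h1
    · rw [hρ1 s h1.le]
      refine hv.good.mem _ ?_
      rw [hγ]
      exact ray_mem_Vseg hφ hφ' hv.tip_re het hs.1 h1
    · rw [hρ2 s h1]
      exact hρU s ⟨h1, hs.2⟩
  · rw [hρ1 _ het.le, hγe]
    exact hv.tip
  · rw [hρ2 _ hb'.1.le]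
    exact hex
  · intro s hs
    rw [hρ1 s hs.2, hγ]

/-- The image of the open interval is closed in `U`.
Proof. `ρ '' Icc ‖e‖ S` is compact, hence closed; its two end points are not in `U`. -/
theorem ray_closed {U : Set ℂ} {t S : ℝ} {ψ : ℂ → ℂ} {e : ℂ} {ρ : ℝ → ℂ}
    (h : RayL A U t ψ e S ρ) (he : ‖e‖ < t) :
    ∀ z ∈ U, z ∈ closure (ρ '' Ioo ‖e‖ S) → z ∈ ρ '' Ioo ‖e‖ S := by
  intro z hz hcl
  have h1 : IsClosed (ρ '' Icc ‖e‖ S) := (isCompact_Icc.image_of_continuousOn h.cont).isClosed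
  obtain ⟨s, hs, rfl⟩ := closure_minimal (image_mono Ioo_subset_Icc_self) h1 hcl
  rcases hs.1.eq_or_lt with h2 | h2
  · rw [← h2] at hz
    exact absurd hz h.ex₁
  · rcases hs.2.eq_or_lt with h3 | h3
    · rw [h3] at hz
      exact absurd hz h.ex₂
    · exact ⟨s, ⟨h2, h3⟩, rfl⟩

/-- and open in the level set `Im (A e^{-i arg e}) = 0`.
Proof. Let `z = ρ s₀`.  `A` is injective on a neighbourhood `N` of `z` (`exists_locInv` with
`K = {z}`, or `HasStrictDerivAt.toOpenPartialHomeomorph`), `ρ s ∈ N` for `|s - s₀| < η`.  For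
`z' ∈ N` close to `z` with `Im (A z' e^{-iχ}) = 0`: `A z' = s' e^{iχ}` with
`s' = Re (A z' e^{-iχ})` close to `s₀`, so `A (ρ s') = A z'`, `z' = ρ s'`. -/
theorem ray_open (hA : DifferentiableOn ℂ A (ball 0 1))
    (hA' : ∀ z ∈ ball (0 : ℂ) 1, deriv A z ≠ 0) {U : Set ℂ} (hU : Dom U) {t S : ℝ}
    {ψ : ℂ → ℂ} {e : ℂ} {ρ : ℝ → ℂ} (h : RayL A U t ψ e S ρ) :
    ∀ z ∈ ρ '' Ioo ‖e‖ S, ∀ᶠ z' in 𝓝 z,
      (A z' * exp (-(arg e * I))).im = 0 → z' ∈ ρ '' Ioo ‖e‖ S := by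
  rintro _ ⟨s₀, hs₀, rfl⟩
  have hs₀' : s₀ ∈ Icc ‖e‖ S := Ioo_subset_Icc_self hs₀
  have hzb := h.ball s₀ hs₀'
  obtain ⟨δ, hδ, -, -, h1, -⟩ := exists_locInv hA hA' (K := {ρ s₀}) isCompact_singleton
    (singleton_subset_iff.2 hzb)
  obtain ⟨-, hinj⟩ := h1 _ (mem_singleton _)
  have hexp : exp (arg e * I) * exp (-(arg e * I)) = 1 := by
    rw [← Complex.exp_add, add_neg_cancel, Complex.exp_zero]
  obtain ⟨f, hf⟩ : ∃ f : ℂ → ℝ, f = fun z' => (A z' * exp (-(arg e * I))).re := ⟨_, rfl⟩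
  have hf0 : f (ρ s₀) = s₀ := by
    rw [hf]
    show (A (ρ s₀) * exp (-(arg e * I))).re = s₀
    rw [h.eq s₀ hs₀', mul_assoc, hexp, mul_one, Complex.ofReal_re]
  have hAc : ContinuousAt A (ρ s₀) := hA.continuousOn.continuousAt (isOpen_ball.mem_nhds hzb)
  have hfc : ContinuousAt f (ρ s₀) := by
    rw [hf]
    exact Complex.continuous_re.continuousAt.comp (hAc.mul continuousAt_const)
  have hρc : ContinuousAt ρ s₀ := (h.cont s₀ hs₀').continuousAt (Icc_mem_nhds hs₀.1 hs₀.2)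
  have h2 : ∀ᶠ s in 𝓝 s₀, ρ s ∈ ball (ρ s₀) δ ∧ s ∈ Ioo ‖e‖ S :=
    (hρc.eventually (ball_mem_nhds _ hδ)).and (Ioo_mem_nhds hs₀.1 hs₀.2)
  have h3 : ∀ᶠ z' in 𝓝 (ρ s₀), ρ (f z') ∈ ball (ρ s₀) δ ∧ f z' ∈ Ioo ‖e‖ S := by
    have h4 : Tendsto f (𝓝 (ρ s₀)) (𝓝 s₀) := by
      have h5 := hfc.tendsto
      rwa [hf0] at h5
    exact h4.eventually h2
  filter_upwards [h3, ball_mem_nhds (ρ s₀) hδ] with z' h4 h5 h6
  refine ⟨f z', h4.2, ?_⟩
  refine hinj h4.1 h5 ?_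
  rw [h.eq _ (Ioo_subset_Icc_self h4.2)]
  have h7 : A z' * exp (-(arg e * I)) = ((f z' : ℝ) : ℂ) := by
    refine Complex.ext ?_ ?_
    · rw [hf, Complex.ofReal_re]
    · rw [h6, Complex.ofReal_im]
  rw [← h7, mul_assoc, mul_comm (exp (-(arg e * I))), hexp, mul_one]

end Pool.Agent.HQT
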