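import Pool.Agent.HQT.AreaG

/-! HQT (growth exponent 3, MP_7da5c3_an), file StripG: a strip along a lift of a circle arc with
any centre -/

set_option autoImplicit false

open Complex Metric Set Filter Topology MeasureTheory
open scoped ComplexConjugate Real

namespace Pool.Agent.HQT

open Pool.Agent.HQ

variable {A B : ℂ → ℂ}

/-- THE STRIP ALONG A LIFT.
Proof. `exists_thick` for `A₁ = A - e₀` (`deriv A₁ = deriv A`) and `V` gives `σ₀, Z`;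
`g = Lmap ∘ Z` is differentiable and injective (`injOn_Lmap`, `V ⊆ ball 0 1`); `area_strip_gen`
gives `σ₁`; `g '' S = Lmap '' (Z '' S)`. -/
theorem strip_gen (hA : DifferentiableOn ℂ A (ball 0 1))
    (hA' : ∀ z ∈ ball (0 : ℂ) 1, deriv A z ≠ 0) {V : Set ℂ} (hV : IsOpen V)
    (hVD : V ⊆ ball 0 1) {e₀ : ℂ} {ρ α β θ₀ : ℝ} (hρ : 0 < ρ) (hα : α ≤ θ₀) (hβ : θ₀ ≤ β)
    (hαβ : α < β) {z : ℝ → ℂ} (hz : IsLift (fun z => A z - e₀) ρ α β z)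
    (hinj : InjOn z (Icc α β)) (hzV : ∀ θ ∈ Icc α β, z θ ∈ V) {ε : ℝ} (hε : 0 < ε) :
    ∃ σ > 0, ∃ Z : ℂ → ℂ, DifferentiableOn ℂ Z (rectNhd σ α β) ∧
      (∀ θ ∈ Icc α β, Z (θ * I) = z θ) ∧
      (∀ ω ∈ rectNhd σ α β, Z ω ∈ V ∧ A (Z ω) = e₀ + ρ * exp ω) ∧
      ∀ a b : ℝ, -σ < a → a < b → b < σ →
        IsOpen (Z '' {ω | a < ω.re ∧ ω.re < b ∧ α < ω.im ∧ ω.im < β}) ∧
        ENNReal.ofReal ((b - a) *
          ((‖Lmap (z α) - Lmap (z θ₀)‖ + ‖Lmap (z β) - Lmap (z θ₀)‖) ^ 2 / (β - α) - ε)) ≤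
        volume (Lmap '' (Z '' {ω | a < ω.re ∧ ω.re < b ∧ α < ω.im ∧ ω.im < β})) := by
  have hA₁ : DifferentiableOn ℂ (fun z => A z - e₀) (ball 0 1) := hA.sub_const e₀
  have hA₁' : ∀ z ∈ ball (0 : ℂ) 1, deriv (fun z => A z - e₀) z ≠ 0 := by
    intro z hz
    rw [deriv_sub_const]
    exact hA' z hz
  obtain ⟨σ₀, hσ₀, Z, hZd, hZz, hZV, hZinj⟩ :=
    exists_thick hA₁ hA₁' hρ hαβ hz hinj hV hVD hzV
  have hg : DifferentiableOn ℂ (fun ω => Lmap (Z ω)) (rectNhd σ₀ α β) :=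
    differentiableOn_Lmap.comp hZd fun ω hω => hVD (hZV ω hω).1
  have hsub : {ω : ℂ | |ω.re| < σ₀ ∧ α ≤ ω.im ∧ ω.im ≤ β} ⊆ rectNhd σ₀ α β := by
    rintro ω ⟨h1, h2, h3⟩
    exact ⟨h1, by linarith, by linarith⟩
  have hginj : InjOn (fun ω => Lmap (Z ω)) {ω : ℂ | |ω.re| < σ₀ ∧ α ≤ ω.im ∧ ω.im ≤ β} := by
    intro x hx y hy hxy
    exact hZinj hx hy
      (injOn_Lmap (hVD (hZV x (hsub hx)).1) (hVD (hZV y (hsub hy)).1) hxy)
  obtain ⟨σ₁, hσ₁, hσ₁₀, H⟩ := area_strip_gen hσ₀ hα hβ hαβ hg hginj hε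
  have hmono : rectNhd σ₁ α β ⊆ rectNhd σ₀ α β := by
    rintro ω ⟨h1, h2, h3⟩
    exact ⟨by linarith, by linarith, by linarith⟩
  refine ⟨σ₁, hσ₁, Z, hZd.mono hmono, hZz, fun ω hω => ?_, fun a b ha hab hb => ?_⟩
  · obtain ⟨h1, h2⟩ := hZV ω (hmono hω)
    refine ⟨h1, ?_⟩
    have h3 : A (Z ω) - e₀ = ρ * exp ω := h2
    rw [← h3]
    ring
  have hS1 : {ω : ℂ | a < ω.re ∧ ω.re < b ∧ α < ω.im ∧ ω.im < β} ⊆
      {ω : ℂ | |ω.re| < σ₀ ∧ α ≤ ω.im ∧ ω.im ≤ β} := by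
    rintro ω ⟨h1, h2, h3, h4⟩
    exact ⟨abs_lt.2 ⟨by linarith, by linarith⟩, h3.le, h4.le⟩
  refine ⟨?_, ?_⟩
  · have hSo : IsOpen {ω : ℂ | a < ω.re ∧ ω.re < b ∧ α < ω.im ∧ ω.im < β} :=
      (isOpen_lt continuous_const continuous_re).inter
        ((isOpen_lt continuous_re continuous_const).inter
          ((isOpen_lt continuous_const continuous_im).inter
            (isOpen_lt continuous_im continuous_const)))
    have hSc : Convex ℝ {ω : ℂ | a < ω.re ∧ ω.re < b ∧ α < ω.im ∧ ω.im < β} :=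
      (convex_halfSpace_re_gt a).inter ((convex_halfSpace_re_lt b).inter
        ((convex_halfSpace_im_gt α).inter (convex_halfSpace_im_lt β)))
    have han : AnalyticOnNhd ℂ Z {ω : ℂ | a < ω.re ∧ ω.re < b ∧ α < ω.im ∧ ω.im < β} :=
      (hZd.mono (hS1.trans hsub)).analyticOnNhd hSo
    rcases han.is_constant_or_isOpen hSc.isPreconnected with ⟨w, hw⟩ | h
    · exfalso
      have h1 : (⟨(a + b) / 2, (α + β) / 2⟩ : ℂ) ∈
          {ω : ℂ | a < ω.re ∧ ω.re < b ∧ α < ω.im ∧ ω.im < β} := by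
        refine ⟨?_, ?_, ?_, ?_⟩ <;> simp only <;> linarith
      have h2 : (⟨(a + b) / 2, (α + 2 * β) / 3⟩ : ℂ) ∈
          {ω : ℂ | a < ω.re ∧ ω.re < b ∧ α < ω.im ∧ ω.im < β} := by
        refine ⟨?_, ?_, ?_, ?_⟩ <;> simp only <;> linarith
      have h3 := hZinj (hS1 h1) (hS1 h2) ((hw _ h1).trans (hw _ h2).symm)
      have h4 := congrArg Complex.im h3
      simp only at h4
      linarith
    · exact h _ subset_rfl hSo
  · have h1 := H a b ha hab hb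
    rw [hZz α ⟨le_rfl, hαβ.le⟩, hZz β ⟨hαβ.le, le_rfl⟩, hZz θ₀ ⟨hα, hβ⟩] at h1
    rw [image_image]
    exact h1

end Pool.Agent.HQT
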