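import Pool.Agent.HQT.StripG
import Pool.Agent.HQT.CSSide

/-! HQT (growth exponent 3, MP_7da5c3_an), file StripL: the strips along L_s and R_s (section 10) -/

set_option autoImplicit false

open Complex Metric Set Filter Topology MeasureTheory
open scoped ComplexConjugate Real

namespace Pool.Agent.HQT

open Pool.Agent.HQ

variable {A B : ℂ → ℂ}

private theorem exp_ne_StripL {r r' θ χ : ℝ} (hr : 0 < r) (hr' : 0 < r') (hne : θ ≠ χ)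
    (h1 : |θ - χ| < 2 * π) (h : (r : ℂ) * exp (θ * I) = r' * exp (χ * I)) :
    False := by
  have hn := congrArg norm h
  rw [norm_mul, norm_mul, Complex.norm_exp_ofReal_mul_I, Complex.norm_exp_ofReal_mul_I,
    Complex.norm_real, Complex.norm_real, Real.norm_of_nonneg hr.le, Real.norm_of_nonneg hr'.le,
    mul_one, mul_one] at hn
  subst hn
  have hr0 : (r : ℂ) ≠ 0 := by exact_mod_cast hr.ne'
  have h3 := mul_left_cancel₀ hr0 h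
  have h4 : exp ((θ - χ : ℝ) * I) = 1 := by
    rw [Complex.ofReal_sub, sub_mul, Complex.exp_sub, h3, div_self (Complex.exp_ne_zero _)]
  have h5 := congrArg Complex.re h4
  rw [Complex.exp_ofReal_mul_I_re, Complex.one_re] at h5
  have h6 := (Real.cos_eq_one_iff_of_lt_of_lt (abs_lt.1 h1).1 (abs_lt.1 h1).2).1 h5
  exact hne (by linarith)

private theorem convex_box_StripL (s t : Set ℝ) (hs : Convex ℝ s) (ht : Convex ℝ t) :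
    Convex ℝ {ω : ℂ | ω.re ∈ s ∧ ω.im ∈ t} := by
  intro x hx y hy a b ha hb hab
  refine ⟨?_, ?_⟩
  · have h := hs hx.1 hy.1 ha hb hab
    simpa using h
  · have h := ht hx.2 hy.2 ha hb hab
    simpa using h

private theorem norm_exp_StripL {ρ : ℝ} (hρ : 0 < ρ) (ω : ℂ) :
    ‖(ρ : ℂ) * exp ω‖ = ρ * Real.exp ω.re := by
  rw [norm_mul, Complex.norm_exp, Complex.norm_real, Real.norm_of_nonneg hρ.le]

private theorem exp_split_StripL (ρ : ℝ) (ω : ℂ) :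
    (ρ : ℂ) * exp ω = ((ρ * Real.exp ω.re : ℝ) : ℂ) * exp (ω.im * I) := by
  have h : ω = (ω.re : ℂ) + ω.im * I := (Complex.re_add_im ω).symm
  rw [Complex.ofReal_mul, Complex.ofReal_exp, mul_assoc, ← Complex.exp_add, ← h]

private theorem strip_aux_StripL {U : Set ℂ} (hU : Dom U) (hA : DifferentiableOn ℂ A (ball 0 1))
    (hA' : ∀ z ∈ ball (0 : ℂ) 1, deriv A z ≠ 0) {t χ : ℝ} {e₀ : ℂ} {ρ α β θ₀ : ℝ} (hρ : 0 < ρ)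
    (hα : α ≤ θ₀) (hβ : θ₀ ≤ β) (hαβ : α < β) {z : ℝ → ℂ} (hz : IsLift (fun z => A z - e₀) ρ α β z)
    (hlen : β - α < 2 * π) (hzU : ∀ θ ∈ Icc α β, z θ ∈ U) (hx : z θ₀ ∈ GU A U t)
    (ht : ‖e₀‖ + ρ < t) {Γ W : Set ℂ}
    (hW : ∀ S : Set ℂ, IsPreconnected S → S ⊆ U \ Γ → (S ∩ W).Nonempty → S ⊆ W)
    (hWz : ∀ θ ∈ Ioo α β, z θ ∈ W)
    (hΓ : ∀ q ∈ Γ, ∃ r' : ℝ, 0 < r' ∧ A q = e₀ + r' * exp (χ * I))
    (hχ : ∀ θ ∈ Ioo α β, θ ≠ χ ∧ |θ - χ| < 2 * π) {ε : ℝ} (hε : 0 < ε) :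
    ∃ σ₁ > 0, ∀ δ ∈ Ioo (0 : ℝ) σ₁, ∃ S : Set ℂ, IsOpen S ∧ S ⊆ GU A U t ∧ S ⊆ W ∧
      (∀ q ∈ S, ρ < ‖A q - e₀‖ ∧ ‖A q - e₀‖ < ρ * Real.exp δ) ∧
      ENNReal.ofReal (δ * ((‖Lmap (z α) - Lmap (z θ₀)‖ +
        ‖Lmap (z β) - Lmap (z θ₀)‖) ^ 2 / (β - α) - ε)) ≤
        volume (Lmap '' S) := by
  have hinj : InjOn z (Icc α β) := by
    intro θ hθ θ' hθ' h
    by_contra hne
    have h1 := hz.eq θ hθ
    have h2 := hz.eq θ' hθ'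
    rw [h] at h1
    refine exp_ne_StripL hρ hρ hne ?_ (h1.symm.trans h2)
    rw [abs_lt]
    constructor <;> linarith [hθ.1, hθ.2, hθ'.1, hθ'.2]
  obtain ⟨σ, hσ, Z, hZd, hZz, hZ, hZS⟩ := strip_gen hA hA' hU.opn
    (subset_closure.trans hU.sub) hρ hα hβ hαβ hz hinj hzU hε
  have htρ : 0 < t - ‖e₀‖ := by linarith
  have hq1 : 1 < (t - ‖e₀‖) / ρ := by
    rw [one_lt_div hρ]
    linarith
  refine ⟨min σ (Real.log ((t - ‖e₀‖) / ρ)), lt_min hσ (Real.log_pos hq1), fun δ hδ => ?_⟩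
  have hδσ : δ < σ := hδ.2.trans_le (min_le_left _ _)
  have hδl : δ < Real.log ((t - ‖e₀‖) / ρ) := hδ.2.trans_le (min_le_right _ _)
  have hexp : ρ * Real.exp δ < t - ‖e₀‖ := by
    have h1 := Real.exp_lt_exp.2 hδl
    rw [Real.exp_log (by positivity)] at h1
    have h2 := mul_lt_mul_of_pos_left h1 hρ
    rwa [mul_div_cancel₀ _ hρ.ne'] at h2
  -- the closed boxes are in the rectangle
  have hrect : ∀ ω : ℂ, 0 ≤ ω.re → ω.re < δ → α ≤ ω.im → ω.im ≤ β → ω ∈ rectNhd σ α β := by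
    intro ω h1 h2 h3 h4
    refine ⟨?_, by linarith, by linarith⟩
    rw [abs_lt]
    constructor <;> linarith
  have hnorm : ∀ ω ∈ rectNhd σ α β, ‖A (Z ω) - e₀‖ = ρ * Real.exp ω.re := by
    intro ω hω
    rw [(hZ ω hω).2, add_sub_cancel_left, norm_exp_StripL hρ]
  have hsmall : ∀ ω : ℂ, 0 ≤ ω.re → ω.re < δ → α ≤ ω.im → ω.im ≤ β → ‖A (Z ω)‖ < t := by
    intro ω h1 h2 h3 h4
    have h5 := hnorm ω (hrect ω h1 h2 h3 h4)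
    have h6 : ρ * Real.exp ω.re < ρ * Real.exp δ :=
      mul_lt_mul_of_pos_left (Real.exp_lt_exp.2 h2) hρ
    have h7 : ‖A (Z ω)‖ ≤ ‖A (Z ω) - e₀‖ + ‖e₀‖ := by
      have h8 := norm_add_le (A (Z ω) - e₀) e₀
      rwa [sub_add_cancel] at h8
    linarith
  have hopen := hZS 0 δ (by linarith) hδ.1 hδσ
  rw [sub_zero] at hopen
  refine ⟨Z '' {ω | 0 < ω.re ∧ ω.re < δ ∧ α < ω.im ∧ ω.im < β}, hopen.1, ?_, ?_, ?_, hopen.2⟩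
  · -- in the component
    have hconv : Convex ℝ {ω : ℂ | ω.re ∈ Ico 0 δ ∧ ω.im ∈ Icc α β} :=
      convex_box_StripL _ _ (convex_Ico _ _) (convex_Icc _ _)
    have hsub : {ω : ℂ | ω.re ∈ Ico 0 δ ∧ ω.im ∈ Icc α β} ⊆ rectNhd σ α β :=
      fun ω hω => hrect ω hω.1.1 hω.1.2 hω.2.1 hω.2.2
    have hpre : IsPreconnected (Z '' {ω : ℂ | ω.re ∈ Ico 0 δ ∧ ω.im ∈ Icc α β}) :=
      hconv.isPreconnected.image _ (hZd.continuousOn.mono hsub)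
    have hin : z θ₀ ∈ Z '' {ω : ℂ | ω.re ∈ Ico 0 δ ∧ ω.im ∈ Icc α β} := by
      refine ⟨(θ₀ : ℂ) * I, ⟨?_, ?_⟩, hZz θ₀ ⟨hα, hβ⟩⟩
      · have : ((θ₀ : ℂ) * I).re = 0 := by simp
        rw [this]
        exact ⟨le_rfl, hδ.1⟩
      · have : ((θ₀ : ℂ) * I).im = θ₀ := by simp
        rw [this]
        exact ⟨hα, hβ⟩
    have hF : Z '' {ω : ℂ | ω.re ∈ Ico 0 δ ∧ ω.im ∈ Icc α β} ⊆ {z | z ∈ U ∧ ‖A z‖ < t} := by
      rintro _ ⟨ω, hω, rfl⟩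
      exact ⟨(hZ ω (hsub hω)).1, hsmall ω hω.1.1 hω.1.2 hω.2.1 hω.2.2⟩
    have h1 := hpre.subset_connectedComponentIn hin hF
    unfold GU at hx ⊢
    rw [connectedComponentIn_eq hx]
    refine (image_mono fun ω hω => ?_).trans h1
    exact ⟨⟨hω.1.le, hω.2.1⟩, ⟨hω.2.2.1.le, hω.2.2.2.le⟩⟩
  · -- on the side
    have hconv : Convex ℝ {ω : ℂ | ω.re ∈ Ico 0 δ ∧ ω.im ∈ Ioo α β} :=
      convex_box_StripL _ _ (convex_Ico _ _) (convex_Ioo _ _)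
    have hsub : {ω : ℂ | ω.re ∈ Ico 0 δ ∧ ω.im ∈ Ioo α β} ⊆ rectNhd σ α β :=
      fun ω hω => hrect ω hω.1.1 hω.1.2 hω.2.1.le hω.2.2.le
    have hpre : IsPreconnected (Z '' {ω : ℂ | ω.re ∈ Ico 0 δ ∧ ω.im ∈ Ioo α β}) :=
      hconv.isPreconnected.image _ (hZd.continuousOn.mono hsub)
    have h1 : Z '' {ω : ℂ | ω.re ∈ Ico 0 δ ∧ ω.im ∈ Ioo α β} ⊆ W := by
      refine hW _ hpre ?_ ?_
      · rintro _ ⟨ω, hω, rfl⟩
        refine ⟨(hZ ω (hsub hω)).1, fun hq => ?_⟩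
        obtain ⟨r', hr', h2⟩ := hΓ _ hq
        rw [(hZ ω (hsub hω)).2] at h2
        have h3 := add_left_cancel h2
        rw [exp_split_StripL] at h3
        exact exp_ne_StripL (by positivity) hr' (hχ _ hω.2).1 (hχ _ hω.2).2 h3
      · refine ⟨z ((α + β) / 2), ⟨(((α + β) / 2 : ℝ) : ℂ) * I, ⟨?_, ?_⟩, ?_⟩, ?_⟩
        · have : ((((α + β) / 2 : ℝ) : ℂ) * I).re = 0 := by
            rw [Complex.re_ofReal_mul, Complex.I_re, mul_zero]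
          rw [this]
          exact ⟨le_rfl, hδ.1⟩
        · have : ((((α + β) / 2 : ℝ) : ℂ) * I).im = (α + β) / 2 := by
            rw [Complex.im_ofReal_mul, Complex.I_im, mul_one]
          rw [this]
          constructor <;> linarith
        · exact hZz _ ⟨by linarith, by linarith⟩
        · exact hWz _ ⟨by linarith, by linarith⟩
    refine (image_mono fun ω hω => ?_).trans h1
    exact ⟨⟨hω.1.le, hω.2.1⟩, hω.2.2⟩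
  · rintro _ ⟨ω, hω, rfl⟩
    rw [hnorm ω (hrect ω hω.1.le hω.2.1 hω.2.2.1.le hω.2.2.2.le)]
    refine ⟨?_, mul_lt_mul_of_pos_left (Real.exp_lt_exp.2 hω.2.1) hρ⟩
    have h1 : 1 < Real.exp ω.re := Real.one_lt_exp_iff.2 hω.1
    nlinarith

/-- THE STRIP ALONG `L_s`.
Proof. `χ = arg e`.  `strip_gen` with `V = U`, `e₀ = 0`, `ρ = s`, the interval `[θ₁, χ]` and
`z = zL` (injective: `s e^{iθ}` is injective on an interval shorter than `2π`), `θ₀ = θx`.  Take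
`σ₁ ≤ σ` with `s exp σ₁ < t`; `Σ = Z '' {0 < Re < b, θ₁ < Im < χ}` (open).
`Σ ⊆ GU A U t`: `Z '' {0 ≤ Re < b, θ₁ ≤ Im ≤ χ}` is connected, in `U`, `‖A‖ = s exp Re < t`, and
contains `zL θx ∈ GU A U t`.
`Σ ⊆ W₂`: `Z '' {0 ≤ Re < b, θ₁ < Im < χ}` is connected, in `U \ Γ` (on it
`A = s e^{Re} e^{i Im}`, `Im ∈ (χ - 2π, χ)`, so `A` is not on the ray of direction `χ`), and
contains `zL θ ∈ W₂`, `θ₁ < θ < χ` (`CS_left`); `comp₂`. -/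
theorem strip_L {U : Set ℂ} (hU : Dom U) (hA : DifferentiableOn ℂ A (ball 0 1))
    (hA' : ∀ z ∈ ball (0 : ℂ) 1, deriv A z ≠ 0) {t φ r : ℝ} {z : ℝ → ℂ} {ψ : ℂ → ℂ} {e : ℂ}
    (hv : VS A U t φ r z ψ e) {Γ W₁ W₂ : Set ℂ} (hw : Sides A U t φ ψ e Γ W₁ W₂)
    {s a b : ℝ} (hs : s ∈ Ioo ‖e‖ t) {zL zR : ℝ → ℂ} (hc : CS A U ψ e s a b zL zR)
    {θ₁ θx : ℝ} (h1 : a < θ₁) (h1' : θ₁ < arg e) (h2 : θ₁ ≤ θx) (h3 : θx ≤ arg e)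
    (hx : zL θx ∈ GU A U t) {ε : ℝ} (hε : 0 < ε) :
    ∃ σ₁ > 0, ∀ δ ∈ Ioo (0 : ℝ) σ₁, ∃ S : Set ℂ, IsOpen S ∧ S ⊆ GU A U t ∧ S ⊆ W₂ ∧
      (∀ q ∈ S, s < ‖A q‖ ∧ ‖A q‖ < s * Real.exp δ) ∧
      ENNReal.ofReal (δ * ((‖Lmap (zL θ₁) - Lmap (zL θx)‖ +
        ‖Lmap (zL (arg e)) - Lmap (zL θx)‖) ^ 2 / (arg e - θ₁) - ε)) ≤
        volume (Lmap '' S) := by
  have hs0 : 0 < s := (norm_nonneg e).trans_lt hs.1
  have hlen : arg e - θ₁ < 2 * π := by linarith [hc.ha']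
  have hz : IsLift (fun z => A z - 0) s θ₁ (arg e) zL := by
    refine ⟨hc.liftL.cont.mono (Icc_subset_Icc_left h1.le),
      fun θ hθ => hc.liftL.mem θ ⟨h1.le.trans hθ.1, hθ.2⟩, fun θ hθ => ?_⟩
    show A (zL θ) - 0 = _
    rw [sub_zero]
    exact hc.liftL.eq θ ⟨h1.le.trans hθ.1, hθ.2⟩
  obtain ⟨σ₁, hσ₁, h⟩ := strip_aux_StripL hU hA hA' (t := t) (χ := arg e) (e₀ := 0) hs0 h2 h3 h1'
    hz hlen (fun θ hθ => hc.memL θ ⟨h1.trans_le hθ.1, hθ.2⟩) hx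
    (by rw [norm_zero, zero_add]; exact hs.2) hw.comp₂
    (fun θ hθ => CS_left hA hA' hv hw hs hc θ ⟨h1.trans hθ.1, hθ.2⟩)
    (fun q hq => by
      obtain ⟨s', hs', h4⟩ := hw.Γray q hq
      exact ⟨s', (norm_nonneg e).trans_lt hs', by rw [zero_add]; exact h4⟩)
    (fun θ hθ => ⟨hθ.2.ne, by rw [abs_lt]; constructor <;> linarith [hθ.1, hθ.2, Real.pi_pos]⟩)
    hε
  refine ⟨σ₁, hσ₁, fun δ hδ => ?_⟩
  obtain ⟨S, hS1, hS2, hS3, hS4, hS5⟩ := h δ hδ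
  refine ⟨S, hS1, hS2, hS3, fun q hq => ?_, hS5⟩
  have h5 := hS4 q hq
  rwa [sub_zero] at h5

/-- THE STRIP ALONG `R_s`.
Proof. The same with `A - e`, radius `ρ = s - ‖e‖`, interval `[χ, θ₁]`, `θ₁ < b`; `CS_right`,
`comp₁`; `‖A‖ ≤ ‖e‖ + ‖A - e‖ < ‖e‖ + ρ exp σ₁ < t` for small `σ₁`; `A = e + ρ e^{ω}` with
`Im ω ∈ (χ, χ + 2π)` is not on the ray `{s' e^{iχ} : s' > ‖e‖}`. -/
theorem strip_R {U : Set ℂ} (hU : Dom U) (hA : DifferentiableOn ℂ A (ball 0 1))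
    (hA' : ∀ z ∈ ball (0 : ℂ) 1, deriv A z ≠ 0) {t φ r : ℝ} {z : ℝ → ℂ} {ψ : ℂ → ℂ} {e : ℂ}
    (hv : VS A U t φ r z ψ e) {Γ W₁ W₂ : Set ℂ} (hw : Sides A U t φ ψ e Γ W₁ W₂)
    {s a b : ℝ} (hs : s ∈ Ioo ‖e‖ t) {zL zR : ℝ → ℂ} (hc : CS A U ψ e s a b zL zR)
    {θ₁ θx : ℝ} (h1 : θ₁ < b) (h1' : arg e < θ₁) (h2 : arg e ≤ θx) (h3 : θx ≤ θ₁)
    (hx : zR θx ∈ GU A U t) {ε : ℝ} (hε : 0 < ε) :
    ∃ σ₁ > 0, ∀ δ ∈ Ioo (0 : ℝ) σ₁, ∃ S : Set ℂ, IsOpen S ∧ S ⊆ GU A U t ∧ S ⊆ W₁ ∧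
      (∀ q ∈ S, s - ‖e‖ < ‖A q - e‖ ∧ ‖A q - e‖ < (s - ‖e‖) * Real.exp δ) ∧
      ENNReal.ofReal (δ * ((‖Lmap (zR (arg e)) - Lmap (zR θx)‖ +
        ‖Lmap (zR θ₁) - Lmap (zR θx)‖) ^ 2 / (θ₁ - arg e) - ε)) ≤
        volume (Lmap '' S) := by
  have hρ : 0 < s - ‖e‖ := sub_pos.2 hs.1
  have hlen : θ₁ - arg e < 2 * π := by linarith [hc.hb']
  have hz : IsLift (fun z => A z - e) (s - ‖e‖) (arg e) θ₁ zR :=
    ⟨hc.liftR.cont.mono (Icc_subset_Icc_right h1.le),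
      fun θ hθ => hc.liftR.mem θ ⟨hθ.1, hθ.2.trans h1.le⟩,
      fun θ hθ => hc.liftR.eq θ ⟨hθ.1, hθ.2.trans h1.le⟩⟩
  exact strip_aux_StripL hU hA hA' (t := t) (χ := arg e) (e₀ := e) hρ h2 h3 h1'
    hz hlen (fun θ hθ => hc.memR θ ⟨hθ.1, hθ.2.trans_lt h1⟩) hx
    (by linarith [hs.2]) hw.comp₁
    (fun θ hθ => CS_right hA hA' hv hw hs hc θ ⟨hθ.1, hθ.2.trans h1⟩)
    (fun q hq => by
      obtain ⟨s', hs', h4⟩ := hw.Γray q hq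
      refine ⟨s' - ‖e‖, sub_pos.2 hs', ?_⟩
      have h5 : (‖e‖ : ℂ) * exp (arg e * I) = e := Complex.norm_mul_exp_arg_mul_I e
      rw [h4, Complex.ofReal_sub, sub_mul, h5]
      ring)
    (fun θ hθ => ⟨hθ.1.ne', by rw [abs_lt]; constructor <;> linarith [hθ.1, hθ.2, Real.pi_pos]⟩)
    hε

end Pool.Agent.HQT
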