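import Pool.Agent.HQT.Defs

/-! HQT (growth exponent 3, MP_7da5c3_an), file Sym: symmetries of pairs and of the components GU -/

set_option autoImplicit false

open Complex Metric Set Filter Topology MeasureTheory
open scoped ComplexConjugate Real

namespace Pool.Agent.HQT

open Pool.Agent.HQ

variable {A B : ℂ → ℂ}

private theorem sym_cj_eq (A : ℂ → ℂ) : cj A = (starRingEnd ℂ) ∘ A ∘ (starRingEnd ℂ) := rfl

private theorem sym_deriv (A : ℂ → ℂ) (z : ℂ) : deriv (cj A) z = conj (deriv A (conj z)) := by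
  rw [sym_cj_eq, deriv_conj_conj]
  rfl

private theorem sym_conj_mem {z : ℂ} : conj z ∈ closedBall (0 : ℂ) 1 ↔ z ∈ closedBall (0 : ℂ) 1 := by
  rw [mem_closedBall_zero_iff, mem_closedBall_zero_iff, norm_conj]

private theorem sym_conj_mem_ball {z : ℂ} : conj z ∈ ball (0 : ℂ) 1 ↔ z ∈ ball (0 : ℂ) 1 := by
  rw [mem_ball_zero_iff, mem_ball_zero_iff, norm_conj]

private theorem sym_analytic (hA : AnalyticOnNhd ℂ A (closedBall 0 1)) :
    AnalyticOnNhd ℂ (cj A) (closedBall 0 1) := by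
  intro z hz
  have h1 := hA (conj z) (sym_conj_mem.2 hz)
  rw [analyticAt_iff_eventually_differentiableAt] at h1 ⊢
  have h2 : Tendsto (starRingEnd ℂ) (𝓝 z) (𝓝 (conj z)) := continuous_conj.continuousAt
  filter_upwards [h2.eventually h1] with w hw
  rw [sym_cj_eq]
  exact differentiableAt_conj_conj_iff.2 hw

private theorem sym_shear (A B : ℂ → ℂ) (z : ℂ) :
    shearMap (cj A) (cj B) z = conj (shearMap A B (conj z)) := by
  apply Complex.ext
  · simp [shearMap, cj]
  · simp [shearMap, cj]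

/-- Proof. `cj A` has derivative `conj (A' (conj z))`; `Re (B*' conj A*') = Re (B' conj A')` at
`conj z`; `shearMap (cj A) (cj B) z = conj (shearMap A B (conj z))`. -/
theorem HPair_cj (h : HPair A B) : HPair (cj A) (cj B) := by
  refine ⟨sym_analytic h.anA, sym_analytic h.anB, ?_, ?_⟩
  · intro z hz w hw hzw
    rw [sym_shear, sym_shear] at hzw
    have h1 := (starRingEnd ℂ).injective hzw
    have h2 := h.inj (sym_conj_mem.2 hz) (sym_conj_mem.2 hw) h1
    exact (starRingEnd ℂ).injective h2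
  · intro z hz
    have h1 := h.pos _ (sym_conj_mem.2 hz)
    rw [sym_deriv, sym_deriv, ← map_mul, conj_re]
    exact h1

theorem HPair_neg (h : HPair A B) : HPair (fun z => -A z) (fun z => -B z) := by
  refine ⟨fun z hz => (h.anA z hz).neg, fun z hz => (h.anB z hz).neg, ?_, ?_⟩
  · intro z hz w hw hzw
    apply h.inj hz hw
    simp only [shearMap, neg_re, neg_im, Complex.mk.injEq, neg_inj] at hzw ⊢
    exact hzw
  · intro z hz
    have h1 := h.pos z hz
    have h2 : deriv (fun z => -A z) z = -deriv A z := deriv.fun_neg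
    have h3 : deriv (fun z => -B z) z = -deriv B z := deriv.fun_neg
    rw [h2, h3, map_neg, neg_mul_neg]
    exact h1

theorem Lmap_conj {z : ℂ} (hz : z ∈ ball (0 : ℂ) 1) : Lmap (conj z) = conj (Lmap z) := by
  have h1 : arg ((1 + z) / (1 - z)) ≠ π := by
    have h2 := abs_im_Lmap_lt hz
    rw [Lmap, log_im] at h2
    intro h3
    rw [h3, abs_of_pos Real.pi_pos] at h2
    linarith [Real.pi_pos]
  rw [Lmap, Lmap, ← log_conj _ h1]
  congr 1
  rw [map_div₀, map_add, map_sub, map_one]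

theorem conj_mem_Ubox {x₁ d : ℝ} {z : ℂ} : conj z ∈ Ubox x₁ d ↔ z ∈ Ubox x₁ d := by
  constructor
  · rintro ⟨h1, h2⟩
    have h3 := sym_conj_mem_ball.1 h1
    rw [Lmap_conj h3, conj_re, conj_im, abs_neg] at h2
    exact ⟨h3, h2⟩
  · rintro ⟨h1, h2⟩
    refine ⟨sym_conj_mem_ball.2 h1, ?_⟩
    rw [Lmap_conj h1, conj_re, conj_im, abs_neg]
    exact h2

private theorem sym_set {x₁ d s : ℝ} : {z | z ∈ Ubox x₁ d ∧ ‖cj A z‖ < s} =
    conjLIE.toHomeomorph '' {z | z ∈ Ubox x₁ d ∧ ‖A z‖ < s} := by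
  ext z
  constructor
  · rintro ⟨h1, h2⟩
    refine ⟨conj z, ⟨conj_mem_Ubox.2 h1, ?_⟩, ?_⟩
    · rw [cj, norm_conj] at h2
      exact h2
    · exact conj_conj z
  · rintro ⟨w, ⟨h1, h2⟩, rfl⟩
    refine ⟨conj_mem_Ubox.2 h1, ?_⟩
    change ‖cj A (conj w)‖ < s
    rw [cj, norm_conj, conj_conj]
    exact h2

private theorem sym_GU {x₁ d s : ℝ} :
    GU (cj A) (Ubox x₁ d) s = conjLIE.toHomeomorph '' GU A (Ubox x₁ d) s := by
  unfold GU
  rw [sym_set]
  by_cases h : (0 : ℂ) ∈ {z | z ∈ Ubox x₁ d ∧ ‖A z‖ < s}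
  · rw [Homeomorph.image_connectedComponentIn _ h]
    congr 1
    exact (map_zero (starRingEnd ℂ)).symm
  · rw [connectedComponentIn_eq_empty h, image_empty, connectedComponentIn_eq_empty]
    rintro ⟨w, hw, h0⟩
    apply h
    have h1 : w = 0 := by
      have h2 : conj w = 0 := h0
      simpa using h2
    rwa [h1] at hw

/-- `conj` is a homeomorphism which maps `{z ∈ U : |cj A z| < s}` onto `{z ∈ U : |A z| < s}` and
fixes `0`. -/
theorem GU_cj {x₁ d s : ℝ} {z : ℂ} :
    z ∈ GU (cj A) (Ubox x₁ d) s ↔ conj z ∈ GU A (Ubox x₁ d) s := by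
  rw [sym_GU]
  constructor
  · rintro ⟨w, hw, rfl⟩
    change conj (conj w) ∈ _
    rwa [conj_conj]
  · intro h
    exact ⟨conj z, h, conj_conj z⟩

/-- `conj` preserves the Lebesgue measure, `Lmap (conj z) = conj (Lmap z)`, `GU_cj`
(`GU ⊆ Ubox ⊆ ball 0 1`). -/
theorem volume_GU_cj {x₁ d s : ℝ} :
    volume (Lmap '' GU (cj A) (Ubox x₁ d) s) = volume (Lmap '' GU A (Ubox x₁ d) s) := by
  have hball : GU A (Ubox x₁ d) s ⊆ ball (0 : ℂ) 1 := fun z hz =>
    ((connectedComponentIn_subset _ _) hz).1.1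
  have h1 : Lmap '' GU (cj A) (Ubox x₁ d) s =
      conjLIE.toMeasurableEquiv ⁻¹' (Lmap '' GU A (Ubox x₁ d) s) := by
    ext w
    constructor
    · rintro ⟨z, hz, rfl⟩
      rw [GU_cj] at hz
      refine ⟨conj z, hz, ?_⟩
      exact Lmap_conj (sym_conj_mem_ball.1 (hball hz))
    · rintro ⟨z, hz, hzw⟩
      refine ⟨conj z, ?_, ?_⟩
      · rw [GU_cj, conj_conj]
        exact hz
      · rw [Lmap_conj (hball hz), hzw]
        exact conj_conj w
  rw [h1]
  exact (conjLIE.measurePreserving).measure_preimage_equiv (f := conjLIE.toMeasurableEquiv) _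

theorem GU_neg {U : Set ℂ} {s : ℝ} : GU (fun z => -A z) U s = GU A U s := by
  unfold GU
  simp only [norm_neg]

theorem cj_cj : cj (cj A) = A := by
  funext z
  simp [cj]

theorem conj_thickening {r t φ : ℝ} {w : ℂ} :
    conj w ∈ thickening r (Vseg t φ) ↔ w ∈ thickening r (Vseg t φ) := by
  have key : ∀ w : ℂ, w ∈ thickening r (Vseg t φ) → conj w ∈ thickening r (Vseg t φ) := by
    intro w hw
    rw [mem_thickening_iff] at hw ⊢
    obtain ⟨v, ⟨h1, h2⟩, h3⟩ := hw
    refine ⟨conj v, ⟨by rwa [norm_conj], by rwa [conj_re]⟩, ?_⟩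
    rw [dist_conj_conj]
    exact h3
  constructor
  · intro h
    have := key _ h
    rwa [conj_conj] at this
  · exact key w

end Pool.Agent.HQT
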