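import Pool.Agent.HQT.BadStep
import Pool.Agent.HQT.GoodStep
import Pool.Agent.HQT.BackInd
import Pool.Agent.HQT.Normal
import Pool.Agent.HQT.ArcIn
import Pool.Agent.HQ.Growth

/-! HQT (growth exponent 3, MP_7da5c3_an), file Three: the growth theorem with exponent 3 -/

set_option autoImplicit false

open Complex Metric Set Filter Topology MeasureTheory
open scoped ComplexConjugate Real

namespace Pool.Agent.HQT

open Pool.Agent.HQ

variable {A B : ℂ → ℂ}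

/-- Proof. Let `t ∈ Ioc t₀ R`.  `exists_first_hit` (`‖A 0‖ = 0 < t ≤ ‖A r₁‖`) gives `r₀ ≤ r₁`,
`log ((1+r₀)/(1-r₀)) ≤ x₁`; `exists_Arc` with `U = Ubox x₁ d` (`real_mem_Ubox`).  If
`β - α ≤ 3π`: `good_step`.  Otherwise `exists_normal` and `bad_step` for `(A', B')`; if
`A' = -A` use `GU_neg`; and `(4d²/(3π) - ε) log ≤ 4d²/(3π) log`. -/
theorem step_three (h : HPair A B) (h0 : A 0 = 0) {r₁ t d ε : ℝ}
    (hr₁ : r₁ ∈ Ioo (0 : ℝ) 1) (ht : ‖deriv A 0‖ < t) (ht1 : t ≤ ‖A r₁‖) (hd0 : 0 < d)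
    (hd : d < π / 2) (hε : 0 < ε) :
    ∃ σ ∈ Ioo (0 : ℝ) t,
      volume (Lmap '' GU A (Ubox (Real.log ((1 + r₁) / (1 - r₁))) d) σ) +
        ENNReal.ofReal ((4 * d ^ 2 / (3 * π) - ε) * Real.log (t / σ)) ≤
      volume (Lmap '' GU A (Ubox (Real.log ((1 + r₁) / (1 - r₁))) d) t) := by
  have hπ := Real.pi_pos
  have htp : 0 < t := (norm_nonneg _).trans_lt ht
  obtain ⟨r₀, hr0, hr01, hAr, hfirst⟩ :=
    exists_first_hit h.diffA hr₁ (by rw [h0, norm_zero]; exact htp) ht1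
  have hr₀ : r₀ ∈ Ioo (0 : ℝ) 1 := ⟨hr0, hr01.trans_lt hr₁.2⟩
  have h1r : 0 < 1 - r₁ := by linarith [hr₁.2]
  have hx₁ : 0 ≤ Real.log ((1 + r₁) / (1 - r₁)) := by
    refine Real.log_nonneg ?_
    rw [le_div_iff₀ h1r]
    linarith [hr₁.1]
  have hlog : Real.log ((1 + r₀) / (1 - r₀)) ≤ Real.log ((1 + r₁) / (1 - r₁)) := by
    refine Real.log_le_log (div_pos (by linarith) (by linarith [hr₀.2])) ?_
    rw [div_le_div_iff₀ (by linarith [hr₀.2]) h1r]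
    nlinarith
  obtain ⟨x₁, hx⟩ : ∃ x₁ : ℝ, x₁ = Real.log ((1 + r₁) / (1 - r₁)) := ⟨_, rfl⟩
  rw [← hx] at hx₁ hlog ⊢
  obtain ⟨α, β, θ₀, z, ha⟩ := exists_Arc h h0 ht hr₀ hfirst hAr (dom_Ubox (x₁ := x₁) hd)
    (fun x hx => (real_mem_Ubox hd0 hr₀.2 hlog hx).1)
  rcases le_or_gt (β - α) (3 * π) with hlen | hlen
  · exact good_step hd0 hd ha hlog hlen hε
  · obtain ⟨A', B', α', β', θ', z', hA', ha', h1, h2, h3⟩ := exists_normal ha hlen
    obtain ⟨σ, hσ, hv⟩ := bad_step hx₁ hd0 hd ha' hlog h1 h2 h3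
    have hv' : volume (Lmap '' GU A (Ubox x₁ d) σ) +
        ENNReal.ofReal (4 * d ^ 2 / (3 * π) * Real.log (t / σ)) ≤
        volume (Lmap '' GU A (Ubox x₁ d) t) := by
      rcases hA' with ⟨rfl, rfl⟩ | ⟨rfl, rfl⟩
      · exact hv
      · rw [GU_neg, GU_neg] at hv
        exact hv
    refine ⟨σ, hσ, le_trans (add_le_add_right (ENNReal.ofReal_le_ofReal ?_) _) hv'⟩
    have h4 : 0 ≤ Real.log (t / σ) := by
      refine Real.log_nonneg ?_
      rw [le_div_iff₀ hσ.1]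
      linarith [hσ.2]
    have h5 : 0 ≤ ε * Real.log (t / σ) := mul_nonneg hε.le h4
    linarith [sub_mul (4 * d ^ 2 / (3 * π)) ε (Real.log (t / σ))]

/-- The estimate before the passage to the limit. -/
private theorem aux_Three (h : HPair A B) (h0 : A 0 = 0) {r₁ t₀ d ε : ℝ}
    (hr₁ : r₁ ∈ Ioo (0 : ℝ) 1) (ht₀ : ‖deriv A 0‖ < t₀) (htR : t₀ ≤ ‖A r₁‖) (hd0 : 0 < d)
    (hd : d < π / 2) (hε : 0 < ε) (hεd : ε < 4 * d ^ 2 / (3 * π)) :
    (4 * d ^ 2 / (3 * π) - ε) * (Real.log ‖A r₁‖ - Real.log t₀) ≤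
      (Real.log ((1 + r₁) / (1 - r₁)) + 2 * d) * (2 * d) := by
  have h1r : 0 < 1 - r₁ := by linarith [hr₁.2]
  have hx₁ : 0 ≤ Real.log ((1 + r₁) / (1 - r₁)) := by
    refine Real.log_nonneg ?_
    rw [le_div_iff₀ h1r]
    linarith [hr₁.1]
  obtain ⟨x₁, hx⟩ : ∃ x₁ : ℝ, x₁ = Real.log ((1 + r₁) / (1 - r₁)) := ⟨_, rfl⟩
  have ht0 : 0 < t₀ := (norm_nonneg _).trans_lt ht₀
  have hR0 : 0 < ‖A r₁‖ := ht0.trans_le htR
  have hfin : ∀ s : ℝ, volume (Lmap '' GU A (Ubox x₁ d) s) ≤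
      ENNReal.ofReal ((x₁ + 2 * d) * (2 * d)) := fun s =>
    (measure_mono (image_mono GU_sub)).trans (volume_Ubox_le (by rw [hx]; exact hx₁) hd0)
  have hne : ∀ s : ℝ, volume (Lmap '' GU A (Ubox x₁ d) s) ≠ ⊤ := fun s =>
    ne_top_of_le_ne_top ENNReal.ofReal_ne_top (hfin s)
  have hm : Monotone fun s : ℝ => (volume (Lmap '' GU A (Ubox x₁ d) s)).toReal := by
    intro s s' hss
    exact ENNReal.toReal_mono (hne s') (measure_mono (image_mono (GU_mono hss)))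
  have hst : ∀ t ∈ Ioc t₀ ‖A r₁‖, ∃ σ ∈ Ioo (0 : ℝ) t,
      (volume (Lmap '' GU A (Ubox x₁ d) σ)).toReal +
        (4 * d ^ 2 / (3 * π) - ε) * Real.log (t / σ) ≤
      (volume (Lmap '' GU A (Ubox x₁ d) t)).toReal := by
    intro t ht
    obtain ⟨σ, hσ, hv⟩ := step_three h h0 hr₁ (ht₀.trans ht.1) ht.2 hd0 hd hε
    rw [← hx] at hv
    refine ⟨σ, hσ, ?_⟩
    have h4 := ENNReal.toReal_mono (hne t) hv
    rw [ENNReal.toReal_add (hne σ) ENNReal.ofReal_ne_top] at h4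
    have h5 : (4 * d ^ 2 / (3 * π) - ε) * Real.log (t / σ) ≤
        (ENNReal.ofReal ((4 * d ^ 2 / (3 * π) - ε) * Real.log (t / σ))).toReal := by
      rw [ENNReal.toReal_ofReal']
      exact le_max_left _ _
    exact (add_le_add_right h5 _).trans h4
  have h6 := back_ind ht0 htR (sub_nonneg.2 hεd.le) hm (fun s => ENNReal.toReal_nonneg) hst
  rw [Real.log_div hR0.ne' ht0.ne'] at h6
  rw [← hx]
  refine h6.trans ?_
  refine ENNReal.toReal_le_of_le_ofReal ?_ (hfin _)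
  have : 0 ≤ x₁ := by rw [hx]; exact hx₁
  positivity

/-- Proof. `x₁ = log ((1+r₁)/(1-r₁))`, `R = ‖A r₁‖`.  If `R ≤ ‖deriv A 0‖` the statement is clear.
Otherwise for `t₀ ∈ (‖deriv A 0‖, R)`, `d ∈ (0, π/2)`, small `ε > 0`: `back_ind` with
`m s = (volume (Lmap '' GU A U s)).toReal`, `κ = 4d²/(3π) - ε ≥ 0`, and `volume_Ubox_le`
give `(4d²/(3π) - ε) log (R/t₀) ≤ (x₁ + 2d) 2d`.  Let `ε → 0`, `d → π/2`, `t₀ → ‖deriv A 0‖`:
`(π/3) log (R/‖deriv A 0‖) ≤ π (x₁ + π)`. -/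
theorem growth_radius_three (h : HPair A B) (h0 : A 0 = 0) {r₁ : ℝ}
    (hr₁ : r₁ ∈ Ioo (0 : ℝ) 1) :
    ‖A r₁‖ ≤ Real.exp (3 * π) * ‖deriv A 0‖ * ((1 + r₁) / (1 - r₁)) ^ 3 := by
  have hπ : 0 < π := Real.pi_pos
  have h1r : 0 < 1 - r₁ := by linarith [hr₁.2]
  have hq : 1 ≤ (1 + r₁) / (1 - r₁) := by
    rw [le_div_iff₀ h1r]
    linarith [hr₁.1]
  have hq0 : 0 < (1 + r₁) / (1 - r₁) := lt_of_lt_of_le one_pos hq
  have hD0 : 0 < ‖deriv A 0‖ := norm_pos_iff.2 (h.deriv_ne (mem_closedBall_self zero_le_one))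
  rcases le_or_gt ‖A r₁‖ ‖deriv A 0‖ with hle | hgt
  · refine hle.trans ?_
    have h2 : 1 ≤ Real.exp (3 * π) := Real.one_le_exp (by positivity)
    have h3 : 1 ≤ ((1 + r₁) / (1 - r₁)) ^ 3 := one_le_pow₀ hq
    calc ‖deriv A 0‖ = 1 * ‖deriv A 0‖ * 1 := by ring
      _ ≤ _ := by gcongr
  obtain ⟨x₁, hx₁⟩ : ∃ x₁, x₁ = Real.log ((1 + r₁) / (1 - r₁)) := ⟨_, rfl⟩
  have hR0 : 0 < ‖A r₁‖ := hD0.trans hgt
  -- let `ε → 0`
  have h1 : ∀ t₀ : ℝ, ‖deriv A 0‖ < t₀ → t₀ < ‖A r₁‖ → ∀ d ∈ Ioo 0 (π / 2),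
      4 * d ^ 2 / (3 * π) * (Real.log ‖A r₁‖ - Real.log t₀) ≤ (x₁ + 2 * d) * (2 * d) := by
    intro t₀ ht₀ htR d hd
    have ht : Tendsto (fun ε : ℝ => (4 * d ^ 2 / (3 * π) - ε) *
        (Real.log ‖A r₁‖ - Real.log t₀)) (𝓝[>] 0)
        (𝓝 ((4 * d ^ 2 / (3 * π) - 0) * (Real.log ‖A r₁‖ - Real.log t₀))) := by
      have hc : Continuous fun ε : ℝ => (4 * d ^ 2 / (3 * π) - ε) *
          (Real.log ‖A r₁‖ - Real.log t₀) := by
        fun_prop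
      exact (hc.tendsto _).mono_left nhdsWithin_le_nhds
    rw [sub_zero] at ht
    refine le_of_tendsto ht ?_
    have hdp : 0 < 4 * d ^ 2 / (3 * π) := by
      have := hd.1
      positivity
    filter_upwards [Ioo_mem_nhdsGT hdp] with ε hε
    rw [hx₁]
    exact aux_Three h h0 hr₁ ht₀ htR.le hd.1 hd.2 hε.1 hε.2
  -- let `d → π / 2`
  have h2 : ∀ t₀ : ℝ, ‖deriv A 0‖ < t₀ → t₀ < ‖A r₁‖ →
      4 * (π / 2) ^ 2 / (3 * π) * (Real.log ‖A r₁‖ - Real.log t₀) ≤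
        (x₁ + 2 * (π / 2)) * (2 * (π / 2)) := by
    intro t₀ ht₀ htR
    have ht : Tendsto (fun d : ℝ => 4 * d ^ 2 / (3 * π) * (Real.log ‖A r₁‖ - Real.log t₀))
        (𝓝[<] (π / 2))
        (𝓝 (4 * (π / 2) ^ 2 / (3 * π) * (Real.log ‖A r₁‖ - Real.log t₀))) := by
      have hc : Continuous fun d : ℝ =>
          4 * d ^ 2 / (3 * π) * (Real.log ‖A r₁‖ - Real.log t₀) := by
        fun_prop
      exact (hc.tendsto _).mono_left nhdsWithin_le_nhds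
    have ht' : Tendsto (fun d : ℝ => (x₁ + 2 * d) * (2 * d)) (𝓝[<] (π / 2))
        (𝓝 ((x₁ + 2 * (π / 2)) * (2 * (π / 2)))) := by
      have hc : Continuous fun d : ℝ => (x₁ + 2 * d) * (2 * d) := by
        fun_prop
      exact (hc.tendsto _).mono_left nhdsWithin_le_nhds
    refine le_of_tendsto_of_tendsto ht ht' ?_
    have hev : ∀ᶠ d in 𝓝[<] (π / 2), d ∈ Ioo 0 (π / 2) := Ioo_mem_nhdsLT (by positivity)
    filter_upwards [hev] with d hd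
    exact h1 t₀ ht₀ htR d hd
  -- let `t₀ → ‖A' 0‖`
  have h3 : 4 * (π / 2) ^ 2 / (3 * π) * (Real.log ‖A r₁‖ - Real.log ‖deriv A 0‖) ≤
      (x₁ + 2 * (π / 2)) * (2 * (π / 2)) := by
    have ht : Tendsto (fun t : ℝ => 4 * (π / 2) ^ 2 / (3 * π) *
        (Real.log ‖A r₁‖ - Real.log t)) (𝓝[>] ‖deriv A 0‖)
        (𝓝 (4 * (π / 2) ^ 2 / (3 * π) * (Real.log ‖A r₁‖ - Real.log ‖deriv A 0‖))) := by
      have hc : ContinuousAt (fun t : ℝ => 4 * (π / 2) ^ 2 / (3 * π) *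
          (Real.log ‖A r₁‖ - Real.log t)) ‖deriv A 0‖ :=
        continuousAt_const.mul (continuousAt_const.sub (Real.continuousAt_log hD0.ne'))
      exact hc.tendsto.mono_left nhdsWithin_le_nhds
    refine le_of_tendsto ht ?_
    have hev : ∀ᶠ t in 𝓝[>] ‖deriv A 0‖, t ∈ Ioo ‖deriv A 0‖ ‖A r₁‖ := Ioo_mem_nhdsGT hgt
    filter_upwards [hev] with t ht'
    exact h2 t ht'.1 ht'.2
  have h4 : Real.log ‖A r₁‖ - Real.log ‖deriv A 0‖ ≤ 3 * (x₁ + π) := by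
    have h5 : 4 * (π / 2) ^ 2 / (3 * π) = π / 3 := by
      field_simp
      ring
    rw [h5] at h3
    have h6 : π * ((Real.log ‖A r₁‖ - Real.log ‖deriv A 0‖) / 3) ≤ π * (x₁ + π) := by
      linarith
    have h7 := le_of_mul_le_mul_left h6 hπ
    linarith
  have h5 : ‖A r₁‖ = Real.exp (Real.log ‖A r₁‖) := (Real.exp_log hR0).symm
  have h6 : Real.exp (3 * x₁) = ((1 + r₁) / (1 - r₁)) ^ 3 := by
    rw [hx₁]
    have h7 := Real.exp_nat_mul (Real.log ((1 + r₁) / (1 - r₁))) 3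
    rw [Real.exp_log hq0] at h7
    rw [← h7]
    norm_num
  calc ‖A r₁‖ = Real.exp (Real.log ‖A r₁‖) := h5
    _ ≤ Real.exp (3 * π + Real.log ‖deriv A 0‖ + 3 * x₁) := Real.exp_le_exp.2 (by linarith)
    _ = Real.exp (3 * π) * ‖deriv A 0‖ * ((1 + r₁) / (1 - r₁)) ^ 3 := by
      rw [Real.exp_add, Real.exp_add, Real.exp_log hD0, h6]

private lemma rot_mem_Three {e z : ℂ} (he : ‖e‖ = 1) (hz : z ∈ closedBall (0 : ℂ) 1) :
    e * z ∈ closedBall (0 : ℂ) 1 := by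
  rw [mem_closedBall_zero_iff] at hz ⊢
  rw [norm_mul, he, one_mul]
  exact hz

private lemma rot_deriv_Three {G : ℂ → ℂ} (hG : AnalyticOnNhd ℂ G (closedBall 0 1)) {e : ℂ}
    (he : ‖e‖ = 1) (c : ℂ) {z : ℂ} (hz : z ∈ closedBall (0 : ℂ) 1) :
    HasDerivAt (fun w => G (e * w) - c) (deriv G (e * z) * e) z := by
  have h1 : HasDerivAt G (deriv G (e * z)) (e * z) :=
    (hG _ (rot_mem_Three he hz)).differentiableAt.hasDerivAt
  have h2 : HasDerivAt (fun w : ℂ => e * w) e z := by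
    simpa using (hasDerivAt_id z).const_mul e
  exact (h1.comp z h2).sub_const c

private lemma rot_an_Three {G : ℂ → ℂ} (hG : AnalyticOnNhd ℂ G (closedBall 0 1)) {e : ℂ}
    (he : ‖e‖ = 1) (c : ℂ) : AnalyticOnNhd ℂ (fun w => G (e * w) - c) (closedBall 0 1) := by
  intro z hz
  have h1 : AnalyticAt ℂ (fun w : ℂ => e * w) z := analyticAt_const.mul analyticAt_id
  have h2 : AnalyticAt ℂ (fun w => G (e * w)) z :=
    AnalyticAt.comp (g := G) (hG _ (rot_mem_Three he hz)) h1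
  exact h2.sub analyticAt_const

private lemma rot_pair_Three (h : HPair A B) {e : ℂ} (he : ‖e‖ = 1) (c d : ℂ) :
    HPair (fun w => A (e * w) - c) (fun w => B (e * w) - d) := by
  have he0 : e ≠ 0 := by
    rintro rfl
    rw [norm_zero] at he
    exact zero_ne_one he
  refine ⟨rot_an_Three h.anA he c, rot_an_Three h.anB he d, ?_, ?_⟩
  · intro z hz w hw hzw
    have h1 : shearMap A B (e * z) = shearMap A B (e * w) := by
      simp only [shearMap, Complex.mk.injEq, sub_re, sub_im, sub_left_inj] at hzw ⊢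
      exact hzw
    exact mul_left_cancel₀ he0 (h.inj (rot_mem_Three he hz) (rot_mem_Three he hw) h1)
  · intro z hz
    rw [(rot_deriv_Three h.anA he c hz).deriv, (rot_deriv_Three h.anB he d hz).deriv]
    have h1 := h.pos _ (rot_mem_Three he hz)
    have h2 : deriv B (e * z) * e * conj (deriv A (e * z) * e)
        = (deriv B (e * z) * conj (deriv A (e * z))) * ((normSq e : ℝ) : ℂ) := by
      rw [map_mul, ← mul_conj]
      ring
    rw [h2, re_mul_ofReal]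
    exact mul_pos h1 (normSq_pos.2 he0)

/-- Proof. As `Pool.Agent.HQ.growth`, `growthBound_four` (rotation). -/
theorem growthBound_three : GrowthBound (Real.exp (3 * π)) 3 := by
  intro A B h z hz
  have h2 : ((1 + ‖z‖) / (1 - ‖z‖)) ^ (3 : ℝ) = ((1 + ‖z‖) / (1 - ‖z‖)) ^ (3 : ℕ) := by
    rw [← Real.rpow_natCast]
    norm_num
  rw [h2]
  rcases eq_or_ne z 0 with rfl | hz0
  · rw [sub_self, norm_zero]
    positivity
  have hr : 0 < ‖z‖ := norm_pos_iff.2 hz0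
  obtain ⟨e, he⟩ : ∃ e : ℂ, e = z / (‖z‖ : ℂ) := ⟨_, rfl⟩
  have hrc : (‖z‖ : ℂ) ≠ 0 := ofReal_ne_zero.2 hr.ne'
  have he1 : ‖e‖ = 1 := by
    rw [he, norm_div, norm_real, norm_norm, div_self hr.ne']
  have hez : e * (‖z‖ : ℂ) = z := by
    rw [he, div_mul_cancel₀ _ hrc]
  have h0mem : (0 : ℂ) ∈ closedBall (0 : ℂ) 1 := mem_closedBall_self zero_le_one
  have h1 := growth_radius_three (rot_pair_Three h he1 (A 0) 0)
    (by rw [mul_zero, sub_self]) (r₁ := ‖z‖) ⟨hr, hz⟩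
  rw [(rot_deriv_Three h.anA he1 (A 0) h0mem).deriv, mul_zero, norm_mul, he1, mul_one, hez] at h1
  exact h1

end Pool.Agent.HQT
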