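import Pool.Agent.HQT.GoodB
import Pool.Agent.HQT.GoodC
import Pool.Agent.HQT.SymB

/-! HQT (growth exponent 3, MP_7da5c3_an), file VSEx: existence of the maximal segment (section 3) -/

set_option autoImplicit false

open Complex Metric Set Filter Topology MeasureTheory
open scoped ComplexConjugate Real

namespace Pool.Agent.HQT

open Pool.Agent.HQ

variable {A B : ℂ → ℂ}

/-- SECTION 3.
Proof. Let `S = {φ ∈ (0, π/2) : ∃ r ψ, Good A U t φ (z 0) r ψ}`; nonempty by `good_small`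
(`z 0 ∈ U`, `A (z 0) = t`).  `φ* = sSup S ≤ π/2`, and every `φ ∈ (0, φ*)` is in `S`
(`good_mono`).
Case `φ* = π/2`.  If `3π/2 < β` take `φ ∈ (0, π/2)` with `2π - φ ≤ β`
(`φ = max (2π - β) (π/4)`): `good_bound` gives a contradiction.  Otherwise
`α < -3π/2` (since `3π < β - α`), and the conjugate arc `ha.cj` (`-α > 3π/2`) with `Good.cj`
gives the contradiction.
Case `φ* < π/2`.  `good_sup` gives `r, ψ` with `Good A U t φ* (z 0) r ψ`.  If `ψ w ∈ U` for all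
`w` on the open chord, `good_open` gives a larger good angle, contradiction.  So there is `e`
with `‖e‖ < t`, `e.re = t cos φ*`, `ψ e ∉ U`. -/
theorem exists_VS {U : Set ℂ} {t α β θ₀ r₀ : ℝ} {z : ℝ → ℂ} (ha : Arc A B U t α β θ₀ r₀ z)
    (hU : ∀ z, conj z ∈ U ↔ z ∈ U) (hα : α < -π) (hβ : π < β) (hlen : 3 * π < β - α) :
    ∃ φ r : ℝ, ∃ ψ : ℂ → ℂ, ∃ e : ℂ, VS A U t φ r z ψ e := by
  have hA := ha.pair.diffA
  have hA' : ∀ z ∈ ball (0 : ℂ) 1, deriv A z ≠ 0 := fun z hz =>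
    ha.pair.deriv_ne (ball_subset_closedBall hz)
  have ht : 0 < t := (norm_nonneg _).trans_lt ha.ht
  have hpi := Real.pi_pos
  have h0m : z 0 ∈ U := ha.mem 0 ⟨by linarith, by linarith⟩
  have hA0 : A (z 0) = t := by
    simpa using ha.lift.eq 0 ⟨by linarith, by linarith⟩
  obtain ⟨φ0, hφ0, r0, ψ0, hg0⟩ := good_small hA hA' ha.dom ht h0m hA0
  let S : Set ℝ := {φ | φ ∈ Ioo (0 : ℝ) (π / 2) ∧ ∃ r : ℝ, ∃ ψ : ℂ → ℂ, Good A U t φ (z 0) r ψ}
  have hS0 : φ0 ∈ S := ⟨hφ0, r0, ψ0, hg0⟩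
  have hbdd : BddAbove S := ⟨π / 2, fun x hx => hx.1.2.le⟩
  have h1 : 0 < sSup S := hφ0.1.trans_le (le_csSup hbdd hS0)
  have h2 : sSup S ≤ π / 2 := csSup_le ⟨_, hS0⟩ (fun x hx => hx.1.2.le)
  have hlt : ∀ φ' ∈ Ioo (0 : ℝ) (sSup S), ∃ r : ℝ, ∃ ψ : ℂ → ℂ,
      Good A U t φ' (z 0) r ψ := by
    intro φ' hφ'
    obtain ⟨x, hx, hx2⟩ := exists_lt_of_lt_csSup ⟨_, hS0⟩ hφ'.2
    obtain ⟨r, ψ, hg⟩ := hx.2
    exact ⟨r, ψ, good_mono ht hφ'.1.le hx2.le hx.1.2.le hg⟩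
  rcases h2.lt_or_eq with h3 | h3
  · obtain ⟨r, ψ, hg⟩ := good_sup hA hA' ha.dom ht h1 h2 hlt
    by_contra hno
    have hch : ∀ w : ℂ, ‖w‖ < t → w.re = t * Real.cos (sSup S) → ψ w ∈ U := by
      intro w hw1 hw2
      by_contra hw3
      exact hno ⟨sSup S, r, ψ, w, ⟨h1, h3, hg, hw2, hw1, hw3⟩⟩
    obtain ⟨φ₂, hφ₂, r₂, ψ₂, hg₂⟩ := good_open hA hA' ha.dom ht h1 h3 ha.lift
      (by linarith) (by linarith)
      (fun θ hθ => ha.mem θ ⟨by linarith [hθ.1], by linarith [hθ.2]⟩) hg hch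
    have h4 : φ₂ ∈ S := ⟨⟨by linarith [hφ₂.1], hφ₂.2⟩, r₂, ψ₂, hg₂⟩
    have h5 := le_csSup hbdd h4
    linarith [hφ₂.1]
  · exfalso
    by_cases hb : 3 * π / 2 < β
    · have hφ1 : 0 < max (2 * π - β) (π / 4) := lt_max_of_lt_right (by positivity)
      have hφ2 : max (2 * π - β) (π / 4) < π / 2 := max_lt (by linarith) (by linarith)
      obtain ⟨r, ψ, hg⟩ := hlt _ ⟨hφ1, by rw [h3]; exact hφ2⟩
      exact good_bound ha.pair ht hφ1 hφ2 ha.lift ha.inj hα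
        (by linarith [le_max_left (2 * π - β) (π / 4)]) hg
    · push Not at hb
      have ha2 : α < -(3 * π / 2) := by linarith
      have hφ1 : 0 < max (2 * π + α) (π / 4) := lt_max_of_lt_right (by positivity)
      have hφ2 : max (2 * π + α) (π / 4) < π / 2 := max_lt (by linarith) (by linarith)
      obtain ⟨r, ψ, hg⟩ := hlt _ ⟨hφ1, by rw [h3]; exact hφ2⟩
      have hc := ha.cj hU
      have hgc := hg.cj hU
      exact good_bound hc.pair ht hφ1 hφ2 hc.lift hc.inj (by linarith)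
        (by linarith [le_max_left (2 * π + α) (π / 4)]) (by simpa using hgc)

end Pool.Agent.HQT
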