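import Pool.Agent.HQT.GoodA
import Pool.Agent.HQT.FunC

/-! HQT (growth exponent 3, MP_7da5c3_an), file YPathA: the path Y, first part: from 0 to the clockwise part of the segment (section 9) -/

set_option autoImplicit false

open Complex Metric Set Filter Topology MeasureTheory
open scoped ComplexConjugate Real

namespace Pool.Agent.HQT

open Pool.Agent.HQ

variable {A B : ℂ → ℂ}

/-- The side of a point of the segment which is neither in `W₁` nor on the cut. -/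
private theorem side_YPathA {U : Set ℂ} {t φ : ℝ} (ht : 0 < t) (hφ : 0 < φ) (hφ' : φ < π / 2)
    {ψ : ℂ → ℂ} {e : ℂ} (he : e.re = t * Real.cos φ) {Γ W₁ W₂ : Set ℂ}
    (hw : Sides A U t φ ψ e Γ W₁ W₂) {w : ℂ} (hwV : w ∈ Vseg t φ) (h1 : ψ w ∉ W₁)
    (h2 : ψ w ∉ Γ) : (w * exp (-(arg e * I))).im < 0 := by
  have h3 : ¬ 0 < (w * exp (-(arg e * I))).im := fun h => h1 (hw.plus w hwV h)
  have h4 : (w * exp (-(arg e * I))).im ≠ 0 := by
    intro h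
    obtain ⟨x, hx⟩ : ∃ x : ℝ, w * exp (-(arg e * I)) = x :=
      ⟨_, (Complex.ext rfl (by rw [h, Complex.ofReal_im]) :
        w * exp (-(arg e * I)) = ((w * exp (-(arg e * I))).re : ℝ))⟩
    have hwx : w = x * exp (arg e * I) := by
      rw [← hx, mul_assoc, ← Complex.exp_add, neg_add_cancel, Complex.exp_zero, mul_one]
    have hcφ : 0 < Real.cos φ := Real.cos_pos_of_mem_Ioo ⟨by linarith [Real.pi_pos], hφ'⟩
    have hce : 0 < ‖e‖ * Real.cos (arg e) := by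
      rw [Complex.norm_mul_cos_arg, he]
      exact mul_pos ht hcφ
    have hc : 0 < Real.cos (arg e) := pos_of_mul_pos_right hce (norm_nonneg e)
    have hre : w.re = x * Real.cos (arg e) := by
      rw [hwx, Complex.re_ofReal_mul, Complex.exp_ofReal_mul_I_re]
    have h5 : t * Real.cos φ < w.re := hwV.2
    rw [hre, ← he, ← Complex.norm_mul_cos_arg e] at h5
    have h6 : ‖e‖ < x := lt_of_mul_lt_mul_right h5 hc.le
    have hx0 : 0 < x := (norm_nonneg e).trans_lt h6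
    have h7 : ‖w‖ = x := by
      rw [hwx, norm_mul, Complex.norm_real, Real.norm_of_nonneg hx0.le,
        Complex.norm_exp_ofReal_mul_I, mul_one]
    have h8 : x < t := h7 ▸ hwV.1
    apply h2
    rw [hwx]
    exact hw.ψΓ x ⟨h6, h8⟩
  exact lt_of_le_of_ne (not_lt.1 h3) h4

/-- Near a point `z₁ = ψ (A z₁)` with `A z₁` in the segment the branch `ψ` inverts `A`. -/
private theorem near_YPathA (hA : DifferentiableOn ℂ A (ball 0 1))
    (hA' : ∀ z ∈ ball (0 : ℂ) 1, deriv A z ≠ 0) {t φ : ℝ} {ψ : ℂ → ℂ} {W : Set ℂ}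
    (hW : IsOpen W) (hVW : Vseg t φ ⊆ W) (hψ : Branch A W (ball 0 1) ψ) {z₁ : ℂ}
    (hz₁ : z₁ ∈ ball (0 : ℂ) 1) (h1 : z₁ = ψ (A z₁)) (h2 : A z₁ ∈ Vseg t φ) :
    ∀ᶠ z in 𝓝 z₁, A z ∈ Vseg t φ ∧ ψ (A z) = z := by
  obtain ⟨δ, hδ, -, -, hb, -⟩ := exists_locInv hA hA' (isCompact_singleton (x := z₁))
    (singleton_subset_iff.2 hz₁)
  obtain ⟨hb1, hb2⟩ := hb z₁ rfl
  have hAc : ContinuousAt A z₁ :=
    (hA z₁ hz₁).continuousWithinAt.continuousAt (isOpen_ball.mem_nhds hz₁)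
  have hV : ∀ᶠ z in 𝓝 z₁, A z ∈ Vseg t φ := hAc ((isOpen_Vseg t φ).mem_nhds h2)
  have hψc : ContinuousAt ψ (A z₁) :=
    (hψ.diff _ (hVW h2)).continuousWithinAt.continuousAt (hW.mem_nhds (hVW h2))
  have hcomp : ContinuousAt (fun z => ψ (A z)) z₁ := ContinuousAt.comp (f := A) hψc hAc
  have h3 : ∀ᶠ z in 𝓝 z₁, ψ (A z) ∈ ball z₁ δ := by
    refine hcomp (isOpen_ball.mem_nhds ?_)
    change ψ (A z₁) ∈ ball z₁ δ
    rw [← h1]
    exact mem_ball_self hδ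
  filter_upwards [hV, h3, ball_mem_nhds z₁ hδ] with z hz1 hz2 hz3
  exact ⟨hz1, hb2 hz2 hz3 (hψ.eq _ (hVW hz1))⟩

/-- FIRST PART OF Y.
Proof. `G = GU A U s` is open and connected (component of an open set), so path connected: there is
a path `γ` in `G` from `0` to `q = ψ w₀`, `w₀ ∈ Vseg t φ`, `‖w₀‖ < s` (`‖A q‖ < s` on `G`).
Case 1: `γ` avoids `Γ`.  Its image is connected, contained in `U \ Γ`, and contains `0 ∉ W₁`, so it
is disjoint from `W₁` (`comp₁`: otherwise the whole image would be in `W₁`).  So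
`q = ψ w₀ ∉ W₁ ∪ Γ`.  `Im (w₀ e^{-iχ})` is not `> 0` (`plus`), and not `0` (then
`w₀ = s' e^{iχ}` with `s' > ‖e‖`, because `Re w₀ > t cos φ = ‖e‖ cos χ`, `cos χ > 0`, so
`q ∈ Γ` by `ψΓ`).  Take `w = w₀`.
Case 2: `γ` meets `Γ`; let `τ` be the first time (`{τ : γ τ ∈ Γ}` is closed by `Γcl`, `γ ⊆ U`);
`τ > 0` because `0 ∉ Γ` (`‖A‖ > 0` on `Γ`).  The part `γ '' [0, τ)` is connected and in
`U \ Γ`, contains `0`, so it is disjoint from `W₁`.  `γ τ ∈ Γ`, `‖A (γ τ)‖ < s < t`, so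
`γ τ = ψ (A (γ τ))` with `A (γ τ) ∈ Vseg t φ` (`Γψ`).  `A` is injective on a neighbourhood of
`γ τ`, so for `τ' < τ` close to `τ` we have `γ τ' = ψ (A (γ τ'))`, `A (γ τ') ∈ Vseg t φ`.  As in
case 1 `w = A (γ τ')` has `Im (w e^{-iχ}) < 0`.  Take the part of `γ` up to `τ'`. -/
theorem exists_Y1 {U : Set ℂ} {t α β θ₀ r₀ : ℝ} {z : ℝ → ℂ}
    (ha : Arc A B U t α β θ₀ r₀ z) {φ r : ℝ} {ψ : ℂ → ℂ} {e : ℂ}
    (hv : VS A U t φ r z ψ e) {Γ W₁ W₂ : Set ℂ} (hw : Sides A U t φ ψ e Γ W₁ W₂)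
    (h0 : (0 : ℂ) ∉ W₁) {s : ℝ} (hs : s ∈ Ioo ‖e‖ t)
    (hG : (GU A U s ∩ ψ '' Vseg t φ).Nonempty) :
    ∃ w ∈ Vseg t φ, (w * exp (-(arg e * I))).im < 0 ∧ ‖w‖ < s ∧
      JoinedIn {q | q ∈ U ∧ ‖A q‖ < s ∧ q ∉ W₁} 0 (ψ w) := by
  have hA := ha.pair.diffA
  have hA' : ∀ z ∈ ball (0 : ℂ) 1, deriv A z ≠ 0 := fun z hz =>
    ha.pair.deriv_ne (ball_subset_closedBall hz)
  have hUb : U ⊆ ball 0 1 := subset_closure.trans ha.dom.sub
  have ht : 0 < t := (norm_nonneg _).trans_lt ha.ht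
  have hs0 : 0 < s := (norm_nonneg e).trans_lt hs.1
  have hAU : ContinuousOn A U := hA.continuousOn.mono hUb
  -- the open set
  have hSo : IsOpen {z | z ∈ U ∧ ‖A z‖ < s} := by
    have h1 := hAU.norm.isOpen_inter_preimage ha.dom.opn (isOpen_Iio (a := s))
    exact h1
  have h0S : (0 : ℂ) ∈ {z | z ∈ U ∧ ‖A z‖ < s} := by
    refine ⟨?_, ?_⟩
    · have h1 := ha.hX 0 ⟨le_rfl, ha.hr₀.1.le⟩
      rwa [Complex.ofReal_zero] at h1
    · rw [ha.A0, norm_zero]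
      exact hs0
  have hGsub : GU A U s ⊆ {z | z ∈ U ∧ ‖A z‖ < s} := connectedComponentIn_subset _ _
  have hGo : IsOpen (GU A U s) := hSo.connectedComponentIn
  have hGc : IsConnected (GU A U s) := isConnected_connectedComponentIn_iff.2 h0S
  have hGp : IsPathConnected (GU A U s) := hGo.isConnected_iff_isPathConnected.1 hGc
  obtain ⟨q, hqG, w₀, hw₀, hq⟩ := hG
  have h0G : (0 : ℂ) ∈ GU A U s := mem_connectedComponentIn h0S
  obtain ⟨γ, hγ⟩ := hGp.joinedIn 0 h0G q hqG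
  obtain ⟨f, hf⟩ : ∃ f : ℝ → ℂ, f = γ.extend := ⟨_, rfl⟩
  have hfc : Continuous f := by
    rw [hf]
    exact γ.continuous_extend
  have hf0 : f 0 = 0 := by rw [hf, γ.extend_zero]
  have hf1 : f 1 = q := by rw [hf, γ.extend_one]
  have hfG : ∀ x, f x ∈ GU A U s := by
    intro x
    have h1 : f x ∈ range γ := by
      rw [hf, ← γ.extend_range]
      exact mem_range_self x
    obtain ⟨y, hy⟩ := h1
    rw [← hy]
    exact hγ y
  -- the path up to a time before the first meeting with the cut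
  have key : ∀ τ : ℝ, 0 ≤ τ → (∀ x ∈ Icc 0 τ, f x ∉ Γ) →
      f τ ∉ W₁ ∧ JoinedIn {q | q ∈ U ∧ ‖A q‖ < s ∧ q ∉ W₁} 0 (f τ) := by
    intro τ hτ hno
    have hcon : IsPathConnected (f '' Icc 0 τ) :=
      ((convex_Icc (0 : ℝ) τ).isPathConnected ⟨0, le_rfl, hτ⟩).image hfc
    have hsub : f '' Icc 0 τ ⊆ U \ Γ := by
      rintro _ ⟨x, hx, rfl⟩
      exact ⟨(hGsub (hfG x)).1, hno x hx⟩
    have h0m : (0 : ℂ) ∈ f '' Icc 0 τ := ⟨0, ⟨le_rfl, hτ⟩, hf0⟩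
    have hdis : ∀ p ∈ f '' Icc 0 τ, p ∉ W₁ := by
      intro p hp hpW
      exact h0 (hw.comp₁ _ hcon.isConnected.isPreconnected hsub ⟨p, hp, hpW⟩ h0m)
    have hτm : f τ ∈ f '' Icc 0 τ := ⟨τ, ⟨hτ, le_rfl⟩, rfl⟩
    refine ⟨hdis _ hτm, (hcon.joinedIn 0 h0m _ hτm).mono ?_⟩
    intro p hp
    obtain ⟨x, hx, rfl⟩ := hp
    exact ⟨(hGsub (hfG x)).1, (hGsub (hfG x)).2, hdis _ ⟨x, hx, rfl⟩⟩
  have hVT : Vseg t φ ⊆ thickening r (Vseg t φ) := self_subset_thickening hv.good.hr _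
  by_cases hmeet : ∃ x ∈ Icc (0 : ℝ) 1, f x ∈ Γ
  · -- the first meeting
    have hTc : IsClosed {x : ℝ | f x ∈ Γ} := by
      rw [← closure_subset_iff_isClosed]
      intro x hx
      refine hw.Γcl _ (hGsub (hfG x)).1 ?_
      exact map_mem_closure hfc hx fun y hy => hy
    have hTk : IsCompact (Icc (0 : ℝ) 1 ∩ {x : ℝ | f x ∈ Γ}) := isCompact_Icc.inter_right hTc
    obtain ⟨x₀, ⟨hx₀, hx₀Γ⟩, hmin⟩ := hTk.exists_isLeast hmeet
    have hz₁ := hGsub (hfG x₀)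
    have hx₀0 : 0 < x₀ := by
      refine lt_of_le_of_ne hx₀.1 fun h => ?_
      have h1 : f x₀ ∈ Γ := hx₀Γ
      rw [← h, hf0] at h1
      obtain ⟨y, hy, hy'⟩ := hw.Γray _ h1
      rw [ha.A0] at hy'
      have h2 : (y : ℂ) ≠ 0 := by
        exact_mod_cast ((norm_nonneg e).trans_lt hy).ne'
      exact mul_ne_zero h2 (Complex.exp_ne_zero _) hy'.symm
    obtain ⟨h3, h4⟩ := hw.Γψ _ hx₀Γ (hz₁.2.trans hs.2)
    have h5 := near_YPathA hA hA' isOpen_thickening hVT hv.good.branch (hUb hz₁.1) h3 h4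
    have h6 : ∀ᶠ x in 𝓝[<] x₀, A (f x) ∈ Vseg t φ ∧ ψ (A (f x)) = f x :=
      (hfc.continuousAt.eventually h5).filter_mono nhdsWithin_le_nhds
    have h7 : ∀ᶠ x in 𝓝[<] x₀, x ∈ Ioo 0 x₀ := Ioo_mem_nhdsLT hx₀0
    obtain ⟨τ, ⟨h8, h9⟩, h10⟩ := (h6.and h7).exists
    obtain ⟨h11, h12⟩ := key τ h10.1.le fun x hx hxΓ => by
      have h13 := hmin ⟨⟨hx.1, hx.2.trans (h10.2.le.trans hx₀.2)⟩, hxΓ⟩
      have h14 := h10.2
      have h15 := hx.2
      linarith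
    have h16 : f τ ∉ Γ := by
      intro h
      have h13 := hmin ⟨⟨h10.1.le, h10.2.le.trans hx₀.2⟩, h⟩
      have h14 := h10.2
      linarith
    refine ⟨A (f τ), h8, ?_, (hGsub (hfG τ)).2, ?_⟩
    · exact side_YPathA ht hv.hφ hv.hφ' hv.tip_re hw h8 (by rwa [h9]) (by rwa [h9])
    · rw [h9]
      exact h12
  · push Not at hmeet
    obtain ⟨h1, h2⟩ := key 1 zero_le_one hmeet
    have h3 := hmeet 1 ⟨zero_le_one, le_rfl⟩
    rw [hf1, ← hq] at h1 h2 h3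
    have h4 : A (ψ w₀) = w₀ := hv.good.branch.eq _ (hVT hw₀)
    have h5 : ‖A (ψ w₀)‖ < s := by
      rw [hq]
      exact (hGsub hqG).2
    rw [h4] at h5
    exact ⟨w₀, hw₀, side_YPathA ht hv.hφ hv.hφ' hv.tip_re hw hw₀ h1 h3, h5, h2⟩

end Pool.Agent.HQT
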